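import Pool.Agent.W_MP_6acff7_h70.Basic

/-!
# Near-orthogonality of vectors fixed by pointwise stabilisers (key lemma)

Write `A_B` for the pointwise stabiliser of `B` in `A n` (`FixedBy ρ B u` says `u` is `A_B`-fixed).

PROOF of `near_orth`, induction on `i`, for all `B'`, `f'`.
`i = 0`: Cauchy-Schwarz (`abs_real_inner_le_norm`).
`i ≥ 1`: choose `q ∈ B' \ B`, `B'' = B'.erase q`.  For `q' ∉ B''` choose `h_{q'} : A n` fixing `B''`
pointwise with `h_{q'} q = q'` (`exists_move`: identity if `q' = q`, otherwise the 3-cycle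
`q → q' → r → q` with a third point `r ∉ B'' ∪ {q, q'}`), and put `f'_{q'} = ρ h_{q'} f'`.
(1) if `h, h'` both fix `B''` pointwise and map `q` to the same point, then `h⁻¹ h'` fixes `B'`
    pointwise, so `ρ h f' = ρ h' f'`; so `f'_{q'}` does not depend on the choice.
(2) `Σ = ∑_{q' ∉ B''} f'_{q'} ∈ W` is fixed by `A_{B''}` (for `k` in it, `ρ k f'_{q'} = f'_{k q'}` by
    (1), reindex the sum by the permutation `k`), so `Σ = 0` by `hlev`.
(3) for `q' ∉ B ∪ B''`: `⟪f, f'_{q'}⟫ = ⟪f, f'⟫`: choose by `exists_move` some `h` fixing `B ∪ B''`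
    pointwise with `h q = q'`; by (1) `f'_{q'} = ρ h f'` and
    `⟪f, ρ h f'⟫ = ⟪ρ h⁻¹ f, f'⟫ = ⟪f, f'⟫`.
(4) `0 = ⟪f, Σ⟫ = (n - |B ∪ B''|) ⟪f, f'⟫ + ∑_{q' ∈ B \ B''} ⟪f, f'_{q'}⟫`, where
    `|B ∪ B''| = b + i - 1`, `|B \ B''| = i`, and for `q' ∈ B \ B''` the vector `f'_{q'}` is fixed by
    `A_{insert q' B''}` with `|insert q' B'' \ B| = i - 1`, so the induction hypothesis gives
    `|⟪f, f'_{q'}⟫| ≤ (b/(n-2b))^(i-1) ‖f‖ ‖f'‖` (`‖f'_{q'}‖ = ‖f'‖`).
    So `|⟪f, f'⟫| ≤ i/(n-b-i+1) (b/(n-2b))^(i-1) ‖f‖‖f'‖` and `i/(n-b-i+1) ≤ b/(n-2b)` as `i ≤ b`.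
-/

open Finset

namespace Pool.Agent.RCG

/-- The pointwise stabiliser of `C` is transitive on the complement of `C`
if the complement has at least three points. -/
theorem exists_move {n : ℕ} (C : Finset (Fin n)) (hC : C.card + 3 ≤ n) (q q' : Fin n)
    (hq : q ∉ C) (hq' : q' ∉ C) : ∃ h : A n, (∀ p ∈ C, h.1 p = p) ∧ h.1 q = q' := by
  classical
  by_cases hqq : q = q'
  · exact ⟨1, fun p _ => by simp, by simp [hqq]⟩
  · have hcard : (insert q (insert q' C)).card < n := by
      have h1 := Finset.card_insert_le q (insert q' C)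
      have h2 := Finset.card_insert_le q' C
      omega
    obtain ⟨r, hr⟩ : ∃ r : Fin n, r ∉ insert q (insert q' C) := by
      by_contra hcon
      push Not at hcon
      have h3 : (Finset.univ : Finset (Fin n)) ⊆ insert q (insert q' C) := fun x _ => hcon x
      have h4 := Finset.card_le_card h3
      rw [Finset.card_univ, Fintype.card_fin] at h4
      omega
    simp only [Finset.mem_insert, not_or] at hr
    obtain ⟨hr1, hr2, hr3⟩ := hr
    refine ⟨⟨Equiv.swap q r * Equiv.swap q q', ?_⟩, ?_, ?_⟩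
    · rw [Equiv.Perm.mem_alternatingGroup, Equiv.Perm.sign_mul,
        Equiv.Perm.sign_swap (Ne.symm hr1), Equiv.Perm.sign_swap hqq]
      simp
    · intro p hp
      have hpq : p ≠ q := fun h => hq (h ▸ hp)
      have hpq' : p ≠ q' := fun h => hq' (h ▸ hp)
      have hpr : p ≠ r := fun h => hr3 (h ▸ hp)
      show (Equiv.swap q r) ((Equiv.swap q q') p) = p
      rw [Equiv.swap_apply_of_ne_of_ne hpq hpq', Equiv.swap_apply_of_ne_of_ne hpq hpr]
    · show (Equiv.swap q r) ((Equiv.swap q q') q) = q'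
      rw [Equiv.swap_apply_left, Equiv.swap_apply_of_ne_of_ne (Ne.symm hqq) (Ne.symm hr2)]

theorem near_orth {n : ℕ} {E : Type*} [NormedAddCommGroup E] [InnerProductSpace ℝ E]
    {ρ : A n →* Module.End ℝ E} (hρ : Orth ρ) (W : Submodule ℝ E)
    (hW : ∀ g : A n, ∀ u ∈ W, ρ g u ∈ W) {b : ℕ} (hn : 2 * b + 3 ≤ n)
    (hlev : ∀ B : Finset (Fin n), B.card + 1 = b → ∀ u ∈ W, FixedBy ρ B u → u = 0)
    (i : ℕ) (B B' : Finset (Fin n)) (hB : B.card = b) (hB' : B'.card = b)
    (hi : (B' \ B).card = i) (f f' : E) (hf : FixedBy ρ B f) (hf' : FixedBy ρ B' f')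
    (hf'W : f' ∈ W) :
    |inner ℝ f f'| ≤ ((b : ℝ) / ((n : ℝ) - 2 * b)) ^ i * (‖f‖ * ‖f'‖) := by
  classical
  induction i generalizing B' f' with
  | zero => simpa using abs_real_inner_le_norm f f'
  | succ i ih =>
    -- the point `q`
    obtain ⟨q, hq⟩ : (B' \ B).Nonempty := by
      rw [← Finset.card_pos, hi]; omega
    rw [Finset.mem_sdiff] at hq
    obtain ⟨hqB', hqB⟩ := hq
    set B'' : Finset (Fin n) := B'.erase q with hB''
    have hcB'' : B''.card + 1 = b := by
      rw [hB'', Finset.card_erase_of_mem hqB', hB']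
      have : 0 < B'.card := Finset.card_pos.2 ⟨q, hqB'⟩
      omega
    have hqB'' : q ∉ B'' := by simp [hB'']
    have hsd : B'' \ B = (B' \ B).erase q := by
      ext x
      simp only [hB'', Finset.mem_sdiff, Finset.mem_erase]
      tauto
    have hcsd : (B'' \ B).card = i := by
      rw [hsd, Finset.card_erase_of_mem (Finset.mem_sdiff.2 ⟨hqB', hqB⟩), hi]
      omega
    have hcun : (B ∪ B'').card = b + i := by
      have h1 : B ∪ B'' = B ∪ (B'' \ B) := by
        rw [Finset.union_sdiff_self_eq_union]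
      rw [h1, Finset.card_union_of_disjoint Finset.disjoint_sdiff, hB, hcsd]
    have hib : i + 1 ≤ b := by
      have h1 : (B' \ B).card ≤ B'.card := Finset.card_le_card Finset.sdiff_subset
      omega
    have hcds : (B \ B'').card = i + 1 := by
      have h1 : (B \ B'').card + B''.card = (B ∪ B'').card := by
        rw [← Finset.card_union_of_disjoint Finset.sdiff_disjoint,
          Finset.sdiff_union_self_eq_union]
      omega
    -- the moves
    have hmv : ∀ q' : Fin n, ∃ h : A n, q' ∉ B'' → (∀ p ∈ B'', h.1 p = p) ∧ h.1 q = q' := by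
      intro q'
      by_cases hq' : q' ∈ B''
      · exact ⟨1, fun h => absurd hq' h⟩
      · obtain ⟨h, hh⟩ := exists_move B'' (by omega) q q' hqB'' hq'
        exact ⟨h, fun _ => hh⟩
    choose H hH using hmv
    have key : ∀ (h h' : A n), (∀ p ∈ B'', h.1 p = p) → (∀ p ∈ B'', h'.1 p = p) →
        h.1 q = h'.1 q → ρ h f' = ρ h' f' := by
      intro h h' h1 h2 h3
      have h4 : ρ (h⁻¹ * h') f' = f' := by
        apply hf'
        intro p hp
        have h5 : (h⁻¹ * h').1 p = h.1⁻¹ (h'.1 p) := rfl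
        rw [h5, Equiv.Perm.inv_eq_iff_eq]
        by_cases hpq : p = q
        · rw [hpq, h3]
        · have hp'' : p ∈ B'' := Finset.mem_erase.2 ⟨hpq, hp⟩
          rw [h1 p hp'', h2 p hp'']
      have h6 : ρ h (ρ (h⁻¹ * h') f') = ρ h' f' := by
        rw [← Module.End.mul_apply, ← map_mul]
        simp
      rw [h4] at h6
      exact h6
    have hkv : ∀ (k : A n), (∀ p ∈ B'', k.1 p = p) → ∀ q' ∉ B'',
        k.1 q' ∉ B'' ∧ ρ k (ρ (H q') f') = ρ (H (k.1 q')) f' := by
      intro k hk q' hq'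
      have h1 : k.1 q' ∉ B'' := by
        intro hcon
        have h2 := hk _ hcon
        have h3 : k.1 q' = q' := k.1.injective h2
        rw [h3] at hcon
        exact hq' hcon
      refine ⟨h1, ?_⟩
      rw [← Module.End.mul_apply, ← map_mul]
      apply key
      · intro p hp
        show k.1 ((H q').1 p) = p
        rw [(hH q' hq').1 p hp, hk p hp]
      · exact (hH _ h1).1
      · show k.1 ((H q').1 q) = (H (k.1 q')).1 q
        rw [(hH q' hq').2, (hH _ h1).2]
    -- the sum vanishes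
    have hsum : ∑ q' ∈ B''ᶜ, ρ (H q') f' = 0 := by
      apply hlev B'' hcB''
      · exact Submodule.sum_mem _ fun q' _ => hW _ _ hf'W
      · intro k hk
        rw [map_sum]
        refine Finset.sum_equiv k.1 ?_ ?_
        · intro x
          rw [Finset.mem_compl, Finset.mem_compl]
          constructor
          · intro hx
            exact (hkv k hk x hx).1
          · intro hx hcon
            apply hx
            rw [hk x hcon]
            exact hcon
        · intro x hx
          exact (hkv k hk x (Finset.mem_compl.1 hx)).2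
    -- the generic terms
    have hgen : ∀ q' ∈ (B ∪ B'')ᶜ, inner ℝ f (ρ (H q') f') = inner ℝ f f' := by
      intro q' hq'
      rw [Finset.mem_compl] at hq'
      have hq'' : q' ∉ B'' := fun h => hq' (Finset.mem_union_right _ h)
      obtain ⟨h, hh1, hh2⟩ := exists_move (B ∪ B'') (by omega) q q'
        (by rw [Finset.mem_union]; tauto) hq'
      have h1 : ρ (H q') f' = ρ h f' := by
        apply key
        · exact (hH q' hq'').1
        · intro p hp
          exact hh1 p (Finset.mem_union_right _ hp)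
        · rw [(hH q' hq'').2, hh2]
      have h2 : ρ h f = f := hf h fun p hp => hh1 p (Finset.mem_union_left _ hp)
      rw [h1]
      conv_lhs => rw [← h2]
      exact hρ h f f'
    -- the remaining terms
    have hrem : ∀ q' ∈ B \ B'', |inner ℝ f (ρ (H q') f')| ≤
        ((b : ℝ) / ((n : ℝ) - 2 * b)) ^ i * (‖f‖ * ‖f'‖) := by
      intro q' hq'
      rw [Finset.mem_sdiff] at hq'
      have h1 := ih (insert q' B'') (by rw [Finset.card_insert_of_notMem hq'.2, hcB''])
        (by rw [Finset.insert_sdiff_of_mem _ hq'.1, hcsd]) (ρ (H q') f') ?_ (hW _ _ hf'W)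
      · rwa [hρ.norm_map] at h1
      · intro k hk
        have h2 := (hkv k (fun p hp => hk p (Finset.mem_insert_of_mem hp)) q' hq'.2).2
        rw [hk q' (Finset.mem_insert_self _ _)] at h2
        exact h2
    -- splitting
    have hsplit : (B''ᶜ : Finset (Fin n)) = (B ∪ B'')ᶜ ∪ (B \ B'') := by
      ext x
      simp only [Finset.mem_compl, Finset.mem_union, Finset.mem_sdiff]
      tauto
    have hdisj : Disjoint (B ∪ B'')ᶜ (B \ B'') := by
      rw [Finset.disjoint_left]
      intro x hx hx'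
      rw [Finset.mem_compl, Finset.mem_union] at hx
      rw [Finset.mem_sdiff] at hx'
      tauto
    have hzero : (((B ∪ B'')ᶜ.card : ℕ) : ℝ) * inner ℝ f f' +
        ∑ q' ∈ B \ B'', inner ℝ f (ρ (H q') f') = 0 := by
      have h1 : inner ℝ f (∑ q' ∈ B''ᶜ, ρ (H q') f') = (0 : ℝ) := by
        rw [hsum, inner_zero_right]
      rw [inner_sum, hsplit, Finset.sum_union hdisj, Finset.sum_congr rfl hgen,
        Finset.sum_const, nsmul_eq_mul] at h1
      exact h1
    have hccard : ((B ∪ B'')ᶜ.card : ℕ) = n - (b + i) := by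
      rw [Finset.card_compl, Fintype.card_fin, hcun]
    have hccard' : (((B ∪ B'')ᶜ.card : ℕ) : ℝ) = (n : ℝ) - b - i := by
      rw [hccard, Nat.cast_sub (by omega)]
      push_cast
      ring
    set t : ℝ := (b : ℝ) / ((n : ℝ) - 2 * b) with ht
    set M : ℝ := t ^ i * (‖f‖ * ‖f'‖) with hM
    have hnb : (0 : ℝ) < (n : ℝ) - 2 * b := by
      have : ((2 * b + 3 : ℕ) : ℝ) ≤ n := by exact_mod_cast hn
      push_cast at this
      linarith
    have hib' : (i : ℝ) + 1 ≤ b := by exact_mod_cast hib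
    have ht0 : 0 ≤ t := div_nonneg (Nat.cast_nonneg _) hnb.le
    have hM0 : 0 ≤ M := mul_nonneg (pow_nonneg ht0 _) (mul_nonneg (norm_nonneg _) (norm_nonneg _))
    have hmain : ((n : ℝ) - b - i) * |inner ℝ f f'| ≤ ((i : ℝ) + 1) * M := by
      have h1 : ((n : ℝ) - b - i) * inner ℝ f f' =
          -∑ q' ∈ B \ B'', inner ℝ f (ρ (H q') f') := by
        rw [hccard'] at hzero
        linarith
      have h2 : 0 ≤ (n : ℝ) - b - i := by linarith
      rw [← abs_of_nonneg h2, ← abs_mul, h1, abs_neg]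
      refine (Finset.abs_sum_le_sum_abs _ _).trans ?_
      refine (Finset.sum_le_sum hrem).trans ?_
      rw [Finset.sum_const, nsmul_eq_mul, hcds]
      push_cast
      exact le_refl _
    have hfin : ((n : ℝ) - 2 * b) * |inner ℝ f f'| ≤ (b : ℝ) * M := by
      have h0 : 0 ≤ |(inner ℝ f f' : ℝ)| := abs_nonneg _
      have h1 : ((n : ℝ) - 2 * b) * |inner ℝ f f'| ≤ ((n : ℝ) - b - i) * |inner ℝ f f'| := by
        apply mul_le_mul_of_nonneg_right _ h0
        linarith
      have h2 : ((i : ℝ) + 1) * M ≤ b * M := mul_le_mul_of_nonneg_right hib' hM0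
      linarith
    have hres : |inner ℝ f f'| ≤ (b : ℝ) * M / ((n : ℝ) - 2 * b) := by
      rw [le_div_iff₀ hnb]
      linarith
    refine hres.trans (le_of_eq ?_)
    rw [hM, ht, pow_succ]
    ring

end Pool.Agent.RCG
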