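import Pool.Agent.W_MP_6acff7_h70.Defs

/-!
# Size of the centraliser

PROOF.  Let `O ⊆ Fin n` contain all points `p` with `g^r p = p` for some `1 ≤ r ≤ R`, and one point of every
other cycle (orbit of `Subgroup.zpowers g`) of `g`; the other orbits have more than `R` points, so there are at
most `n / R` of them and `|O| ≤ #short + n / R`.  An element `u` commuting with `g` is determined by its
restriction to `O`: every `p` is `g^i r` with `r ∈ O`, and `u p = g^i (u r)`.  So there are at most
`n ^ |O|` of them (if `n = 0` the group is trivial; if `n ≥ 1` use monotonicity of `n ^ ·`).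
-/

open Finset

namespace Pool.Agent.RCG

/-- A set of points meeting every long cycle, with at most `n / R` additional points. -/
theorem Cent_exists_set {n : ℕ} (σ : Equiv.Perm (Fin n)) (R : ℕ) (hR : 1 ≤ R) :
    ∃ O : Finset (Fin n), O.card ≤ (shortPts σ R).card + n / R ∧
      ∀ p : Fin n, ∃ r ∈ O, σ.SameCycle r p := by
  classical
  obtain ⟨out, hout⟩ : ∃ out : Fin n → Fin n, out = fun p =>
    (Quotient.out (Quotient.mk (Equiv.Perm.SameCycle.setoid σ) p) : Fin n) := ⟨_, rfl⟩
  have h1 : ∀ p, σ.SameCycle (out p) p := by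
    intro p
    rw [hout]
    exact Quotient.exact (Quotient.out_eq (Quotient.mk (Equiv.Perm.SameCycle.setoid σ) p))
  have h2 : ∀ p q, σ.SameCycle p q → out p = out q := by
    intro p q hpq
    rw [hout]
    show Quotient.out _ = Quotient.out _
    congr 1
    exact Quotient.sound hpq
  obtain ⟨L, hL⟩ : ∃ L : Finset (Fin n), L = (univ \ shortPts σ R).image out := ⟨_, rfl⟩
  have hshort : ∀ p q, σ.SameCycle p q → p ∈ shortPts σ R → q ∈ shortPts σ R := by
    intro p q hpq hp
    unfold shortPts at hp ⊢
    rw [Finset.mem_filter] at hp ⊢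
    obtain ⟨-, r, hr1, hrR, hr⟩ := hp
    obtain ⟨i, hi⟩ := hpq
    refine ⟨Finset.mem_univ _, r, hr1, hrR, ?_⟩
    rw [← hi]
    have : (σ ^ r) ((σ ^ i) p) = (σ ^ i) ((σ ^ r) p) := by
      rw [← Equiv.Perm.mul_apply, ← Equiv.Perm.mul_apply]
      congr 1
      exact ((Commute.refl σ).pow_left r).zpow_right i
    rw [this, hr]
  have hLlong : ∀ r ∈ L, r ∉ shortPts σ R ∧ out r = r := by
    intro r hr
    rw [hL, Finset.mem_image] at hr
    obtain ⟨p, hp, rfl⟩ := hr
    rw [Finset.mem_sdiff] at hp
    refine ⟨fun h => hp.2 (hshort _ _ (h1 p) h), h2 _ _ (h1 p)⟩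
  have hLcard : L.card * R ≤ n := by
    have hinj : Function.Injective (fun x : L × Fin R => (σ ^ (x.2 : ℕ)) x.1.1) := by
      rintro ⟨⟨r, hr⟩, i⟩ ⟨⟨r', hr'⟩, j⟩ hij
      simp only at hij
      have hrr : r = r' := by
        have h3 : σ.SameCycle r r' := by
          have h4 : σ.SameCycle r ((σ ^ (i : ℕ)) r) := ⟨(i : ℕ), by rw [zpow_natCast]⟩
          have h5 : σ.SameCycle r' ((σ ^ (j : ℕ)) r') := ⟨(j : ℕ), by rw [zpow_natCast]⟩
          rw [hij] at h4
          exact h4.trans h5.symm
        rw [← (hLlong r hr).2, ← (hLlong r' hr').2]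
        exact h2 _ _ h3
      subst hrr
      have hkey : ∀ a b : ℕ, a < b → b < R → (σ ^ a) r = (σ ^ b) r → False := by
        intro a b hab hb h
        apply (hLlong r hr).1
        unfold shortPts
        rw [Finset.mem_filter]
        refine ⟨Finset.mem_univ _, b - a, by omega, by omega, ?_⟩
        have h6 : (σ ^ a) ((σ ^ (b - a)) r) = (σ ^ a) r := by
          rw [← Equiv.Perm.mul_apply, ← pow_add, Nat.add_sub_cancel' hab.le, h]
        exact (σ ^ a).injective h6
      have hij2 : i = j := by
        rcases lt_trichotomy (i : ℕ) (j : ℕ) with h | h | h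
        · exact (hkey _ _ h j.2 hij).elim
        · exact Fin.ext h
        · exact (hkey _ _ h i.2 hij.symm).elim
      subst hij2
      rfl
    have h3 := Fintype.card_le_of_injective _ hinj
    rw [Fintype.card_prod, Fintype.card_coe, Fintype.card_fin, Fintype.card_fin] at h3
    exact h3
  refine ⟨shortPts σ R ∪ L, ?_, ?_⟩
  · refine (Finset.card_union_le _ _).trans (Nat.add_le_add_left ?_ _)
    exact (Nat.le_div_iff_mul_le (by omega)).2 hLcard
  · intro p
    by_cases hp : p ∈ shortPts σ R
    · exact ⟨p, Finset.mem_union_left _ hp, Equiv.Perm.SameCycle.refl _ _⟩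
    · refine ⟨out p, Finset.mem_union_right _ ?_, h1 p⟩
      rw [hL, Finset.mem_image]
      exact ⟨p, Finset.mem_sdiff.2 ⟨Finset.mem_univ _, hp⟩, rfl⟩

theorem card_centralizer_le {n : ℕ} (g : A n) (R : ℕ) (hR : 1 ≤ R) :
    Nat.card (Subgroup.centralizer ({g} : Set (A n))) ≤
      n ^ ((shortPts g.1 R).card + n / R) := by
  classical
  obtain ⟨O, hO, hcov⟩ := Cent_exists_set g.1 R hR
  have hinj : Function.Injective
      (fun (u : Subgroup.centralizer ({g} : Set (A n))) (o : O) => u.1.1 o.1) := by
    intro u v huv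
    have hcomm : ∀ w : Subgroup.centralizer ({g} : Set (A n)), Commute w.1.1 g.1 := by
      intro w
      have h := w.2
      rw [Subgroup.mem_centralizer_singleton_iff] at h
      have h' := congrArg Subtype.val h
      exact h'
    apply Subtype.ext
    apply Subtype.ext
    ext p
    obtain ⟨r, hr, i, hi⟩ := hcov p
    have h1 : ∀ w : Subgroup.centralizer ({g} : Set (A n)), w.1.1 p = (g.1 ^ i) (w.1.1 r) := by
      intro w
      rw [← hi, ← Equiv.Perm.mul_apply, ← Equiv.Perm.mul_apply]
      congr 1
      exact (hcomm w).zpow_right i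
    have h2 : u.1.1 r = v.1.1 r := congrFun huv ⟨r, hr⟩
    rw [h1 u, h1 v, h2]
  have hcard := Nat.card_le_card_of_injective _ hinj
  have hO' : Nat.card O = O.card := by
    rw [Nat.card_eq_fintype_card, Fintype.card_coe]
  rw [Nat.card_fun, Nat.card_fin, hO'] at hcard
  rcases Nat.eq_zero_or_pos n with hn | hn
  · subst hn
    have h0 : (shortPts g.1 R).card + 0 / R = 0 := by
      have : (shortPts g.1 R) = ∅ := by
        ext p
        exact p.elim0
      rw [this]
      simp
    have hO0 : O.card = 0 := by omega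
    rw [h0]
    rw [hO0] at hcard
    exact hcard
  · exact hcard.trans (Nat.pow_le_pow_right hn hO)

end Pool.Agent.RCG
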