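import Pool.Agent.W_MP_6acff7_h70.Reveal

/-!
# One level of the recursion for `beta`

PROOF.  `β = beta φ w ≤ β0`.  For a pair of index functions `i, i' : Fin (N+1) → ι` call `k` bad if
`φ n < fixN ((w (i k))⁻¹ w (i' k))`.  The proportion of pairs `(i, i')` with at least `N - 3` bad indices is at most
`(N+1).choose (N-3) β^(N-3) ≤ 2^(N+1) β0^(N-3)` (union over the sets of `N-3` indices; for a fixed set the
proportion is exactly `β^(N-3)`).  For these pairs bound the indicator by 1.  For the other pairs there are at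
least 5 good indices (`N + 1 - (N - 4) = 5`), and by Markov and `reveal` (`γ = 5`) the number of `y` with
`φ n < fixN (w⁻¹ w')` is at most `φ^(-M) ∑_y (fixN/n)^M ≤ (θ/φ)^M |A n|`.
-/

open Finset

namespace Pool.Agent.RCG

open Classical in
/-- The number of pairs of index functions which are bad on all of `K`. -/
private theorem betaStep_card_bad {ι : Type*} [Fintype ι] {N : ℕ} (Bad : Finset (ι × ι))
    (K : Finset (Fin (N + 1))) :
    (univ.filter fun q : (Fin (N + 1) → ι) × (Fin (N + 1) → ι) =>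
      ∀ k ∈ K, (q.1 k, q.2 k) ∈ Bad).card =
      Bad.card ^ K.card * (Fintype.card ι * Fintype.card ι) ^ (N + 1 - K.card) := by
  have h1 : (univ.filter fun q : (Fin (N + 1) → ι) × (Fin (N + 1) → ι) =>
      ∀ k ∈ K, (q.1 k, q.2 k) ∈ Bad).card =
      (Fintype.piFinset fun k : Fin (N + 1) =>
        if k ∈ K then Bad else (univ : Finset (ι × ι))).card := by
    refine Finset.card_bij' (fun q _ k => (q.1 k, q.2 k))
      (fun r _ => (fun k => (r k).1, fun k => (r k).2)) ?_ ?_ ?_ ?_
    · intro q hq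
      rw [Finset.mem_filter] at hq
      rw [Fintype.mem_piFinset]
      intro k
      by_cases hk : k ∈ K
      · rw [if_pos hk]; exact hq.2 k hk
      · rw [if_neg hk]; exact Finset.mem_univ _
    · intro r hr
      rw [Fintype.mem_piFinset] at hr
      rw [Finset.mem_filter]
      refine ⟨Finset.mem_univ _, fun k hk => ?_⟩
      have := hr k
      rw [if_pos hk] at this
      exact this
    · intro q _; rfl
    · intro r _; rfl
  rw [h1, Fintype.card_piFinset]
  have h2 : ∀ k : Fin (N + 1), (if k ∈ K then Bad else (univ : Finset (ι × ι))).card =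
      if k ∈ K then Bad.card else Fintype.card ι * Fintype.card ι := by
    intro k
    by_cases hk : k ∈ K
    · rw [if_pos hk, if_pos hk]
    · rw [if_neg hk, if_neg hk, Finset.card_univ, Fintype.card_prod]
  rw [Finset.prod_congr rfl fun k _ => h2 k, Finset.prod_ite, Finset.prod_const,
    Finset.prod_const]
  congr 2
  · congr 1
    ext k; simp
  · have h3 : (univ.filter fun k : Fin (N + 1) => k ∉ K) = Kᶜ := by
      ext k; simp
    rw [h3, Finset.card_compl, Fintype.card_fin]

open Classical in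
/-- Double counting. -/
private theorem betaStep_swap {α β : Type*} [Fintype α] [Fintype β] (P : α → β → Prop) :
    ∑ b : β, ((univ.filter fun a : α => P a b).card : ℝ) =
      ∑ a : α, ((univ.filter fun b : β => P a b).card : ℝ) := by
  have h1 : ∀ b : β, ((univ.filter fun a : α => P a b).card : ℝ) =
      ∑ a : α, if P a b then (1 : ℝ) else 0 := by
    intro b
    rw [Finset.card_filter]
    push_cast
    rfl
  have h2 : ∀ a : α, ((univ.filter fun b : β => P a b).card : ℝ) =
      ∑ b : β, if P a b then (1 : ℝ) else 0 := by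
    intro a
    rw [Finset.card_filter]
    push_cast
    rfl
  rw [Finset.sum_congr rfl fun b _ => h1 b, Finset.sum_congr rfl fun a _ => h2 a,
    Finset.sum_comm]

theorem beta_step {n N M : ℕ} {ι : Type*} [Fintype ι] [Nonempty ι] (w : ι → A n)
    (φ β0 : ℝ) (hφ0 : 0 < φ) (hφ1 : 2 * φ ≤ 1) (hβ : beta φ w ≤ β0) (hN : 4 ≤ N)
    (hNM : 4 * N * M + 4 ≤ n) :
    ∑ y : A n, beta φ (fun i : Fin (N + 1) → ι => wd (fun k => w (i k)) y) ≤
      (2 ^ (N + 1) * β0 ^ (N - 3) +
        (((2 * φ) ^ 5 + (N + 1) * ((8 * N * M + 10) / n)) / φ) ^ M) *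
        Fintype.card (A n) := by
  classical
  set θ : ℝ := (2 * φ) ^ 5 + (N + 1) * ((8 * N * M + 10) / n) with hθ
  set c : ℕ := Fintype.card ι with hc
  have hc0 : 0 < c := Fintype.card_pos
  have hc0' : (0 : ℝ) < c := by exact_mod_cast hc0
  have hn0 : (0 : ℝ) < n := by
    have : 0 < n := by omega
    exact_mod_cast this
  have hθ0 : 0 ≤ θ := by
    rw [hθ]
    positivity
  set Bad : Finset (ι × ι) :=
    univ.filter fun q : ι × ι => φ * n < (fixN ((w q.1)⁻¹ * w q.2).1 : ℝ) with hBad
  have hbeta : beta φ w = (Bad.card : ℝ) / (c : ℝ) ^ 2 := by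
    rw [beta, hBad]
  set I : Type _ := Fin (N + 1) → ι with hI
  have hcI : Fintype.card I = c ^ (N + 1) := by
    show Fintype.card (Fin (N + 1) → ι) = c ^ (N + 1)
    rw [Fintype.card_fun, Fintype.card_fin]
  set S : Finset (I × I) := univ.filter fun q : I × I =>
    N - 3 ≤ (univ.filter fun k : Fin (N + 1) => (q.1 k, q.2 k) ∈ Bad).card with hS
  set P : I × I → A n → Prop := fun q y =>
    φ * n < (fixN ((wd (fun k => w (q.1 k)) y)⁻¹ * wd (fun k => w (q.2 k)) y).1 : ℝ) with hP
  set T : ℝ := (θ / φ) ^ M * Fintype.card (A n) with hT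
  have hT0 : 0 ≤ T := by positivity
  -- the pairs with at least five good indices
  have hgood : ∀ q : I × I, q ∉ S → ((univ.filter fun y => P q y).card : ℝ) ≤ T := by
    intro q hq
    have hq' : (univ.filter fun k : Fin (N + 1) => (q.1 k, q.2 k) ∈ Bad).card < N - 3 := by
      by_contra hcon
      apply hq
      rw [hS, Finset.mem_filter]
      exact ⟨Finset.mem_univ _, by omega⟩
    have hgc : 5 ≤ (univ.filter fun k : Fin (N + 1) =>
        (fixN (((fun k => w (q.1 k)) k)⁻¹ * (fun k => w (q.2 k)) k).1 : ℝ) ≤ φ * n).card := by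
      have h1 : (univ.filter fun k : Fin (N + 1) => (q.1 k, q.2 k) ∈ Bad).card +
          (univ.filter fun k : Fin (N + 1) => ¬ (q.1 k, q.2 k) ∈ Bad).card = N + 1 := by
        rw [Finset.card_filter_add_card_filter_not, Finset.card_univ, Fintype.card_fin]
      have h2 : (univ.filter fun k : Fin (N + 1) => ¬ (q.1 k, q.2 k) ∈ Bad) =
          (univ.filter fun k : Fin (N + 1) =>
            (fixN (((fun k => w (q.1 k)) k)⁻¹ * (fun k => w (q.2 k)) k).1 : ℝ) ≤ φ * n) := by
        ext k
        simp only [hBad, Finset.mem_filter, Finset.mem_univ, true_and, not_lt]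
      rw [h2] at h1
      omega
    have hrev := reveal (M := M) (γ := 5) (fun k => w (q.1 k)) (fun k => w (q.2 k)) φ hφ0.le hφ1 hgc
      hNM
    have h3 : φ ^ M * ((univ.filter fun y => P q y).card : ℝ) ≤
        θ ^ M * Fintype.card (A n) := by
      refine le_trans ?_ hrev
      rw [mul_comm, ← nsmul_eq_mul, ← Finset.sum_const]
      refine (Finset.sum_le_sum fun y hy => ?_).trans
        (Finset.sum_le_sum_of_subset_of_nonneg (Finset.filter_subset _ _)
          fun y _ _ => ?_)
      · rw [Finset.mem_filter] at hy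
        have h4 := hy.2
        rw [hP] at h4
        apply pow_le_pow_left₀ hφ0.le
        rw [le_div_iff₀ hn0]
        exact h4.le
      · positivity
    have hφM : (0 : ℝ) < φ ^ M := pow_pos hφ0 _
    rw [hT, div_pow, div_mul_eq_mul_div, le_div_iff₀ hφM]
    linarith
  have hall : ∀ q : I × I, ((univ.filter fun y => P q y).card : ℝ) ≤
      (if q ∈ S then (Fintype.card (A n) : ℝ) else 0) + T := by
    intro q
    by_cases hq : q ∈ S
    · rw [if_pos hq]
      have h1 : ((univ.filter fun y => P q y).card : ℝ) ≤ Fintype.card (A n) := by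
        exact_mod_cast Finset.card_le_univ _
      linarith
    · rw [if_neg hq, zero_add]
      exact hgood q hq
  -- the exceptional pairs
  have hScard : (S.card : ℝ) ≤ 2 ^ (N + 1) * β0 ^ (N - 3) * ((c : ℝ) ^ (N + 1)) ^ 2 := by
    have h1 : S ⊆ (Finset.powersetCard (N - 3) (univ : Finset (Fin (N + 1)))).biUnion fun K =>
        univ.filter fun q : I × I => ∀ k ∈ K, (q.1 k, q.2 k) ∈ Bad := by
      intro q hq
      rw [hS, Finset.mem_filter] at hq
      obtain ⟨K, hK1, hK2⟩ := Finset.exists_subset_card_eq hq.2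
      rw [Finset.mem_biUnion]
      refine ⟨K, Finset.mem_powersetCard.2 ⟨Finset.subset_univ _, hK2⟩, ?_⟩
      rw [Finset.mem_filter]
      refine ⟨Finset.mem_univ _, fun k hk => ?_⟩
      exact (Finset.mem_filter.1 (hK1 hk)).2
    have h2 : S.card ≤ (N + 1).choose (N - 3) * (Bad.card ^ (N - 3) *
        (c * c) ^ (N + 1 - (N - 3))) := by
      refine (Finset.card_le_card h1).trans (Finset.card_biUnion_le.trans ?_)
      have h3 : ∀ K ∈ Finset.powersetCard (N - 3) (univ : Finset (Fin (N + 1))),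
          (univ.filter fun q : I × I => ∀ k ∈ K, (q.1 k, q.2 k) ∈ Bad).card =
          Bad.card ^ (N - 3) * (c * c) ^ (N + 1 - (N - 3)) := by
        intro K hK
        have h4 := betaStep_card_bad (N := N) Bad K
        rw [(Finset.mem_powersetCard.1 hK).2] at h4
        exact h4
      rw [Finset.sum_congr rfl h3, Finset.sum_const, Finset.card_powersetCard,
        Finset.card_univ, Fintype.card_fin, smul_eq_mul]
    have h5 : (N + 1).choose (N - 3) ≤ 2 ^ (N + 1) := Nat.choose_le_two_pow _ _
    have h6 : (S.card : ℝ) ≤ 2 ^ (N + 1) * ((Bad.card : ℝ) ^ (N - 3) *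
        ((c : ℝ) * c) ^ (N + 1 - (N - 3))) := by
      have h7 : S.card ≤ 2 ^ (N + 1) * (Bad.card ^ (N - 3) *
        (c * c) ^ (N + 1 - (N - 3))) := h2.trans (Nat.mul_le_mul_right _ h5)
      exact_mod_cast h7
    have h8 : (Bad.card : ℝ) = beta φ w * (c : ℝ) ^ 2 := by
      rw [hbeta, div_mul_cancel₀]
      positivity
    have hb0 : 0 ≤ beta φ w := by
      rw [hbeta]
      exact div_nonneg (Nat.cast_nonneg _) (sq_nonneg _)
    have h9 : (Bad.card : ℝ) ^ (N - 3) * ((c : ℝ) * c) ^ (N + 1 - (N - 3)) =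
        beta φ w ^ (N - 3) * ((c : ℝ) ^ (N + 1)) ^ 2 := by
      rw [h8, mul_pow, mul_assoc]
      congr 1
      rw [← sq, ← pow_add, show N - 3 + (N + 1 - (N - 3)) = N + 1 by omega, ← pow_mul, ← pow_mul,
        mul_comm]
    rw [h9] at h6
    refine h6.trans ?_
    rw [mul_assoc]
    apply mul_le_mul_of_nonneg_left _ (by positivity)
    apply mul_le_mul_of_nonneg_right _ (by positivity)
    exact pow_le_pow_left₀ hb0 hβ _
  -- exchange of the sums
  have hswap : ∑ y : A n, ((univ.filter fun q : I × I => P q y).card : ℝ) =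
      ∑ q : I × I, ((univ.filter fun y => P q y).card : ℝ) := betaStep_swap P
  have hLHS : ∑ y : A n, beta φ (fun i : Fin (N + 1) → ι => wd (fun k => w (i k)) y) =
      (∑ q : I × I, ((univ.filter fun y => P q y).card : ℝ)) / ((c : ℝ) ^ (N + 1)) ^ 2 := by
    rw [← hswap, Finset.sum_div]
    refine Finset.sum_congr rfl fun y _ => ?_
    rw [beta]
    have h1 : (Fintype.card (Fin (N + 1) → ι) : ℝ) = (c : ℝ) ^ (N + 1) := by
      rw [Fintype.card_fun, Fintype.card_fin]
      push_cast
      rfl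
    rw [h1]
  rw [hLHS]
  have hden : (0 : ℝ) < ((c : ℝ) ^ (N + 1)) ^ 2 := by positivity
  rw [div_le_iff₀ hden]
  have hsum := Finset.sum_le_sum fun (q : I × I) (_ : q ∈ (univ : Finset (I × I))) => hall q
  refine hsum.trans ?_
  rw [Finset.sum_add_distrib, Finset.sum_const, Finset.card_univ, Fintype.card_prod, hcI,
    nsmul_eq_mul, Finset.sum_ite_mem, Finset.univ_inter, Finset.sum_const, nsmul_eq_mul, hT]
  have hA0 : (0 : ℝ) ≤ Fintype.card (A n) := Nat.cast_nonneg _
  have h10 := mul_le_mul_of_nonneg_right hScard hA0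
  push_cast
  calc (S.card : ℝ) * (Fintype.card (A n) : ℝ) +
      (c : ℝ) ^ (N + 1) * (c : ℝ) ^ (N + 1) * ((θ / φ) ^ M * (Fintype.card (A n) : ℝ))
      ≤ 2 ^ (N + 1) * β0 ^ (N - 3) * ((c : ℝ) ^ (N + 1)) ^ 2 * (Fintype.card (A n) : ℝ) +
      (c : ℝ) ^ (N + 1) * (c : ℝ) ^ (N + 1) * ((θ / φ) ^ M * (Fintype.card (A n) : ℝ)) := by
        linarith
    _ = (2 ^ (N + 1) * β0 ^ (N - 3) + (θ / φ) ^ M) * (Fintype.card (A n) : ℝ) *
        ((c : ℝ) ^ (N + 1)) ^ 2 := by ring

end Pool.Agent.RCG
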