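import Pool.Agent.W_MP_6acff7_h70.Trans

/-!
# Expected number of points in short cycles

PROOF.  Fix `p`.  If `x^r p = p` for some `1 ≤ r ≤ R`, let `r` be minimal; then `s = (p, x p, ..., x^(r-1) p)` is an
injective `r`-tuple and `x` maps it to the cyclically shifted tuple `s'`.  For given `s` with `s 0 = p` there are
`|A n|/(n)_r` such `x` (`card_act_eq`, `r ≤ R ≤ n - 2`), and there are `(n-1)_{r-1}` tuples `s`; so the number of `x` with
first return time `r` is `|A n|/n`.  Sum over `r = 1..R` and over the `n` points `p`.
-/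

open Finset

namespace Pool.Agent.RCG

private theorem cyc_exists {n r : ℕ} (x : A n) (p : Fin n)
    (h : Function.minimalPeriod (x.1 : Fin n → Fin n) p = r + 1) :
    ∃ s : Fin (r + 1) ↪ Fin n, s 0 = p ∧ actT x s = (finRotate (r + 1)).toEmbedding.trans s := by
  have hinj : Function.Injective fun k : Fin (r + 1) => (x.1 : Fin n → Fin n)^[k.1] p := by
    intro a b hab
    have hab' : (x.1 : Fin n → Fin n)^[a.1] p = (x.1 : Fin n → Fin n)^[b.1] p := hab
    have := (Function.iterate_eq_iterate_iff_of_lt_minimalPeriod (by rw [h]; exact a.2)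
      (by rw [h]; exact b.2)).1 hab'
    exact Fin.ext this
  refine ⟨⟨_, hinj⟩, ?_, ?_⟩
  · show (x.1 : Fin n → Fin n)^[(0 : Fin (r + 1)).1] p = p
    simp
  · ext k : 1
    show x.1 ((x.1 : Fin n → Fin n)^[k.1] p) = (x.1 : Fin n → Fin n)^[(finRotate (r + 1) k).1] p
    rw [← Function.iterate_succ_apply' (x.1 : Fin n → Fin n)]
    by_cases hk : k.1 = r
    · have h1 : (finRotate (r + 1) k).1 = 0 := by
        have : k = Fin.last r := Fin.ext hk
        rw [this, finRotate_last]
        rfl
      rw [h1, hk]
      have := Function.iterate_minimalPeriod (f := (x.1 : Fin n → Fin n)) (x := p)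
      rw [h] at this
      exact this
    · have h1 : (finRotate (r + 1) k).1 = k.1 + 1 := by
        rw [coe_finRotate_of_ne_last]
        intro h2
        apply hk
        rw [h2]
        rfl
      rw [h1]

private theorem cyc_one {n r : ℕ} (hr : r + 1 + 2 ≤ n) :
    ∑ x : A n, (univ.filter fun p : Fin n =>
      Function.minimalPeriod (x.1 : Fin n → Fin n) p = r + 1).card ≤ Fintype.card (A n) := by
  classical
  have h1 : (univ.filter fun q : A n × Fin n =>
        Function.minimalPeriod (q.1.1 : Fin n → Fin n) q.2 = r + 1).card ≤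
      (univ.filter fun q : A n × (Fin (r + 1) ↪ Fin n) =>
        actT q.1 q.2 = (finRotate (r + 1)).toEmbedding.trans q.2).card := by
    apply Finset.card_le_card_of_surjOn (fun q => (q.1, q.2 0))
    rintro ⟨x, p⟩ hq
    simp only [coe_filter, mem_univ, true_and, Set.mem_setOf_eq] at hq
    obtain ⟨s, hs0, hs⟩ := cyc_exists x p hq
    exact ⟨(x, s), by simpa using hs, by simp [hs0]⟩
  have h2 : (univ.filter fun q : A n × Fin n =>
        Function.minimalPeriod (q.1.1 : Fin n → Fin n) q.2 = r + 1).card =
      ∑ x : A n, (univ.filter fun p : Fin n =>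
        Function.minimalPeriod (x.1 : Fin n → Fin n) p = r + 1).card := by
    simp only [Finset.card_filter]
    exact Fintype.sum_prod_type _
  have h3 : (univ.filter fun q : A n × (Fin (r + 1) ↪ Fin n) =>
        actT q.1 q.2 = (finRotate (r + 1)).toEmbedding.trans q.2).card =
      ∑ s : Fin (r + 1) ↪ Fin n, (univ.filter fun x : A n =>
        actT x s = (finRotate (r + 1)).toEmbedding.trans s).card := by
    simp only [Finset.card_filter]
    exact Fintype.sum_prod_type_right _
  have h4 : (∑ s : Fin (r + 1) ↪ Fin n, (univ.filter fun x : A n =>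
        actT x s = (finRotate (r + 1)).toEmbedding.trans s).card) * n.descFactorial (r + 1) =
      Fintype.card (A n) * n.descFactorial (r + 1) := by
    rw [Finset.sum_mul, Finset.sum_congr rfl fun s _ => card_act_eq hr s _]
    rw [Finset.sum_const, smul_eq_mul, Finset.card_univ, Fintype.card_embedding_eq,
      Fintype.card_fin, Fintype.card_fin, mul_comm]
  have h5 : 0 < n.descFactorial (r + 1) := Nat.descFactorial_pos.2 (by omega)
  have h6 := Nat.eq_of_mul_eq_mul_right h5 h4
  rw [← h2, ← h6, ← h3]
  exact h1

theorem cyc_points {n R : ℕ} (hR : R + 2 ≤ n) :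
    ∑ x : A n, (shortPts x.1 R).card ≤ R * Fintype.card (A n) := by
  classical
  have h1 : ∀ x : A n, (shortPts x.1 R).card ≤ ∑ r ∈ range R, (univ.filter fun p : Fin n =>
      Function.minimalPeriod (x.1 : Fin n → Fin n) p = r + 1).card := by
    intro x
    refine le_trans (Finset.card_le_card ?_) Finset.card_biUnion_le
    intro p hp
    simp only [shortPts, mem_filter, mem_univ, true_and] at hp
    obtain ⟨r, hr1, hrR, hrp⟩ := hp
    have hper : Function.IsPeriodicPt (x.1 : Fin n → Fin n) r p := by
      show (x.1 : Fin n → Fin n)^[r] p = p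
      rw [← Equiv.Perm.coe_pow]
      exact hrp
    have h2 := hper.minimalPeriod_le hr1
    have h3 := hper.minimalPeriod_pos hr1
    simp only [mem_biUnion, mem_range, mem_filter, mem_univ, true_and]
    exact ⟨Function.minimalPeriod (x.1 : Fin n → Fin n) p - 1, by omega, by omega⟩
  calc ∑ x : A n, (shortPts x.1 R).card
      ≤ ∑ x : A n, ∑ r ∈ range R, (univ.filter fun p : Fin n =>
          Function.minimalPeriod (x.1 : Fin n → Fin n) p = r + 1).card :=
        Finset.sum_le_sum fun x _ => h1 x
    _ = ∑ r ∈ range R, ∑ x : A n, (univ.filter fun p : Fin n =>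
          Function.minimalPeriod (x.1 : Fin n → Fin n) p = r + 1).card := Finset.sum_comm
    _ ≤ ∑ r ∈ range R, Fintype.card (A n) := by
        apply Finset.sum_le_sum
        intro r hr
        rw [mem_range] at hr
        exact cyc_one (by omega)
    _ = R * Fintype.card (A n) := by simp

end Pool.Agent.RCG
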