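import Pool.Agent.W_MP_6acff7_h70.Prob
import Pool.Agent.W_MP_6acff7_h70.CycPts
import Pool.Agent.W_MP_6acff7_h70.BetaStep

/-!
# Steps A and B

`stepA`: `pr_markov` with `f x = |shortPts x R|`, `cyc_points`; `Fin 1 → A n` is `A n` (`Equiv.funUnique`).
`hasFam_of_hasX`: `w i = x^i`, `i : Fin L`; for `i ≠ i'` every fixed point of `(x^i)⁻¹ x^i'` is a fixed point of
`x^|i-i'|`, so lies in `shortPts x R` (`1 ≤ |i - i'| ≤ L - 1 ≤ R`), so there are at most `T ≤ φ n` of them; hence
`beta φ w ≤ 1/L ≤ exp (-e)`.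
`stepB`: reindex the family `Fin (N+1) → Fin k` by `Fin ((Fintype.card (Fin (N+1) → Fin k)))`
(`Fintype.equivFin`; `beta` is invariant under reindexing), `beta_step`, `pr_markov` with `t = exp (-e')`, `WL.wd`.
`stepB_iter`: induction on `t` with `Step.comp`; `l_i = (N+1)^(i+1) - 1`,
`N (l_i + 1) + l_i = l_{i+1}`; `e_i = min (20 (N/5)^i) c`, and `min (N e_i/5) c ≥ e_{i+1}` as `N ≥ 5`;
`HasFam` is monotone in `e` (decreasing).
-/

open Finset

namespace Pool.Agent.RCG

variable {n : ℕ}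

theorem stepA {R T : ℕ} (hR : R + 2 ≤ n) (hT : 0 < T) :
    Step n 1 ((R : ℝ) / T) (fun _ => True) (HasX n R T) := by
  intro S _
  have h1 := pr_congr (Equiv.funUnique (Fin 1) (A n))
    (fun x : A n => (T : ℝ) < ((shortPts x.1 R).card : ℝ))
  calc pr (fun z : Fin 1 → A n => ¬ HasX n R T (S ∪ Set.range z))
      ≤ pr (fun z : Fin 1 → A n => (T : ℝ) <
          ((shortPts (Equiv.funUnique (Fin 1) (A n) z).1 R).card : ℝ)) := by
        apply pr_mono
        intro z hz
        by_contra hlt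
        apply hz
        refine ⟨z 0, Or.inr ⟨0, rfl⟩, ?_⟩
        have := not_lt.mp hlt
        have h2 : Equiv.funUnique (Fin 1) (A n) z = z 0 := rfl
        rw [h2] at this
        exact_mod_cast this
    _ = pr (fun x : A n => (T : ℝ) < ((shortPts x.1 R).card : ℝ)) := h1
    _ ≤ R / T := by
        apply pr_markov (fun x : A n => ((shortPts x.1 R).card : ℝ)) (fun _ => by positivity)
          (T : ℝ) (R : ℝ) (by exact_mod_cast hT)
        exact_mod_cast cyc_points hR

/-- A common power relation gives a point in a short cycle. -/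
theorem mem_shortPts_of_pow_eq {x : A n} {R a b : ℕ} (hab : a < b) (hb : b ≤ R + a) {p : Fin n}
    (h : (x ^ b).1 p = (x ^ a).1 p) : p ∈ shortPts x.1 R := by
  classical
  unfold shortPts
  rw [mem_filter]
  refine ⟨mem_univ _, b - a, by omega, by omega, ?_⟩
  have h1 : (x ^ b).1 = (x ^ a).1 * (x.1 ^ (b - a)) := by
    have h2 : a + (b - a) = b := by omega
    have h3 : x ^ b = x ^ a * x ^ (b - a) := by rw [← pow_add, h2]
    rw [h3]
    simp
  rw [h1, Equiv.Perm.mul_apply] at h
  exact (Equiv.injective (x ^ a).1) h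

theorem hasFam_of_hasX {R T L : ℕ} {φ e : ℝ} (hL : 1 ≤ L) (hLR : L ≤ R + 1)
    (hT : (T : ℝ) ≤ φ * n) (he : 1 / (L : ℝ) ≤ Real.exp (-e)) (S : Set (A n))
    (h : HasX n R T S) : HasFam n φ L e S := by
  classical
  obtain ⟨x, hxS, hx⟩ := h
  refine ⟨L, hL, fun i => x ^ (i : ℕ), ?_, ?_⟩
  · intro i
    have h1 := (WL.of_mem hxS).pow (i : ℕ)
    exact h1.mono (Set.Subset.refl _) (by have := i.2; omega)
  · refine le_trans ?_ he
    unfold beta
    have hLpos : (0 : ℝ) < L := by exact_mod_cast hL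
    rw [Fintype.card_fin, div_le_div_iff₀ (by positivity) hLpos, one_mul, sq]
    refine mul_le_mul_of_nonneg_right ?_ hLpos.le
    have hsub : (univ.filter fun q : Fin L × Fin L =>
        φ * n < (fixN ((x ^ (q.1 : ℕ))⁻¹ * x ^ (q.2 : ℕ) : A n).1 : ℝ)) ⊆
        (univ : Finset (Fin L)).image (fun i => (i, i)) := by
      rintro ⟨i, i'⟩ hq
      rw [mem_filter] at hq
      rw [mem_image]
      refine ⟨i, mem_univ _, ?_⟩
      by_contra hne
      have hii : (i : ℕ) ≠ (i' : ℕ) := fun h => hne (by rw [Fin.ext h])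
      have hfix : fixN ((x ^ (i : ℕ))⁻¹ * x ^ (i' : ℕ) : A n).1 ≤ (shortPts x.1 R).card := by
        unfold fixN
        apply card_le_card
        intro p hp
        rw [mem_filter] at hp
        have hp2 : (x ^ (i' : ℕ)).1 p = (x ^ (i : ℕ)).1 p := by
          have h3 := hp.2
          have h4 : ((x ^ (i : ℕ))⁻¹ * x ^ (i' : ℕ) : A n).1 p =
              ((x ^ (i : ℕ)).1)⁻¹ ((x ^ (i' : ℕ)).1 p) := rfl
          rw [h4, Equiv.Perm.inv_eq_iff_eq] at h3
          exact h3
        have hi := i.2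
        have hi' := i'.2
        rcases lt_or_gt_of_ne hii with hlt | hlt
        · exact mem_shortPts_of_pow_eq hlt (by omega) hp2
        · exact mem_shortPts_of_pow_eq hlt (by omega) hp2.symm
      have h5 : (fixN ((x ^ (i : ℕ))⁻¹ * x ^ (i' : ℕ) : A n).1 : ℝ) ≤ (T : ℝ) := by
        exact_mod_cast hfix.trans hx
      have h6 := hq.2
      simp only at h6
      linarith
    have hcard := (card_le_card hsub).trans card_image_le
    rw [card_univ, Fintype.card_fin] at hcard
    exact_mod_cast hcard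

theorem HasFam.weaken {φ : ℝ} {l l' : ℕ} {e e' : ℝ} {S : Set (A n)} (hl : l ≤ l')
    (he : e' ≤ e) (h : HasFam n φ l e S) : HasFam n φ l' e' S := by
  obtain ⟨k, hk, w, hw, hb⟩ := h
  exact ⟨k, hk, w, fun i => (hw i).mono (Set.Subset.refl _) hl,
    hb.trans (Real.exp_le_exp.mpr (by linarith))⟩

theorem beta_reindex {φ : ℝ} {ι ι' : Type*} [Fintype ι] [Fintype ι'] (e : ι' ≃ ι)
    (w : ι → A n) : beta φ (fun i => w (e i)) = beta φ w := by
  classical
  unfold beta
  rw [Fintype.card_congr e]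
  congr 2
  refine card_bij (fun q _ => (e q.1, e q.2)) ?_ ?_ ?_
  · rintro ⟨a, b⟩ hq
    simp only [mem_filter, mem_univ, true_and] at hq ⊢
    exact hq
  · rintro ⟨a, b⟩ _ ⟨a', b'⟩ _ h
    simp only [Prod.mk.injEq, EmbeddingLike.apply_eq_iff_eq] at h
    exact Prod.ext h.1 h.2
  · rintro ⟨a, b⟩ hq
    refine ⟨(e.symm a, e.symm b), ?_, ?_⟩
    · simp only [mem_filter, mem_univ, true_and, Equiv.apply_symm_apply] at hq ⊢
      exact hq
    · simp

theorem stepB {N M l : ℕ} {φ e e' : ℝ} (hφ0 : 0 < φ) (hφ1 : 2 * φ ≤ 1) (hN : 4 ≤ N)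
    (hNM : 4 * N * M + 4 ≤ n) :
    Step n 1 ((2 ^ (N + 1) * Real.exp (-e) ^ (N - 3) +
        (((2 * φ) ^ 5 + (N + 1) * ((8 * N * M + 10) / n)) / φ) ^ M) / Real.exp (-e'))
      (HasFam n φ l e) (HasFam n φ (N * (l + 1) + l) e') := by
  classical
  rintro S ⟨k, hk, w, hw, hβ⟩
  have : Nonempty (Fin k) := ⟨⟨0, hk⟩⟩
  have h0 := beta_step w φ (Real.exp (-e)) hφ0 hφ1 hβ hN hNM
  have key : ∀ y : A n, beta φ (fun i : Fin (N + 1) → Fin k => wd (fun k => w (i k)) y) ≤
      Real.exp (-e') → ∀ S' : Set (A n), S ⊆ S' → y ∈ S' →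
      HasFam n φ (N * (l + 1) + l) e' S' := by
    intro y hy S' hSS hyS
    let E := Fintype.equivFin (Fin (N + 1) → Fin k)
    refine ⟨Fintype.card (Fin (N + 1) → Fin k), Fintype.card_pos,
      fun a => wd (fun k => w (E.symm a k)) y, ?_, ?_⟩
    · intro a
      exact WL.wd (fun k => (hw _).mono hSS le_rfl) hyS
    · have := beta_reindex (φ := φ) E.symm
        (fun i : Fin (N + 1) → Fin k => wd (fun k => w (i k)) y)
      rw [this]
      exact hy
  have h1 := pr_congr (Equiv.funUnique (Fin 1) (A n))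
    (fun y : A n => Real.exp (-e') <
      beta φ (fun i : Fin (N + 1) → Fin k => wd (fun k => w (i k)) y))
  refine le_trans (pr_mono (Q := fun z : Fin 1 → A n => Real.exp (-e') <
      beta φ (fun i : Fin (N + 1) → Fin k => wd (fun k => w (i k))
        (Equiv.funUnique (Fin 1) (A n) z))) ?_) (le_trans (le_of_eq h1) ?_)
  · intro z hz
    by_contra hlt
    apply hz
    have h2 : Equiv.funUnique (Fin 1) (A n) z = z 0 := rfl
    rw [h2] at hlt
    exact key (z 0) (not_lt.mp hlt) _ Set.subset_union_left (Or.inr ⟨0, rfl⟩)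
  · refine pr_markov _ (fun y => ?_) _ _ (Real.exp_pos _) h0
    unfold beta
    positivity

theorem pr_le_zero_of_not {α : Type*} [Fintype α] {P : α → Prop} (h : ∀ a, ¬ P a) :
    pr P ≤ 0 := by
  classical
  unfold pr
  rw [filter_eq_empty_iff.mpr (fun a _ => h a)]
  simp

theorem stepB_iter {N t : ℕ} {φ c ε : ℝ} (hN : 5 ≤ N) (hε : 0 ≤ ε)
    (hstep : ∀ (l : ℕ) (e e' : ℝ), 20 ≤ e → e' = min (N * e / 5) c →
      Step n 1 ε (HasFam n φ l e) (HasFam n φ (N * (l + 1) + l) e')) (hc : 20 ≤ c) :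
    Step n t (t * ε) (HasFam n φ N 20)
      (HasFam n φ ((N + 1) ^ (t + 1) - 1) (min (20 * ((N : ℝ) / 5) ^ t) c)) := by
  classical
  have hN5 : (1 : ℝ) ≤ (N : ℝ) / 5 := by
    rw [le_div_iff₀ (by norm_num)]
    exact_mod_cast (by omega : 1 * 5 ≤ N)
  induction t with
  | zero =>
    intro S hS
    have hall : ∀ z : Fin 0 → A n, HasFam n φ ((N + 1) ^ (0 + 1) - 1)
        (min (20 * ((N : ℝ) / 5) ^ 0) c) (S ∪ Set.range z) := by
      intro z
      refine HasFam.weaken (l := N) (e := 20) (by simp) ?_ (mono_hasFam φ N 20 S _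
        Set.subset_union_left hS)
      rw [pow_zero, mul_one]
      exact min_le_left _ _
    exact (pr_le_zero_of_not (fun z => not_not.mpr (hall z))).trans (by simp)
  | succ t ih =>
    have hp : (1 : ℝ) ≤ ((N : ℝ) / 5) ^ t := one_le_pow₀ hN5
    have he20 : 20 ≤ min (20 * ((N : ℝ) / 5) ^ t) c := le_min (by linarith) hc
    have h1 := hstep ((N + 1) ^ (t + 1) - 1) (min (20 * ((N : ℝ) / 5) ^ t) c) _ he20 rfl
    have h2 := ih.comp h1 hε
    refine h2.weaken (fun _ h => h) (fun S hS => ?_) ?_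
    · refine hS.weaken ?_ ?_
      · have hpos : 1 ≤ (N + 1) ^ (t + 1) := Nat.one_le_pow _ _ (by omega)
        obtain ⟨a, ha⟩ := Nat.exists_eq_add_of_le hpos
        have h3 : (N + 1) ^ (t + 1 + 1) = (N + 1) ^ (t + 1) * (N + 1) := pow_succ _ _
        rw [h3, ha]
        have : 1 + a - 1 = a := by omega
        rw [this]
        apply le_of_eq
        have h4 : (1 + a) * (N + 1) = N * (a + 1) + a + 1 := by ring
        rw [h4]
        omega
      · rw [le_min_iff]
        refine ⟨?_, min_le_right _ _⟩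
        have hc0 : 0 ≤ c := by linarith
        rcases le_total (20 * ((N : ℝ) / 5) ^ t) c with hle | hle
        · rw [min_eq_left hle]
          refine (min_le_left _ _).trans (le_of_eq ?_)
          rw [pow_succ]
          ring
        · rw [min_eq_right hle]
          refine (min_le_right _ _).trans ?_
          have : (N : ℝ) * c / 5 = (N : ℝ) / 5 * c := by ring
          rw [this]
          nlinarith
    · push_cast
      linarith

end Pool.Agent.RCG
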