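import Mathlib

/-!
# Random Cayley graphs of alternating groups: definitions

Working folder for MP_6acff7_al (helper70).  Everything lives in `Pool.Agent.RCG`.
-/

open Finset

namespace Pool.Agent.RCG

/-- The alternating group on `n` letters, as a type. -/
abbrev A (n : ℕ) : Type := ↥(alternatingGroup (Fin n))

/-- Number of fixed points of a permutation of `Fin n`. -/
def fixN {n : ℕ} (g : Equiv.Perm (Fin n)) : ℕ := (univ.filter fun p => g p = p).card

open Classical in
/-- The points lying in a cycle of length at most `R` of `g`. -/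
noncomputable def shortPts {n : ℕ} (g : Equiv.Perm (Fin n)) (R : ℕ) : Finset (Fin n) :=
  univ.filter fun p => ∃ r : ℕ, 1 ≤ r ∧ r ≤ R ∧ (g ^ r) p = p

section General

variable {G : Type*} [Group G] {E : Type*} [NormedAddCommGroup E] [InnerProductSpace ℝ E]

/-- Orthogonal representation. -/
def Orth (ρ : G →* Module.End ℝ E) : Prop :=
  ∀ (g : G) (u v : E), inner ℝ (ρ g u) (ρ g v) = inner ℝ u v

/-- Symmetrised class average of `g`:
`(1 / (2|G|)) ∑_z (ρ(z⁻¹ g z) + ρ(z⁻¹ g⁻¹ z))`. -/
noncomputable def cavg [Fintype G] (ρ : G →* Module.End ℝ E) (g : G) : Module.End ℝ E :=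
  (2 * (Fintype.card G : ℝ))⁻¹ • ∑ z : G, (ρ (z⁻¹ * g * z) + ρ (z⁻¹ * g⁻¹ * z))

/-- Average of `ρ (w i)` over the index `i`. -/
noncomputable def ravg (ρ : G →* Module.End ℝ E) {ι : Type*} [Fintype ι] (w : ι → G) :
    Module.End ℝ E :=
  (Fintype.card ι : ℝ)⁻¹ • ∑ i, ρ (w i)

/-- Average over two indices of the class averages of `(w i)⁻¹ * w i'`. -/
noncomputable def abar [Fintype G] (ρ : G →* Module.End ℝ E) {ι : Type*} [Fintype ι]
    (w : ι → G) : Module.End ℝ E :=
  ((Fintype.card ι : ℝ) ^ 2)⁻¹ • ∑ i, ∑ i', cavg ρ ((w i)⁻¹ * w i')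

/-- The block word `w (i 0) z 0 w (i 1) z 1 ⋯ w (i (J-1)) z (J-1)`. -/
def blk {ι : Type*} {J : ℕ} (w : ι → G) (z : Fin J → G) (i : Fin J → ι) : G :=
  (List.ofFn fun k => w (i k) * z k).prod

/-- The word `a 0 y a 1 y ⋯ y a N` in the repeated letter `y`. -/
def wd {N : ℕ} (a : Fin (N + 1) → G) (y : G) : G :=
  (List.ofFn fun k : Fin N => a k.castSucc * y).prod * a (Fin.last N)

/-- `g` is a product of at most `l` elements of `S` and inverses of elements of `S`. -/
def WL (S : Set G) (l : ℕ) (g : G) : Prop :=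
  ∃ L : List G, L.length ≤ l ∧ (∀ a ∈ L, a ∈ S ∨ a⁻¹ ∈ S) ∧ L.prod = g

/-- Permutation representation on real functions on a finite set:
`(permRep θ g f) x = f ((θ g)⁻¹ x)`. -/
noncomputable def permRep {X : Type*} [Fintype X] (θ : G →* Equiv.Perm X) :
    G →* Module.End ℝ (EuclideanSpace ℝ X) where
  toFun g := (LinearIsometryEquiv.piLpCongrLeft 2 ℝ ℝ (θ g)).toLinearEquiv.toLinearMap
  map_one' := by
    ext f x
    simp
    rfl
  map_mul' g h := by
    ext f x
    simp [LinearIsometryEquiv.piLpCongrLeft_apply, Equiv.Perm.mul_def]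

theorem permRep_apply {X : Type*} [Fintype X] (θ : G →* Equiv.Perm X) (g : G)
    (f : EuclideanSpace ℝ X) (x : X) : permRep θ g f x = f ((θ g)⁻¹ x) := by
  simp [permRep, LinearIsometryEquiv.piLpCongrLeft_apply]

theorem permRep_orth {X : Type*} [Fintype X] (θ : G →* Equiv.Perm X) : Orth (permRep θ) := by
  intro g u v
  exact LinearIsometryEquiv.inner_map_map (LinearIsometryEquiv.piLpCongrLeft 2 ℝ ℝ (θ g)) u v

/-- `a ↦ (c ↦ c a⁻¹)`. -/
def rmulHom (G : Type*) [Group G] : G →* Equiv.Perm G where
  toFun a := Equiv.mulRight a⁻¹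
  map_one' := by ext; simp
  map_mul' a b := by ext; simp [mul_assoc]

/-- `a ↦ (c ↦ a c)`. -/
def lmulHom (G : Type*) [Group G] : G →* Equiv.Perm G where
  toFun a := Equiv.mulLeft a
  map_one' := by ext; simp
  map_mul' a b := by ext; simp

/-- Right regular representation: `(regR a f) c = f (c a)`. -/
noncomputable def regR (G : Type*) [Group G] [Fintype G] :
    G →* Module.End ℝ (EuclideanSpace ℝ G) := permRep (rmulHom G)

/-- Left regular representation: `(regL a f) c = f (a⁻¹ c)`. -/
noncomputable def regL (G : Type*) [Group G] [Fintype G] :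
    G →* Module.End ℝ (EuclideanSpace ℝ G) := permRep (lmulHom G)

theorem regR_apply (G : Type*) [Group G] [Fintype G] (a : G) (f : EuclideanSpace ℝ G) (c : G) :
    regR G a f c = f (c * a) := by
  rw [regR, permRep_apply]
  simp [rmulHom]

theorem regL_apply (G : Type*) [Group G] [Fintype G] (a : G) (f : EuclideanSpace ℝ G) (c : G) :
    regL G a f c = f (a⁻¹ * c) := by
  rw [regL, permRep_apply]
  simp [lmulHom]

end General

section Alt

variable {n : ℕ}

/-- `Fin j ↪ Fin n` with the action of `A n` by postcomposition. -/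
def tupHom (n j : ℕ) : A n →* Equiv.Perm (Fin j ↪ Fin n) where
  toFun g := Equiv.embeddingCongr (Equiv.refl _) g.1
  map_one' := by ext; simp
  map_mul' a b := by ext; simp

/-- The representation on functions of injective `j`-tuples. -/
noncomputable def tupRep (n j : ℕ) : A n →* Module.End ℝ (EuclideanSpace ℝ (Fin j ↪ Fin n)) :=
  permRep (tupHom n j)

/-- The tuple `g ∘ s`. -/
def actT {b : ℕ} (g : A n) (s : Fin b ↪ Fin n) : Fin b ↪ Fin n := s.trans g.1.toEmbedding

@[simp] theorem actT_apply {b : ℕ} (g : A n) (s : Fin b ↪ Fin n) (k : Fin b) :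
    actT g s k = g.1 (s k) := rfl

theorem tupHom_apply (n j : ℕ) (g : A n) (s : Fin j ↪ Fin n) : tupHom n j g s = actT g s := by
  ext; simp [tupHom]

variable {E : Type*} [NormedAddCommGroup E] [InnerProductSpace ℝ E]

/-- `u` is fixed by the pointwise stabiliser of `B` in `A n`. -/
def FixedBy (ρ : A n →* Module.End ℝ E) (B : Finset (Fin n)) (u : E) : Prop :=
  ∀ g : A n, (∀ p ∈ B, g.1 p = p) → ρ g u = u

/-- The span of all vectors fixed by the pointwise stabiliser of some `b`-subset. -/
def Fsub (ρ : A n →* Module.End ℝ E) (b : ℕ) : Submodule ℝ E :=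
  Submodule.span ℝ {u | ∃ B : Finset (Fin n), B.card = b ∧ FixedBy ρ B u}

open Classical in
/-- Proportion of pairs `(i, i')` such that `(w i)⁻¹ * w i'` has more than `φ n` fixed points. -/
noncomputable def beta (φ : ℝ) {ι : Type*} [Fintype ι] (w : ι → A n) : ℝ :=
  ((univ.filter fun q : ι × ι => φ * n < (fixN ((w q.1)⁻¹ * w q.2).1 : ℝ)).card : ℝ) /
    (Fintype.card ι : ℝ) ^ 2

end Alt

section Prob

open Classical in
/-- Uniform probability on a finite type. -/
noncomputable def pr {α : Type*} [Fintype α] (P : α → Prop) : ℝ :=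
  ((univ.filter P).card : ℝ) / Fintype.card α

variable {n : ℕ}

/-- After `k` more uniformly random letters are added to a set of letters with property `Q`, the
new set has property `Q'` except with probability at most `ε`. -/
def Step (n k : ℕ) (ε : ℝ) (Q Q' : Set (A n) → Prop) : Prop :=
  ∀ S : Set (A n), Q S → pr (fun z : Fin k → A n => ¬ Q' (S ∪ Set.range z)) ≤ ε

/-- Monotone property of sets of letters. -/
def Mono (Q : Set (A n) → Prop) : Prop := ∀ S S' : Set (A n), S ⊆ S' → Q S → Q S'

/-- Some letter has at most `T` points in cycles of length at most `R`. -/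
def HasX (n R T : ℕ) (S : Set (A n)) : Prop := ∃ x ∈ S, (shortPts x.1 R).card ≤ T

/-- There is a finite family of words of length at most `l` with small `beta`. -/
def HasFam (n : ℕ) (φ : ℝ) (l : ℕ) (e : ℝ) (S : Set (A n)) : Prop :=
  ∃ k : ℕ, 0 < k ∧ ∃ w : Fin k → A n, (∀ i, WL S l (w i)) ∧ beta φ w ≤ Real.exp (-e)

/-- Some word of length at most `l` moves exactly `j` points. -/
def HasH (n j l : ℕ) (S : Set (A n)) : Prop :=
  ∃ h : A n, h.1.support.card = j ∧ WL S l h

/-- Every element is a word of length at most `l`. -/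
def HasAll (n l : ℕ) (S : Set (A n)) : Prop := ∀ g : A n, WL S l g

end Prob

end Pool.Agent.RCG
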