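import Pool.Agent.W_MP_6acff7_h70.Defs

/-!
# High transitivity of the alternating group, counting form

`card_act_eq`: if `b + 2 ≤ n`, then for any two injective `b`-tuples `s`, `t` exactly
`|A n| / (n)_b` elements `z` of `A n` satisfy `z ∘ s = t`.

PROOF.  Mathlib: `alternatingGroup.isMultiplyPretransitive` (the alternating group is
`(Nat.card α - 2)`-pretransitive) and `MulAction.isMultiplyPretransitive_of_le'` give for `b ≤ n - 2`
some `g : A n` with `actT g s = t`.  Left multiplication by `g` is then a bijection between the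
fibres `{z | actT z s = s₁}` and `{z | actT z s = actT g s₁}`, so all fibres of
`z ↦ actT z s` have the same size; they partition `A n` and there are
`Fintype.card (Fin b ↪ Fin n) = n.descFactorial b` of them
(`Fintype.card_embedding_eq`, `Finset.card_eq_sum_card_fiberwise`).

`sum_act` follows by `Finset.sum_fiberwise`.
-/

open Finset

namespace Pool.Agent.RCG

theorem exists_act {n b : ℕ} (hb : b + 2 ≤ n) (s t : Fin b ↪ Fin n) :
    ∃ g : A n, actT g s = t := by
  have hcard : Nat.card (Fin n) = n := by simp
  have h1 : MulAction.IsMultiplyPretransitive (A n) (Fin n) (Nat.card (Fin n) - 2) :=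
    alternatingGroup.isMultiplyPretransitive (Fin n)
  have h2 : MulAction.IsMultiplyPretransitive (A n) (Fin n) b :=
    MulAction.isMultiplyPretransitive_of_le (n := Nat.card (Fin n) - 2)
      (by rw [hcard]; omega) (Nat.sub_le _ _)
  obtain ⟨g, hg⟩ := MulAction.isMultiplyPretransitive_iff.1 h2 s t
  refine ⟨g, ?_⟩
  rw [← hg]
  ext k
  rfl

theorem card_act_eq {n b : ℕ} (hb : b + 2 ≤ n) (s t : Fin b ↪ Fin n) :
    (univ.filter fun z : A n => actT z s = t).card * n.descFactorial b =
      Fintype.card (A n) := by
  classical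
  have hfib : ∀ t' : Fin b ↪ Fin n, (univ.filter fun z : A n => actT z s = t').card =
      (univ.filter fun z : A n => actT z s = t).card := by
    intro t'
    obtain ⟨g, hg⟩ := exists_act hb t' t
    refine Finset.card_bij' (fun z _ => g * z) (fun z _ => g⁻¹ * z) ?_ ?_ ?_ ?_
    · intro z hz
      rw [Finset.mem_filter] at hz ⊢
      refine ⟨Finset.mem_univ _, ?_⟩
      rw [← hg, ← hz.2]
      ext k
      rfl
    · intro z hz
      rw [Finset.mem_filter] at hz ⊢
      refine ⟨Finset.mem_univ _, ?_⟩
      ext k
      have h1 : z.1 (s k) = g.1 (t' k) := by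
        have := congrArg (fun e : Fin b ↪ Fin n => e k) (hz.2.trans hg.symm)
        exact this
      show ((g⁻¹ * z : A n).1 (s k) : ℕ) = (t' k : ℕ)
      have h2 : (g⁻¹ * z : A n).1 (s k) = t' k := by
        show g.1⁻¹ (z.1 (s k)) = t' k
        rw [h1]
        exact g.1.symm_apply_apply _
      rw [h2]
    · intro z _
      simp
    · intro z _
      simp
  have h1 : Fintype.card (A n) = ∑ t' : Fin b ↪ Fin n, (univ.filter fun z : A n => actT z s = t').card := by
    rw [← Finset.card_univ]
    exact Finset.card_eq_sum_card_fiberwise (fun z _ => Finset.mem_univ _)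
  rw [h1, Finset.sum_congr rfl fun t' _ => hfib t', Finset.sum_const, Finset.card_univ,
    Fintype.card_embedding_eq, Fintype.card_fin, Fintype.card_fin, smul_eq_mul, mul_comm]

theorem sum_act {n b : ℕ} (hb : b + 2 ≤ n) (s : Fin b ↪ Fin n)
    (F : (Fin b ↪ Fin n) → ℝ) :
    (∑ z : A n, F (actT z s)) * (n.descFactorial b : ℝ) =
      (Fintype.card (A n) : ℝ) * ∑ t : Fin b ↪ Fin n, F t := by
  classical
  have h1 : ∑ z : A n, F (actT z s) =
      ∑ t : Fin b ↪ Fin n, ((univ.filter fun z : A n => actT z s = t).card : ℝ) * F t := by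
    rw [← Finset.sum_fiberwise (s := (univ : Finset (A n))) (g := fun z => actT z s)]
    refine Finset.sum_congr rfl fun t _ => ?_
    rw [Finset.sum_congr rfl fun z hz => by rw [(Finset.mem_filter.1 hz).2], Finset.sum_const,
      nsmul_eq_mul]
  rw [h1, Finset.sum_mul, Finset.mul_sum]
  refine Finset.sum_congr rfl fun t _ => ?_
  have h2 : ((univ.filter fun z : A n => actT z s = t).card : ℝ) * (n.descFactorial b : ℝ) =
      (Fintype.card (A n) : ℝ) := by
    exact_mod_cast card_act_eq hb s t
  rw [← h2]
  ring

end Pool.Agent.RCG
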