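import Pool.Agent.W_MP_6acff7_h70.Basic

/-!
# Eigenvalues of class averages on two-sided ideals of the group algebra

`G` any finite group, `E = EuclideanSpace ℝ G`, `(regR a f) c = f (c a)`, `(regL a f) c = f (a⁻¹ c)`.

PROOF.  `P` = orthogonal projection onto `V`, commutes with `regR a`, `regL a` (`V`, `Vᗮ` invariant).
`e = P δ_1`.  `regR h (regL h δ_1) = δ_1`, so `e` is a class function: `e (h⁻¹ c h) = e c`.
`⟪P δ_c, δ_c⟫ = ⟪P δ_1, δ_1⟫ = e 1` for all `c` (translate), and `∑_c ⟪P δ_c, δ_c⟫ = trace P = finrank V`,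
so `|G| e(1) = finrank V`; `‖e‖² = ⟪P δ_1, δ_1⟫ = e 1`.  `e g⁻¹ = e g` (`⟪P δ_1, δ_{g⁻¹}⟫ = ⟪P δ_g, δ_1⟫`).
Evaluate `cavg (regR G) g e = lam • e` at `1`: `(cavg (regR G) g e)(1)` is the average of
`e(z⁻¹ g z)` and `e(z⁻¹ g⁻¹ z)`, i.e. `e g`.  So `lam e(1) = e(g)`.
`e` takes the value `e g` on the whole class of `g`, of size `|G|/|C(g)|` (orbit-stabiliser; or: the map
`z ↦ z⁻¹ g z` has all fibres of size `|C(g)|`), so `(|G|/|C(g)|) e(g)² ≤ ‖e‖² = e(1)`.  Hence
`lam² e(1)² |G| ≤ |C(g)| e(1)`, and `e(1) = finrank V/|G| > 0`, i.e. `lam² finrank V ≤ |C(g)|`.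
-/

open Finset

namespace Pool.Agent.RCG

section HighEigAux

variable {G : Type*} [Group G]

/-- the orthogonal projection onto an invariant subspace commutes with the representation -/
theorem HighEig_proj_comm {E : Type*} [NormedAddCommGroup E] [InnerProductSpace ℝ E]
    [FiniteDimensional ℝ E] {ρ : G →* Module.End ℝ E} (hρ : Orth ρ) (V : Submodule ℝ E)
    (hV : ∀ a : G, ∀ u ∈ V, ρ a u ∈ V) (a : G) (u : E) :
    V.starProjection (ρ a u) = ρ a (V.starProjection u) := by
  refine Submodule.eq_starProjection_of_mem_orthogonal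
    (hV a _ (Submodule.starProjection_apply_mem _ _)) ?_
  rw [← map_sub, Submodule.mem_orthogonal]
  intro w hw
  have h1 : ρ a (ρ a⁻¹ w) = w := by
    rw [← Module.End.mul_apply, ← map_mul, mul_inv_cancel, map_one, Module.End.one_apply]
  rw [← h1, hρ]
  exact (Submodule.mem_orthogonal _ _).1 (Submodule.sub_starProjection_mem_orthogonal u) _
    (hV _ _ hw)

open Classical in
theorem HighEig_regR_single [Fintype G] (a c : G) :
    regR G a (EuclideanSpace.single c (1 : ℝ)) = EuclideanSpace.single (c * a⁻¹) 1 := by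
  ext x
  rw [regR_apply]
  simp only [PiLp.single_apply]
  congr 1
  exact propext (eq_mul_inv_iff_mul_eq).symm

open Classical in
theorem HighEig_regL_single [Fintype G] (a c : G) :
    regL G a (EuclideanSpace.single c (1 : ℝ)) = EuclideanSpace.single (a * c) 1 := by
  ext x
  rw [regL_apply]
  simp only [PiLp.single_apply]
  congr 1
  exact propext (inv_mul_eq_iff_eq_mul)

end HighEigAux

theorem high_eig {G : Type*} [Group G] [Fintype G] (g : G) (lam : ℝ)
    (V : Submodule ℝ (EuclideanSpace ℝ G)) (hV0 : V ≠ ⊥)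
    (hR : ∀ a : G, ∀ u ∈ V, regR G a u ∈ V) (hL : ∀ a : G, ∀ u ∈ V, regL G a u ∈ V)
    (hlam : ∀ u ∈ V, cavg (regR G) g u = lam • u) :
    lam ^ 2 * Module.finrank ℝ V ≤ Nat.card (Subgroup.centralizer ({g} : Set G)) := by
  classical
  set δ : G → EuclideanSpace ℝ G := fun c => EuclideanSpace.single c (1 : ℝ) with hδ
  have hRo : Orth (regR G) := permRep_orth _
  have hLo : Orth (regL G) := permRep_orth _
  have hPR := HighEig_proj_comm hRo V hR
  have hPL := HighEig_proj_comm hLo V hL
  have hδR : ∀ a c : G, regR G a (δ c) = δ (c * a⁻¹) := HighEig_regR_single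
  have hδL : ∀ a c : G, regL G a (δ c) = δ (a * c) := HighEig_regL_single
  set e : EuclideanSpace ℝ G := V.starProjection (δ 1) with he
  have heV : e ∈ V := Submodule.starProjection_apply_mem _ _
  have hin : ∀ (u : EuclideanSpace ℝ G) (c : G), inner ℝ (δ c) u = u c := by
    intro u c
    simp only [hδ]
    rw [EuclideanSpace.inner_single_left]
    simp
  have hPδ : ∀ c : G, V.starProjection (δ c) = regL G c e := by
    intro c
    rw [he, ← hPL, hδL, mul_one]
  -- e is a class function
  have hcl : ∀ h c : G, e (h⁻¹ * c * h) = e c := by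
    intro h c
    have h1 : regR G h (regL G h e) = e := by
      rw [he, ← hPL, ← hPR, hδL, hδR, mul_one, mul_inv_cancel]
    have h2 : (regR G h (regL G h e)) c = e c := by rw [h1]
    rw [regR_apply, regL_apply] at h2
    rw [mul_assoc]
    exact h2
  -- norm
  have hnorm : ∑ c, e c ^ 2 = e 1 := by
    have h1 : inner ℝ e e = e 1 := by
      have : inner ℝ (V.starProjection (δ 1)) e = inner ℝ (δ 1) (V.starProjection e) :=
        Submodule.inner_starProjection_left_eq_right V (δ 1) e
      rw [Submodule.starProjection_eq_self_iff.2 heV] at this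
      rw [← hin e 1, ← this]
    rw [← h1, PiLp.inner_apply]
    refine Finset.sum_congr rfl fun c _ => ?_
    simp [sq]
  -- inverse
  have hinv : e g⁻¹ = e g := by
    calc e g⁻¹ = inner ℝ (δ g⁻¹) e := (hin e g⁻¹).symm
      _ = inner ℝ (regL G g (δ g⁻¹)) (regL G g e) := (hLo g _ _).symm
      _ = inner ℝ (δ 1) (V.starProjection (δ g)) := by rw [hδL, mul_inv_cancel, hPδ]
      _ = inner ℝ (V.starProjection (δ 1)) (δ g) :=
        (Submodule.inner_starProjection_left_eq_right V (δ 1) (δ g)).symm
      _ = inner ℝ (δ g) e := real_inner_comm _ _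
      _ = e g := hin e g
  -- dimension
  have hdim : (Module.finrank ℝ V : ℝ) = Fintype.card G * e 1 := by
    have hproj : LinearMap.IsProj V (V.starProjection : EuclideanSpace ℝ G →ₗ[ℝ] _) :=
      ⟨fun x => Submodule.starProjection_apply_mem _ _,
        fun x hx => Submodule.starProjection_eq_self_iff.2 hx⟩
    rw [← hproj.trace, LinearMap.trace_eq_sum_inner _ (EuclideanSpace.basisFun G ℝ)]
    have : ∀ c : G, inner ℝ ((EuclideanSpace.basisFun G ℝ) c)
        ((V.starProjection : EuclideanSpace ℝ G →ₗ[ℝ] _) ((EuclideanSpace.basisFun G ℝ) c))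
        = e 1 := by
      intro c
      rw [EuclideanSpace.basisFun_apply]
      change inner ℝ (δ c) (V.starProjection (δ c)) = e 1
      have h1 : δ c = regL G c (δ 1) := by rw [hδL, mul_one]
      rw [h1, hPL, hLo, hin]
    rw [Finset.sum_congr rfl fun c _ => this c]
    simp
  -- evaluation at 1
  have heval : lam * e 1 = e g := by
    have h1 := congrArg (fun f : EuclideanSpace ℝ G => f 1) (hlam e heV)
    simp only [cavg] at h1
    have hcard : (Fintype.card G : ℝ) ≠ 0 := by
      have : 0 < Fintype.card G := Fintype.card_pos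
      positivity
    have h2 : ((2 * (Fintype.card G : ℝ))⁻¹ •
        ∑ z : G, (regR G (z⁻¹ * g * z) + regR G (z⁻¹ * g⁻¹ * z))) e 1 = e g := by
      rw [LinearMap.smul_apply, LinearMap.sum_apply]
      simp only [PiLp.smul_apply, smul_eq_mul, WithLp.ofLp_sum, Finset.sum_apply,
        LinearMap.add_apply, PiLp.add_apply, regR_apply, one_mul]
      rw [Finset.sum_congr rfl fun z _ => by rw [hcl z g, hcl z g⁻¹, hinv]]
      simp only [Finset.sum_const, Finset.card_univ, nsmul_eq_mul]
      field_simp
      ring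
    have h3 : (lam • e) 1 = lam * e 1 := rfl
    rw [← h3, ← h2]
    exact h1.symm
  -- class size
  have hfib : ∀ c : G, ((univ.filter fun z : G => z⁻¹ * g * z = c).card : ℝ) ≤
      Nat.card (Subgroup.centralizer ({g} : Set G)) := by
    intro c
    rw [Nat.card_eq_fintype_card]
    norm_cast
    rcases (univ.filter fun z : G => z⁻¹ * g * z = c).eq_empty_or_nonempty with h0 | ⟨z0, hz0⟩
    · rw [h0]; simp
    · rw [← Fintype.card_coe]
      have hz0' : z0⁻¹ * g * z0 = c := (Finset.mem_filter.1 hz0).2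
      refine Fintype.card_le_of_injective
        (fun z => (⟨z.1 * z0⁻¹, ?_⟩ : Subgroup.centralizer ({g} : Set G))) ?_
      · have hz : z.1⁻¹ * g * z.1 = c := (Finset.mem_filter.1 z.2).2
        rw [Subgroup.mem_centralizer_singleton_iff]
        have h1 : g * z.1 = z.1 * c := by
          calc g * z.1 = z.1 * (z.1⁻¹ * g * z.1) := by group
            _ = z.1 * c := by rw [hz]
        have h2 : g * z0 = z0 * c := by
          calc g * z0 = z0 * (z0⁻¹ * g * z0) := by group
            _ = z0 * c := by rw [hz0']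
        have h3 : c = z0⁻¹ * (g * z0) := by rw [h2]; group
        calc z.1 * z0⁻¹ * g = z.1 * (z0⁻¹ * (g * z0)) * z0⁻¹ := by group
          _ = z.1 * c * z0⁻¹ := by rw [← h3]
          _ = g * z.1 * z0⁻¹ := by rw [h1]
          _ = g * (z.1 * z0⁻¹) := by group
      · intro z z' hzz
        have := congrArg Subtype.val hzz
        simp only at this
        exact Subtype.ext (mul_right_cancel this)
  have hclass : (Fintype.card G : ℝ) * e g ^ 2 ≤
      Nat.card (Subgroup.centralizer ({g} : Set G)) * e 1 := by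
    have h1 : ∑ z : G, e (z⁻¹ * g * z) ^ 2 = Fintype.card G * e g ^ 2 := by
      rw [Finset.sum_congr rfl fun z _ => by rw [hcl z g]]
      simp
    have h2 : ∑ z : G, e (z⁻¹ * g * z) ^ 2 =
        ∑ c : G, ((univ.filter fun z : G => z⁻¹ * g * z = c).card : ℝ) * e c ^ 2 := by
      rw [← Finset.sum_fiberwise_of_maps_to (s := univ) (t := univ)
        (g := fun z : G => z⁻¹ * g * z) (fun _ _ => Finset.mem_univ _)]
      refine Finset.sum_congr rfl fun c _ => ?_
      rw [Finset.sum_congr rfl (g := fun _ => e c ^ 2)]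
      · simp
      · intro z hz
        rw [(Finset.mem_filter.1 hz).2]
    rw [← h1, h2, ← hnorm, Finset.mul_sum]
    exact Finset.sum_le_sum fun c _ => mul_le_mul_of_nonneg_right (hfib c) (sq_nonneg _)
  have hcardpos : 0 < (Fintype.card G : ℝ) := by
    have : 0 < Fintype.card G := Fintype.card_pos
    positivity
  have hfr : 0 < (Module.finrank ℝ V : ℝ) := by
    have := Submodule.one_le_finrank_iff.2 hV0
    exact_mod_cast this
  have he1 : 0 < e 1 := by
    rw [hdim] at hfr
    exact (pos_iff_pos_of_mul_pos hfr).1 hcardpos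
  rw [hdim]
  rw [← heval] at hclass
  have : (lam ^ 2 * (Fintype.card G * e 1)) * e 1 ≤
      Nat.card (Subgroup.centralizer ({g} : Set G)) * e 1 := by
    calc (lam ^ 2 * (Fintype.card G * e 1)) * e 1 = Fintype.card G * (lam * e 1) ^ 2 := by ring
      _ ≤ _ := hclass
  exact le_of_mul_le_mul_right this he1

end Pool.Agent.RCG
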