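import Pool.Agent.W_MP_6acff7_h70.Blocks

/-!
# A representation without vectors of low level has exponential dimension

PROOF.  For a family `q : Fin r → (Fin 4 ↪ Fin n)` with disjoint ranges let
`Y(q) = {u ∈ V | ∀ i, u + ρ(dt1 (q i))u + ρ(dt2 (q i))u + ρ(dt3 (q i))u = 0}`.
Let `r` be maximal such that `Y(q) ≠ ⊥` for some such family (`r = 0` works since `V ≠ ⊥`; `4 r ≤ n`).
`dim_blocks` applies to `Y(q)`: it is invariant under elements `g` supported on block `i`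
(`g` normalises the Klein four group of its own block and commutes with those of the other blocks:
`ρ g` maps the kernel of `1 + dt1 + dt2 + dt3` to itself since conjugation by `g` permutes
`{dt1, dt2, dt3}`), so `3^r ≤ finrank Y(q) ≤ finrank V`.
It remains to see `b0 / 4 ≤ r`.  Let `0 ≠ u ∈ Y(q)`, `U` = union of the ranges, `|U| = 4r`.
Let `q'` be an injective 4-tuple with values outside `U`, `P = (1 + dt1 + dt2 + dt3)/4` for `q'`.
`u - P u` is in `V`, satisfies the conditions for the blocks `q i` (`P` commutes with them) and for `q'`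
(`P² = P`), so by maximality of `r` it is `0`: `u = P u` and `ρ(dt1 q') u = u`.
If `4r + 5 ≤ n`: by `fixedBy_of_double` `u` is fixed by the stabiliser of `U`, so by `hno` `4r > b0`.
Otherwise `4r ≥ n - 4 ≥ b0`.  In both cases `r ≥ b0/4`.
-/

open Finset

namespace Pool.Agent.RCG

private def HD_p1 : Equiv.Perm (Fin 4) := Equiv.swap 0 1 * Equiv.swap 2 3
private def HD_p2 : Equiv.Perm (Fin 4) := Equiv.swap 0 2 * Equiv.swap 1 3
private def HD_p3 : Equiv.Perm (Fin 4) := Equiv.swap 0 3 * Equiv.swap 1 2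

private theorem HD_dt1 {n : ℕ} (q : Fin 4 ↪ Fin n) (k : Fin 4) :
    (dt1 q).1 (q k) = q (HD_p1 k) := by
  simp only [dt1, Equiv.Perm.mul_apply, HD_p1]
  rw [q.injective.swap_apply, q.injective.swap_apply]

private theorem HD_dt2 {n : ℕ} (q : Fin 4 ↪ Fin n) (k : Fin 4) :
    (dt2 q).1 (q k) = q (HD_p2 k) := by
  simp only [dt2, Equiv.Perm.mul_apply, HD_p2]
  rw [q.injective.swap_apply, q.injective.swap_apply]

private theorem HD_dt3 {n : ℕ} (q : Fin 4 ↪ Fin n) (k : Fin 4) :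
    (dt3 q).1 (q k) = q (HD_p3 k) := by
  simp only [dt3, Equiv.Perm.mul_apply, HD_p3]
  rw [q.injective.swap_apply, q.injective.swap_apply]

private theorem HD_off1 {n : ℕ} (q : Fin 4 ↪ Fin n) (p : Fin n) (hp : ∀ k, q k ≠ p) :
    (dt1 q).1 p = p := by
  simp only [dt1, Equiv.Perm.mul_apply]
  rw [Equiv.swap_apply_of_ne_of_ne (hp 2).symm (hp 3).symm,
    Equiv.swap_apply_of_ne_of_ne (hp 0).symm (hp 1).symm]

private theorem HD_off2 {n : ℕ} (q : Fin 4 ↪ Fin n) (p : Fin n) (hp : ∀ k, q k ≠ p) :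
    (dt2 q).1 p = p := by
  simp only [dt2, Equiv.Perm.mul_apply]
  rw [Equiv.swap_apply_of_ne_of_ne (hp 1).symm (hp 3).symm,
    Equiv.swap_apply_of_ne_of_ne (hp 0).symm (hp 2).symm]

private theorem HD_off3 {n : ℕ} (q : Fin 4 ↪ Fin n) (p : Fin n) (hp : ∀ k, q k ≠ p) :
    (dt3 q).1 p = p := by
  simp only [dt3, Equiv.Perm.mul_apply]
  rw [Equiv.swap_apply_of_ne_of_ne (hp 1).symm (hp 2).symm,
    Equiv.swap_apply_of_ne_of_ne (hp 0).symm (hp 3).symm]

/-- action of an element through a permutation of the four indices -/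
private def HD_via {n : ℕ} (q : Fin 4 ↪ Fin n) (g : A n) (a : Equiv.Perm (Fin 4)) : Prop :=
  (∀ k, g.1 (q k) = q (a k)) ∧ ∀ p, (∀ k, q k ≠ p) → g.1 p = p

private theorem HD_via_ext {n : ℕ} {q : Fin 4 ↪ Fin n} {g h : A n} {a b : Equiv.Perm (Fin 4)}
    (hg : HD_via q g a) (hh : HD_via q h b) (hab : a = b) : g = h := by
  subst hab
  apply Subtype.ext
  apply Equiv.ext
  intro p
  by_cases hp : ∃ k, q k = p
  · obtain ⟨k, rfl⟩ := hp
    rw [hg.1, hh.1]
  · have hp' : ∀ k, q k ≠ p := fun k hk => hp ⟨k, hk⟩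
    rw [hg.2 p hp', hh.2 p hp']

private theorem HD_via_mul {n : ℕ} {q : Fin 4 ↪ Fin n} {g h : A n} {a b : Equiv.Perm (Fin 4)}
    (hg : HD_via q g a) (hh : HD_via q h b) : HD_via q (g * h) (a * b) := by
  constructor
  · intro k
    have h1 : (g * h).1 (q k) = g.1 (h.1 (q k)) := rfl
    rw [h1, hh.1, hg.1]
    rfl
  · intro p hp
    have h1 : (g * h).1 p = g.1 (h.1 p) := rfl
    rw [h1, hh.2 p hp, hg.2 p hp]

private theorem HD_via_inv {n : ℕ} {q : Fin 4 ↪ Fin n} {g : A n} {a : Equiv.Perm (Fin 4)}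
    (hg : HD_via q g a) : HD_via q g⁻¹ a⁻¹ := by
  have h0 : ∀ p, g⁻¹.1 (g.1 p) = p := fun p => by
    have h1 : g⁻¹.1 (g.1 p) = (g⁻¹ * g).1 p := rfl
    rw [h1, inv_mul_cancel]
    rfl
  constructor
  · intro k
    have h1 := hg.1 (a⁻¹ k)
    have h2 : a (a⁻¹ k) = k := Equiv.apply_symm_apply a k
    rw [h2] at h1
    rw [← h1, h0]
  · intro p hp
    have h1 := h0 p
    rw [hg.2 p hp] at h1
    exact h1

private theorem HD_via_one {n : ℕ} (q : Fin 4 ↪ Fin n) : HD_via q (1 : A n) 1 :=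
  ⟨fun _ => rfl, fun _ _ => rfl⟩

private theorem HD_via1 {n : ℕ} (q : Fin 4 ↪ Fin n) : HD_via q (dt1 q) HD_p1 :=
  ⟨HD_dt1 q, HD_off1 q⟩

private theorem HD_via2 {n : ℕ} (q : Fin 4 ↪ Fin n) : HD_via q (dt2 q) HD_p2 :=
  ⟨HD_dt2 q, HD_off2 q⟩

private theorem HD_via3 {n : ℕ} (q : Fin 4 ↪ Fin n) : HD_via q (dt3 q) HD_p3 :=
  ⟨HD_dt3 q, HD_off3 q⟩

private theorem HD_exists_via {n : ℕ} (q : Fin 4 ↪ Fin n) (g : A n)
    (hg : ∀ p, (∀ k, q k ≠ p) → g.1 p = p) : ∃ a, HD_via q g a := by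
  have h1 : ∀ k, ∃ k', q k' = g.1 (q k) := by
    intro k
    by_contra hcon
    have h2 : ∀ k', q k' ≠ g.1 (q k) := fun k' hk' => hcon ⟨k', hk'⟩
    have h3 := g.1.injective (hg _ h2)
    exact h2 k h3.symm
  choose f hf using h1
  have hfi : Function.Injective f := by
    intro k k' hkk
    have h2 := hf k
    rw [hkk, hf k'] at h2
    exact (q.injective (g.1.injective h2)).symm
  refine ⟨Equiv.ofBijective f (Finite.injective_iff_bijective.1 hfi), fun k => ?_, hg⟩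
  rw [Equiv.ofBijective_apply, hf]

private theorem HD_table : ∀ a : Equiv.Perm (Fin 4),
    (a⁻¹ * HD_p1 * a = HD_p1 ∧ a⁻¹ * HD_p2 * a = HD_p2 ∧ a⁻¹ * HD_p3 * a = HD_p3) ∨
    (a⁻¹ * HD_p1 * a = HD_p1 ∧ a⁻¹ * HD_p2 * a = HD_p3 ∧ a⁻¹ * HD_p3 * a = HD_p2) ∨
    (a⁻¹ * HD_p1 * a = HD_p2 ∧ a⁻¹ * HD_p2 * a = HD_p1 ∧ a⁻¹ * HD_p3 * a = HD_p3) ∨
    (a⁻¹ * HD_p1 * a = HD_p2 ∧ a⁻¹ * HD_p2 * a = HD_p3 ∧ a⁻¹ * HD_p3 * a = HD_p1) ∨
    (a⁻¹ * HD_p1 * a = HD_p3 ∧ a⁻¹ * HD_p2 * a = HD_p1 ∧ a⁻¹ * HD_p3 * a = HD_p2) ∨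
    (a⁻¹ * HD_p1 * a = HD_p3 ∧ a⁻¹ * HD_p2 * a = HD_p2 ∧ a⁻¹ * HD_p3 * a = HD_p1) := by
  decide

private noncomputable def HD_S {n : ℕ} {E : Type*} [NormedAddCommGroup E] [InnerProductSpace ℝ E]
    (ρ : A n →* Module.End ℝ E) (q : Fin 4 ↪ Fin n) : Module.End ℝ E :=
  1 + ρ (dt1 q) + ρ (dt2 q) + ρ (dt3 q)

private theorem HD_S_apply {n : ℕ} {E : Type*} [NormedAddCommGroup E] [InnerProductSpace ℝ E]
    (ρ : A n →* Module.End ℝ E) (q : Fin 4 ↪ Fin n) (u : E) :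
    HD_S ρ q u = u + ρ (dt1 q) u + ρ (dt2 q) u + ρ (dt3 q) u := rfl

private theorem HD_S_mul1 {n : ℕ} {E : Type*} [NormedAddCommGroup E] [InnerProductSpace ℝ E]
    (ρ : A n →* Module.End ℝ E) (q : Fin 4 ↪ Fin n) : ρ (dt1 q) * HD_S ρ q = HD_S ρ q := by
  have e1 : dt1 q * dt1 q = 1 :=
    HD_via_ext (HD_via_mul (HD_via1 q) (HD_via1 q)) (HD_via_one q) (by decide)
  have e2 : dt1 q * dt2 q = dt3 q :=
    HD_via_ext (HD_via_mul (HD_via1 q) (HD_via2 q)) (HD_via3 q) (by decide)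
  have e3 : dt1 q * dt3 q = dt2 q :=
    HD_via_ext (HD_via_mul (HD_via1 q) (HD_via3 q)) (HD_via2 q) (by decide)
  rw [HD_S, mul_add, mul_add, mul_add, mul_one, ← map_mul, ← map_mul, ← map_mul, e1, e2, e3,
    map_one]
  abel

private theorem HD_S_mul2 {n : ℕ} {E : Type*} [NormedAddCommGroup E] [InnerProductSpace ℝ E]
    (ρ : A n →* Module.End ℝ E) (q : Fin 4 ↪ Fin n) : ρ (dt2 q) * HD_S ρ q = HD_S ρ q := by
  have e1 : dt2 q * dt1 q = dt3 q :=
    HD_via_ext (HD_via_mul (HD_via2 q) (HD_via1 q)) (HD_via3 q) (by decide)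
  have e2 : dt2 q * dt2 q = 1 :=
    HD_via_ext (HD_via_mul (HD_via2 q) (HD_via2 q)) (HD_via_one q) (by decide)
  have e3 : dt2 q * dt3 q = dt1 q :=
    HD_via_ext (HD_via_mul (HD_via2 q) (HD_via3 q)) (HD_via1 q) (by decide)
  rw [HD_S, mul_add, mul_add, mul_add, mul_one, ← map_mul, ← map_mul, ← map_mul, e1, e2, e3,
    map_one]
  abel

private theorem HD_S_mul3 {n : ℕ} {E : Type*} [NormedAddCommGroup E] [InnerProductSpace ℝ E]
    (ρ : A n →* Module.End ℝ E) (q : Fin 4 ↪ Fin n) : ρ (dt3 q) * HD_S ρ q = HD_S ρ q := by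
  have e1 : dt3 q * dt1 q = dt2 q :=
    HD_via_ext (HD_via_mul (HD_via3 q) (HD_via1 q)) (HD_via2 q) (by decide)
  have e2 : dt3 q * dt2 q = dt1 q :=
    HD_via_ext (HD_via_mul (HD_via3 q) (HD_via2 q)) (HD_via1 q) (by decide)
  have e3 : dt3 q * dt3 q = 1 :=
    HD_via_ext (HD_via_mul (HD_via3 q) (HD_via3 q)) (HD_via_one q) (by decide)
  rw [HD_S, mul_add, mul_add, mul_add, mul_one, ← map_mul, ← map_mul, ← map_mul, e1, e2, e3,
    map_one]
  abel

private theorem HD_S_sq {n : ℕ} {E : Type*} [NormedAddCommGroup E] [InnerProductSpace ℝ E]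
    (ρ : A n →* Module.End ℝ E) (q : Fin 4 ↪ Fin n) (u : E) :
    HD_S ρ q (HD_S ρ q u) = (4 : ℝ) • HD_S ρ q u := by
  have h1 : ρ (dt1 q) (HD_S ρ q u) = HD_S ρ q u :=
    congrArg (fun T : Module.End ℝ E => T u) (HD_S_mul1 ρ q)
  have h2 : ρ (dt2 q) (HD_S ρ q u) = HD_S ρ q u :=
    congrArg (fun T : Module.End ℝ E => T u) (HD_S_mul2 ρ q)
  have h3 : ρ (dt3 q) (HD_S ρ q u) = HD_S ρ q u :=
    congrArg (fun T : Module.End ℝ E => T u) (HD_S_mul3 ρ q)
  rw [HD_S_apply ρ q (HD_S ρ q u), h1, h2, h3]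
  module

private theorem HD_S_conj {n : ℕ} {E : Type*} [NormedAddCommGroup E] [InnerProductSpace ℝ E]
    (ρ : A n →* Module.End ℝ E) (q : Fin 4 ↪ Fin n) (g : A n) :
    HD_S ρ q * ρ g = ρ g * (1 + ρ (g⁻¹ * dt1 q * g) + ρ (g⁻¹ * dt2 q * g) +
      ρ (g⁻¹ * dt3 q * g)) := by
  have e : ∀ x : A n, g * (g⁻¹ * x * g) = x * g := fun x => by group
  rw [HD_S, mul_add, mul_add, mul_add, mul_one, ← map_mul, ← map_mul, ← map_mul, e, e, e,
    add_mul, add_mul, add_mul, one_mul, ← map_mul, ← map_mul, ← map_mul]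

private theorem HD_S_comm {n : ℕ} {E : Type*} [NormedAddCommGroup E] [InnerProductSpace ℝ E]
    (ρ : A n →* Module.End ℝ E) (q : Fin 4 ↪ Fin n) (g : A n) (hg : ∀ k, g.1 (q k) = q k) :
    HD_S ρ q * ρ g = ρ g * HD_S ρ q := by
  have key : ∀ h : A n, (∀ p, (∀ k, q k ≠ p) → h.1 p = p) → g⁻¹ * h * g = h := by
    intro h hh
    have hc : h * g = g * h := by
      apply Subtype.ext
      refine Equiv.Perm.Disjoint.commute (f := h.1) (g := g.1) fun p => ?_
      by_cases hp : ∃ k, q k = p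
      · obtain ⟨k, rfl⟩ := hp
        exact Or.inr (hg k)
      · exact Or.inl (hh p fun k hk => hp ⟨k, hk⟩)
    rw [mul_assoc, hc, inv_mul_cancel_left]
  rw [HD_S_conj, key _ (HD_off1 q), key _ (HD_off2 q), key _ (HD_off3 q), HD_S]

private theorem HD_S_inv {n : ℕ} {E : Type*} [NormedAddCommGroup E] [InnerProductSpace ℝ E]
    (ρ : A n →* Module.End ℝ E) (q : Fin 4 ↪ Fin n) (g : A n)
    (hg : ∀ p, (∀ k, q k ≠ p) → g.1 p = p) : HD_S ρ q * ρ g = ρ g * HD_S ρ q := by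
  obtain ⟨a, ha⟩ := HD_exists_via q g hg
  have k1 := HD_via_mul (HD_via_mul (HD_via_inv ha) (HD_via1 q)) ha
  have k2 := HD_via_mul (HD_via_mul (HD_via_inv ha) (HD_via2 q)) ha
  have k3 := HD_via_mul (HD_via_mul (HD_via_inv ha) (HD_via3 q)) ha
  rw [HD_S_conj, HD_S]
  congr 1
  rcases HD_table a with ⟨h1, h2, h3⟩ | ⟨h1, h2, h3⟩ | ⟨h1, h2, h3⟩ | ⟨h1, h2, h3⟩ |
    ⟨h1, h2, h3⟩ | ⟨h1, h2, h3⟩
  · rw [HD_via_ext k1 (HD_via1 q) h1, HD_via_ext k2 (HD_via2 q) h2, HD_via_ext k3 (HD_via3 q) h3]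
  · rw [HD_via_ext k1 (HD_via1 q) h1, HD_via_ext k2 (HD_via3 q) h2, HD_via_ext k3 (HD_via2 q) h3]
    abel
  · rw [HD_via_ext k1 (HD_via2 q) h1, HD_via_ext k2 (HD_via1 q) h2, HD_via_ext k3 (HD_via3 q) h3]
    abel
  · rw [HD_via_ext k1 (HD_via2 q) h1, HD_via_ext k2 (HD_via3 q) h2, HD_via_ext k3 (HD_via1 q) h3]
    abel
  · rw [HD_via_ext k1 (HD_via3 q) h1, HD_via_ext k2 (HD_via1 q) h2, HD_via_ext k3 (HD_via2 q) h3]
    abel
  · rw [HD_via_ext k1 (HD_via3 q) h1, HD_via_ext k2 (HD_via2 q) h2, HD_via_ext k3 (HD_via1 q) h3]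
    abel

/-- `r` disjoint blocks and a nonzero vector of `V` without invariants under the Klein groups. -/
private def HD_P {n : ℕ} {E : Type*} [NormedAddCommGroup E] [InnerProductSpace ℝ E]
    (ρ : A n →* Module.End ℝ E) (V : Submodule ℝ E) (r : ℕ) : Prop :=
  ∃ q : Fin r → (Fin 4 ↪ Fin n), (∀ i i', i ≠ i' → ∀ k k', q i k ≠ q i' k') ∧
    ∃ u ∈ V, u ≠ 0 ∧ ∀ i, HD_S ρ (q i) u = 0

private theorem HD_inj {n r : ℕ} (q : Fin r → (Fin 4 ↪ Fin n))
    (hq : ∀ i i', i ≠ i' → ∀ k k', q i k ≠ q i' k') :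
    Function.Injective fun x : Fin r × Fin 4 => q x.1 x.2 := by
  rintro ⟨i, k⟩ ⟨i', k'⟩ h
  by_cases hi : i = i'
  · subst hi
    have := (q i).injective h
    simp only at this
    rw [this]
  · exact absurd h (hq i i' hi k k')

theorem high_dim {n : ℕ} {E : Type*} [NormedAddCommGroup E] [InnerProductSpace ℝ E]
    [FiniteDimensional ℝ E] {ρ : A n →* Module.End ℝ E} (hρ : Orth ρ) (V : Submodule ℝ E)
    (hV : ∀ g : A n, ∀ u ∈ V, ρ g u ∈ V) (hV0 : V ≠ ⊥) (b0 : ℕ) (hb0 : b0 + 4 ≤ n)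
    (hno : ∀ B : Finset (Fin n), B.card ≤ b0 → ∀ u ∈ V, FixedBy ρ B u → u = 0) :
    3 ^ (b0 / 4) ≤ Module.finrank ℝ V := by
  classical
  have hP0 : HD_P ρ V 0 := by
    obtain ⟨u, hu, hu0⟩ := (Submodule.ne_bot_iff V).1 hV0
    exact ⟨fun i => i.elim0, fun i => i.elim0, u, hu, hu0, fun i => i.elim0⟩
  have hPb : ∀ r, HD_P ρ V r → r * 4 ≤ n := by
    rintro r ⟨q, hq, -⟩
    have := Fintype.card_le_of_injective _ (HD_inj q hq)
    simpa using this
  obtain ⟨r, hr, hmax⟩ : ∃ r, HD_P ρ V r ∧ ¬ HD_P ρ V (r + 1) := by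
    refine ⟨Nat.findGreatest (HD_P ρ V) n, Nat.findGreatest_spec (Nat.zero_le n) hP0, fun h => ?_⟩
    have h1 := hPb _ h
    exact Nat.findGreatest_is_greatest (Nat.lt_succ_self _) (by omega) h
  obtain ⟨q, hq, u, huV, hu0, hu⟩ := hr
  -- the subspace `Y`
  let Y : Submodule ℝ E := V ⊓ ⨅ i, LinearMap.ker (HD_S ρ (q i))
  have hYmem : ∀ v, v ∈ Y ↔ v ∈ V ∧ ∀ i, HD_S ρ (q i) v = 0 := by
    intro v
    simp [Y, Submodule.mem_inf, Submodule.mem_iInf, LinearMap.mem_ker]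
  have h3 : 3 ^ r ≤ Module.finrank ℝ Y := by
    refine dim_blocks hρ r q hq Y ?_ ?_ ?_
    · intro hbot
      have : u ∈ Y := (hYmem u).2 ⟨huV, hu⟩
      rw [hbot, Submodule.mem_bot] at this
      exact hu0 this
    · intro i g hg v hv
      obtain ⟨hvV, hv1⟩ := (hYmem v).1 hv
      refine (hYmem _).2 ⟨hV g v hvV, fun j => ?_⟩
      have hcomm : HD_S ρ (q j) * ρ g = ρ g * HD_S ρ (q j) := by
        by_cases hij : i = j
        · subst hij
          exact HD_S_inv ρ (q i) g hg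
        · exact HD_S_comm ρ (q j) g fun k => hg _ fun k' => hq i j hij k' k
      have h4 := congrArg (fun T : Module.End ℝ E => T v) hcomm
      simp only [Module.End.mul_apply] at h4
      rw [h4, hv1 j, map_zero]
    · intro i v hv
      have h4 := ((hYmem v).1 hv).2 i
      rwa [HD_S_apply] at h4
  have h5 : 3 ^ r ≤ Module.finrank ℝ V := h3.trans (Submodule.finrank_mono inf_le_left)
  -- the fixed vector
  let U : Finset (Fin n) := Finset.univ.image fun x : Fin r × Fin 4 => q x.1 x.2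
  have hUc : U.card = r * 4 := by
    rw [Finset.card_image_of_injective _ (HD_inj q hq)]
    simp
  have hUm : ∀ i k, q i k ∈ U := fun i k =>
    Finset.mem_image.2 ⟨(i, k), Finset.mem_univ _, rfl⟩
  have hfix : ∀ q' : Fin 4 ↪ Fin n, (∀ k, q' k ∉ U) → ρ (dt1 q') u = u := by
    intro q' hq'
    have hne : ∀ i k k', q i k ≠ q' k' := fun i k k' h => hq' k' (h ▸ hUm i k)
    have hw : u - (4 : ℝ)⁻¹ • HD_S ρ q' u = 0 := by
      by_contra hw0
      apply hmax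
      refine ⟨Fin.cons q' q, ?_, u - (4 : ℝ)⁻¹ • HD_S ρ q' u, ?_, hw0, ?_⟩
      · intro i
        refine Fin.cases ?_ (fun i => ?_) i
        · intro i'
          refine Fin.cases ?_ (fun i' => ?_) i'
          · intro h
            exact absurd rfl h
          · intro _ k k'
            simp only [Fin.cons_zero, Fin.cons_succ]
            exact (hne i' k' k).symm
        · intro i'
          refine Fin.cases ?_ (fun i' => ?_) i'
          · intro _ k k'
            simp only [Fin.cons_zero, Fin.cons_succ]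
            exact hne i k k'
          · intro h k k'
            simp only [Fin.cons_succ]
            exact hq i i' (fun e => h (by rw [e])) k k'
      · refine V.sub_mem huV (V.smul_mem _ ?_)
        rw [HD_S_apply]
        exact V.add_mem (V.add_mem (V.add_mem huV (hV _ _ huV)) (hV _ _ huV)) (hV _ _ huV)
      · intro i
        refine Fin.cases ?_ (fun i => ?_) i
        · simp only [Fin.cons_zero]
          rw [map_sub, map_smul, HD_S_sq, smul_smul, inv_mul_cancel₀ (by norm_num), one_smul,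
            sub_self]
        · simp only [Fin.cons_succ]
          have hc : ∀ h : A n, (∀ p, (∀ k, q' k ≠ p) → h.1 p = p) →
              HD_S ρ (q i) (ρ h u) = 0 := by
            intro h hh
            have h6 := HD_S_comm ρ (q i) h fun k => hh _ fun k' => (hne i k k').symm
            have h7 := congrArg (fun T : Module.End ℝ E => T u) h6
            simp only [Module.End.mul_apply] at h7
            rw [h7, hu i, map_zero]
          rw [map_sub, hu i, map_smul, HD_S_apply ρ q' u, map_add, map_add, map_add, hu i,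
            hc _ (HD_off1 q'), hc _ (HD_off2 q'), hc _ (HD_off3 q')]
          simp
    have h8 : u = (4 : ℝ)⁻¹ • HD_S ρ q' u := sub_eq_zero.1 hw
    have h9 : ρ (dt1 q') (HD_S ρ q' u) = HD_S ρ q' u :=
      congrArg (fun T : Module.End ℝ E => T u) (HD_S_mul1 ρ q')
    rw [h8, map_smul, ← h8, h9]
    exact h8.symm
  have hr4 : b0 / 4 ≤ r := by
    by_cases h10 : U.card + 5 ≤ n
    · have h11 := fixedBy_of_double ρ U h10 u hfix
      have h12 : ¬ U.card ≤ b0 := fun h => hu0 (hno U h u huV h11)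
      omega
    · omega
  exact (Nat.pow_le_pow_right (by norm_num) hr4).trans h5

end Pool.Agent.RCG
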