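import Pool.Agent.W_MP_6acff7_h70.CountFix

/-!
# How often a random conjugate of `g` maps `B` mostly into `B`

`exists_indep`: take `Q ⊆ S` of maximal cardinality with `∀ p ∈ Q, v p ∉ Q`.  For `p ∈ S \ Q` the set
`insert p Q` violates the condition, so (as `v p ≠ p`) `v p ∈ Q` or `p = v p'` with `p' ∈ Q`.
So `S ⊆ Q ∪ v(Q) ∪ v⁻¹(Q)` and `|S| ≤ 3|Q|`.

`count_bound`.  `v = z⁻¹ g z`, `X = #{p ∈ B | v p ∈ B}`, so `|vB \ B| = b - X`.
* If `2X < b`, then `2|vB \ B| > b` and `η^{|vB \ B|} ≤ κ^{12|vB \ B|} ≤ κ^{6b} ≤ κ^b`.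
* Otherwise the value is at most 1, and `4 #{p ∈ B | v p = p} ≥ b` or
  `4 #S ≥ b`, `S = {p ∈ B | v p ∈ B, v p ≠ p}`.
  (a) first case: `v` fixes pointwise some `Q ⊆ B` with `|Q| = a := ⌈b/4⌉`; by `card_fix_set` and
      at most `2^b` choices of `Q` the number of such `z` is at most
      `2^b (κ^12)^a |A n| ≤ 2^b κ^b |A n|`.
  (b) second case: by `exists_indep` there is `Q ⊆ B`, `|Q| = a := ⌈b/12⌉`, `v Q ⊆ B \ Q`; by
      `card_move_set` the number is at most `2^b (2b/n)^a |A n| ≤ 2^b (κ^12)^a |A n|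
      ≤ 2^b κ^b |A n|`, since `12 a ≥ b`.
Total `≤ (1 + 2·2^b) κ^b |A n| ≤ 3·2^b κ^b |A n| ≤ (6κ)^b |A n|` as `b ≥ 1`.
-/

open Finset

namespace Pool.Agent.RCG

theorem exists_indep {α : Type*} [DecidableEq α] (v : Equiv.Perm α) (S : Finset α)
    (hS : ∀ p ∈ S, v p ≠ p) :
    ∃ Q ⊆ S, S.card ≤ 3 * Q.card ∧ ∀ p ∈ Q, v p ∉ Q := by
  obtain ⟨Q, hQ, hmax⟩ := Finset.exists_max_image
    ((S.powerset).filter fun Q => ∀ p ∈ Q, v p ∉ Q) Finset.card ⟨∅, by simp⟩
  rw [mem_filter, mem_powerset] at hQ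
  refine ⟨Q, hQ.1, ?_, hQ.2⟩
  have hsub : S ⊆ Q ∪ (Q.map v.toEmbedding) ∪ (Q.map v.symm.toEmbedding) := by
    intro p hp
    by_contra hcon
    rw [mem_union, mem_union] at hcon
    push Not at hcon
    obtain ⟨⟨h1, h2⟩, h3⟩ := hcon
    have h4 := hmax (insert p Q) (by
      rw [mem_filter, mem_powerset]
      refine ⟨insert_subset hp hQ.1, ?_⟩
      intro q hq
      rcases mem_insert.1 hq with rfl | hq
      · intro h5
        rcases mem_insert.1 h5 with h6 | h6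
        · exact hS _ hp h6
        · exact h3 (mem_map.2 ⟨v q, h6, by simp⟩)
      · intro h5
        rcases mem_insert.1 h5 with h6 | h6
        · exact h2 (mem_map.2 ⟨q, hq, h6⟩)
        · exact hQ.2 q hq h6)
    rw [card_insert_of_notMem h1] at h4
    omega
  have h5 := card_le_card hsub
  have h6 := card_union_le (Q ∪ (Q.map v.toEmbedding)) (Q.map v.symm.toEmbedding)
  have h7 := card_union_le Q (Q.map v.toEmbedding)
  rw [card_map] at h6 h7
  omega

theorem Count_pow {κ x : ℝ} (hκ0 : 0 < κ) (hκ1 : κ ≤ 1) {a b : ℕ} (hab : b ≤ 12 * a)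
    (hx0 : 0 ≤ x) (hx : x ≤ κ ^ 12) : x ^ a ≤ κ ^ b := by
  calc x ^ a ≤ (κ ^ 12) ^ a := pow_le_pow_left₀ hx0 hx a
    _ = κ ^ (12 * a) := by rw [pow_mul]
    _ ≤ κ ^ b := pow_le_pow_of_le_one hκ0.le hκ1 hab

theorem Count_point {n b : ℕ} (B : Finset (Fin n)) (hB : B.card = b)
    (v : Equiv.Perm (Fin n)) (κ η : ℝ) (hκ0 : 0 < κ) (hκ1 : κ ≤ 1) (hη0 : 0 ≤ η)
    (hη : η ≤ κ ^ 12) :
    η ^ ((B.map v.toEmbedding) \ B).card ≤ κ ^ b +
      ∑ Q ∈ B.powersetCard ((b + 3) / 4), (if ∀ p ∈ Q, v p = p then (1 : ℝ) else 0) +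
      ∑ Q ∈ B.powersetCard ((b + 11) / 12), (if ∀ p ∈ Q, v p ∈ B \ Q then (1 : ℝ) else 0) := by
  classical
  have hs1 : 0 ≤ ∑ Q ∈ B.powersetCard ((b + 3) / 4),
      (if ∀ p ∈ Q, v p = p then (1 : ℝ) else 0) :=
    Finset.sum_nonneg fun Q _ => by split_ifs <;> norm_num
  have hs2 : 0 ≤ ∑ Q ∈ B.powersetCard ((b + 11) / 12),
      (if ∀ p ∈ Q, v p ∈ B \ Q then (1 : ℝ) else 0) :=
    Finset.sum_nonneg fun Q _ => by split_ifs <;> norm_num
  have hη1 : η ≤ 1 := hη.trans (pow_le_one₀ hκ0.le hκ1)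
  have hle1 : η ^ ((B.map v.toEmbedding) \ B).card ≤ 1 := pow_le_one₀ hη0 hη1
  have hκb : 0 ≤ κ ^ b := by positivity
  -- the number of points of `B` mapped into `B`
  set X := B.filter fun p => v p ∈ B with hX
  have hcard : ((B.map v.toEmbedding) \ B).card + X.card = b := by
    have h1 : ((B.map v.toEmbedding) \ B) = (B.filter fun p => v p ∉ B).map v.toEmbedding := by
      ext q
      simp only [mem_sdiff, mem_map, Equiv.coe_toEmbedding, mem_filter]
      constructor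
      · rintro ⟨⟨p, hp, rfl⟩, hq⟩
        exact ⟨p, ⟨hp, hq⟩, rfl⟩
      · rintro ⟨p, ⟨hp, hq⟩, rfl⟩
        exact ⟨⟨p, hp, rfl⟩, hq⟩
    rw [h1, card_map, hX, add_comm, ← hB]
    exact Finset.card_filter_add_card_filter_not _
  by_cases hbig : 2 * X.card < b
  · have h1 : η ^ ((B.map v.toEmbedding) \ B).card ≤ κ ^ b :=
      Count_pow hκ0 hκ1 (by omega) hη0 hη
    linarith
  · push Not at hbig
    -- fixed and moved points
    set F := X.filter fun p => v p = p with hF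
    set S := X.filter fun p => ¬ v p = p with hS
    have hFS : F.card + S.card = X.card := Finset.card_filter_add_card_filter_not _
    by_cases hFb : b ≤ 4 * F.card
    · obtain ⟨Q, hQF, hQc⟩ := Finset.exists_subset_card_eq
        (show (b + 3) / 4 ≤ F.card by omega)
      have hQB : Q ∈ B.powersetCard ((b + 3) / 4) := by
        rw [mem_powersetCard]
        refine ⟨fun p hp => ?_, hQc⟩
        exact (mem_filter.1 (mem_filter.1 (hQF hp)).1).1
      have h2 : (1 : ℝ) ≤ ∑ Q ∈ B.powersetCard ((b + 3) / 4),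
          (if ∀ p ∈ Q, v p = p then (1 : ℝ) else 0) := by
        calc (1 : ℝ) = (if ∀ p ∈ Q, v p = p then (1 : ℝ) else 0) := by
              rw [if_pos]
              intro p hp
              exact (mem_filter.1 (hQF hp)).2
          _ ≤ _ := Finset.single_le_sum
              (f := fun Q : Finset (Fin n) => (if ∀ p ∈ Q, v p = p then (1 : ℝ) else 0))
              (fun Q _ => by split_ifs <;> norm_num) hQB
      linarith
    · have hSb : b ≤ 4 * S.card := by omega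
      obtain ⟨Q', hQ'S, hQ'c, hQ'⟩ := exists_indep v S (fun p hp => (mem_filter.1 hp).2)
      obtain ⟨Q, hQQ', hQc⟩ := Finset.exists_subset_card_eq
        (show (b + 11) / 12 ≤ Q'.card by omega)
      have hQB : Q ∈ B.powersetCard ((b + 11) / 12) := by
        rw [mem_powersetCard]
        refine ⟨fun p hp => ?_, hQc⟩
        exact (mem_filter.1 (mem_filter.1 (hQ'S (hQQ' hp))).1).1
      have h2 : (1 : ℝ) ≤ ∑ Q ∈ B.powersetCard ((b + 11) / 12),
          (if ∀ p ∈ Q, v p ∈ B \ Q then (1 : ℝ) else 0) := by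
        calc (1 : ℝ) = (if ∀ p ∈ Q, v p ∈ B \ Q then (1 : ℝ) else 0) := by
              rw [if_pos]
              intro p hp
              rw [mem_sdiff]
              refine ⟨(mem_filter.1 (mem_filter.1 (hQ'S (hQQ' hp))).1).2, fun h => ?_⟩
              exact hQ' p (hQQ' hp) (hQQ' h)
          _ ≤ _ := Finset.single_le_sum
              (f := fun Q : Finset (Fin n) => (if ∀ p ∈ Q, v p ∈ B \ Q then (1 : ℝ) else 0))
              (fun Q _ => by split_ifs <;> norm_num) hQB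
      linarith

theorem count_bound {n b : ℕ} (g : A n) (B : Finset (Fin n)) (hB : B.card = b) (hb : 1 ≤ b)
    (hn : 4 * b + 4 ≤ n) (κ η : ℝ) (hκ0 : 0 < κ) (hκ1 : κ ≤ 1) (hη0 : 0 ≤ η)
    (hη : η ≤ κ ^ 12) (h4 : 4 * (b : ℝ) ≤ κ ^ 12 * n) (hfix : (fixN g.1 : ℝ) ≤ κ ^ 12 * n) :
    ∑ z : A n, η ^ ((B.map (z⁻¹ * g * z).1.toEmbedding) \ B).card ≤
      (6 * κ) ^ b * Fintype.card (A n) := by
  classical
  have hn0 : (0 : ℝ) < n := by exact_mod_cast (by omega : 0 < n)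
  have hA : (0 : ℝ) ≤ (Fintype.card (A n) : ℝ) := Nat.cast_nonneg _
  have h1 : ∀ Q ∈ B.powersetCard ((b + 3) / 4),
      ∑ z : A n, (if ∀ p ∈ Q, (z⁻¹ * g * z).1 p = p then (1 : ℝ) else 0) ≤
        κ ^ b * Fintype.card (A n) := by
    intro Q hQ
    rw [mem_powersetCard] at hQ
    rw [Finset.sum_boole]
    refine (card_fix_set (by omega) g Q hQ.2).trans ?_
    refine mul_le_mul_of_nonneg_right ?_ hA
    refine Count_pow hκ0 hκ1 (by omega) (by positivity) ?_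
    rw [div_le_iff₀ hn0]
    exact hfix
  have h2 : ∀ Q ∈ B.powersetCard ((b + 11) / 12),
      ∑ z : A n, (if ∀ p ∈ Q, (z⁻¹ * g * z).1 p ∈ B \ Q then (1 : ℝ) else 0) ≤
        κ ^ b * Fintype.card (A n) := by
    intro Q hQ
    rw [mem_powersetCard] at hQ
    rw [Finset.sum_boole]
    refine (card_move_set (by omega) (by omega) g Q B hQ.2 hB).trans ?_
    refine mul_le_mul_of_nonneg_right ?_ hA
    refine Count_pow hκ0 hκ1 (by omega) (by positivity) ?_
    rw [div_le_iff₀ hn0]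
    have : (0 : ℝ) ≤ b := Nat.cast_nonneg _
    linarith
  have hc : ∀ a : ℕ, ((B.powersetCard a).card : ℝ) ≤ 2 ^ b := by
    intro a
    have h3 : (B.powersetCard a).card ≤ B.powerset.card :=
      card_le_card fun Q hQ => mem_powerset.2 (mem_powersetCard.1 hQ).1
    rw [card_powerset, hB] at h3
    exact_mod_cast h3
  have hsum : ∀ (a : ℕ) (f : Finset (Fin n) → A n → ℝ),
      (∀ Q ∈ B.powersetCard a, ∑ z : A n, f Q z ≤ κ ^ b * Fintype.card (A n)) →
      ∑ z : A n, ∑ Q ∈ B.powersetCard a, f Q z ≤ 2 ^ b * (κ ^ b * Fintype.card (A n)) := by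
    intro a f hf
    rw [Finset.sum_comm]
    calc ∑ Q ∈ B.powersetCard a, ∑ z : A n, f Q z
        ≤ ∑ Q ∈ B.powersetCard a, κ ^ b * (Fintype.card (A n) : ℝ) := Finset.sum_le_sum hf
      _ = ((B.powersetCard a).card : ℝ) * (κ ^ b * Fintype.card (A n)) := by
          rw [Finset.sum_const, nsmul_eq_mul]
      _ ≤ _ := mul_le_mul_of_nonneg_right (hc a) (by positivity)
  have h3 := hsum _ _ h1
  have h4' := hsum _ _ h2
  have h5 : ∑ z : A n, η ^ ((B.map (z⁻¹ * g * z).1.toEmbedding) \ B).card ≤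
      ∑ z : A n, (κ ^ b +
        ∑ Q ∈ B.powersetCard ((b + 3) / 4),
          (if ∀ p ∈ Q, (z⁻¹ * g * z).1 p = p then (1 : ℝ) else 0) +
        ∑ Q ∈ B.powersetCard ((b + 11) / 12),
          (if ∀ p ∈ Q, (z⁻¹ * g * z).1 p ∈ B \ Q then (1 : ℝ) else 0)) :=
    Finset.sum_le_sum fun z _ => Count_point B hB _ κ η hκ0 hκ1 hη0 hη
  rw [Finset.sum_add_distrib, Finset.sum_add_distrib, Finset.sum_const, nsmul_eq_mul,
    Finset.card_univ] at h5
  have h6 : (1 : ℝ) ≤ 3 ^ b := one_le_pow₀ (by norm_num)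
  have h6' : (3 : ℝ) ≤ 3 ^ b := by
    calc (3 : ℝ) = 3 ^ 1 := by norm_num
      _ ≤ 3 ^ b := pow_le_pow_right₀ (by norm_num) hb
  have h7 : (1 : ℝ) ≤ 2 ^ b := one_le_pow₀ (by norm_num)
  set K : ℝ := κ ^ b * Fintype.card (A n) with hK
  have hK0 : 0 ≤ K := by positivity
  have h8 : (6 * κ) ^ b * (Fintype.card (A n) : ℝ) = (3 : ℝ) ^ b * (2 : ℝ) ^ b * K := by
    rw [hK, show (6 : ℝ) * κ = 3 * 2 * κ by ring, mul_pow, mul_pow]
    ring
  rw [h8]
  have h9 : (Fintype.card (A n) : ℝ) * κ ^ b = K := by rw [hK]; ring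
  rw [h9] at h5
  have h10 : 3 * ((2 : ℝ) ^ b * K) ≤ 3 ^ b * ((2 : ℝ) ^ b * K) :=
    mul_le_mul_of_nonneg_right h6' (by positivity)
  have h11 : K ≤ 2 ^ b * K := le_mul_of_one_le_left hK0 h7
  nlinarith

end Pool.Agent.RCG
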