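import Pool.Agent.W_MP_6acff7_h70.NearOrth
import Pool.Agent.W_MP_6acff7_h70.Count

/-!
# Eigenvalues of class averages on low levels

PROOF.  `v = z⁻¹ g z`.  `lam ‖f‖² = ⟪f, cavg ρ g f⟫ = (1/|A n|) ∑_z (⟪f, ρ v f⟫ + ⟪f, ρ v⁻¹ f⟫)/2`
and `⟪f, ρ v⁻¹ f⟫ = ⟪ρ v f, f⟫ = ⟪f, ρ v f⟫`.  `ρ v f ∈ W` is fixed by the stabiliser of
`vB = B.map v` (conjugation).  `near_orth` gives
`|⟪f, ρ v f⟫| ≤ η ^ |vB \ B| ‖f‖²` with `η = b/(n-2b)`, where `η ≤ 2b/n ≤ κ^12` because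
`4 b ≤ κ^12 n ≤ n`.  Now use `count_bound` and divide by `‖f‖² > 0`.
-/

open Finset

namespace Pool.Agent.RCG

theorem LowEig_fixed {n : ℕ} {E : Type*} [NormedAddCommGroup E] [InnerProductSpace ℝ E]
    {ρ : A n →* Module.End ℝ E} {B : Finset (Fin n)} {f : E} (hfB : FixedBy ρ B f) (v : A n) :
    FixedBy ρ (B.map v.1.toEmbedding) (ρ v f) := by
  intro k hk
  have h1 : ρ (v⁻¹ * k * v) f = f := by
    refine hfB _ fun p hp => ?_
    have h2 : k.1 (v.1 p) = v.1 p := by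
      refine hk _ ?_
      rw [Finset.mem_map]
      exact ⟨p, hp, rfl⟩
    show v.1⁻¹ (k.1 (v.1 p)) = p
    rw [h2]
    simp
  have h3 : ρ k (ρ v f) = ρ v (ρ (v⁻¹ * k * v) f) := by
    rw [← Module.End.mul_apply, ← Module.End.mul_apply, ← map_mul, ← map_mul]
    congr 2
    group
  rw [h3, h1]

theorem LowEig_inv {n : ℕ} {E : Type*} [NormedAddCommGroup E] [InnerProductSpace ℝ E]
    {ρ : A n →* Module.End ℝ E} (hρ : Orth ρ) (f : E) (g z : A n) :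
    inner ℝ f (ρ (z⁻¹ * g⁻¹ * z) f) = inner ℝ f (ρ (z⁻¹ * g * z) f) := by
  have h1 : z⁻¹ * g⁻¹ * z = (z⁻¹ * g * z)⁻¹ := by group
  rw [h1, ← hρ.inner_left, real_inner_comm]

theorem low_eig {n : ℕ} {E : Type*} [NormedAddCommGroup E] [InnerProductSpace ℝ E]
    {ρ : A n →* Module.End ℝ E} (hρ : Orth ρ) (W : Submodule ℝ E)
    (hW : ∀ g : A n, ∀ u ∈ W, ρ g u ∈ W) {b : ℕ} (hb : 1 ≤ b) (hn : 4 * b + 4 ≤ n)
    (hlev : ∀ B : Finset (Fin n), B.card + 1 = b → ∀ u ∈ W, FixedBy ρ B u → u = 0)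
    (g : A n) (κ : ℝ) (hκ0 : 0 < κ) (hκ1 : κ ≤ 1) (h4 : 4 * (b : ℝ) ≤ κ ^ 12 * n)
    (hfix : (fixN g.1 : ℝ) ≤ κ ^ 12 * n) (B : Finset (Fin n)) (hB : B.card = b) (f : E)
    (hfW : f ∈ W) (hf0 : f ≠ 0) (hfB : FixedBy ρ B f) (lam : ℝ)
    (hlam : cavg ρ g f = lam • f) : |lam| ≤ (6 * κ) ^ b := by
  have hn' : 2 * b + 3 ≤ n := by omega
  have hnR : (4 : ℝ) * b + 4 ≤ n := by exact_mod_cast hn
  have hbR : (1 : ℝ) ≤ b := by exact_mod_cast hb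
  have hκ12 : κ ^ 12 ≤ 1 := pow_le_one₀ hκ0.le hκ1
  have hκ12' : 0 < κ ^ 12 := pow_pos hκ0 12
  have hden : (0 : ℝ) < (n : ℝ) - 2 * b := by linarith
  obtain ⟨η, hηd⟩ : ∃ η : ℝ, η = (b : ℝ) / ((n : ℝ) - 2 * b) := ⟨_, rfl⟩
  have hη0 : 0 ≤ η := by
    rw [hηd]
    positivity
  have hη : η ≤ κ ^ 12 := by
    rw [hηd, div_le_iff₀ hden]
    nlinarith [mul_le_mul_of_nonneg_right hκ12 (by linarith : (0 : ℝ) ≤ 2 * b)]
  have hfpos : 0 < ‖f‖ := norm_pos_iff.2 hf0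
  have hcardpos : (0 : ℝ) < (Fintype.card (A n) : ℝ) := by
    exact_mod_cast Fintype.card_pos
  have key : ∀ z : A n, |inner ℝ f (ρ (z⁻¹ * g * z) f)| ≤
      η ^ ((B.map (z⁻¹ * g * z).1.toEmbedding) \ B).card * (‖f‖ * ‖f‖) := by
    intro z
    have h1 := near_orth hρ W hW hn' hlev ((B.map (z⁻¹ * g * z).1.toEmbedding) \ B).card B
      (B.map (z⁻¹ * g * z).1.toEmbedding) hB (by rw [Finset.card_map, hB]) rfl f
      (ρ (z⁻¹ * g * z) f) hfB (LowEig_fixed hfB _) (hW _ _ hfW)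
    rw [hρ.norm_map, ← hηd] at h1
    exact h1
  have hsum := count_bound g B hB hb hn κ η hκ0 hκ1 hη0 hη h4 hfix
  have h1 : inner ℝ f (cavg ρ g f) = (2 * (Fintype.card (A n) : ℝ))⁻¹ *
      ∑ z : A n, 2 * inner ℝ f (ρ (z⁻¹ * g * z) f) := by
    unfold cavg
    rw [LinearMap.smul_apply, LinearMap.sum_apply, inner_smul_right, inner_sum]
    congr 1
    refine Finset.sum_congr rfl fun z _ => ?_
    rw [LinearMap.add_apply, inner_add_right, LowEig_inv hρ]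
    ring
  have h2 : inner ℝ f (cavg ρ g f) = lam * (‖f‖ * ‖f‖) := by
    rw [hlam, inner_smul_right, real_inner_self_eq_norm_mul_norm]
  have h3 : |lam| * (‖f‖ * ‖f‖) ≤ (6 * κ) ^ b * (‖f‖ * ‖f‖) := by
    have h4' : |lam| * (‖f‖ * ‖f‖) = |inner ℝ f (cavg ρ g f)| := by
      rw [h2, abs_mul, abs_of_pos (mul_pos hfpos hfpos)]
    rw [h4', h1, abs_mul, abs_of_pos (inv_pos.2 (mul_pos two_pos hcardpos))]
    have h5 : |∑ z : A n, 2 * inner ℝ f (ρ (z⁻¹ * g * z) f)| ≤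
        2 * (((6 * κ) ^ b * Fintype.card (A n)) * (‖f‖ * ‖f‖)) := by
      refine (Finset.abs_sum_le_sum_abs _ _).trans ?_
      have h6 : ∀ z ∈ (Finset.univ : Finset (A n)), |2 * inner ℝ f (ρ (z⁻¹ * g * z) f)| ≤
          2 * (η ^ ((B.map (z⁻¹ * g * z).1.toEmbedding) \ B).card * (‖f‖ * ‖f‖)) := by
        intro z _
        rw [abs_mul, abs_of_pos (two_pos : (0 : ℝ) < 2)]
        exact mul_le_mul_of_nonneg_left (key z) two_pos.le
      refine (Finset.sum_le_sum h6).trans ?_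
      rw [← Finset.mul_sum, ← Finset.sum_mul]
      exact mul_le_mul_of_nonneg_left
        (mul_le_mul_of_nonneg_right hsum (mul_nonneg hfpos.le hfpos.le)) two_pos.le
    refine (mul_le_mul_of_nonneg_left h5 (inv_nonneg.2 (mul_pos two_pos hcardpos).le)).trans ?_
    refine le_of_eq ?_
    field_simp
  exact le_of_mul_le_mul_right h3 (mul_pos hfpos hfpos)

end Pool.Agent.RCG
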