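import Pool.Agent.W_MP_6acff7_h70.Basic

/-!
# The filtration `Fsub ρ b`

* `Fsub_mono`: a vector fixed by `A_B` is fixed by `A_{B₁}` for every `B₁ ⊇ B` (the stabiliser gets
  smaller); extend `B` to a set of size `b'` (`Finset.exists_superset_card_eq`).
* `Fsub_inv`: `ρ g` maps `A_B`-fixed vectors to `A_{gB}`-fixed vectors.
* `exists_fixed`: let `P` be the orthogonal projection onto `V`
  (`Submodule.starProjection`/`orthogonalProjection`).  `V` and `Vᗮ` are `ρ`-invariant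
  (orthogonality of `ρ`), so `P` commutes with `ρ g`.  If `P f = 0` for every `f` fixed by some `A_B`,
  `|B| = b`, then `P` vanishes on the span `Fsub ρ b ⊇ V`, so `V = ⊥`.  So some `P f ≠ 0`, and `P f ∈ V`
  is again `A_B`-fixed.
* `perp_no_fixed`: `u` fixed by `A_B`, `|B| ≤ b ≤ n`, gives `u ∈ Fsub ρ b`, so `⟪u, u⟫ = 0`.
-/

open Finset

namespace Pool.Agent.RCG

variable {n : ℕ} {E : Type*} [NormedAddCommGroup E] [InnerProductSpace ℝ E]

theorem FixedBy.mono {ρ : A n →* Module.End ℝ E} {B B₁ : Finset (Fin n)} (h : B ⊆ B₁) {u : E}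
    (hu : FixedBy ρ B u) : FixedBy ρ B₁ u :=
  fun g hg => hu g fun p hp => hg p (h hp)

theorem FixedBy.map {ρ : A n →* Module.End ℝ E} {B : Finset (Fin n)} {u : E}
    (hu : FixedBy ρ B u) (g : A n) : FixedBy ρ (B.map g.1.toEmbedding) (ρ g u) := by
  intro h hh
  have h1 : ρ (g⁻¹ * h * g) u = u := by
    refine hu _ fun p hp => ?_
    have h2 : h.1 (g.1 p) = g.1 p := hh (g.1 p) (by
      rw [Finset.mem_map]
      exact ⟨p, hp, rfl⟩)
    show (g.1⁻¹ * h.1 * g.1) p = p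
    simp [Equiv.Perm.mul_apply, h2]
  calc ρ h (ρ g u) = ρ (g * (g⁻¹ * h * g)) u := by
        rw [show g * (g⁻¹ * h * g) = h * g by group, map_mul]
        rfl
    _ = ρ g (ρ (g⁻¹ * h * g) u) := by
        rw [map_mul]
        rfl
    _ = ρ g u := by rw [h1]

theorem Fsub_mono (ρ : A n →* Module.End ℝ E) {b b' : ℕ} (h : b ≤ b') (hn : b' ≤ n) :
    Fsub ρ b ≤ Fsub ρ b' := by
  refine Submodule.span_le.2 ?_
  rintro u ⟨B, hB, hu⟩
  obtain ⟨B₁, hB₁, hc⟩ := Finset.exists_superset_card_eq (s := B) (n := b') (by omega)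
    (by simpa using hn)
  exact Submodule.subset_span ⟨B₁, hc, hu.mono hB₁⟩

theorem Fsub_inv (ρ : A n →* Module.End ℝ E) (b : ℕ) (g : A n) (u : E) (hu : u ∈ Fsub ρ b) :
    ρ g u ∈ Fsub ρ b := by
  have : Fsub ρ b ≤ (Fsub ρ b).comap (ρ g) := by
    refine Submodule.span_le.2 ?_
    rintro v ⟨B, hB, hv⟩
    exact Submodule.subset_span ⟨B.map g.1.toEmbedding, by simpa using hB, hv.map g⟩
  exact this hu

/-- The orthogonal complement of an invariant subspace is invariant. -/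
theorem perp_inv {ρ : A n →* Module.End ℝ E} (hρ : Orth ρ) (V : Submodule ℝ E)
    (hV : ∀ g : A n, ∀ u ∈ V, ρ g u ∈ V) (g : A n) (u : E) (hu : u ∈ Vᗮ) : ρ g u ∈ Vᗮ := by
  rw [Submodule.mem_orthogonal'] at hu ⊢
  intro v hv
  rw [hρ.inner_left]
  exact hu _ (hV _ _ hv)

theorem exists_fixed [FiniteDimensional ℝ E] {ρ : A n →* Module.End ℝ E} (hρ : Orth ρ)
    (V : Submodule ℝ E) (hV : ∀ g : A n, ∀ u ∈ V, ρ g u ∈ V) (hV0 : V ≠ ⊥) (b : ℕ)
    (hVb : V ≤ Fsub ρ b) :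
    ∃ B : Finset (Fin n), B.card = b ∧ ∃ f ∈ V, f ≠ 0 ∧ FixedBy ρ B f := by
  classical
  by_contra hcon
  push Not at hcon
  -- every fixed vector lies in `Vᗮ`
  have hperp : Fsub ρ b ≤ Vᗮ := by
    refine Submodule.span_le.2 ?_
    rintro u ⟨B, hB, hu⟩
    obtain ⟨v, hv, w, hw, rfl⟩ := V.exists_add_mem_mem_orthogonal u
    have hvfix : FixedBy ρ B v := by
      intro g hg
      have h1 : ρ g v + ρ g w = v + w := by
        rw [← map_add]
        exact hu g hg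
      have h2 : ρ g v - v = w - ρ g w := by
        rw [sub_eq_sub_iff_add_eq_add, h1]
        abel
      have h3 : ρ g v - v ∈ V := V.sub_mem (hV g v hv) hv
      have h4 : ρ g v - v ∈ Vᗮ := by
        rw [h2]
        exact Vᗮ.sub_mem hw (perp_inv hρ V hV g w hw)
      have h5 : ρ g v - v ∈ V ⊓ Vᗮ := ⟨h3, h4⟩
      rw [V.inf_orthogonal_eq_bot, Submodule.mem_bot] at h5
      exact sub_eq_zero.1 h5
    have hv0 : v = 0 := by
      by_contra hne
      exact hcon B hB v hv hne hvfix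
    rw [hv0, zero_add]
    exact hw
  apply hV0
  rw [eq_bot_iff]
  intro v hv
  have : v ∈ V ⊓ Vᗮ := ⟨hv, hperp (hVb hv)⟩
  rwa [V.inf_orthogonal_eq_bot] at this

theorem perp_no_fixed {ρ : A n →* Module.End ℝ E} {b : ℕ} (hbn : b ≤ n) (B : Finset (Fin n))
    (hB : B.card ≤ b) (u : E) (hu : u ∈ (Fsub ρ b)ᗮ) (huB : FixedBy ρ B u) : u = 0 := by
  obtain ⟨B₁, hB₁, hc⟩ := Finset.exists_superset_card_eq (s := B) (n := b) hB
    (by simpa using hbn)
  have h1 : u ∈ Fsub ρ b := Submodule.subset_span ⟨B₁, hc, huB.mono hB₁⟩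
  have h2 : u ∈ Fsub ρ b ⊓ (Fsub ρ b)ᗮ := ⟨h1, hu⟩
  rwa [(Fsub ρ b).inf_orthogonal_eq_bot, Submodule.mem_bot] at h2

end Pool.Agent.RCG
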