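import Pool.Agent.W_MP_6acff7_h70.Words

/-!
# Cayley graphs

PROOF of `cayley_diam`.  For `g h` write `g⁻¹ h = s_1 ⋯ s_r`, `r ≤ l`, `s_k` one of `x i`, `(x i)⁻¹`.  By induction on the
list there is a walk from `g` to `g s_1 ⋯ s_r` of length at most `r` (a factor equal to `1` gives no step, otherwise
`g ↦ g s` is an edge).  So `dist g h ≤ l` and the graph is connected (`Connected` needs `Nonempty G`), and
`diam ≤ l` (`SimpleGraph.ediam_le_iff`/`ediam_le_of_edist_le` and `diam = ediam.toNat`, monotone with finite bound).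
-/

open Finset

namespace Pool.Agent.RCG

/-- The Cayley graph of `G` with respect to `{x_1^{±1}, ..., x_m^{±1}}`:
`g` is joined to `g * s` for `s = x i` and for `s = (x i)⁻¹` (loops are omitted). -/
def cayleyGraph {G : Type*} [Group G] {m : ℕ} (x : Fin m → G) : SimpleGraph G where
  Adj g h := g ≠ h ∧ ∃ i, h = g * x i ∨ h = g * (x i)⁻¹
  symm := ⟨by
    rintro g h ⟨hne, i, hi | hi⟩
    · exact ⟨hne.symm, i, Or.inr (by rw [hi]; group)⟩
    · exact ⟨hne.symm, i, Or.inl (by rw [hi]; group)⟩⟩
  loopless := ⟨fun g h => h.1 rfl⟩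

/-- Multiplying by a word in the generators moves by at most the length of the word. -/
private theorem cayley_edist_list {G : Type*} [Group G] {m : ℕ} (x : Fin m → G) :
    ∀ (L : List G), (∀ s ∈ L, s ∈ Set.range x ∨ s⁻¹ ∈ Set.range x) → ∀ g : G,
      (cayleyGraph x).edist g (g * L.prod) ≤ (L.length : ℕ∞) := by
  intro L
  induction L with
  | nil => intro _ g; simp
  | cons s L ih =>
    intro hL g
    have h1 : (cayleyGraph x).edist g (g * s) ≤ 1 := by
      rw [SimpleGraph.edist_le_one_iff_adj_or_eq]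
      by_cases hg : g = g * s
      · exact Or.inr hg
      · left
        refine ⟨hg, ?_⟩
        rcases hL s (by simp) with ⟨i, hi⟩ | ⟨i, hi⟩
        · exact ⟨i, Or.inl (by rw [hi])⟩
        · exact ⟨i, Or.inr (by rw [hi, inv_inv])⟩
    have h2 := ih (fun t ht => hL t (by simp [ht])) (g * s)
    have h3 : g * (s :: L).prod = (g * s) * L.prod := by
      rw [List.prod_cons, mul_assoc]
    rw [h3]
    refine (SimpleGraph.edist_triangle (v := g * s)).trans ?_
    calc (cayleyGraph x).edist g (g * s) + (cayleyGraph x).edist (g * s) (g * s * L.prod)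
        ≤ 1 + (L.length : ℕ∞) := add_le_add h1 h2
      _ = ((s :: L).length : ℕ∞) := by
        rw [List.length_cons]; push_cast; rw [add_comm]

theorem cayley_diam {G : Type*} [Group G] [Finite G] {m l : ℕ} (x : Fin m → G)
    (h : ∀ g : G, WL (Set.range x) l g) :
    (cayleyGraph x).Connected ∧ (cayleyGraph x).diam ≤ l := by
  have hed : (cayleyGraph x).ediam ≤ (l : ℕ∞) := by
    refine SimpleGraph.ediam_le_of_edist_le ?_
    intro u v
    obtain ⟨L, hlen, hmem, hprod⟩ := h (u⁻¹ * v)
    have h1 := cayley_edist_list x L hmem u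
    rw [hprod, mul_inv_cancel_left] at h1
    exact h1.trans (by exact_mod_cast hlen)
  have hne : (cayleyGraph x).ediam ≠ ⊤ := fun h0 => by
    rw [h0] at hed
    exact absurd hed (by simp)
  have : Nonempty G := ⟨1⟩
  refine ⟨SimpleGraph.connected_of_ediam_ne_top hne, ?_⟩
  rw [SimpleGraph.diam]
  exact ENat.toNat_le_of_le_natCast hed

end Pool.Agent.RCG
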