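import Pool.Agent.W_MP_6acff7_h70.Defs

/-!
# Word length calculus (any group)
-/

open Finset

namespace Pool.Agent.RCG

variable {G : Type*} [Group G]

theorem WL.one (S : Set G) : WL S 0 1 :=
  ⟨[], by simp, by simp, by simp⟩

theorem WL.of_mem {S : Set G} {g : G} (hg : g ∈ S) : WL S 1 g :=
  ⟨[g], by simp, by simp [hg], by simp⟩

theorem WL.mono {S S' : Set G} {l l' : ℕ} {g : G} (hS : S ⊆ S') (hl : l ≤ l')
    (h : WL S l g) : WL S' l' g := by
  obtain ⟨L, h1, h2, h3⟩ := h
  exact ⟨L, h1.trans hl, fun a ha => (h2 a ha).imp (fun h => hS h) (fun h => hS h), h3⟩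

theorem WL.mul {S : Set G} {l l' : ℕ} {g g' : G} (h : WL S l g) (h' : WL S l' g') :
    WL S (l + l') (g * g') := by
  obtain ⟨L, h1, h2, h3⟩ := h
  obtain ⟨L', h1', h2', h3'⟩ := h'
  refine ⟨L ++ L', ?_, fun a ha => ?_, ?_⟩
  · rw [List.length_append]
    omega
  · rcases List.mem_append.1 ha with h4 | h4
    · exact h2 a h4
    · exact h2' a h4
  · rw [List.prod_append, h3, h3']

theorem WL.inv {S : Set G} {l : ℕ} {g : G} (h : WL S l g) : WL S l g⁻¹ := by
  obtain ⟨L, h1, h2, h3⟩ := h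
  refine ⟨(L.map fun x => x⁻¹).reverse, ?_, fun a ha => ?_, ?_⟩
  · rw [List.length_reverse, List.length_map]
    exact h1
  · rw [List.mem_reverse, List.mem_map] at ha
    obtain ⟨b, hb, rfl⟩ := ha
    rcases h2 b hb with h4 | h4
    · right
      rwa [inv_inv]
    · exact Or.inl h4
  · rw [← List.prod_inv_reverse, h3]

theorem WL.pow {S : Set G} {l : ℕ} {g : G} (h : WL S l g) (k : ℕ) : WL S (k * l) (g ^ k) := by
  induction k with
  | zero =>
    rw [Nat.zero_mul, pow_zero]
    exact WL.one S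
  | succ k ih =>
    rw [Nat.succ_mul, pow_succ]
    exact ih.mul h

theorem WL.ofFn_prod {S : Set G} {k l : ℕ} {g : Fin k → G} (h : ∀ i, WL S l (g i)) :
    WL S (k * l) (List.ofFn g).prod := by
  induction k with
  | zero =>
    rw [Nat.zero_mul, List.ofFn_zero, List.prod_nil]
    exact WL.one S
  | succ k ih =>
    rw [Nat.succ_mul, List.ofFn_succ, List.prod_cons, Nat.add_comm]
    exact (h 0).mul (ih fun i => h i.succ)

/-- Block words: each block has length at most `l + 1`. -/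
theorem WL.blk {S : Set G} {ι : Type*} {J l : ℕ} {w : ι → G} {z : Fin J → G}
    (hw : ∀ i, WL S l (w i)) (hz : ∀ k, z k ∈ S) (i : Fin J → ι) :
    WL S (J * (l + 1)) (blk w z i) :=
  WL.ofFn_prod fun k => (hw (i k)).mul (WL.of_mem (hz k))

/-- Words with a repeated letter. -/
theorem WL.wd {S : Set G} {N l : ℕ} {a : Fin (N + 1) → G} {y : G}
    (ha : ∀ k, WL S l (a k)) (hy : y ∈ S) : WL S (N * (l + 1) + l) (wd a y) :=
  (WL.ofFn_prod fun k => (ha k.castSucc).mul (WL.of_mem hy)).mul (ha (Fin.last N))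

end Pool.Agent.RCG
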