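import Pool.Agent.W_MP_6acff7_h70.Defs

/-!
# Class averages: basic properties (any finite group, any orthogonal representation)

`cavg ρ g = (1/(2|G|)) ∑_z (ρ(z⁻¹ g z) + ρ(z⁻¹ g⁻¹ z))`.

* symmetric: by `Orth`, `⟪ρ a u, v⟫ = ⟪u, ρ a⁻¹ v⟫`; the two sums are exchanged.
* commutes with every `ρ h`: reindex `z ↦ z h⁻¹` (`Fintype.sum_equiv (Equiv.mulRight h⁻¹)`), because
  `ρ h * ρ (z⁻¹ g z) = ρ ((z h⁻¹)⁻¹ g (z h⁻¹)) * ρ h`.
* `‖cavg ρ g u‖ ≤ ‖u‖`: triangle inequality and `‖ρ a u‖ = ‖u‖`.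
* `abar`: sums of class averages.
-/

open Finset

namespace Pool.Agent.RCG

variable {G : Type*} [Group G] {E : Type*} [NormedAddCommGroup E] [InnerProductSpace ℝ E]

theorem Orth.norm_map {ρ : G →* Module.End ℝ E} (hρ : Orth ρ) (g : G) (u : E) :
    ‖ρ g u‖ = ‖u‖ := by
  have h := hρ g u u
  rw [real_inner_self_eq_norm_sq, real_inner_self_eq_norm_sq] at h
  exact (sq_eq_sq₀ (norm_nonneg _) (norm_nonneg _)).1 h

theorem Orth.inner_left {ρ : G →* Module.End ℝ E} (hρ : Orth ρ) (g : G) (u v : E) :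
    inner ℝ (ρ g u) v = inner ℝ u (ρ g⁻¹ v) := by
  have h := hρ g u (ρ g⁻¹ v)
  have e : ρ g (ρ g⁻¹ v) = v := by
    rw [← Module.End.mul_apply, ← map_mul, mul_inv_cancel, map_one, Module.End.one_apply]
  rw [e] at h
  exact h

variable [Fintype G]

theorem cavg_inv (ρ : G →* Module.End ℝ E) (g : G) : cavg ρ g⁻¹ = cavg ρ g := by
  unfold cavg
  congr 1
  refine Finset.sum_congr rfl fun z _ => ?_
  rw [inv_inv, add_comm]

theorem cavg_symm {ρ : G →* Module.End ℝ E} (hρ : Orth ρ) (g : G) :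
    (cavg ρ g).IsSymmetric := by
  intro u v
  unfold cavg
  simp only [LinearMap.smul_apply, LinearMap.sum_apply, LinearMap.add_apply, inner_smul_left,
    inner_smul_right, sum_inner, inner_sum, inner_add_left, inner_add_right]
  simp only [conj_trivial]
  congr 1
  refine Finset.sum_congr rfl fun z _ => ?_
  rw [hρ.inner_left, hρ.inner_left]
  have e1 : (z⁻¹ * g * z)⁻¹ = z⁻¹ * g⁻¹ * z := by group
  have e2 : (z⁻¹ * g⁻¹ * z)⁻¹ = z⁻¹ * g * z := by group
  rw [e1, e2, add_comm]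

theorem cavg_comm (ρ : G →* Module.End ℝ E) (g h : G) :
    cavg ρ g * ρ h = ρ h * cavg ρ g := by
  unfold cavg
  rw [smul_mul_assoc, mul_smul_comm]
  congr 1
  rw [Finset.sum_mul, Finset.mul_sum]
  refine Fintype.sum_equiv (Equiv.mulRight h) _ _ fun z => ?_
  rw [add_mul, mul_add, ← map_mul, ← map_mul, ← map_mul, ← map_mul, Equiv.coe_mulRight]
  congr 2 <;> group

theorem cavg_comm_apply (ρ : G →* Module.End ℝ E) (g h : G) (u : E) :
    cavg ρ g (ρ h u) = ρ h (cavg ρ g u) := by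
  have e := congrArg (fun T : Module.End ℝ E => T u) (cavg_comm ρ g h)
  simpa [Module.End.mul_apply] using e

theorem cavg_norm_le {ρ : G →* Module.End ℝ E} (hρ : Orth ρ) (g : G) (u : E) :
    ‖cavg ρ g u‖ ≤ ‖u‖ := by
  unfold cavg
  rw [LinearMap.smul_apply, LinearMap.sum_apply, norm_smul]
  have hc : (0 : ℝ) < Fintype.card G := by
    exact_mod_cast Fintype.card_pos
  have hs : ‖∑ z : G, (ρ (z⁻¹ * g * z) + ρ (z⁻¹ * g⁻¹ * z)) u‖ ≤
      2 * (Fintype.card G : ℝ) * ‖u‖ := by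
    calc ‖∑ z : G, (ρ (z⁻¹ * g * z) + ρ (z⁻¹ * g⁻¹ * z)) u‖
        ≤ ∑ z : G, ‖(ρ (z⁻¹ * g * z) + ρ (z⁻¹ * g⁻¹ * z)) u‖ := norm_sum_le _ _
      _ ≤ ∑ _z : G, 2 * ‖u‖ := by
          refine Finset.sum_le_sum fun z _ => ?_
          rw [LinearMap.add_apply]
          refine (norm_add_le _ _).trans ?_
          rw [hρ.norm_map, hρ.norm_map, two_mul]
      _ = 2 * (Fintype.card G : ℝ) * ‖u‖ := by
          rw [Finset.sum_const, Finset.card_univ, nsmul_eq_mul]; ring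
  rw [Real.norm_of_nonneg (by positivity)]
  calc (2 * (Fintype.card G : ℝ))⁻¹ * ‖∑ z : G, (ρ (z⁻¹ * g * z) + ρ (z⁻¹ * g⁻¹ * z)) u‖
      ≤ (2 * (Fintype.card G : ℝ))⁻¹ * (2 * (Fintype.card G : ℝ) * ‖u‖) :=
        mul_le_mul_of_nonneg_left hs (by positivity)
    _ = ‖u‖ := by field_simp

/-- If a linear map commutes with all `ρ a` then it commutes with `cavg ρ g`. -/
theorem cavg_commute_of_commute (ρ : G →* Module.End ℝ E) (g : G) (T : Module.End ℝ E)
    (hT : ∀ a, T * ρ a = ρ a * T) : T * cavg ρ g = cavg ρ g * T := by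
  unfold cavg
  rw [smul_mul_assoc, mul_smul_comm]
  congr 1
  rw [Finset.sum_mul, Finset.mul_sum]
  refine Finset.sum_congr rfl fun z _ => ?_
  rw [add_mul, mul_add, hT, hT]

theorem abar_symm {ρ : G →* Module.End ℝ E} (hρ : Orth ρ) {ι : Type*} [Fintype ι] (w : ι → G) :
    (abar ρ w).IsSymmetric := by
  intro u v
  unfold abar
  simp only [LinearMap.smul_apply, LinearMap.sum_apply, inner_smul_left,
    inner_smul_right, sum_inner, inner_sum]
  simp only [conj_trivial]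
  congr 1
  refine Finset.sum_congr rfl fun i _ => Finset.sum_congr rfl fun j _ => ?_
  exact cavg_symm hρ _ u v

theorem abar_comm (ρ : G →* Module.End ℝ E) {ι : Type*} [Fintype ι] (w : ι → G) (h : G) :
    abar ρ w * ρ h = ρ h * abar ρ w := by
  unfold abar
  rw [smul_mul_assoc, mul_smul_comm]
  congr 1
  rw [Finset.sum_mul, Finset.mul_sum]
  refine Finset.sum_congr rfl fun i _ => ?_
  rw [Finset.sum_mul, Finset.mul_sum]
  refine Finset.sum_congr rfl fun j _ => ?_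
  exact cavg_comm ρ _ h

end Pool.Agent.RCG
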