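import Pool.Agent.W_MP_6acff7_h70.Words

/-!
# Probability steps

`pr P` is the uniform probability on a finite type; `Step n k ε Q Q'` adds `k` fresh letters.

* `pr_markov`: Markov's inequality.
* `Step.comp`: identify `Fin (k + k') → A n` with `(Fin k → A n) × (Fin k' → A n)` (`Fin.appendEquiv` or
  `Fin.append`), `Set.range (Fin.append z z') = Set.range z ∪ Set.range z'`.  The bad event is contained in
  `{¬ Q' (S ∪ range z)} ∪ {Q' (S ∪ range z), ¬ Q'' (S ∪ range z ∪ range z')}`; count fibrewise.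
-/

open Finset

namespace Pool.Agent.RCG

section

variable {α β : Type*} [Fintype α] [Fintype β]

private theorem Prob_pr_eq (P : α → Prop) [DecidablePred P] :
    pr P = ((univ.filter P).card : ℝ) / Fintype.card α := by
  unfold pr
  congr!

theorem pr_nonneg (P : α → Prop) : 0 ≤ pr P := by
  unfold pr
  positivity

theorem pr_le_one (P : α → Prop) : pr P ≤ 1 := by
  classical
  rw [Prob_pr_eq]
  refine div_le_one_of_le₀ ?_ (Nat.cast_nonneg _)
  exact_mod_cast Finset.card_le_univ _

theorem pr_mono {P Q : α → Prop} (h : ∀ a, P a → Q a) : pr P ≤ pr Q := by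
  classical
  rw [Prob_pr_eq, Prob_pr_eq]
  refine div_le_div_of_nonneg_right ?_ (Nat.cast_nonneg _)
  exact_mod_cast Finset.card_le_card fun a ha => by
    rw [Finset.mem_filter] at ha ⊢
    exact ⟨ha.1, h a ha.2⟩

theorem pr_or (P Q : α → Prop) : pr (fun a => P a ∨ Q a) ≤ pr P + pr Q := by
  classical
  rw [Prob_pr_eq, Prob_pr_eq, Prob_pr_eq, ← add_div]
  refine div_le_div_of_nonneg_right ?_ (Nat.cast_nonneg _)
  rw [Finset.filter_or]
  exact_mod_cast Finset.card_union_le _ _

theorem pr_congr (e : α ≃ β) (P : β → Prop) : pr (fun a => P (e a)) = pr P := by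
  classical
  rw [Prob_pr_eq, Prob_pr_eq, Fintype.card_congr e]
  congr 2
  refine Finset.card_bij (fun a _ => e a) ?_ ?_ ?_
  · intro a ha
    simpa using ha
  · intro a _ b _ hab
    exact e.injective hab
  · intro b hb
    exact ⟨e.symm b, by simpa using hb, by simp⟩

theorem pr_not [Nonempty α] (P : α → Prop) : pr (fun a => ¬ P a) = 1 - pr P := by
  classical
  rw [Prob_pr_eq, Prob_pr_eq]
  have hN : (0 : ℝ) < Fintype.card α := by exact_mod_cast Fintype.card_pos
  have h : ((univ.filter P).card : ℝ) + ((univ.filter fun a => ¬ P a).card : ℝ) = Fintype.card α := by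
    have h1 := Finset.card_filter_add_card_filter_not (s := (univ : Finset α)) P
    rw [Finset.card_univ] at h1
    exact_mod_cast h1
  rw [eq_sub_iff_add_eq, ← add_div, add_comm, h, div_self hN.ne']

/-- If for every `a` outside a set of probability `ε` the conditional probability is at most `ε'`. -/
theorem pr_prod_le (P : α × β → Prop) (B : α → Prop) (ε ε' : ℝ) (hε' : 0 ≤ ε')
    (hB : pr B ≤ ε) (h : ∀ a, ¬ B a → pr (fun b => P (a, b)) ≤ ε') : pr P ≤ ε + ε' := by
  classical
  have hε : 0 ≤ ε := (pr_nonneg B).trans hB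
  rcases isEmpty_or_nonempty α with hα | hα
  · rw [Prob_pr_eq, Fintype.card_eq_zero (α := α × β)]
    simp only [Nat.cast_zero, div_zero]
    linarith
  rcases isEmpty_or_nonempty β with hβ | hβ
  · rw [Prob_pr_eq, Fintype.card_eq_zero (α := α × β)]
    simp only [Nat.cast_zero, div_zero]
    linarith
  have hN : (0 : ℝ) < Fintype.card α := by exact_mod_cast Fintype.card_pos
  have hM : (0 : ℝ) < Fintype.card β := by exact_mod_cast Fintype.card_pos
  rw [Prob_pr_eq, Fintype.card_prod, Nat.cast_mul, div_le_iff₀ (mul_pos hN hM)]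
  rw [Prob_pr_eq, div_le_iff₀ hN] at hB
  have h1 : ((univ.filter P).card : ℝ) = ∑ a : α, ((univ.filter fun b => P (a, b)).card : ℝ) := by
    have h2 : (univ.filter P).card = ∑ a : α, (univ.filter fun b => P (a, b)).card := by
      simp only [Finset.card_filter]
      exact Fintype.sum_prod_type _
    rw [h2]
    push_cast
    rfl
  rw [h1]
  have h2 : ∀ a : α, ((univ.filter fun b => P (a, b)).card : ℝ) ≤
      (if B a then (Fintype.card β : ℝ) else 0) + ε' * Fintype.card β := by
    intro a
    by_cases hBa : B a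
    · rw [if_pos hBa]
      have h3 : ((univ.filter fun b => P (a, b)).card : ℝ) ≤ Fintype.card β := by
        exact_mod_cast Finset.card_le_univ _
      have h4 : 0 ≤ ε' * Fintype.card β := mul_nonneg hε' hM.le
      linarith
    · rw [if_neg hBa, zero_add]
      have h3 := h a hBa
      rw [Prob_pr_eq, div_le_iff₀ hM] at h3
      exact h3
  calc ∑ a : α, ((univ.filter fun b => P (a, b)).card : ℝ)
      ≤ ∑ a : α, ((if B a then (Fintype.card β : ℝ) else 0) + ε' * Fintype.card β) :=
        Finset.sum_le_sum fun a _ => h2 a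
    _ = ((univ.filter B).card : ℝ) * Fintype.card β + Fintype.card α * (ε' * Fintype.card β) := by
        rw [Finset.sum_add_distrib, Finset.sum_const, Finset.card_univ, nsmul_eq_mul,
          ← Finset.sum_filter, Finset.sum_const, nsmul_eq_mul]
    _ ≤ ε * Fintype.card α * Fintype.card β + Fintype.card α * (ε' * Fintype.card β) := by
        have := mul_le_mul_of_nonneg_right hB hM.le
        linarith
    _ = (ε + ε') * (Fintype.card α * Fintype.card β) := by ring

/-- Markov's inequality: `P(f > t) ≤ E f / t`. (`[Nonempty α]` is needed: for empty `α` the number `c` could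
be negative.) -/
theorem pr_markov [Nonempty α] (f : α → ℝ) (hf : ∀ a, 0 ≤ f a) (t c : ℝ) (ht : 0 < t)
    (hc : ∑ a, f a ≤ c * Fintype.card α) : pr (fun a => t < f a) ≤ c / t := by
  classical
  have hN : (0 : ℝ) < Fintype.card α := by exact_mod_cast Fintype.card_pos
  rw [Prob_pr_eq, div_le_div_iff₀ hN ht]
  calc ((univ.filter fun a => t < f a).card : ℝ) * t = ∑ a ∈ univ.filter fun a => t < f a, t := by
        rw [Finset.sum_const, nsmul_eq_mul]
    _ ≤ ∑ a ∈ univ.filter fun a => t < f a, f a :=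
        Finset.sum_le_sum fun a ha => (Finset.mem_filter.1 ha).2.le
    _ ≤ ∑ a, f a := Finset.sum_le_sum_of_subset_of_nonneg (Finset.filter_subset _ _)
        fun a _ _ => hf a
    _ ≤ c * Fintype.card α := hc

end

variable {n : ℕ}

private theorem Prob_range_append {X : Type*} {k k' : ℕ} (z : Fin k → X) (z' : Fin k' → X) :
    Set.range (Fin.append z z') = Set.range z ∪ Set.range z' := by
  ext x
  simp only [Set.mem_range, Set.mem_union]
  constructor
  · rintro ⟨i, rfl⟩
    refine Fin.addCases (fun j => ?_) (fun j => ?_) i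
    · left
      exact ⟨j, by rw [Fin.append_left]⟩
    · right
      exact ⟨j, by rw [Fin.append_right]⟩
  · rintro (⟨j, rfl⟩ | ⟨j, rfl⟩)
    · exact ⟨Fin.castAdd k' j, by rw [Fin.append_left]⟩
    · exact ⟨Fin.natAdd k j, by rw [Fin.append_right]⟩

private theorem Prob_append {k k' : ℕ} (P : (Fin (k + k') → A n) → Prop) :
    pr P = pr fun p : (Fin k → A n) × (Fin k' → A n) => P (Fin.append p.1 p.2) :=
  (pr_congr (Fin.appendEquiv k k') P).symm

theorem Step.comp {k k' : ℕ} {ε ε' : ℝ} {Q Q' Q'' : Set (A n) → Prop}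
    (h : Step n k ε Q Q') (h' : Step n k' ε' Q' Q'') (hε' : 0 ≤ ε') :
    Step n (k + k') (ε + ε') Q Q'' := by
  intro S hS
  rw [Prob_append]
  refine pr_prod_le _ (fun z => ¬ Q' (S ∪ Set.range z)) ε ε' hε' (h S hS) ?_
  intro z hz
  have hz' : Q' (S ∪ Set.range z) := not_not.1 hz
  have h1 := h' _ hz'
  refine (pr_mono fun z' hz' => ?_).trans h1
  simp only [Prob_range_append] at hz'
  rw [Set.union_assoc]
  exact hz'

theorem Step.and_right {k : ℕ} {ε : ℝ} {Q Q' R : Set (A n) → Prop} (hR : Mono R)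
    (h : Step n k ε Q Q') : Step n k ε (fun S => Q S ∧ R S) (fun S => Q' S ∧ R S) := by
  intro S hS
  refine (pr_mono fun z hz => ?_).trans (h S hS.1)
  intro hq
  exact hz ⟨hq, hR _ _ Set.subset_union_left hS.2⟩

theorem Step.weaken {k : ℕ} {ε ε' : ℝ} {Q Q' P P' : Set (A n) → Prop} (h : Step n k ε Q Q')
    (hP : ∀ S, P S → Q S) (hP' : ∀ S, Q' S → P' S) (hε : ε ≤ ε') : Step n k ε' P P' := by
  intro S hS
  refine ((pr_mono fun z hz => ?_).trans (h S (hP S hS))).trans hε
  exact fun hq => hz (hP' _ hq)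

/-- Superfluous letters. -/
theorem Step.extra {k : ℕ} {ε : ℝ} {Q Q' : Set (A n) → Prop} (hQ' : Mono Q')
    (h : Step n k ε Q Q') (r : ℕ) : Step n (k + r) ε Q Q' := by
  intro S hS
  rw [Prob_append]
  have h1 : pr (fun p : (Fin k → A n) × (Fin r → A n) => ¬ Q' (S ∪ Set.range p.1)) ≤ ε + 0 := by
    refine pr_prod_le _ (fun z => ¬ Q' (S ∪ Set.range z)) ε 0 le_rfl (h S hS) ?_
    intro z hz
    have h2 : pr (fun _ : Fin r → A n => ¬ Q' (S ∪ Set.range z)) ≤ 0 := by
      classical
      rw [Prob_pr_eq]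
      simp only [hz, Finset.filter_false, Finset.card_empty, Nat.cast_zero, zero_div, le_refl]
    exact h2
  rw [add_zero] at h1
  refine (pr_mono fun p hp => ?_).trans h1
  intro hq
  apply hp
  refine hQ' _ _ ?_ hq
  rw [Prob_range_append]
  exact Set.union_subset_union_right _ Set.subset_union_left

theorem mono_hasX (R T : ℕ) : Mono (HasX n R T) := by
  rintro S S' hS ⟨x, hx, h⟩
  exact ⟨x, hS hx, h⟩

theorem mono_hasFam (φ : ℝ) (l : ℕ) (e : ℝ) : Mono (HasFam n φ l e) := by
  rintro S S' hS ⟨k, hk, w, hw, h⟩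
  exact ⟨k, hk, w, fun i => (hw i).mono hS le_rfl, h⟩

theorem mono_hasH (j l : ℕ) : Mono (HasH n j l) := by
  rintro S S' hS ⟨x, hx, h⟩
  exact ⟨x, hx, h.mono hS le_rfl⟩

theorem mono_hasAll (l : ℕ) : Mono (HasAll n l) := by
  intro S S' hS h g
  exact (h g).mono hS le_rfl

end Pool.Agent.RCG
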