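import Pool.Agent.W_MP_6acff7_h70.Double

/-!
# Dimension from disjoint blocks without invariant vectors of the Klein four group

PROOF of `dim_blocks`, induction on `r` (for all `q`, `Y`).  `r = 0`: `Y ≠ ⊥` has dimension `≥ 1`.
Step: use the first block `q 0`, `t_a = ρ (dt_a (q 0))`, `a = 1, 2, 3`: commuting involutions with
`t_1 t_2 = t_3`, and `1 + t_1 + t_2 + t_3 = 0` on `Y`.  Put
`Y_1 = {u ∈ Y | t_1 u = u, t_2 u = -u, t_3 u = -u}` and `Y_2`, `Y_3` similarly (only `t_a` acts as `+1`).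
For `u ∈ Y`: `u = u_1 + u_2 + u_3`, `u_1 = (u + t_1 u - t_2 u - t_3 u)/4 ∈ Y_1` etc. (sum is
`(3u - t_1 u - t_2 u - t_3 u)/4 = u`).  `Y_1, Y_2, Y_3` are linearly independent (orthogonal) subspaces.  The 3-cycle
`c = (q1 q2 q3)` (even, moves only points of the block) satisfies `c dt1 c⁻¹ = dt2`, `c dt2 c⁻¹ = dt3`,
`c dt3 c⁻¹ = dt1` (or the reverse order), so `ρ c` is an isomorphism `Y_1 → Y_2 → Y_3 → Y_1`; the three have the
same dimension, which is `> 0` as `Y ≠ ⊥`.  `Y_1` is invariant under the elements supported on one of the other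
blocks (they commute with `dt_a (q 0)`) and has the property `hfree` for them, so
`finrank Y_1 ≥ 3^(r-1)` and `finrank Y ≥ 3 finrank Y_1`.
-/

open Finset

namespace Pool.Agent.RCG

variable {n : ℕ} {E : Type*} [NormedAddCommGroup E] [InnerProductSpace ℝ E]

/-- A swap of two values of an injective tuple, as an extension of a swap of the index type. -/
private theorem blocks_swap_eq (q : Fin 4 ↪ Fin n) (a b : Fin 4) :
    Equiv.swap (q a) (q b) = Equiv.Perm.viaEmbeddingHom q (Equiv.swap a b) := by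
  ext1 p
  rw [Equiv.Perm.viaEmbeddingHom_apply]
  by_cases hp : p ∈ Set.range q
  · obtain ⟨k, rfl⟩ := hp
    rw [Equiv.Perm.viaEmbedding_apply, q.injective.swap_apply]
  · rw [Equiv.Perm.viaEmbedding_apply_of_notMem _ _ _ hp]
    refine Equiv.swap_apply_of_ne_of_ne ?_ ?_
    · rintro rfl; exact hp ⟨a, rfl⟩
    · rintro rfl; exact hp ⟨b, rfl⟩

/-- The 3-cycle `(q1 q2 q3)`. -/
private def blocks_c (q : Fin 4 ↪ Fin n) : A n :=
  ⟨Equiv.swap (q 1) (q 2) * Equiv.swap (q 2) (q 3), by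
    have h1 : q 1 ≠ q 2 := fun h => by simpa using q.injective h
    have h2 : q 2 ≠ q 3 := fun h => by simpa using q.injective h
    simp [Equiv.Perm.mem_alternatingGroup, Equiv.Perm.sign_swap h1, Equiv.Perm.sign_swap h2]⟩

private theorem blocks_sq1 (q : Fin 4 ↪ Fin n) : dt1 q * dt1 q = 1 := by
  refine Subtype.ext ?_
  simp only [dt1, Subgroup.coe_mul, Subgroup.coe_one, blocks_swap_eq, ← map_mul]
  rw [← map_one (Equiv.Perm.viaEmbeddingHom q)]
  congr 1
  decide

private theorem blocks_12 (q : Fin 4 ↪ Fin n) : dt2 q * dt1 q = dt3 q := by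
  refine Subtype.ext ?_
  simp only [dt1, dt2, dt3, Subgroup.coe_mul, blocks_swap_eq, ← map_mul]
  congr 1
  decide

private theorem blocks_c1 (q : Fin 4 ↪ Fin n) : blocks_c q * dt1 q = dt2 q * blocks_c q := by
  refine Subtype.ext ?_
  simp only [dt1, dt2, blocks_c, Subgroup.coe_mul, blocks_swap_eq, ← map_mul]
  congr 1
  decide

private theorem blocks_c2 (q : Fin 4 ↪ Fin n) : blocks_c q * dt2 q = dt3 q * blocks_c q := by
  refine Subtype.ext ?_
  simp only [dt2, dt3, blocks_c, Subgroup.coe_mul, blocks_swap_eq, ← map_mul]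
  congr 1
  decide

private theorem blocks_c3 (q : Fin 4 ↪ Fin n) : blocks_c q * dt3 q = dt1 q * blocks_c q := by
  refine Subtype.ext ?_
  simp only [dt1, dt3, blocks_c, Subgroup.coe_mul, blocks_swap_eq, ← map_mul]
  congr 1
  decide

private theorem blocks_fix1 (q : Fin 4 ↪ Fin n) (p : Fin n) (hp : ∀ k, q k ≠ p) :
    (dt1 q).1 p = p := by
  simp only [dt1, Equiv.Perm.mul_apply]
  rw [Equiv.swap_apply_of_ne_of_ne (hp 2).symm (hp 3).symm,
    Equiv.swap_apply_of_ne_of_ne (hp 0).symm (hp 1).symm]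

private theorem blocks_fix2 (q : Fin 4 ↪ Fin n) (p : Fin n) (hp : ∀ k, q k ≠ p) :
    (dt2 q).1 p = p := by
  simp only [dt2, Equiv.Perm.mul_apply]
  rw [Equiv.swap_apply_of_ne_of_ne (hp 1).symm (hp 3).symm,
    Equiv.swap_apply_of_ne_of_ne (hp 0).symm (hp 2).symm]

private theorem blocks_fixc (q : Fin 4 ↪ Fin n) (p : Fin n) (hp : ∀ k, q k ≠ p) :
    (blocks_c q).1 p = p := by
  simp only [blocks_c, Equiv.Perm.mul_apply]
  rw [Equiv.swap_apply_of_ne_of_ne (hp 2).symm (hp 3).symm,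
    Equiv.swap_apply_of_ne_of_ne (hp 1).symm (hp 2).symm]

/-- The linear algebra of one block. -/
private theorem blocks_lin [FiniteDimensional ℝ E] (Y : Submodule ℝ E) (t₁ t₂ t₃ c c' : Module.End ℝ E)
    (h11 : ∀ u, t₁ (t₁ u) = u) (h21 : ∀ u, t₂ (t₁ u) = t₃ u)
    (hc1 : ∀ u, c (t₁ u) = t₂ (c u)) (hc2 : ∀ u, c (t₂ u) = t₃ (c u))
    (hc3 : ∀ u, c (t₃ u) = t₁ (c u)) (hcc : ∀ u, c (c' u) = u) (hcc' : ∀ u, c' (c u) = u)
    (hY1 : ∀ u ∈ Y, t₁ u ∈ Y)
    (hYc : ∀ u ∈ Y, c u ∈ Y) (hYc' : ∀ u ∈ Y, c' u ∈ Y)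
    (hsum : ∀ u ∈ Y, u + t₁ u + t₂ u + t₃ u = 0) (hY0 : Y ≠ ⊥)
    (Y₁ : Submodule ℝ E) (hY₁ : ∀ u, u ∈ Y₁ ↔ u ∈ Y ∧ t₁ u = u ∧ t₂ u = -u) :
    Y₁ ≠ ⊥ ∧ 3 * Module.finrank ℝ Y₁ ≤ Module.finrank ℝ Y := by
  have h3 : ∀ u ∈ Y₁, t₃ u = -u := by
    intro u hu
    obtain ⟨h1, h2, h3⟩ := (hY₁ u).1 hu
    rw [← h21, h2, h3]
  constructor
  · intro hbot
    -- `u + t₁ u = 0` on `Y`
    have k1 : ∀ u ∈ Y, u + t₁ u = 0 := by
      intro u hu
      have hm : u + t₁ u ∈ Y₁ := by
        rw [hY₁]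
        refine ⟨Y.add_mem hu (hY1 u hu), ?_, ?_⟩
        · rw [map_add, h11, add_comm]
        · rw [map_add, h21]
          have := hsum u hu
          rw [eq_neg_iff_add_eq_zero, ← this]
          abel
      rw [hbot] at hm
      exact (Submodule.mem_bot ℝ).1 hm
    have k2 : ∀ u ∈ Y, u + t₂ u = 0 := by
      intro u hu
      have := k1 (c' u) (hYc' u hu)
      have := congrArg c this
      rw [map_add, hc1, hcc, map_zero] at this
      exact this
    have k3 : ∀ u ∈ Y, u + t₃ u = 0 := by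
      intro u hu
      have := k2 (c' u) (hYc' u hu)
      have := congrArg c this
      rw [map_add, hc2, hcc, map_zero] at this
      exact this
    apply hY0
    rw [Submodule.eq_bot_iff]
    intro u hu
    have e1 := k1 u hu
    have e2 := k2 u hu
    have e3 := k3 u hu
    have e4 := hsum u hu
    have : (2 : ℝ) • u = 0 := by
      have : (2 : ℝ) • u = (u + t₁ u) + (u + t₂ u) + (u + t₃ u) - (u + t₁ u + t₂ u + t₃ u) := by
        rw [two_smul]; abel
      rw [this, e4, e1, e2, e3]; simp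
    exact (smul_eq_zero.1 this).resolve_left two_ne_zero
  · have hle : Y₁ ≤ Y := fun u hu => ((hY₁ u).1 hu).1
    -- the map
    let Φ : (Y₁ × Y₁ × Y₁) →ₗ[ℝ] Y :=
      { toFun := fun x => ⟨x.1.1 + c x.2.1.1 + c (c x.2.2.1),
          Y.add_mem (Y.add_mem (hle x.1.2) (hYc _ (hle x.2.1.2))) (hYc _ (hYc _ (hle x.2.2.2)))⟩
        map_add' := by
          intro x y
          refine Subtype.ext ?_
          simp only [Prod.fst_add, Prod.snd_add, Submodule.coe_add, map_add]
          abel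
        map_smul' := by
          intro a x
          refine Subtype.ext ?_
          simp only [Prod.smul_fst, Prod.smul_snd, Submodule.coe_smul, map_smul, RingHom.id_apply,
            smul_add] }
    have hinj : Function.Injective Φ := by
      rw [← LinearMap.ker_eq_bot, LinearMap.ker_eq_bot']
      rintro ⟨⟨a, ha⟩, ⟨b, hb⟩, ⟨d, hd⟩⟩ h
      have h0 : a + c b + c (c d) = 0 := congrArg Subtype.val h
      have a1 := ((hY₁ a).1 ha).2.1
      have a2 := ((hY₁ a).1 ha).2.2
      have b1 := ((hY₁ b).1 hb).2.1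
      have b2 := ((hY₁ b).1 hb).2.2
      have b3 := h3 b hb
      have d1 := ((hY₁ d).1 hd).2.1
      have d2 := ((hY₁ d).1 hd).2.2
      have d3 := h3 d hd
      -- apply `t₁`
      have e1 := congrArg t₁ h0
      rw [map_add, map_add, map_zero, a1, ← hc3, b3, map_neg, ← hc3, ← hc2, d2, map_neg,
        map_neg] at e1
      have e2 := congrArg t₂ h0
      rw [map_add, map_add, map_zero, a2, ← hc1, b1, ← hc1, ← hc3, d3, map_neg,
        map_neg] at e2
      have ha0 : a = 0 := by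
        have : (2 : ℝ) • a = 0 := by
          have : (2 : ℝ) • a = (a + c b + c (c d)) + (a + -c b + -c (c d)) := by
            rw [two_smul]; abel
          rw [this, h0, e1]; simp
        exact (smul_eq_zero.1 this).resolve_left two_ne_zero
      have hb0 : b = 0 := by
        have : (2 : ℝ) • c b = 0 := by
          have : (2 : ℝ) • c b = (a + c b + c (c d)) + (-a + c b + -c (c d)) := by
            rw [two_smul]; abel
          rw [this, h0, e2]; simp
        have : c b = 0 := (smul_eq_zero.1 this).resolve_left two_ne_zero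
        have := congrArg c' this
        rw [hcc', map_zero] at this
        exact this
      have hd0 : d = 0 := by
        rw [ha0, hb0, map_zero, zero_add, zero_add] at h0
        have := congrArg c' h0
        rw [hcc', map_zero] at this
        have := congrArg c' this
        rw [hcc', map_zero] at this
        exact this
      subst ha0; subst hb0; subst hd0
      rfl
    have := LinearMap.finrank_le_finrank_of_injective hinj
    rw [Module.finrank_prod, Module.finrank_prod] at this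
    omega

private theorem blocks_comm (q q' : Fin 4 ↪ Fin n) (hq : ∀ k k', q k ≠ q' k') (g h : A n)
    (hg : ∀ p, (∀ k, q k ≠ p) → g.1 p = p) (hh : ∀ p, (∀ k, q' k ≠ p) → h.1 p = p) :
    g * h = h * g := by
  refine Subtype.ext ?_
  have : Equiv.Perm.Disjoint g.1 h.1 := by
    intro p
    by_cases hp : ∀ k, q k ≠ p
    · exact Or.inl (hg p hp)
    · push Not at hp
      obtain ⟨k, rfl⟩ := hp
      exact Or.inr (hh _ fun k' => (hq k k').symm)
  exact this.commute

theorem dim_blocks [FiniteDimensional ℝ E] {ρ : A n →* Module.End ℝ E} (hρ : Orth ρ) (r : ℕ)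
    (q : Fin r → (Fin 4 ↪ Fin n))
    (hdisj : ∀ i i', i ≠ i' → ∀ k k', q i k ≠ q i' k')
    (Y : Submodule ℝ E) (hY0 : Y ≠ ⊥)
    (hinv : ∀ i, ∀ g : A n, (∀ p, (∀ k, q i k ≠ p) → g.1 p = p) → ∀ u ∈ Y, ρ g u ∈ Y)
    (hfree : ∀ i, ∀ u ∈ Y, u + ρ (dt1 (q i)) u + ρ (dt2 (q i)) u + ρ (dt3 (q i)) u = 0) :
    3 ^ r ≤ Module.finrank ℝ Y := by
  induction r generalizing Y with
  | zero =>
    rw [pow_zero]
    exact Submodule.one_le_finrank_iff.2 hY0
  | succ r ih =>
    let t₁ := ρ (dt1 (q 0))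
    let t₂ := ρ (dt2 (q 0))
    let t₃ := ρ (dt3 (q 0))
    have hmul : ∀ (g h : A n) (u : E), ρ g (ρ h u) = ρ (g * h) u := by
      intro g h u
      rw [map_mul, Module.End.mul_apply]
    let Y₁ : Submodule ℝ E :=
      { carrier := {u | u ∈ Y ∧ t₁ u = u ∧ t₂ u = -u}
        add_mem' := by
          rintro u v ⟨h1, h2, h3⟩ ⟨h1', h2', h3'⟩
          refine ⟨Y.add_mem h1 h1', ?_, ?_⟩
          · rw [map_add, h2, h2']
          · rw [map_add, h3, h3', neg_add]
        zero_mem' := ⟨Y.zero_mem, map_zero _, by rw [map_zero, neg_zero]⟩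
        smul_mem' := by
          rintro a u ⟨h1, h2, h3⟩
          refine ⟨Y.smul_mem a h1, ?_, ?_⟩
          · rw [map_smul, h2]
          · rw [map_smul, h3, smul_neg] }
    have hY₁ : ∀ u, u ∈ Y₁ ↔ u ∈ Y ∧ t₁ u = u ∧ t₂ u = -u := fun u => Iff.rfl
    have key := blocks_lin Y t₁ t₂ t₃ (ρ (blocks_c (q 0))) (ρ (blocks_c (q 0))⁻¹)
      (fun u => by
        change ρ (dt1 (q 0)) (ρ (dt1 (q 0)) u) = u
        rw [hmul, blocks_sq1, map_one, Module.End.one_apply])
      (fun u => by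
        change ρ (dt2 (q 0)) (ρ (dt1 (q 0)) u) = ρ (dt3 (q 0)) u
        rw [hmul, blocks_12])
      (fun u => by
        change ρ (blocks_c (q 0)) (ρ (dt1 (q 0)) u) = ρ (dt2 (q 0)) (ρ (blocks_c (q 0)) u)
        rw [hmul, hmul, blocks_c1])
      (fun u => by
        change ρ (blocks_c (q 0)) (ρ (dt2 (q 0)) u) = ρ (dt3 (q 0)) (ρ (blocks_c (q 0)) u)
        rw [hmul, hmul, blocks_c2])
      (fun u => by
        change ρ (blocks_c (q 0)) (ρ (dt3 (q 0)) u) = ρ (dt1 (q 0)) (ρ (blocks_c (q 0)) u)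
        rw [hmul, hmul, blocks_c3])
      (fun u => by rw [hmul, mul_inv_cancel, map_one, Module.End.one_apply])
      (fun u => by rw [hmul, inv_mul_cancel, map_one, Module.End.one_apply])
      (fun u hu => hinv 0 _ (fun p hp => blocks_fix1 _ _ hp) u hu)
      (fun u hu => hinv 0 _ (fun p hp => blocks_fixc _ _ hp) u hu)
      (fun u hu => hinv 0 _ (fun p hp => by
        rw [Subgroup.coe_inv, Equiv.Perm.inv_eq_iff_eq]
        exact (blocks_fixc _ _ hp).symm) u hu)
      (fun u hu => hfree 0 u hu) hY0 Y₁ hY₁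
    have h3 := ih (fun i => q i.succ)
      (fun i i' hii k k' => hdisj _ _ (fun h => hii (Fin.succ_injective _ h)) k k') Y₁ key.1
      (by
        intro i g hg u hu
        obtain ⟨hu1, hu2, hu3⟩ := (hY₁ u).1 hu
        rw [hY₁]
        refine ⟨hinv i.succ g hg u hu1, ?_, ?_⟩
        · change ρ (dt1 (q 0)) (ρ g u) = ρ g u
          rw [hmul, ← blocks_comm (q i.succ) (q 0) (hdisj _ _ (Fin.succ_ne_zero i)) g _ hg
            (fun p hp => blocks_fix1 _ _ hp), ← hmul]
          exact congrArg (ρ g) hu2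
        · change ρ (dt2 (q 0)) (ρ g u) = -ρ g u
          rw [hmul, ← blocks_comm (q i.succ) (q 0) (hdisj _ _ (Fin.succ_ne_zero i)) g _ hg
            (fun p hp => blocks_fix2 _ _ hp), ← hmul, ← map_neg]
          exact congrArg (ρ g) hu3)
      (by
        intro i u hu
        exact hfree i.succ u ((hY₁ u).1 hu).1)
    have h4 := key.2
    rw [pow_succ]
    omega

end Pool.Agent.RCG
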