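import Pool.Agent.W_MP_6acff7_h70.Defs

/-!
# Even permutations of cycle type `{l, j}`

`n' = 2 * (n / 2)` (`= n` or `n - 1`), `l = n' - j > j ≥ 2`.

PROOF.  `K0 = {u : A n | u.1.cycleType = {l, j}}`.  Every permutation of cycle type `{l, j}` is even
(`Equiv.Perm.sign_of_cycleType`, `l + j = n'` even), so `|K0|` equals the number of permutations of this cycle
type, `n!/((n - n')! l j) = n!/(l j)` (`Equiv.Perm.card_of_cycleType` or `card_of_cycleType_mul_eq`; `l ≠ j`,
`(n - n')! = 1`), and `|A n| = n!/2`.  So `n² |K0| ≥ l j |K0| = n! = 2 |A n|`.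
Support of `u^l`: `u` is the product of two disjoint cycles `c₁` (length `l`) and `c₂` (length `j`); `u^l = c₂^l`.
`c₂^l` fixes a point of the support of `c₂` iff `j ∣ l` iff `j ∣ n'` (`IsCycle.pow_eq_one_iff`), excluded;
so the support of `u^l` is the support of `c₂`, of size `j`.
-/

open Finset

namespace Pool.Agent.RCG

private theorem classK_card {n l j : ℕ} (hj : 2 ≤ j) (hl : j < l) (hlj : l + j ≤ n)
    (hn : n ≤ l + j + 1) (hev : Even (l + j)) :
    (univ.filter fun u : A n => u.1.cycleType = {l, j}).card * (l * j) = n.factorial := by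
  have h := AlternatingGroup.card_of_cycleType_mul_eq (Fin n) ({l, j} : Multiset ℕ)
  have hs : ({l, j} : Multiset ℕ).sum = l + j := by simp
  have hp : ({l, j} : Multiset ℕ).prod = l * j := by simp
  have hcd : Multiset.card ({l, j} : Multiset ℕ) = 2 := by simp
  have hc : (∏ n ∈ ({l, j} : Multiset ℕ).toFinset, (({l, j} : Multiset ℕ).count n).factorial) = 1 := by
    apply Finset.prod_eq_one
    intro a ha
    have hnd : ({l, j} : Multiset ℕ).Nodup := by
      rw [Multiset.insert_eq_cons, Multiset.nodup_cons]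
      refine ⟨?_, Multiset.nodup_singleton j⟩
      simp only [Multiset.mem_singleton]
      omega
    rw [Multiset.count_eq_one_of_mem hnd (Multiset.mem_toFinset.1 ha)]
    rfl
  rw [if_pos] at h
  · rw [hs, hp, hc, Fintype.card_fin, mul_one] at h
    have h1 : (n - (l + j)).factorial = 1 := by
      have : n - (l + j) = 0 ∨ n - (l + j) = 1 := by omega
      rcases this with h | h <;> rw [h] <;> rfl
    rw [h1, one_mul] at h
    exact h
  · rw [hs, hcd, Fintype.card_fin]
    refine ⟨⟨hlj, ?_⟩, ?_⟩
    · intro a ha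
      simp only [Multiset.insert_eq_cons, Multiset.mem_cons, Multiset.mem_singleton] at ha
      omega
    · exact hev.add even_two

private theorem classK_supp {n l j : ℕ} (hjl : ¬ j ∣ l) (u : Equiv.Perm (Fin n))
    (hu : u.cycleType = {l, j}) : (u ^ l).support.card = j := by
  have hl : l ∈ u.cycleType := by rw [hu]; simp
  obtain ⟨c, τ, rfl, hd, hc, hcl⟩ := Equiv.Perm.mem_cycleType_iff.1 hl
  rw [hd.cycleType_mul, hc.cycleType, hcl] at hu
  have h2 : τ.cycleType = {j} := by
    have h3 : ({l} : Multiset ℕ) + τ.cycleType = {l} + {j} := hu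
    exact add_left_cancel h3
  have hτ : τ.IsCycle := by
    rw [← Equiv.Perm.card_cycleType_eq_one, h2]
    rfl
  have hτj : τ.support.card = j := by
    rw [hτ.cycleType] at h2
    simpa using h2
  rw [hd.commute.mul_pow]
  have h4 : c ^ l = 1 := by
    rw [← hcl, ← hc.orderOf]
    exact pow_orderOf_eq_one c
  rw [h4, one_mul, hτ.support_pow_eq_iff.2, hτj]
  rw [hτ.orderOf, hτj]
  exact hjl

theorem classK {n j : ℕ} (hj : 2 ≤ j) (hj2 : 2 * j < 2 * (n / 2))
    (hnd : ¬ j ∣ 2 * (n / 2)) :
    ∃ K0 : Finset (A n), 2 * (Fintype.card (A n) : ℝ) ≤ (n : ℝ) ^ 2 * K0.card ∧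
      ∀ u ∈ K0, ((u ^ (2 * (n / 2) - j)).1).support.card = j := by
  have hj3 : j < 2 * (n / 2) - j := by omega
  have hsum : 2 * (n / 2) - j + j = 2 * (n / 2) := by omega
  have hcard := classK_card (n := n) hj hj3 (by omega) (by omega) (by rw [hsum]; exact even_two_mul _)
  refine ⟨univ.filter fun u : A n => u.1.cycleType = {2 * (n / 2) - j, j}, ?_, ?_⟩
  · haveI : Nontrivial (Fin n) := Fin.nontrivial_iff_two_le.2 (by omega)
    have hA : 2 * Fintype.card (A n) = n.factorial := by
      have := two_mul_card_alternatingGroup (α := Fin n)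
      rwa [Fintype.card_perm, Fintype.card_fin] at this
    have h5 : 2 * Fintype.card (A n) ≤
        n ^ 2 * (univ.filter fun u : A n => u.1.cycleType = {2 * (n / 2) - j, j}).card := by
      rw [hA, ← hcard, mul_comm, sq]
      exact Nat.mul_le_mul_right _ (Nat.mul_le_mul (by omega) (by omega))
    exact_mod_cast h5
  · intro u hu
    rw [mem_filter] at hu
    have h6 := classK_supp (l := 2 * (n / 2) - j) (j := j) (by
      intro h
      apply hnd
      rw [← hsum]
      exact Dvd.dvd.add h dvd_rfl) u.1 hu.2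
    simpa using h6

end Pool.Agent.RCG
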