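import Pool.Agent.W_MP_6acff7_h70.Trans

/-!
# Two probability bounds for a random conjugate `z⁻¹ g z`, `z` uniform in `A n`

`card_fix_set`.  Enumerate `Q` by `s : Fin a ↪ Fin n`.  `z⁻¹ g z` fixes `Q` pointwise iff the tuple
`actT z s` lies in the set of tuples all of whose entries are fixed points of `g`; there are
`(fixN g).descFactorial a` of these, so by `sum_act` (or `card_act_eq`) the number of `z` is
`|A n| (fixN g)_a / (n)_a ≤ |A n| (fixN g / n)^a`.

`card_move_set`.  For an injection `r : Fin a ↪ Fin n` with values in `B \ Q` the tuple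
`Fin.append s r : Fin (a + a) ↪ Fin n` is injective, and `(z⁻¹ g z) (s k) = r k` for all `k` iff
`g (z (s k)) = z (r k)`; the number of tuples `(u, u')` in `Fin (a+a) ↪ Fin n` with
`u' = g ∘ u` is at most `(n)_a`, so the number of `z` is at most
`|A n| (n)_a/(n)_{2a} ≤ |A n| (2/n)^a` since every one of the `a` factors
`n - a, ..., n - 2a + 1` is at least `n/2`.  Sum over the at most `b^a` tuples `r`.
-/

open Finset

namespace Pool.Agent.RCG

theorem CountFix_aux {n b : ℕ} (hb : b + 2 ≤ n) (s : Fin b ↪ Fin n)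
    (P : (Fin b ↪ Fin n) → Prop) [DecidablePred P] :
    ((univ.filter fun z : A n => P (actT z s)).card : ℝ) * (n.descFactorial b : ℝ) =
      (Fintype.card (A n) : ℝ) * ((univ.filter P).card : ℝ) := by
  have h := sum_act hb s (fun t => if P t then (1 : ℝ) else 0)
  rw [Finset.sum_boole, Finset.sum_boole] at h
  exact h

theorem CountFix_desc (n f : ℕ) (hf : f ≤ n) (a : ℕ) :
    f.descFactorial a * n ^ a ≤ f ^ a * n.descFactorial a := by
  induction a with
  | zero => simp
  | succ a ih =>
    rw [Nat.descFactorial_succ, Nat.descFactorial_succ]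
    have h1 : (f - a) * n ≤ f * (n - a) := by
      rw [Nat.sub_mul, Nat.mul_sub]
      have h2 : f * a ≤ a * n := by
        rw [mul_comm f a]
        exact Nat.mul_le_mul_left a hf
      omega
    calc (f - a) * f.descFactorial a * n ^ (a + 1)
        = ((f - a) * n) * (f.descFactorial a * n ^ a) := by rw [pow_succ]; ring
      _ ≤ (f * (n - a)) * (f ^ a * n.descFactorial a) := Nat.mul_le_mul h1 ih
      _ = f ^ (a + 1) * ((n - a) * n.descFactorial a) := by rw [pow_succ]; ring

theorem CountFix_range {n a : ℕ} (Q : Finset (Fin n)) (hQ : Q.card = a) :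
    ∃ s : Fin a ↪ Fin n, (∀ k, s k ∈ Q) ∧ ∀ p ∈ Q, ∃ k, s k = p := by
  refine ⟨(Q.orderEmbOfFin hQ).toEmbedding, fun k => Finset.orderEmbOfFin_mem Q hQ k,
    fun p hp => ?_⟩
  have h1 : p ∈ Set.range (Q.orderEmbOfFin hQ) := by
    rw [Finset.range_orderEmbOfFin]
    exact hp
  exact h1

theorem CountFix_inv {n : ℕ} (g z : A n) (p q : Fin n) :
    (z⁻¹ * g * z).1 p = q ↔ g.1 (z.1 p) = z.1 q := by
  have h1 : (z⁻¹ * g * z).1 p = z.1⁻¹ (g.1 (z.1 p)) := rfl
  rw [h1, Equiv.Perm.inv_eq_iff_eq]

theorem card_fix_set {n a : ℕ} (ha : a + 2 ≤ n) (g : A n) (Q : Finset (Fin n))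
    (hQ : Q.card = a) :
    ((univ.filter fun z : A n => ∀ p ∈ Q, (z⁻¹ * g * z).1 p = p).card : ℝ) ≤
      ((fixN g.1 : ℝ) / n) ^ a * Fintype.card (A n) := by
  obtain ⟨s, hs1, hs2⟩ := CountFix_range Q hQ
  have hn : (0 : ℝ) < n := by exact_mod_cast (by omega : 0 < n)
  have hnd : (0 : ℝ) < (n.descFactorial a : ℝ) := by
    have h1 := Nat.descFactorial_pos (n := n) (k := a)
    exact_mod_cast h1.2 (by omega)
  have haux := CountFix_aux ha s (fun t => ∀ k, g.1 (t k) = t k)
  have heq : (univ.filter fun z : A n => ∀ p ∈ Q, (z⁻¹ * g * z).1 p = p) =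
      univ.filter fun z : A n => ∀ k, g.1 (actT z s k) = actT z s k := by
    ext z
    simp only [Finset.mem_filter, Finset.mem_univ, true_and]
    constructor
    · intro h k
      exact (CountFix_inv g z _ _).1 (h (s k) (hs1 k))
    · intro h p hp
      obtain ⟨k, rfl⟩ := hs2 p hp
      exact (CountFix_inv g z _ _).2 (h k)
  have hcard : (univ.filter fun t : Fin a ↪ Fin n => ∀ k, g.1 (t k) = t k).card ≤
      (fixN g.1).descFactorial a := by
    have h1 : Fintype.card (Fin a ↪ {p : Fin n // g.1 p = p}) = (fixN g.1).descFactorial a := by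
      rw [Fintype.card_embedding_eq, Fintype.card_fin, Fintype.card_subtype]
      rfl
    rw [← h1, ← Fintype.card_subtype]
    refine Fintype.card_le_of_injective
      (fun t => (⟨fun k => ⟨t.1 k, t.2 k⟩, fun k k' h => t.1.injective (congrArg Subtype.val h)⟩ :
        Fin a ↪ {p : Fin n // g.1 p = p})) ?_
    intro t t' h
    ext k
    have h2 := congrArg (fun u => ((u k : {p : Fin n // g.1 p = p}) : Fin n)) h
    exact congrArg Fin.val h2
  have hf : fixN g.1 ≤ n := by
    have h1 := Finset.card_filter_le (univ : Finset (Fin n)) (fun p => g.1 p = p)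
    rw [Finset.card_univ, Fintype.card_fin] at h1
    exact h1
  have hd := CountFix_desc n (fixN g.1) hf a
  rw [heq]
  have hA : (0 : ℝ) ≤ (Fintype.card (A n) : ℝ) := Nat.cast_nonneg _
  have hd' : ((fixN g.1).descFactorial a : ℝ) ≤ ((fixN g.1 : ℝ) / n) ^ a * n.descFactorial a := by
    have h1 : ((fixN g.1).descFactorial a : ℝ) * (n : ℝ) ^ a ≤
        (fixN g.1 : ℝ) ^ a * n.descFactorial a := by exact_mod_cast hd
    rw [div_pow, div_mul_eq_mul_div, le_div_iff₀ (pow_pos hn a)]
    exact h1
  have h2 : ((univ.filter fun z : A n => ∀ k, g.1 (actT z s k) = actT z s k).card : ℝ) *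
      (n.descFactorial a : ℝ) ≤
      (((fixN g.1 : ℝ) / n) ^ a * Fintype.card (A n)) * (n.descFactorial a : ℝ) := by
    rw [haux]
    calc (Fintype.card (A n) : ℝ) *
          ((univ.filter fun t : Fin a ↪ Fin n => ∀ k, g.1 (t k) = t k).card : ℝ)
        ≤ (Fintype.card (A n) : ℝ) * ((fixN g.1).descFactorial a : ℝ) :=
          mul_le_mul_of_nonneg_left (by exact_mod_cast hcard) hA
      _ ≤ (Fintype.card (A n) : ℝ) * (((fixN g.1 : ℝ) / n) ^ a * n.descFactorial a) :=
          mul_le_mul_of_nonneg_left hd' hA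
      _ = _ := by ring
  exact le_of_mul_le_mul_right h2 hnd

theorem card_move_set {n a b : ℕ} (ha : 2 * a + 2 ≤ n) (ha4 : 4 * a ≤ n) (g : A n)
    (Q B : Finset (Fin n)) (hQ : Q.card = a) (hB : B.card = b) :
    ((univ.filter fun z : A n => ∀ p ∈ Q, (z⁻¹ * g * z).1 p ∈ B \ Q).card : ℝ) ≤
      (2 * (b : ℝ) / n) ^ a * Fintype.card (A n) := by
  obtain ⟨s, hs1, hs2⟩ := CountFix_range Q hQ
  have hn : (0 : ℝ) < n := by exact_mod_cast (by omega : 0 < n)
  have hA : (0 : ℝ) ≤ (Fintype.card (A n) : ℝ) := Nat.cast_nonneg _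
  have hnd : (0 : ℝ) < (n.descFactorial a : ℝ) := by
    have h1 := Nat.descFactorial_pos (n := n) (k := a)
    exact_mod_cast h1.2 (by omega)
  -- the number of `z` for one tuple
  have hone : ∀ r : Fin a ↪ Fin n, (∀ k, r k ∈ B \ Q) →
      ((univ.filter fun z : A n => ∀ k, g.1 (z.1 (s k)) = z.1 (r k)).card : ℝ) ≤
        (2 / (n : ℝ)) ^ a * Fintype.card (A n) := by
    intro r hr
    have hinj : Function.Injective (Fin.append s r : Fin (a + a) → Fin n) := by
      intro i j
      refine Fin.addCases (fun i => ?_) (fun i => ?_) i <;>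
        refine Fin.addCases (fun j => ?_) (fun j => ?_) j
      · intro h
        rw [Fin.append_left, Fin.append_left] at h
        rw [s.injective h]
      · intro h
        rw [Fin.append_left, Fin.append_right] at h
        exact absurd (h ▸ hs1 i) (Finset.mem_sdiff.1 (hr j)).2
      · intro h
        rw [Fin.append_left, Fin.append_right] at h
        exact absurd (h ▸ hs1 j) (Finset.mem_sdiff.1 (hr i)).2
      · intro h
        rw [Fin.append_right, Fin.append_right] at h
        rw [r.injective h]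
    have haux := CountFix_aux (b := a + a) (by omega) ⟨_, hinj⟩
      (fun t => ∀ k : Fin a, g.1 (t (Fin.castAdd a k)) = t (Fin.natAdd a k))
    have heq : (univ.filter fun z : A n => ∀ k : Fin a,
        g.1 (actT z ⟨_, hinj⟩ (Fin.castAdd a k)) = actT z ⟨_, hinj⟩ (Fin.natAdd a k)) =
        univ.filter fun z : A n => ∀ k, g.1 (z.1 (s k)) = z.1 (r k) := by
      ext z
      simp only [Finset.mem_filter, Finset.mem_univ, true_and, actT_apply,
        Function.Embedding.coeFn_mk, Fin.append_left, Fin.append_right]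
    have hcard : (univ.filter fun t : Fin (a + a) ↪ Fin n =>
        ∀ k : Fin a, g.1 (t (Fin.castAdd a k)) = t (Fin.natAdd a k)).card ≤
        n.descFactorial a := by
      have h1 : Fintype.card (Fin a ↪ Fin n) = n.descFactorial a := by
        rw [Fintype.card_embedding_eq, Fintype.card_fin, Fintype.card_fin]
      rw [← h1, ← Fintype.card_subtype]
      refine Fintype.card_le_of_injective
        (fun t => (⟨fun k => t.1 (Fin.castAdd a k), fun k k' h =>
          Fin.castAdd_injective a a (t.1.injective h)⟩ : Fin a ↪ Fin n)) ?_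
      intro t t' h
      have h3 : ∀ k, t.1 (Fin.castAdd a k) = t'.1 (Fin.castAdd a k) := fun k =>
        congrArg (fun u : Fin a ↪ Fin n => u k) h
      apply Subtype.ext
      ext i
      refine congrArg Fin.val ?_
      refine Fin.addCases (fun i => ?_) (fun i => ?_) i
      · exact h3 i
      · rw [← t.2 i, ← t'.2 i, h3 i]
    rw [heq] at haux
    have hsplit : (n - a).descFactorial a * n.descFactorial a = n.descFactorial (a + a) := by
      have h1 := Nat.descFactorial_mul_descFactorial (n := n) (k := a) (m := a + a) (by omega)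
      rw [Nat.add_sub_cancel] at h1
      exact h1
    have hlow : (n : ℝ) ^ a ≤ 2 ^ a * ((n - a).descFactorial a : ℝ) := by
      have h1 := Nat.pow_sub_le_descFactorial (n - a) a
      have h2 : n ^ a ≤ 2 ^ a * (n - a).descFactorial a := by
        calc n ^ a ≤ (2 * (n - a + 1 - a)) ^ a := Nat.pow_le_pow_left (by omega) a
          _ = 2 ^ a * (n - a + 1 - a) ^ a := mul_pow _ _ _
          _ ≤ _ := Nat.mul_le_mul_left _ h1
      exact_mod_cast h2
    set c : ℝ := ((univ.filter fun z : A n => ∀ k, g.1 (z.1 (s k)) = z.1 (r k)).card : ℝ) with hc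
    have hc0 : 0 ≤ c := Nat.cast_nonneg _
    rw [← hsplit] at haux
    push_cast at haux
    have h4 : c * ((n - a).descFactorial a : ℝ) ≤ (Fintype.card (A n) : ℝ) := by
      have h5 : (c * ((n - a).descFactorial a : ℝ)) * (n.descFactorial a : ℝ) ≤
          (Fintype.card (A n) : ℝ) * (n.descFactorial a : ℝ) := by
        calc (c * ((n - a).descFactorial a : ℝ)) * (n.descFactorial a : ℝ)
            = c * (((n - a).descFactorial a : ℝ) * (n.descFactorial a : ℝ)) := by ring
          _ = (Fintype.card (A n) : ℝ) * _ := haux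
          _ ≤ _ := mul_le_mul_of_nonneg_left (by exact_mod_cast hcard) hA
      exact le_of_mul_le_mul_right h5 hnd
    have h6 : c * (n : ℝ) ^ a ≤ 2 ^ a * (Fintype.card (A n) : ℝ) := by
      calc c * (n : ℝ) ^ a ≤ c * (2 ^ a * ((n - a).descFactorial a : ℝ)) :=
            mul_le_mul_of_nonneg_left hlow hc0
        _ = 2 ^ a * (c * ((n - a).descFactorial a : ℝ)) := by ring
        _ ≤ _ := mul_le_mul_of_nonneg_left h4 (by positivity)
    rw [div_pow, div_mul_eq_mul_div, le_div_iff₀ (pow_pos hn a)]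
    exact h6
  -- the tuples
  have hsub : (univ.filter fun z : A n => ∀ p ∈ Q, (z⁻¹ * g * z).1 p ∈ B \ Q) ⊆
      (univ.filter fun r : Fin a ↪ Fin n => ∀ k, r k ∈ B \ Q).biUnion
        (fun r => univ.filter fun z : A n => ∀ k, g.1 (z.1 (s k)) = z.1 (r k)) := by
    intro z hz
    rw [Finset.mem_filter] at hz
    rw [Finset.mem_biUnion]
    refine ⟨⟨fun k => (z⁻¹ * g * z).1 (s k), fun k k' h => s.injective
      ((z⁻¹ * g * z).1.injective h)⟩, ?_, ?_⟩
    · rw [Finset.mem_filter]
      exact ⟨Finset.mem_univ _, fun k => hz.2 _ (hs1 k)⟩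
    · rw [Finset.mem_filter]
      exact ⟨Finset.mem_univ _, fun k => (CountFix_inv g z _ _).1 rfl⟩
  have hR : (univ.filter fun r : Fin a ↪ Fin n => ∀ k, r k ∈ B \ Q).card ≤ b ^ a := by
    have h1 : (Fintype.piFinset fun _ : Fin a => B \ Q).card ≤ b ^ a := by
      rw [Fintype.card_piFinset, Finset.prod_const, Finset.card_univ, Fintype.card_fin]
      refine Nat.pow_le_pow_left ?_ a
      rw [← hB]
      exact Finset.card_le_card Finset.sdiff_subset
    refine le_trans (Finset.card_le_card_of_injOn (fun r : Fin a ↪ Fin n => (r : Fin a → Fin n))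
      ?_ ?_) h1
    · intro r hr
      rw [Finset.mem_coe, Finset.mem_filter] at hr
      exact Finset.mem_coe.2 (Fintype.mem_piFinset.2 hr.2)
    · intro r _ r' _ h
      exact DFunLike.coe_injective h
  have h7 : ((univ.filter fun z : A n => ∀ p ∈ Q, (z⁻¹ * g * z).1 p ∈ B \ Q).card : ℝ) ≤
      ∑ r ∈ univ.filter (fun r : Fin a ↪ Fin n => ∀ k, r k ∈ B \ Q),
        ((univ.filter fun z : A n => ∀ k, g.1 (z.1 (s k)) = z.1 (r k)).card : ℝ) := by
    have h8 := (Finset.card_le_card hsub).trans Finset.card_biUnion_le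
    exact_mod_cast h8
  refine h7.trans ?_
  refine (Finset.sum_le_sum fun r hr => hone r (Finset.mem_filter.1 hr).2).trans ?_
  rw [Finset.sum_const, nsmul_eq_mul]
  have h9 : (((univ.filter fun r : Fin a ↪ Fin n => ∀ k, r k ∈ B \ Q).card : ℕ) : ℝ) ≤
      (b : ℝ) ^ a := by exact_mod_cast hR
  calc (((univ.filter fun r : Fin a ↪ Fin n => ∀ k, r k ∈ B \ Q).card : ℕ) : ℝ) *
        ((2 / (n : ℝ)) ^ a * Fintype.card (A n))
      ≤ (b : ℝ) ^ a * ((2 / (n : ℝ)) ^ a * Fintype.card (A n)) :=
        mul_le_mul_of_nonneg_right h9 (by positivity)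
    _ = (2 * (b : ℝ) / n) ^ a * Fintype.card (A n) := by
        rw [← mul_assoc, ← mul_pow]
        congr 2
        ring

end Pool.Agent.RCG
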