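import Pool.Agent.W_MP_6acff7_h70.TriStep
import Pool.Agent.W_MP_6acff7_h70.Words

/-!
# Covering the whole group

PROOF.  Choose for every `π` tuples `c_m(π), c'_m(π)`, `m < K`, with `ConjProd h s (c(π)) (c'(π)) π`.
For `(π, σ) : A n × A n` put `π' = σ⁻¹ π σ`.  Then `ConjProd h s (σ ∘ c(π')) (σ ∘ c'(π')) π`: if
`τ_m ∘ s = σ ∘ c_m(π')` then `(σ⁻¹ τ_m) ∘ s = c_m(π')`, so the product for `σ⁻¹ τ_m` is `π'`, and conjugating by `σ` gives `π`.
COUNT: the number of `(π, σ)` for which some tuple `σ ∘ c_m(π')` or `σ ∘ c'_m(π')` lies in `Bad` is at most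
`2K |A n|² |Bad|/|X|`, `X = (Fin j ↪ Fin n)`: the map `(π, σ) ↦ (π', σ)` is a bijection, and for fixed `π'`, `m` the number of `σ`
with `σ ∘ c_m(π') ∈ Bad` is `|Bad| |A n|/|X|` (`card_act_eq`).  By `hBad` this is `< |A n|²/2`, so for more than half of the `π` there is a `σ`
such that no tuple is bad; choosing words `a` with `WL S la a`, `actT a s = ` the tuple, `ConjProd` gives
`WL S (K * (2 * (lh + 2 * la))) π` for these `π`.  Call the set of `π` with this property `T`; `2 |T| > |A n|`.
For any `g` the sets `T` and `{g * b⁻¹ | b ∈ T}` intersect, so `g = a * b` with `a, b ∈ T`.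
-/

open Finset

namespace Pool.Agent.RCG

private theorem Cover_actT_mul {n b : ℕ} (a a' : A n) (s : Fin b ↪ Fin n) :
    actT (a * a') s = actT a (actT a' s) := by
  ext k
  simp [actT_apply]

private theorem Cover_actT_one {n b : ℕ} (s : Fin b ↪ Fin n) : actT (1 : A n) s = s := by
  ext k
  simp [actT_apply]

private theorem Cover_conj {n j K : ℕ} (h : A n) (s : Fin j ↪ Fin n)
    (c c' : Fin K → (Fin j ↪ Fin n)) (π σ : A n) (H : ConjProd h s c c' (σ⁻¹ * π * σ)) :
    ConjProd h s (fun m => actT σ (c m)) (fun m => actT σ (c' m)) π := by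
  intro τ τ' h1 h2
  have h3 := H (fun m => σ⁻¹ * τ m) (fun m => σ⁻¹ * τ' m)
    (fun m => by rw [Cover_actT_mul, h1 m, ← Cover_actT_mul, inv_mul_cancel, Cover_actT_one])
    (fun m => by rw [Cover_actT_mul, h2 m, ← Cover_actT_mul, inv_mul_cancel, Cover_actT_one])
  have h4 : (List.ofFn fun m => σ⁻¹ * τ m * h * (σ⁻¹ * τ m)⁻¹ *
      (σ⁻¹ * τ' m * h⁻¹ * (σ⁻¹ * τ' m)⁻¹)).prod =
      MulAut.conj σ⁻¹ (List.ofFn fun m => τ m * h * (τ m)⁻¹ * (τ' m * h⁻¹ * (τ' m)⁻¹)).prod := by
    rw [map_list_prod, List.map_ofFn]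
    congr 2
    funext m
    simp only [Function.comp, MulAut.conj_apply]
    group
  rw [h4, MulAut.conj_apply, inv_inv] at h3
  have h5 := mul_right_cancel h3
  exact mul_left_cancel h5

open Classical in
private theorem Cover_count {n j : ℕ} (hjn : j + 2 ≤ n) (Bad : Finset (Fin j ↪ Fin n))
    (d : A n → (Fin j ↪ Fin n)) :
    (univ.filter fun q : A n × A n => actT q.2 (d (q.2⁻¹ * q.1 * q.2)) ∈ Bad).card *
      Fintype.card (Fin j ↪ Fin n) = Bad.card * (Fintype.card (A n) * Fintype.card (A n)) := by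
  have e1 : (univ.filter fun q : A n × A n => actT q.2 (d (q.2⁻¹ * q.1 * q.2)) ∈ Bad).card =
      (univ.filter fun q : A n × A n => actT q.2 (d q.1) ∈ Bad).card := by
    refine Finset.card_bij' (fun q _ => (q.2⁻¹ * q.1 * q.2, q.2))
      (fun q _ => (q.2 * q.1 * q.2⁻¹, q.2)) ?_ ?_ ?_ ?_
    · intro q hq
      rw [mem_filter] at hq ⊢
      exact ⟨mem_univ _, hq.2⟩
    · intro q hq
      rw [mem_filter] at hq ⊢
      refine ⟨mem_univ _, ?_⟩
      have e : q.2⁻¹ * (q.2 * q.1 * q.2⁻¹) * q.2 = q.1 := by group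
      change actT q.2 (d (q.2⁻¹ * (q.2 * q.1 * q.2⁻¹) * q.2)) ∈ Bad
      rw [e]
      exact hq.2
    · intro q _
      change (q.2 * (q.2⁻¹ * q.1 * q.2) * q.2⁻¹, q.2) = q
      have e : q.2 * (q.2⁻¹ * q.1 * q.2) * q.2⁻¹ = q.1 := by group
      rw [e]
    · intro q _
      change (q.2⁻¹ * (q.2 * q.1 * q.2⁻¹) * q.2, q.2) = q
      have e : q.2⁻¹ * (q.2 * q.1 * q.2⁻¹) * q.2 = q.1 := by group
      rw [e]
  have e2 : (univ.filter fun q : A n × A n => actT q.2 (d q.1) ∈ Bad).card =
      ∑ π : A n, ∑ t ∈ Bad, (univ.filter fun z : A n => actT z (d π) = t).card := by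
    rw [Finset.card_filter, ← Finset.univ_product_univ, Finset.sum_product]
    refine Finset.sum_congr rfl fun π _ => ?_
    rw [← Finset.card_filter]
    rw [Finset.card_eq_sum_card_fiberwise (f := fun z : A n => actT z (d π)) (t := Bad)]
    · refine Finset.sum_congr rfl fun t ht => ?_
      congr 1
      ext z
      simp only [mem_filter, mem_univ, true_and]
      constructor
      · exact fun hz => hz.2
      · intro hz
        exact ⟨by rw [hz]; exact ht, hz⟩
    · intro z hz
      have := (mem_filter.1 hz).2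
      exact this
  rw [e1, e2, Finset.sum_mul]
  have e3 : ∀ π : A n, (∑ t ∈ Bad, (univ.filter fun z : A n => actT z (d π) = t).card) *
      Fintype.card (Fin j ↪ Fin n) = Bad.card * Fintype.card (A n) := by
    intro π
    rw [Finset.sum_mul]
    rw [Finset.sum_congr rfl (g := fun _ => Fintype.card (A n))]
    · rw [Finset.sum_const, smul_eq_mul]
    · intro t _
      rw [Fintype.card_embedding_eq, Fintype.card_fin, Fintype.card_fin]
      convert card_act_eq hjn (d π) t
  rw [Finset.sum_congr rfl fun π _ => e3 π, Finset.sum_const, smul_eq_mul, Finset.card_univ]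
  ring

theorem cover {n j K la lh : ℕ} (h : A n) (s : Fin j ↪ Fin n) (hjn : j + 2 ≤ n)
    (hdec : ∀ π : A n, ∃ c c' : Fin K → (Fin j ↪ Fin n), ConjProd h s c c' π)
    (S : Set (A n)) (hh : WL S lh h) (Bad : Finset (Fin j ↪ Fin n))
    (hBad : 4 * K * Bad.card < Fintype.card (Fin j ↪ Fin n))
    (hgood : ∀ c, c ∉ Bad → ∃ a : A n, WL S la a ∧ actT a s = c) (g : A n) :
    WL S (4 * K * (lh + 2 * la)) g := by
  classical
  choose c c' hc using hdec
  -- good permutations
  let P : A n → Prop := fun π => ∃ σ : A n, ∀ m, actT σ (c (σ⁻¹ * π * σ) m) ∉ Bad ∧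
    actT σ (c' (σ⁻¹ * π * σ) m) ∉ Bad
  have hword : ∀ π, P π → WL S (K * (2 * (lh + 2 * la))) π := by
    rintro π ⟨σ, hσ⟩
    have h1 : ∀ m, ∃ a : A n, WL S la a ∧ actT a s = actT σ (c (σ⁻¹ * π * σ) m) :=
      fun m => hgood _ (hσ m).1
    have h2 : ∀ m, ∃ a : A n, WL S la a ∧ actT a s = actT σ (c' (σ⁻¹ * π * σ) m) :=
      fun m => hgood _ (hσ m).2
    choose a ha1 ha2 using h1
    choose b hb1 hb2 using h2
    have h3 := Cover_conj h s _ _ π σ (hc (σ⁻¹ * π * σ)) a b ha2 hb2
    rw [← h3]
    refine WL.ofFn_prod fun m => ?_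
    have h4 : WL S (la + lh + la + (la + lh + la))
        (a m * h * (a m)⁻¹ * (b m * h⁻¹ * (b m)⁻¹)) :=
      (((ha1 m).mul hh).mul (ha1 m).inv).mul (((hb1 m).mul hh.inv).mul (hb1 m).inv)
    exact h4.mono (Set.Subset.refl _) (by omega)
  -- counting
  set T : Finset (A n) := univ.filter P with hT
  set N := Fintype.card (A n) with hN
  set X := Fintype.card (Fin j ↪ Fin n) with hX
  set E : Fin K → Finset (A n × A n) := fun m =>
    univ.filter fun q : A n × A n => actT q.2 (c (q.2⁻¹ * q.1 * q.2) m) ∈ Bad with hE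
  set E' : Fin K → Finset (A n × A n) := fun m =>
    univ.filter fun q : A n × A n => actT q.2 (c' (q.2⁻¹ * q.1 * q.2) m) ∈ Bad with hE'
  have hEc : ∀ m, (E m).card * X = Bad.card * (N * N) := fun m =>
    Cover_count hjn Bad fun π => c π m
  have hEc' : ∀ m, (E' m).card * X = Bad.card * (N * N) := fun m =>
    Cover_count hjn Bad fun π => c' π m
  have hsub : (univ \ T) ×ˢ (univ : Finset (A n)) ⊆
      (univ : Finset (Fin K)).biUnion fun m => E m ∪ E' m := by
    intro q hq
    rw [Finset.mem_product, Finset.mem_sdiff, hT, mem_filter] at hq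
    have h1 : ¬ P q.1 := fun hP => hq.1.2 ⟨mem_univ _, hP⟩
    have h2 : ∃ m, ¬ (actT q.2 (c (q.2⁻¹ * q.1 * q.2) m) ∉ Bad ∧
        actT q.2 (c' (q.2⁻¹ * q.1 * q.2) m) ∉ Bad) := by
      by_contra hcon
      push Not at hcon
      exact h1 ⟨q.2, hcon⟩
    obtain ⟨m, hm⟩ := h2
    rw [Finset.mem_biUnion]
    refine ⟨m, mem_univ _, ?_⟩
    rw [Finset.mem_union, hE, hE']
    simp only [mem_filter, mem_univ, true_and]
    by_contra hcon
    rw [not_or] at hcon
    exact hm hcon
  have hcard : (N - T.card) * N ≤ ∑ m : Fin K, ((E m).card + (E' m).card) := by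
    have h1 := Finset.card_le_card hsub
    rw [Finset.card_product, Finset.card_sdiff_of_subset (Finset.subset_univ _),
      Finset.card_univ] at h1
    refine h1.trans (Finset.card_biUnion_le.trans (Finset.sum_le_sum fun m _ => ?_))
    exact Finset.card_union_le _ _
  have hNpos : 0 < N := Fintype.card_pos
  have hmain : N < 2 * T.card := by
    have h1 : (N - T.card) * N * X ≤ 2 * K * (Bad.card * (N * N)) := by
      calc (N - T.card) * N * X ≤ (∑ m : Fin K, ((E m).card + (E' m).card)) * X :=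
            Nat.mul_le_mul_right _ hcard
        _ = ∑ m : Fin K, 2 * (Bad.card * (N * N)) := by
            rw [Finset.sum_mul]
            refine Finset.sum_congr rfl fun m _ => ?_
            rw [add_mul, hEc m, hEc' m]
            ring
        _ = 2 * K * (Bad.card * (N * N)) := by
            rw [Finset.sum_const, Finset.card_univ, Fintype.card_fin, smul_eq_mul]
            ring
    by_contra hcon
    push Not at hcon
    have h2 : N ≤ 2 * (N - T.card) := by omega
    have h3 : N * N * X ≤ 4 * K * Bad.card * (N * N) := by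
      calc N * N * X ≤ 2 * (N - T.card) * N * X :=
            Nat.mul_le_mul_right _ (Nat.mul_le_mul_right _ h2)
        _ = 2 * ((N - T.card) * N * X) := by ring
        _ ≤ 2 * (2 * K * (Bad.card * (N * N))) := Nat.mul_le_mul_left _ h1
        _ = 4 * K * Bad.card * (N * N) := by ring
    have h4 : 4 * K * Bad.card * (N * N) < X * (N * N) :=
      Nat.mul_lt_mul_of_pos_right hBad (Nat.mul_pos hNpos hNpos)
    have h5 : X * (N * N) = N * N * X := by ring
    omega
  -- product of two good elements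
  set T' : Finset (A n) := T.image fun b => g * b⁻¹ with hT'
  have hT'c : T'.card = T.card := by
    rw [hT']
    refine Finset.card_image_of_injective _ fun b b' hbb => ?_
    have := mul_left_cancel hbb
    exact inv_injective this
  have hint : (T ∩ T').Nonempty := by
    rw [← Finset.card_pos]
    have h1 := Finset.card_union_add_card_inter T T'
    have h2 : (T ∪ T').card ≤ N := by
      rw [hN, ← Finset.card_univ]
      exact Finset.card_le_card (Finset.subset_univ _)
    omega
  obtain ⟨a, ha⟩ := hint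
  rw [Finset.mem_inter, hT', Finset.mem_image] at ha
  obtain ⟨haT, b, hbT, hab⟩ := ha
  have hg : g = a * b := by
    rw [← hab]
    group
  rw [hg]
  have hPa : P a := (mem_filter.1 haT).2
  have hPb : P b := (mem_filter.1 hbT).2
  exact ((hword a hPa).mul (hword b hPb)).mono (Set.Subset.refl _) (le_of_eq (by ring))

end Pool.Agent.RCG
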