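import Pool.Agent.W_MP_6acff7_h70.Basic

/-!
# Double transpositions

`dt1 q = (q0 q1)(q2 q3)`, `dt2 q = (q0 q2)(q1 q3)`, `dt3 q = (q0 q3)(q1 q2)`,
`c3 q = (q1 q2 q3)` (a 3-cycle) for an injective 4-tuple `q`; all lie in `A n`.

`fixedBy_of_double` PROOF.  Let `g : A n` fix `U` pointwise.  `g` restricts to an even permutation of
the complement of `U` (`Equiv.Perm.subtypePerm`, sign preserved), a type with at least 5 elements,
and is a product of 3-cycles of that type (`Equiv.Perm.closure_three_cycles_eq_alternating`), so `g` is a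
product of 3-cycles of `Fin n` moving only points outside `U` (`Equiv.Perm.ofSubtype`).
It is enough that `ρ c u = u` for every 3-cycle `c = (x y z)` with
`x, y, z ∉ U`.  Choose two more points `r, r' ∉ U` (complement has at least 5 points):
`(x y z)` is a product of two double transpositions of the form
`((x y)(r r')) * ((y z)(r r'))` (use the right order), and each is `dt1 q` for a suitable
injective tuple `q` with values outside `U`.
-/

open Finset

namespace Pool.Agent.RCG

variable {n : ℕ}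

/-- `(q0 q1)(q2 q3)` -/
def dt1 (q : Fin 4 ↪ Fin n) : A n :=
  ⟨Equiv.swap (q 0) (q 1) * Equiv.swap (q 2) (q 3), by
    have h1 : q 0 ≠ q 1 := fun h => by simpa using q.injective h
    have h2 : q 2 ≠ q 3 := fun h => by simpa using q.injective h
    simp [Equiv.Perm.mem_alternatingGroup, Equiv.Perm.sign_swap h1, Equiv.Perm.sign_swap h2]⟩

/-- `(q0 q2)(q1 q3)` -/
def dt2 (q : Fin 4 ↪ Fin n) : A n :=
  ⟨Equiv.swap (q 0) (q 2) * Equiv.swap (q 1) (q 3), by
    have h1 : q 0 ≠ q 2 := fun h => by simpa using q.injective h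
    have h2 : q 1 ≠ q 3 := fun h => by simpa using q.injective h
    simp [Equiv.Perm.mem_alternatingGroup, Equiv.Perm.sign_swap h1, Equiv.Perm.sign_swap h2]⟩

/-- `(q0 q3)(q1 q2)` -/
def dt3 (q : Fin 4 ↪ Fin n) : A n :=
  ⟨Equiv.swap (q 0) (q 3) * Equiv.swap (q 1) (q 2), by
    have h1 : q 0 ≠ q 3 := fun h => by simpa using q.injective h
    have h2 : q 1 ≠ q 2 := fun h => by simpa using q.injective h
    simp [Equiv.Perm.mem_alternatingGroup, Equiv.Perm.sign_swap h1, Equiv.Perm.sign_swap h2]⟩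

variable {E : Type*} [NormedAddCommGroup E] [InnerProductSpace ℝ E]

/-- four distinct points as an embedding -/
private def Double_emb (a b c d : Fin n) (hab : a ≠ b) (hac : a ≠ c) (had : a ≠ d) (hbc : b ≠ c)
    (hbd : b ≠ d) (hcd : c ≠ d) : Fin 4 ↪ Fin n where
  toFun := ![a, b, c, d]
  inj' := by
    intro i j hij
    fin_cases i <;> fin_cases j <;> simp_all

/-- a 3-cycle outside `U` is a product of two double transpositions outside `U` -/
private theorem Double_three (ρ : A n →* Module.End ℝ E) (U : Finset (Fin n))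
    (hU : U.card + 5 ≤ n) (u : E)
    (h : ∀ q : Fin 4 ↪ Fin n, (∀ k, q k ∉ U) → ρ (dt1 q) u = u) (a b c : Fin n) (hab : a ≠ b)
    (hbc : b ≠ c) (ha : a ∉ U) (hb : b ∉ U) (hc : c ∉ U) (g : A n)
    (hg : g.1 = Equiv.swap a b * Equiv.swap b c) : ρ g u = u := by
  have hcard : (U ∪ {a, b, c}).card + 1 < n := by
    have h1 := Finset.card_union_le U {a, b, c}
    have h2 : ({a, b, c} : Finset (Fin n)).card ≤ 3 := Finset.card_le_three
    omega
  have hex : ∃ r : Fin n, r ∉ U ∪ {a, b, c} := by
    by_contra hcon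
    push Not at hcon
    have h1 : (univ : Finset (Fin n)) ⊆ U ∪ {a, b, c} := fun x _ => hcon x
    have h2 := Finset.card_le_card h1
    rw [Finset.card_univ, Fintype.card_fin] at h2
    omega
  obtain ⟨r, hr⟩ := hex
  have hex2 : ∃ r' : Fin n, r' ∉ insert r (U ∪ {a, b, c}) := by
    by_contra hcon
    push Not at hcon
    have h1 : (univ : Finset (Fin n)) ⊆ insert r (U ∪ {a, b, c}) := fun x _ => hcon x
    have h2 := Finset.card_le_card h1
    have h3 := Finset.card_insert_le r (U ∪ {a, b, c})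
    rw [Finset.card_univ, Fintype.card_fin] at h2
    omega
  obtain ⟨r', hr'⟩ := hex2
  simp only [Finset.mem_union, Finset.mem_insert, Finset.mem_singleton, not_or] at hr hr'
  obtain ⟨hrU, hra, hrb, hrc⟩ := hr
  obtain ⟨hrr, hrU', hra', hrb', hrc'⟩ := hr'
  let q1 : Fin 4 ↪ Fin n := Double_emb a b r r' hab (Ne.symm hra) (Ne.symm hra') (Ne.symm hrb)
    (Ne.symm hrb') (Ne.symm hrr)
  let q2 : Fin 4 ↪ Fin n := Double_emb b c r r' hbc (Ne.symm hrb) (Ne.symm hrb') (Ne.symm hrc)
    (Ne.symm hrc') (Ne.symm hrr)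
  have h1 : ρ (dt1 q1) u = u := h q1 (by
    intro k
    fin_cases k
    · exact ha
    · exact hb
    · exact hrU
    · exact hrU')
  have h2 : ρ (dt1 q2) u = u := h q2 (by
    intro k
    fin_cases k
    · exact hb
    · exact hc
    · exact hrU
    · exact hrU')
  have h3 : g = dt1 q1 * dt1 q2 := by
    apply Subtype.ext
    rw [hg]
    show Equiv.swap a b * Equiv.swap b c =
      (Equiv.swap a b * Equiv.swap r r') * (Equiv.swap b c * Equiv.swap r r')
    have hcomm : Equiv.swap r r' * Equiv.swap b c = Equiv.swap b c * Equiv.swap r r' := by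
      have hd : (Equiv.swap r r').Disjoint (Equiv.swap b c) := by
        intro x
        by_cases hx1 : x = r
        · right
          rw [hx1]
          exact Equiv.swap_apply_of_ne_of_ne hrb hrc
        · by_cases hx2 : x = r'
          · right
            rw [hx2]
            exact Equiv.swap_apply_of_ne_of_ne hrb' hrc'
          · left
            exact Equiv.swap_apply_of_ne_of_ne hx1 hx2
      exact hd.commute
    rw [← hcomm]
    rw [mul_assoc, ← mul_assoc (Equiv.swap r r') (Equiv.swap r r'), Equiv.swap_mul_self, one_mul]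
  rw [h3, map_mul, Module.End.mul_apply, h2, h1]

theorem fixedBy_of_double (ρ : A n →* Module.End ℝ E) (U : Finset (Fin n))
    (hU : U.card + 5 ≤ n) (u : E)
    (h : ∀ q : Fin 4 ↪ Fin n, (∀ k, q k ∉ U) → ρ (dt1 q) u = u) : FixedBy ρ U u := by
  classical
  intro g hgU
  -- the subgroup of all permutations outside `U` which act trivially on `u`
  let H : Subgroup (Equiv.Perm {x : Fin n // x ∉ U}) :=
    { carrier := {σ | ∃ hs : Equiv.Perm.ofSubtype σ ∈ alternatingGroup (Fin n),
        ρ ⟨Equiv.Perm.ofSubtype σ, hs⟩ u = u}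
      mul_mem' := by
        rintro σ τ ⟨h1, h1'⟩ ⟨h2, h2'⟩
        have h3 : Equiv.Perm.ofSubtype (σ * τ) ∈ alternatingGroup (Fin n) := by
          rw [map_mul]
          exact mul_mem h1 h2
        refine ⟨h3, ?_⟩
        have h4 : (⟨Equiv.Perm.ofSubtype (σ * τ), h3⟩ : A n) =
            ⟨Equiv.Perm.ofSubtype σ, h1⟩ * ⟨Equiv.Perm.ofSubtype τ, h2⟩ := by
          apply Subtype.ext
          exact map_mul _ _ _
        rw [h4, map_mul, Module.End.mul_apply, h2', h1']
      one_mem' := by
        refine ⟨by rw [map_one]; exact one_mem _, ?_⟩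
        have h4 : ∀ hs, (⟨Equiv.Perm.ofSubtype (1 : Equiv.Perm {x : Fin n // x ∉ U}), hs⟩ : A n) = 1 := by
          intro hs
          apply Subtype.ext
          exact map_one _
        rw [h4, map_one]
        rfl
      inv_mem' := by
        rintro σ ⟨h1, h1'⟩
        have h3 : Equiv.Perm.ofSubtype σ⁻¹ ∈ alternatingGroup (Fin n) := by
          rw [map_inv]
          exact inv_mem h1
        refine ⟨h3, ?_⟩
        have h4 : (⟨Equiv.Perm.ofSubtype σ⁻¹, h3⟩ : A n) * ⟨Equiv.Perm.ofSubtype σ, h1⟩ = 1 := by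
          apply Subtype.ext
          show Equiv.Perm.ofSubtype σ⁻¹ * Equiv.Perm.ofSubtype σ = 1
          rw [map_inv, inv_mul_cancel]
        calc ρ ⟨Equiv.Perm.ofSubtype σ⁻¹, h3⟩ u
            = ρ ⟨Equiv.Perm.ofSubtype σ⁻¹, h3⟩ (ρ ⟨Equiv.Perm.ofSubtype σ, h1⟩ u) := by rw [h1']
          _ = (ρ (⟨Equiv.Perm.ofSubtype σ⁻¹, h3⟩ * ⟨Equiv.Perm.ofSubtype σ, h1⟩)) u := by
              rw [map_mul, Module.End.mul_apply]
          _ = u := by rw [h4, map_one]; rfl }
  have hH : alternatingGroup {x : Fin n // x ∉ U} ≤ H := by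
    rw [← Equiv.Perm.closure_three_cycles_eq_alternating, Subgroup.closure_le]
    intro σ hσ
    have hσ' : σ.IsThreeCycle := hσ
    have hsupp : σ.support.Nonempty := by
      rw [Finset.nonempty_iff_ne_empty, ne_eq, Equiv.Perm.support_eq_empty_iff]
      rintro rfl
      exact absurd hσ'.card_support (by simp)
    obtain ⟨a, ha⟩ := hsupp
    have hσeq := (Equiv.Perm.IsThreeCycle.eq_swap_mul_swap_iff_mem_support hσ').2 ha
    have hnd := (Equiv.Perm.IsThreeCycle.nodup_iff_mem_support hσ').2 ha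
    simp only [List.nodup_cons, List.mem_cons, not_or, List.not_mem_nil, not_false_eq_true,
      List.nodup_nil, and_true] at hnd
    have hval : Equiv.Perm.ofSubtype σ = Equiv.swap (a : Fin n) (σ a) * Equiv.swap (σ a : Fin n) (σ (σ a)) := by
      conv_lhs => rw [hσeq]
      rw [map_mul, Equiv.Perm.ofSubtype_swap_eq, Equiv.Perm.ofSubtype_swap_eq]
    have hsign : Equiv.Perm.ofSubtype σ ∈ alternatingGroup (Fin n) := by
      rw [Equiv.Perm.mem_alternatingGroup, Equiv.Perm.sign_ofSubtype]
      exact hσ'.sign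
    refine ⟨hsign, ?_⟩
    refine Double_three ρ U hU u h a (σ a) (σ (σ a)) ?_ ?_ a.2 (σ a).2 (σ (σ a)).2 _ hval
    · intro h1
      exact hnd.1.1 (Subtype.ext h1)
    · intro h1
      exact hnd.2 (Subtype.ext h1)
  have h1 : ∀ x : Fin n, g.1 x ∉ U ↔ x ∉ U := by
    intro x
    constructor
    · intro hx hxU
      apply hx
      rw [hgU x hxU]
      exact hxU
    · intro hx hxU
      have h2 := hgU _ hxU
      have h3 : g.1 x = x := g.1.injective h2
      rw [h3] at hxU
      exact hx hxU
  have h2 : ∀ x : Fin n, g.1 x ≠ x → x ∉ U := fun x hx hxU => hx (hgU x hxU)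
  let σ : Equiv.Perm {x : Fin n // x ∉ U} := Equiv.Perm.subtypePerm (p := fun x => x ∉ U) g.1 h1
  have h3 : Equiv.Perm.ofSubtype σ = g.1 := Equiv.Perm.ofSubtype_subtypePerm h1 h2
  have h4 : σ ∈ alternatingGroup {x : Fin n // x ∉ U} := by
    rw [Equiv.Perm.mem_alternatingGroup]
    have h5 : Equiv.Perm.sign (Equiv.Perm.ofSubtype σ) = Equiv.Perm.sign σ :=
      Equiv.Perm.sign_ofSubtype σ
    rw [← h5, h3]
    exact g.2
  obtain ⟨h5, h6⟩ := hH h4
  have h7 : (⟨Equiv.Perm.ofSubtype σ, h5⟩ : A n) = g := Subtype.ext h3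
  rw [h7] at h6
  exact h6

end Pool.Agent.RCG
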