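import Mathlib

/-!
# Parameters (pure real analysis, everything for `n → ∞`, `δ ∈ (0, 1/40]` fixed)

`κ = n^(-7δ/6)`, `φ = κ^12 = n^(-14δ)`, `L = N = ⌈n^δ⌉`, `M = ⌊n^(1-17δ)⌋`, `c = n^(1-35δ/2)`, `b0 = ⌊n^(1-15δ)⌋`,
`R0 = ⌊n^(1/2)⌋`, `T = ⌊n^(3/5)⌋`, `j` with `n^(1-18δ)/2 ≤ j ≤ n^(1-18δ)`, `J = ⌈5/(2δ)⌉`, `t = ⌈1/δ⌉`,
`K = ⌈6 (n/j) log n + 1⌉`.
Useful: `n^a = o(exp (n^b))`, `isLittleO_log_rpow_atTop`, `tendsto_rpow_neg_atTop`, `Nat.floor_le`, `Nat.lt_floor_add_one`,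
`Nat.ceil_lt_add_one`.
-/

open Finset Filter Topology

namespace Pool.Agent.RCG

/-- basic bounds, `x = n ≥ 1` -/
private theorem ParamAX_bounds {δ : ℝ} (hδ : 0 < δ) (hδ' : δ ≤ 1 / 40) {n : ℕ} (hn : 1 ≤ n) :
    ((⌈(n : ℝ) ^ δ⌉₊ * ⌊(n : ℝ) ^ (1 / 2 : ℝ)⌋₊ : ℕ) : ℝ) ≤ 2 * (n : ℝ) ^ (21 / 40 : ℝ) ∧
    (n : ℝ) ^ (3 / 5 : ℝ) / 2 ≤ ((⌊(n : ℝ) ^ (3 / 5 : ℝ)⌋₊ : ℕ) : ℝ) := by
  have hx : (1 : ℝ) ≤ n := by exact_mod_cast hn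
  have hx0 : (0 : ℝ) < n := by linarith
  constructor
  · have h1 : ((⌈(n : ℝ) ^ δ⌉₊ : ℕ) : ℝ) ≤ 2 * (n : ℝ) ^ (1 / 40 : ℝ) := by
      have h2 : ((⌈(n : ℝ) ^ δ⌉₊ : ℕ) : ℝ) < (n : ℝ) ^ δ + 1 :=
        Nat.ceil_lt_add_one (Real.rpow_nonneg hx0.le δ)
      have h3 : (1 : ℝ) ≤ (n : ℝ) ^ δ := Real.one_le_rpow hx hδ.le
      have h4 : (n : ℝ) ^ δ ≤ (n : ℝ) ^ (1 / 40 : ℝ) :=
        Real.rpow_le_rpow_of_exponent_le hx hδ'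
      linarith
    have h5 : ((⌊(n : ℝ) ^ (1 / 2 : ℝ)⌋₊ : ℕ) : ℝ) ≤ (n : ℝ) ^ (1 / 2 : ℝ) :=
      Nat.floor_le (Real.rpow_nonneg hx0.le _)
    push_cast
    calc ((⌈(n : ℝ) ^ δ⌉₊ : ℕ) : ℝ) * ((⌊(n : ℝ) ^ (1 / 2 : ℝ)⌋₊ : ℕ) : ℝ)
        ≤ (2 * (n : ℝ) ^ (1 / 40 : ℝ)) * (n : ℝ) ^ (1 / 2 : ℝ) :=
          mul_le_mul h1 h5 (by positivity) (by positivity)
      _ = 2 * (n : ℝ) ^ (21 / 40 : ℝ) := by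
          rw [mul_assoc, ← Real.rpow_add hx0]
          norm_num
  · have h1 : (n : ℝ) ^ (3 / 5 : ℝ) < ((⌊(n : ℝ) ^ (3 / 5 : ℝ)⌋₊ : ℕ) : ℝ) + 1 :=
      Nat.lt_floor_add_one _
    have h2 : (1 : ℝ) ≤ (n : ℝ) ^ (3 / 5 : ℝ) := Real.one_le_rpow hx (by norm_num)
    have h3 : (1 : ℝ) ≤ ((⌊(n : ℝ) ^ (3 / 5 : ℝ)⌋₊ : ℕ) : ℝ) := by
      have : 1 ≤ ⌊(n : ℝ) ^ (3 / 5 : ℝ)⌋₊ := Nat.le_floor (by simpa using h2)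
      exact_mod_cast this
    linarith

private theorem ParamAX_nat (a : ℝ) (ha : 0 < a) :
    Tendsto (fun n : ℕ => (n : ℝ) ^ (-a)) atTop (𝓝 0) :=
  (tendsto_rpow_neg_atTop ha).comp tendsto_natCast_atTop_atTop

/-- STEP A parameters: `R = L R0 ≤ 2 n^(δ + 1/2)`, `δ + 1/2 ≤ 0.525 < 3/5`, so `R/T → 0`. -/
theorem paramA {δ : ℝ} (hδ : 0 < δ) (hδ' : δ ≤ 1 / 40) :
    Tendsto (fun n : ℕ => ((⌈(n : ℝ) ^ δ⌉₊ * ⌊(n : ℝ) ^ (1 / 2 : ℝ)⌋₊ : ℕ) : ℝ) /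
      (⌊(n : ℝ) ^ (3 / 5 : ℝ)⌋₊ : ℕ)) atTop (𝓝 0) ∧
    (∀ᶠ n : ℕ in atTop, ⌈(n : ℝ) ^ δ⌉₊ * ⌊(n : ℝ) ^ (1 / 2 : ℝ)⌋₊ + 2 ≤ n) ∧
    (∀ᶠ n : ℕ in atTop, 0 < ⌊(n : ℝ) ^ (3 / 5 : ℝ)⌋₊) := by
  refine ⟨?_, ?_, ?_⟩
  · have h1 : Tendsto (fun n : ℕ => 4 * (n : ℝ) ^ (-(3 / 40 : ℝ))) atTop (𝓝 0) := by
      have := (ParamAX_nat (3 / 40) (by norm_num)).const_mul 4
      simpa using this
    refine squeeze_zero' (Eventually.of_forall fun n => by positivity) ?_ h1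
    filter_upwards [eventually_ge_atTop 1] with n hn
    obtain ⟨h2, h3⟩ := ParamAX_bounds hδ hδ' hn
    have hx : (1 : ℝ) ≤ n := by exact_mod_cast hn
    have hx0 : (0 : ℝ) < n := by linarith
    have h4 : (0 : ℝ) < (n : ℝ) ^ (3 / 5 : ℝ) / 2 := by positivity
    calc ((⌈(n : ℝ) ^ δ⌉₊ * ⌊(n : ℝ) ^ (1 / 2 : ℝ)⌋₊ : ℕ) : ℝ) / (⌊(n : ℝ) ^ (3 / 5 : ℝ)⌋₊ : ℕ)
        ≤ (2 * (n : ℝ) ^ (21 / 40 : ℝ)) / ((n : ℝ) ^ (3 / 5 : ℝ) / 2) :=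
          div_le_div₀ (by positivity) h2 h4 h3
      _ = 4 * (n : ℝ) ^ (-(3 / 40 : ℝ)) := by
          have h5 : (n : ℝ) ^ (21 / 40 : ℝ) = (n : ℝ) ^ (-(3 / 40 : ℝ)) * (n : ℝ) ^ (3 / 5 : ℝ) := by
            rw [← Real.rpow_add hx0]
            norm_num
          rw [h5]
          field_simp
          ring
  · have h1 := ParamAX_nat (19 / 40) (by norm_num)
    have h2 : ∀ᶠ n : ℕ in atTop, (n : ℝ) ^ (-(19 / 40 : ℝ)) < 1 / 4 :=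
      h1.eventually (gt_mem_nhds (by norm_num))
    filter_upwards [eventually_ge_atTop 4, h2] with n hn h3
    obtain ⟨h4, -⟩ := ParamAX_bounds hδ hδ' (by omega : 1 ≤ n)
    have hx : (4 : ℝ) ≤ n := by exact_mod_cast hn
    have hx0 : (0 : ℝ) < n := by linarith
    have h5 : (n : ℝ) ^ (21 / 40 : ℝ) = (n : ℝ) ^ (-(19 / 40 : ℝ)) * n := by
      rw [← Real.rpow_add_one hx0.ne']
      norm_num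
    have h6 : (n : ℝ) ^ (21 / 40 : ℝ) ≤ 1 / 4 * n := by
      rw [h5]
      exact mul_le_mul_of_nonneg_right h3.le hx0.le
    have h7 : ((⌈(n : ℝ) ^ δ⌉₊ * ⌊(n : ℝ) ^ (1 / 2 : ℝ)⌋₊ + 2 : ℕ) : ℝ) ≤ n := by
      rw [Nat.cast_add]
      push_cast at h4 ⊢
      linarith
    exact_mod_cast h7
  · filter_upwards [eventually_ge_atTop 1] with n hn
    have hx : (1 : ℝ) ≤ n := by exact_mod_cast hn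
    have h2 : (1 : ℝ) ≤ (n : ℝ) ^ (3 / 5 : ℝ) := Real.one_le_rpow hx (by norm_num)
    exact Nat.floor_pos.2 h2

/-- Conditions for `hasFam_of_hasX` (`3/5 ≤ 1 - 14 δ`). -/
theorem paramX {δ : ℝ} (hδ : 0 < δ) (hδ' : δ ≤ 1 / 40) :
    (∀ᶠ n : ℕ in atTop, 1 ≤ ⌈(n : ℝ) ^ δ⌉₊) ∧
    (∀ᶠ n : ℕ in atTop, ⌈(n : ℝ) ^ δ⌉₊ ≤ ⌈(n : ℝ) ^ δ⌉₊ * ⌊(n : ℝ) ^ (1 / 2 : ℝ)⌋₊ + 1) ∧
    (∀ᶠ n : ℕ in atTop, ((⌊(n : ℝ) ^ (3 / 5 : ℝ)⌋₊ : ℕ) : ℝ) ≤ (n : ℝ) ^ (-14 * δ) * n) ∧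
    (∀ᶠ n : ℕ in atTop, 1 / ((⌈(n : ℝ) ^ δ⌉₊ : ℕ) : ℝ) ≤ Real.exp (-20)) := by
  refine ⟨?_, ?_, ?_, ?_⟩
  · filter_upwards [eventually_ge_atTop 1] with n hn
    have hx : (1 : ℝ) ≤ n := by exact_mod_cast hn
    have hx0 : (0 : ℝ) < n := by linarith
    exact Nat.ceil_pos.2 (Real.rpow_pos_of_pos hx0 δ)
  · filter_upwards [eventually_ge_atTop 1] with n hn
    have hx : (1 : ℝ) ≤ n := by exact_mod_cast hn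
    have h2 : (1 : ℝ) ≤ (n : ℝ) ^ (1 / 2 : ℝ) := Real.one_le_rpow hx (by norm_num)
    have h3 : 1 ≤ ⌊(n : ℝ) ^ (1 / 2 : ℝ)⌋₊ := Nat.floor_pos.2 h2
    have h4 := Nat.mul_le_mul_left ⌈(n : ℝ) ^ δ⌉₊ h3
    omega
  · filter_upwards [eventually_ge_atTop 1] with n hn
    have hx : (1 : ℝ) ≤ n := by exact_mod_cast hn
    have hx0 : (0 : ℝ) < n := by linarith
    have h1 : ((⌊(n : ℝ) ^ (3 / 5 : ℝ)⌋₊ : ℕ) : ℝ) ≤ (n : ℝ) ^ (3 / 5 : ℝ) :=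
      Nat.floor_le (Real.rpow_nonneg hx0.le _)
    have h2 : (n : ℝ) ^ (-14 * δ) * n = (n : ℝ) ^ (-14 * δ + 1) := by
      rw [Real.rpow_add_one hx0.ne']
    rw [h2]
    exact h1.trans (Real.rpow_le_rpow_of_exponent_le hx (by linarith))
  · have h1 : Tendsto (fun n : ℕ => (n : ℝ) ^ δ) atTop atTop :=
      (tendsto_rpow_atTop hδ).comp tendsto_natCast_atTop_atTop
    filter_upwards [h1.eventually_ge_atTop (Real.exp 20)] with n hn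
    have h2 : Real.exp 20 ≤ ((⌈(n : ℝ) ^ δ⌉₊ : ℕ) : ℝ) := hn.trans (Nat.le_ceil _)
    rw [Real.exp_neg, ← one_div]
    exact one_div_le_one_div_of_le (Real.exp_pos 20) h2

end Pool.Agent.RCG
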