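import Mathlib

/-!
# Parameters (pure real analysis, everything for `n → ∞`, `δ ∈ (0, 1/40]` fixed)

`κ = n^(-7δ/6)`, `φ = κ^12 = n^(-14δ)`, `L = N = ⌈n^δ⌉`, `M = ⌊n^(1-17δ)⌋`, `c = n^(1-35δ/2)`, `b0 = ⌊n^(1-15δ)⌋`,
`R0 = ⌊n^(1/2)⌋`, `T = ⌊n^(3/5)⌋`, `j` with `n^(1-18δ)/2 ≤ j ≤ n^(1-18δ)`, `J = ⌈5/(2δ)⌉`, `t = ⌈1/δ⌉`,
`K = ⌈6 (n/j) log n + 1⌉`.
Useful: `n^a = o(exp (n^b))`, `isLittleO_log_rpow_atTop`, `tendsto_rpow_neg_atTop`, `Nat.floor_le`, `Nat.lt_floor_add_one`,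
`Nat.ceil_lt_add_one`.
-/

open Finset Filter Topology

namespace Pool.Agent.RCG

theorem ParamB_ev {a : ℝ} (ha : 0 < a) (c : ℝ) : ∀ᶠ n : ℕ in atTop, c ≤ (n : ℝ) ^ a :=
  ((tendsto_rpow_atTop ha).comp tendsto_natCast_atTop_atTop).eventually_ge_atTop c

theorem ParamB_bracket {δ : ℝ} (hδ : 0 < δ) (hδ' : δ ≤ 1 / 40) :
    ∀ᶠ n : ℕ in atTop,
      0 ≤ ((2 * (n : ℝ) ^ (-14 * δ)) ^ 5 + ((⌈(n : ℝ) ^ δ⌉₊ : ℕ) + 1) *
          ((8 * (⌈(n : ℝ) ^ δ⌉₊ : ℕ) * (⌊(n : ℝ) ^ (1 - 17 * δ)⌋₊ : ℕ) + 10) / n)) /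
            (n : ℝ) ^ (-14 * δ) ∧
      ((2 * (n : ℝ) ^ (-14 * δ)) ^ 5 + ((⌈(n : ℝ) ^ δ⌉₊ : ℕ) + 1) *
          ((8 * (⌈(n : ℝ) ^ δ⌉₊ : ℕ) * (⌊(n : ℝ) ^ (1 - 17 * δ)⌋₊ : ℕ) + 10) / n)) /
            (n : ℝ) ^ (-14 * δ) ≤ Real.exp (-1) := by
  filter_upwards [eventually_ge_atTop 1, ParamB_ev (a := δ) (by linarith)
    (110 / Real.exp (-1))] with n hn h1
  have hx : (1 : ℝ) ≤ (n : ℝ) := by exact_mod_cast hn
  have hx0 : (0 : ℝ) < (n : ℝ) := by linarith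
  set x : ℝ := (n : ℝ) with hxdef
  set φ : ℝ := x ^ (-14 * δ) with hφ
  have hφ0 : 0 < φ := Real.rpow_pos_of_pos hx0 _
  have hN : ((⌈x ^ δ⌉₊ : ℕ) : ℝ) ≤ 2 * x ^ δ := by
    have h2 := Nat.ceil_lt_add_one (Real.rpow_nonneg hx0.le δ)
    have h3 : (1 : ℝ) ≤ x ^ δ := Real.one_le_rpow hx hδ.le
    linarith
  have hM : ((⌊x ^ (1 - 17 * δ)⌋₊ : ℕ) : ℝ) ≤ x ^ (1 - 17 * δ) :=
    Nat.floor_le (Real.rpow_nonneg hx0.le _)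
  have hM0 : (0 : ℝ) ≤ ((⌊x ^ (1 - 17 * δ)⌋₊ : ℕ) : ℝ) := Nat.cast_nonneg _
  have hN0 : (0 : ℝ) ≤ ((⌈x ^ δ⌉₊ : ℕ) : ℝ) := Nat.cast_nonneg _
  have hxd : (1 : ℝ) ≤ x ^ δ := Real.one_le_rpow hx hδ.le
  have hxm : (1 : ℝ) ≤ x ^ (1 - 16 * δ) := Real.one_le_rpow hx (by linarith)
  have hmul : x ^ δ * x ^ (1 - 17 * δ) = x ^ (1 - 16 * δ) := by
    rw [← Real.rpow_add hx0]
    congr 1
    ring
  constructor
  · positivity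
  · have h4 : (8 * ((⌈x ^ δ⌉₊ : ℕ) : ℝ) * ((⌊x ^ (1 - 17 * δ)⌋₊ : ℕ) : ℝ) + 10) ≤
        26 * x ^ (1 - 16 * δ) := by
      have h5 : ((⌈x ^ δ⌉₊ : ℕ) : ℝ) * ((⌊x ^ (1 - 17 * δ)⌋₊ : ℕ) : ℝ) ≤
          2 * x ^ δ * x ^ (1 - 17 * δ) := mul_le_mul hN hM hM0 (by positivity)
      rw [mul_assoc 2, hmul] at h5
      nlinarith
    have h6 : (((⌈x ^ δ⌉₊ : ℕ) : ℝ) + 1) *
        ((8 * ((⌈x ^ δ⌉₊ : ℕ) : ℝ) * ((⌊x ^ (1 - 17 * δ)⌋₊ : ℕ) : ℝ) + 10) / x) ≤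
        78 * x ^ (-15 * δ) := by
      have h7 : (((⌈x ^ δ⌉₊ : ℕ) : ℝ) + 1) ≤ 3 * x ^ δ := by linarith
      have h8 : (8 * ((⌈x ^ δ⌉₊ : ℕ) : ℝ) * ((⌊x ^ (1 - 17 * δ)⌋₊ : ℕ) : ℝ) + 10) / x ≤
          26 * x ^ (1 - 16 * δ) / x := div_le_div_of_nonneg_right h4 hx0.le
      have h9 : x ^ (1 - 16 * δ) / x = x ^ (-16 * δ) := by
        rw [eq_comm, ← Real.rpow_sub_one hx0.ne']
        congr 1
        ring
      rw [mul_div_assoc, h9] at h8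
      refine (mul_le_mul h7 h8 (by positivity) (by positivity)).trans (le_of_eq ?_)
      have h10 : x ^ δ * x ^ (-16 * δ) = x ^ (-15 * δ) := by
        rw [← Real.rpow_add hx0]
        congr 1
        ring
      calc 3 * x ^ δ * (26 * x ^ (-16 * δ)) = 78 * (x ^ δ * x ^ (-16 * δ)) := by ring
        _ = 78 * x ^ (-15 * δ) := by rw [h10]
    have h11 : (2 * φ) ^ 5 ≤ 32 * x ^ (-15 * δ) := by
      have h12 : (2 * φ) ^ 5 = 32 * φ ^ 5 := by ring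
      have h13 : φ ^ 5 = x ^ (-70 * δ) := by
        rw [hφ, ← Real.rpow_natCast, ← Real.rpow_mul hx0.le]
        congr 1
        push_cast
        ring
      have h14 : x ^ (-70 * δ) ≤ x ^ (-15 * δ) :=
        Real.rpow_le_rpow_of_exponent_le hx (by linarith)
      rw [h12, h13]
      linarith
    have h16 : ((2 * φ) ^ 5 + (((⌈x ^ δ⌉₊ : ℕ) : ℝ) + 1) *
        ((8 * ((⌈x ^ δ⌉₊ : ℕ) : ℝ) * ((⌊x ^ (1 - 17 * δ)⌋₊ : ℕ) : ℝ) + 10) / x)) / φ ≤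
        110 * x ^ (-15 * δ) / φ := div_le_div_of_nonneg_right (by linarith) hφ0.le
    refine h16.trans ?_
    have h17 : x ^ (-15 * δ) / φ = (x ^ (δ))⁻¹ := by
      rw [hφ, ← Real.rpow_sub hx0, ← Real.rpow_neg hx0.le]
      congr 1
      ring
    rw [mul_div_assoc, h17, ← div_eq_mul_inv]
    have h18 : 0 < x ^ (δ) := Real.rpow_pos_of_pos hx0 _
    rw [div_le_iff₀ h18]
    rw [div_le_iff₀ (Real.exp_pos _)] at h1
    linarith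

/-- STEP B: uniformly in `e ≥ 20`, with `e' = min (N e/5) c`, `c = n^(1-35δ/2)`, the failure probability of `stepB` is
at most `exp (-n^(δ/2))`.  Proof: `2^(N+1) exp(-e (N-3)) ≤ exp(-N e/2)` for `e ≥ 20` and large `N`
(`(N+1) log 2 + 3e ≤ N e/2`), and the bracket `((2φ)^5 + (N+1)(8NM+10)/n)/φ ≤ exp (-1)` for large `n`, since it is at
most `32 n^(-56δ) + C n^(-δ)` (`N ≤ 2 n^δ`, `M ≤ n^(1-17δ)`, `1/φ = n^(14δ)`); so the sum is at most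
`exp (-N e/2) + exp (-M)`; divided by `exp (-e')`:
`≤ exp (-3 N e/10) + exp (-M + c) ≤ exp (-6N) + exp (-M/2)` (`c = n^(1-17.5δ) ≤ M/2` eventually). -/
theorem paramB {δ : ℝ} (hδ : 0 < δ) (hδ' : δ ≤ 1 / 40) :
    (∀ᶠ n : ℕ in atTop, 0 < (n : ℝ) ^ (-14 * δ) ∧ 2 * (n : ℝ) ^ (-14 * δ) ≤ 1) ∧
    (∀ᶠ n : ℕ in atTop, 5 ≤ ⌈(n : ℝ) ^ δ⌉₊) ∧
    (∀ᶠ n : ℕ in atTop, 4 * ⌈(n : ℝ) ^ δ⌉₊ * ⌊(n : ℝ) ^ (1 - 17 * δ)⌋₊ + 4 ≤ n) ∧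
    (∀ᶠ n : ℕ in atTop, 20 ≤ (n : ℝ) ^ (1 - 35 * δ / 2)) ∧
    (∀ᶠ n : ℕ in atTop, ∀ e e' : ℝ, 20 ≤ e →
      e' = min ((⌈(n : ℝ) ^ δ⌉₊ : ℕ) * e / 5) ((n : ℝ) ^ (1 - 35 * δ / 2)) →
      (2 ^ (⌈(n : ℝ) ^ δ⌉₊ + 1) * Real.exp (-e) ^ (⌈(n : ℝ) ^ δ⌉₊ - 3) +
        (((2 * (n : ℝ) ^ (-14 * δ)) ^ 5 + ((⌈(n : ℝ) ^ δ⌉₊ : ℕ) + 1) *
          ((8 * (⌈(n : ℝ) ^ δ⌉₊ : ℕ) * (⌊(n : ℝ) ^ (1 - 17 * δ)⌋₊ : ℕ) + 10) / n)) /
            (n : ℝ) ^ (-14 * δ)) ^ ⌊(n : ℝ) ^ (1 - 17 * δ)⌋₊) / Real.exp (-e') ≤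
        Real.exp (-(n : ℝ) ^ (δ / 2))) := by
  refine ⟨?_, ?_, ?_, ?_, ?_⟩
  · filter_upwards [eventually_ge_atTop 1, ParamB_ev (a := 14 * δ) (by linarith) 2] with n hn h1
    have hx : (1 : ℝ) ≤ (n : ℝ) := by exact_mod_cast hn
    have hx0 : (0 : ℝ) < (n : ℝ) := by linarith
    refine ⟨Real.rpow_pos_of_pos hx0 _, ?_⟩
    have h2 : (n : ℝ) ^ (-14 * δ) = ((n : ℝ) ^ (14 * δ))⁻¹ := by
      rw [← Real.rpow_neg hx0.le]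
      congr 1
      ring
    rw [h2, ← div_eq_mul_inv, div_le_one (by linarith)]
    exact h1
  · filter_upwards [ParamB_ev hδ 5] with n h1
    have h2 : (5 : ℝ) ≤ ((⌈(n : ℝ) ^ δ⌉₊ : ℕ) : ℝ) := h1.trans (Nat.le_ceil _)
    exact_mod_cast h2
  · filter_upwards [eventually_ge_atTop 1, ParamB_ev (a := 16 * δ) (by linarith) 12] with n hn h1
    have hx : (1 : ℝ) ≤ (n : ℝ) := by exact_mod_cast hn
    have hx0 : (0 : ℝ) < (n : ℝ) := by linarith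
    have hN : ((⌈(n : ℝ) ^ δ⌉₊ : ℕ) : ℝ) ≤ 2 * (n : ℝ) ^ δ := by
      have h2 := Nat.ceil_lt_add_one (Real.rpow_nonneg hx0.le δ)
      have h3 : (1 : ℝ) ≤ (n : ℝ) ^ δ := Real.one_le_rpow hx hδ.le
      linarith
    have hM : ((⌊(n : ℝ) ^ (1 - 17 * δ)⌋₊ : ℕ) : ℝ) ≤ (n : ℝ) ^ (1 - 17 * δ) :=
      Nat.floor_le (Real.rpow_nonneg hx0.le _)
    have hM0 : (0 : ℝ) ≤ ((⌊(n : ℝ) ^ (1 - 17 * δ)⌋₊ : ℕ) : ℝ) := Nat.cast_nonneg _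
    have hmul : (n : ℝ) ^ δ * (n : ℝ) ^ (1 - 17 * δ) = (n : ℝ) ^ (1 - 16 * δ) := by
      rw [← Real.rpow_add hx0]
      congr 1
      ring
    have h5 : ((⌈(n : ℝ) ^ δ⌉₊ : ℕ) : ℝ) * ((⌊(n : ℝ) ^ (1 - 17 * δ)⌋₊ : ℕ) : ℝ) ≤
        2 * (n : ℝ) ^ δ * (n : ℝ) ^ (1 - 17 * δ) := mul_le_mul hN hM hM0 (by positivity)
    rw [mul_assoc 2, hmul] at h5
    have hxm : (1 : ℝ) ≤ (n : ℝ) ^ (1 - 16 * δ) := Real.one_le_rpow hx (by linarith)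
    have h6 : (n : ℝ) ^ (1 - 16 * δ) * (n : ℝ) ^ (16 * δ) = (n : ℝ) := by
      rw [← Real.rpow_add hx0]
      conv_rhs => rw [← Real.rpow_one (n : ℝ)]
      congr 1
      ring
    have h7 : (4 * ((⌈(n : ℝ) ^ δ⌉₊ : ℕ) : ℝ) * ((⌊(n : ℝ) ^ (1 - 17 * δ)⌋₊ : ℕ) : ℝ) + 4) ≤
        (n : ℝ) := by
      nlinarith
    exact_mod_cast h7
  · exact ParamB_ev (by linarith) 20
  · filter_upwards [eventually_ge_atTop 1, ParamB_ev hδ 7, ParamB_bracket hδ hδ',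
      ParamB_ev (a := 1 - 35 * δ / 2) (by linarith) 4, ParamB_ev (a := δ / 2) (by linarith) 4]
      with n hn h7 hB h4 h5 e e' he he'
    have hx : (1 : ℝ) ≤ (n : ℝ) := by exact_mod_cast hn
    have hx0 : (0 : ℝ) < (n : ℝ) := by linarith
    set x : ℝ := (n : ℝ) with hxdef
    set N : ℕ := ⌈x ^ δ⌉₊ with hNdef
    set M : ℕ := ⌊x ^ (1 - 17 * δ)⌋₊ with hMdef
    set B : ℝ := ((2 * x ^ (-14 * δ)) ^ 5 + ((N : ℕ) + 1) *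
          ((8 * (N : ℕ) * (M : ℕ) + 10) / x)) / x ^ (-14 * δ) with hBdef
    have hNx : x ^ δ ≤ (N : ℝ) := Nat.le_ceil _
    have hN7 : (7 : ℝ) ≤ (N : ℝ) := h7.trans hNx
    have hN7' : 7 ≤ N := by exact_mod_cast hN7
    have hMx : x ^ (1 - 17 * δ) - 1 ≤ (M : ℝ) := by
      have := Nat.lt_floor_add_one (x ^ (1 - 17 * δ))
      linarith
    have he1 : e' ≤ (N : ℝ) * e / 5 := he' ▸ min_le_left _ _
    have he2 : e' ≤ x ^ (1 - 35 * δ / 2) := he' ▸ min_le_right _ _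
    have hdiv : ∀ y : ℝ, y / Real.exp (-e') = y * Real.exp e' := by
      intro y
      rw [Real.exp_neg, div_inv_eq_mul]
    rw [hdiv, add_mul]
    -- powers of x
    have hd2 : (1 : ℝ) ≤ x ^ (δ / 2) := by linarith
    have hdd : x ^ (δ / 2) * x ^ (δ / 2) = x ^ δ := by
      rw [← Real.rpow_add hx0]
      congr 1
      ring
    have h37 : x ^ (1 - 35 * δ / 2) * x ^ (δ / 2) = x ^ (1 - 17 * δ) := by
      rw [← Real.rpow_add hx0]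
      congr 1
      ring
    have hfirst : 2 ^ (N + 1) * Real.exp (-e) ^ (N - 3) * Real.exp e' ≤
        Real.exp (-x ^ (δ / 2)) / 2 := by
      have h8 : (2 : ℝ) ^ (N + 1) ≤ Real.exp ((N + 1 : ℕ) * 1) := by
        rw [Real.exp_nat_mul]
        have h9 : (2 : ℝ) ≤ Real.exp 1 := by
          have := Real.add_one_le_exp (1 : ℝ)
          linarith
        exact pow_le_pow_left₀ (by norm_num) h9 _
      have h10 : Real.exp (-e) ^ (N - 3) = Real.exp (((N - 3 : ℕ) : ℝ) * (-e)) := by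
        rw [Real.exp_nat_mul]
      have h11 : ((N - 3 : ℕ) : ℝ) = (N : ℝ) - 3 := by
        rw [Nat.cast_sub (by omega)]
        norm_num
      have h12 : 2 ^ (N + 1) * Real.exp (-e) ^ (N - 3) * Real.exp e' ≤
          Real.exp (((N + 1 : ℕ) : ℝ) * 1) * Real.exp (((N : ℝ) - 3) * (-e)) *
            Real.exp ((N : ℝ) * e / 5) := by
        rw [h10, h11]
        gcongr
      have h13 : Real.exp (-x ^ (δ / 2)) / 2 ≥ Real.exp (-x ^ (δ / 2) - 1) := by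
        have h14 : Real.exp (-x ^ (δ / 2) - 1) = Real.exp (-x ^ (δ / 2)) / Real.exp 1 :=
          Real.exp_sub _ _
        rw [h14]
        have h9 : (2 : ℝ) ≤ Real.exp 1 := by
          have := Real.add_one_le_exp (1 : ℝ)
          linarith
        exact div_le_div_of_nonneg_left (Real.exp_pos _).le (by norm_num) h9
      refine h12.trans (le_trans ?_ h13)
      rw [← Real.exp_add, ← Real.exp_add]
      apply Real.exp_le_exp.2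
      push_cast
      have h15 : (20 : ℝ) * ((N : ℝ) * 4 / 5 - 3) ≤ e * ((N : ℝ) * 4 / 5 - 3) :=
        mul_le_mul_of_nonneg_right he (by linarith)
      nlinarith
    have hsecond : B ^ M * Real.exp e' ≤ Real.exp (-x ^ (δ / 2)) / 2 := by
      have h16 : B ^ M ≤ Real.exp (-1) ^ M := pow_le_pow_left₀ hB.1 hB.2 _
      have h17 : Real.exp (-1) ^ M = Real.exp (-(M : ℝ)) := by
        rw [← Real.exp_nat_mul]
        congr 1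
        ring
      have h13 : Real.exp (-x ^ (δ / 2)) / 2 ≥ Real.exp (-x ^ (δ / 2) - 1) := by
        have h14 : Real.exp (-x ^ (δ / 2) - 1) = Real.exp (-x ^ (δ / 2)) / Real.exp 1 :=
          Real.exp_sub _ _
        rw [h14]
        have h9 : (2 : ℝ) ≤ Real.exp 1 := by
          have := Real.add_one_le_exp (1 : ℝ)
          linarith
        exact div_le_div_of_nonneg_left (Real.exp_pos _).le (by norm_num) h9
      have h18 : B ^ M * Real.exp e' ≤ Real.exp (-(M : ℝ)) * Real.exp (x ^ (1 - 35 * δ / 2)) := by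
        rw [h17] at h16
        gcongr
      refine h18.trans (le_trans ?_ h13)
      rw [← Real.exp_add]
      apply Real.exp_le_exp.2
      have h19 : (4 : ℝ) * x ^ (1 - 35 * δ / 2) ≤ x ^ (1 - 17 * δ) := by
        rw [← h37]
        nlinarith
      have h20 : (4 : ℝ) * x ^ (δ / 2) ≤ x ^ (1 - 17 * δ) := by
        rw [← h37]
        nlinarith
      linarith
    linarith

/-- The entropy after `t = ⌈1/δ⌉` levels: `(N/5)^t ≥ (n^δ/5)^t ≥ n/5^t`. -/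
theorem paramB' {δ : ℝ} (hδ : 0 < δ) (hδ' : δ ≤ 1 / 40) :
    ∀ᶠ n : ℕ in atTop, (n : ℝ) ^ (1 - 35 * δ / 2) ≤
      20 * (((⌈(n : ℝ) ^ δ⌉₊ : ℕ) : ℝ) / 5) ^ ⌈1 / δ⌉₊ := by
  have hδ0 : 0 ≤ δ := hδ.le
  set t : ℕ := ⌈1 / δ⌉₊ with ht
  filter_upwards [eventually_ge_atTop 1, ParamB_ev (a := 35 * δ / 2) (by linarith) (5 ^ t)]
    with n hn h1
  have hx : (1 : ℝ) ≤ (n : ℝ) := by exact_mod_cast hn
  have hx0 : (0 : ℝ) < (n : ℝ) := by linarith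
  set x : ℝ := (n : ℝ) with hxdef
  have hNx : x ^ δ ≤ ((⌈x ^ δ⌉₊ : ℕ) : ℝ) := Nat.le_ceil _
  have h2 : (x ^ δ / 5) ^ t ≤ (((⌈x ^ δ⌉₊ : ℕ) : ℝ) / 5) ^ t := by
    have := Real.rpow_nonneg hx0.le δ
    gcongr
  have h3 : (1 : ℝ) ≤ δ * (t : ℝ) := by
    have h4 : 1 / δ ≤ (t : ℝ) := Nat.le_ceil _
    rw [div_le_iff₀ hδ] at h4
    linarith
  have h5 : x ≤ (x ^ δ) ^ t := by
    rw [← Real.rpow_natCast, ← Real.rpow_mul hx0.le]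
    conv_lhs => rw [← Real.rpow_one x]
    exact Real.rpow_le_rpow_of_exponent_le hx h3
  have h6 : x ^ (1 - 35 * δ / 2) * x ^ (35 * δ / 2) = x := by
    rw [← Real.rpow_add hx0]
    conv_rhs => rw [← Real.rpow_one x]
    congr 1
    ring
  have h7 : 0 < x ^ (1 - 35 * δ / 2) := Real.rpow_pos_of_pos hx0 _
  have h8 : x ^ (1 - 35 * δ / 2) * 5 ^ t ≤ x := by
    calc _ ≤ x ^ (1 - 35 * δ / 2) * x ^ (35 * δ / 2) := by gcongr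
      _ = x := h6
  have h9 : x ^ (1 - 35 * δ / 2) ≤ (x ^ δ / 5) ^ t := by
    rw [div_pow, le_div_iff₀ (by positivity)]
    exact h8.trans h5
  have h10 : 0 ≤ (x ^ δ / 5) ^ t := h7.le.trans h9
  linarith

end Pool.Agent.RCG
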