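import Mathlib

/-!
# Parameters (pure real analysis, everything for `n → ∞`, `δ ∈ (0, 1/40]` fixed)

`κ = n^(-7δ/6)`, `φ = κ^12 = n^(-14δ)`, `L = N = ⌈n^δ⌉`, `M = ⌊n^(1-17δ)⌋`, `c = n^(1-35δ/2)`, `b0 = ⌊n^(1-15δ)⌋`,
`R0 = ⌊n^(1/2)⌋`, `T = ⌊n^(3/5)⌋`, `j` with `n^(1-18δ)/2 ≤ j ≤ n^(1-18δ)`, `J = ⌈5/(2δ)⌉`, `t = ⌈1/δ⌉`,
`K = ⌈6 (n/j) log n + 1⌉`.
Useful: `n^a = o(exp (n^b))`, `isLittleO_log_rpow_atTop`, `tendsto_rpow_neg_atTop`, `Nat.floor_le`, `Nat.lt_floor_add_one`,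
`Nat.ceil_lt_add_one`.
-/

open Finset Filter Topology

namespace Pool.Agent.RCG

theorem eventually_le_rpow (C : ℝ) {a : ℝ} (ha : 0 < a) :
    ∀ᶠ n : ℕ in atTop, C ≤ (n : ℝ) ^ a :=
  ((tendsto_rpow_atTop ha).comp tendsto_natCast_atTop_atTop).eventually_ge_atTop C

theorem sum_pow_le_two_mul {q : ℝ} (hq0 : 0 ≤ q) (hq : q ≤ 1 / 2) (j : ℕ) :
    ∑ b ∈ Icc 1 j, q ^ b + 2 * q ^ (j + 1) ≤ 2 * q := by
  induction j with
  | zero => simp
  | succ j ih =>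
    rw [Finset.sum_Icc_succ_top (by omega)]
    have h1 : q ^ (j + 1 + 1) ≤ q ^ (j + 1) * (1 / 2) := by
      rw [pow_succ]
      exact mul_le_mul_of_nonneg_left hq (by positivity)
    linarith

/-- STEP C parameters.  Second part: `6 (n/j) log n + 2 ≤ 12 n^(18δ) log n + 2`.  Third part:
`(2 (6κ)^b)^J n^(2b) ≤ (n^2 (12κ)^J)^b`, `(12κ)^J ≤ 12^J n^(-35/12)`, so the sum is at most `2·12^J n^(-11/12)` for large `n`,
times `5 n^(19δ)`, `19 δ ≤ 0.475`. -/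
theorem paramC {δ : ℝ} (hδ : 0 < δ) (hδ' : δ ≤ 1 / 40) :
    (∀ᶠ n : ℕ in atTop, ∀ j : ℕ, (j : ℝ) ≤ (n : ℝ) ^ (1 - 18 * δ) →
      4 * (j : ℝ) ≤ (n : ℝ) ^ (-14 * δ) * n ∧
      Real.exp (-(n : ℝ) ^ (1 - 35 * δ / 2)) ≤ (6 * (n : ℝ) ^ (-7 * δ / 6)) ^ j) ∧
    (∀ᶠ n : ℕ in atTop, ∀ j : ℕ, (n : ℝ) ^ (1 - 18 * δ) / 2 ≤ j →
      (⌈6 * ((n : ℝ) / j) * Real.log n + 1⌉₊ : ℝ) ≤ (n : ℝ) ^ (19 * δ)) ∧
    (∃ ε : ℕ → ℝ, Tendsto ε atTop (𝓝 0) ∧ ∀ᶠ n : ℕ in atTop, ∀ j K : ℕ,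
      (K : ℝ) ≤ (n : ℝ) ^ (19 * δ) →
      (4 * (K : ℝ) + 1) * ∑ b ∈ Icc 1 j, (n : ℝ) ^ (2 * b) *
        (2 * (6 * (n : ℝ) ^ (-7 * δ / 6)) ^ b) ^ ⌈5 / (2 * δ)⌉₊ ≤ ε n) := by
  refine ⟨?_, ?_, ?_⟩
  · filter_upwards [eventually_ge_atTop 1, eventually_le_rpow 4 (a := 4 * δ) (by linarith),
      eventually_le_rpow 5 (a := δ / 4) (by linarith)]
      with n hn h4 h5 j hj
    have hn1 : (1 : ℝ) ≤ n := by exact_mod_cast hn
    have hn0 : (0 : ℝ) < n := by linarith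
    constructor
    · have h1 : (n : ℝ) ^ (-14 * δ) * n = (n : ℝ) ^ (4 * δ) * (n : ℝ) ^ (1 - 18 * δ) := by
        rw [← Real.rpow_add hn0, ← Real.rpow_add_one hn0.ne']
        congr 1
        ring
      rw [h1]
      exact mul_le_mul h4 hj (by positivity) (by positivity)
    · have h1 : ((n : ℝ) ^ (-7 * δ / 6)) ^ j ≤ (6 * (n : ℝ) ^ (-7 * δ / 6)) ^ j := by
        apply pow_le_pow_left₀ (by positivity)
        have : 0 ≤ (n : ℝ) ^ (-7 * δ / 6) := by positivity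
        linarith
      refine le_trans ?_ h1
      rw [Real.rpow_def_of_pos hn0 (-7 * δ / 6), ← Real.exp_nat_mul, Real.exp_le_exp]
      have hlog0 : 0 ≤ Real.log n := Real.log_nonneg hn1
      have hlog : Real.log n ≤ (n : ℝ) ^ (δ / 4) / (δ / 4) :=
        Real.log_le_rpow_div hn0.le (by linarith)
      have h2 : (n : ℝ) ^ (1 - 35 * δ / 2) = (n : ℝ) ^ (1 - 18 * δ) * (n : ℝ) ^ (δ / 2) := by
        rw [← Real.rpow_add hn0]
        congr 1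
        ring
      have h22 : (n : ℝ) ^ (δ / 2) = (n : ℝ) ^ (δ / 4) * (n : ℝ) ^ (δ / 4) := by
        rw [← Real.rpow_add hn0]
        congr 1
        ring
      have h3 : 7 * δ / 6 * Real.log n ≤ (n : ℝ) ^ (δ / 2) := by
        have h5' : 7 * δ / 6 * Real.log n ≤ 7 * δ / 6 * ((n : ℝ) ^ (δ / 4) / (δ / 4)) :=
          mul_le_mul_of_nonneg_left hlog (by positivity)
        have h6 : 7 * δ / 6 * ((n : ℝ) ^ (δ / 4) / (δ / 4)) = 14 / 3 * (n : ℝ) ^ (δ / 4) := by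
          field_simp
          ring
        rw [h6] at h5'
        rw [h22]
        nlinarith
      have h4 : (j : ℝ) * (7 * δ / 6 * Real.log n) ≤
          (n : ℝ) ^ (1 - 18 * δ) * (n : ℝ) ^ (δ / 2) :=
        mul_le_mul hj h3 (by positivity) (by positivity)
      rw [h2]
      have h7 : (j : ℝ) * (Real.log n * (-7 * δ / 6)) =
          -((j : ℝ) * (7 * δ / 6 * Real.log n)) := by ring
      rw [h7]
      linarith
  · filter_upwards [eventually_ge_atTop 1,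
      eventually_le_rpow (24 / δ + 2) (a := δ / 2) (by linarith)] with n hn h4 j hj
    have hn1 : (1 : ℝ) ≤ n := by exact_mod_cast hn
    have hn0 : (0 : ℝ) < n := by linarith
    have hlog0 : 0 ≤ Real.log n := Real.log_nonneg hn1
    have hlog : Real.log n ≤ (n : ℝ) ^ (δ / 2) / (δ / 2) :=
      Real.log_le_rpow_div hn0.le (by linarith)
    have hp : (0 : ℝ) < (n : ℝ) ^ (1 - 18 * δ) := by positivity
    have hj0 : (0 : ℝ) < j := by linarith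
    have h1 : (n : ℝ) / j ≤ 2 * (n : ℝ) ^ (18 * δ) := by
      rw [div_le_iff₀ hj0]
      have h5 : (n : ℝ) = (n : ℝ) ^ (18 * δ) * (n : ℝ) ^ (1 - 18 * δ) := by
        rw [← Real.rpow_add hn0]
        have : 18 * δ + (1 - 18 * δ) = 1 := by ring
        rw [this, Real.rpow_one]
      have h6 : (n : ℝ) ^ (18 * δ) * ((n : ℝ) ^ (1 - 18 * δ) / 2) ≤ (n : ℝ) ^ (18 * δ) * j :=
        mul_le_mul_of_nonneg_left hj (by positivity)
      nlinarith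
    have h2 : 6 * ((n : ℝ) / j) * Real.log n ≤
        6 * (2 * (n : ℝ) ^ (18 * δ)) * ((n : ℝ) ^ (δ / 2) / (δ / 2)) :=
      mul_le_mul (by linarith) hlog hlog0 (by positivity)
    have h3 : 6 * (2 * (n : ℝ) ^ (18 * δ)) * ((n : ℝ) ^ (δ / 2) / (δ / 2)) =
        24 / δ * ((n : ℝ) ^ (18 * δ) * (n : ℝ) ^ (δ / 2)) := by
      field_simp
      ring
    have h5 : (1 : ℝ) ≤ (n : ℝ) ^ (18 * δ) * (n : ℝ) ^ (δ / 2) := by
      rw [← Real.rpow_add hn0]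
      exact Real.one_le_rpow hn1 (by linarith)
    have h6 : (n : ℝ) ^ (19 * δ) =
        (n : ℝ) ^ (δ / 2) * ((n : ℝ) ^ (18 * δ) * (n : ℝ) ^ (δ / 2)) := by
      rw [← Real.rpow_add hn0, ← Real.rpow_add hn0]
      congr 1
      ring
    have hx0 : 0 ≤ 6 * ((n : ℝ) / j) * Real.log n + 1 := by positivity
    have h7 := Nat.ceil_lt_add_one hx0
    have h8 : (24 / δ + 2) * ((n : ℝ) ^ (18 * δ) * (n : ℝ) ^ (δ / 2)) ≤
        (n : ℝ) ^ (δ / 2) * ((n : ℝ) ^ (18 * δ) * (n : ℝ) ^ (δ / 2)) :=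
      mul_le_mul_of_nonneg_right h4 (by positivity)
    rw [h6]
    linarith
  · set J := ⌈5 / (2 * δ)⌉₊ with hJ
    have hJδ : 35 / 12 ≤ 7 * δ / 6 * J := by
      have h1 : 5 / (2 * δ) ≤ J := Nat.le_ceil _
      have h2 : 7 * δ / 6 * (5 / (2 * δ)) ≤ 7 * δ / 6 * J :=
        mul_le_mul_of_nonneg_left h1 (by positivity)
      have h3 : 7 * δ / 6 * (5 / (2 * δ)) = 35 / 12 := by
        field_simp
        norm_num
      rw [h3] at h2
      linarith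
    refine ⟨fun n => (5 * 2 ^ J * 2 * 6 ^ J) * (n : ℝ) ^ (-(53 / 120) : ℝ), ?_, ?_⟩
    · have h1 : Tendsto (fun n : ℕ => (n : ℝ) ^ (-(53 / 120) : ℝ)) atTop (𝓝 0) :=
        (tendsto_rpow_neg_atTop (by norm_num)).comp tendsto_natCast_atTop_atTop
      simpa using h1.const_mul (5 * 2 ^ J * 2 * 6 ^ J : ℝ)
    filter_upwards [eventually_ge_atTop 1,
      eventually_le_rpow (2 * (6 : ℝ) ^ J) (a := 11 / 12) (by norm_num)] with n hn h6 j K hK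
    have hn1 : (1 : ℝ) ≤ n := by exact_mod_cast hn
    have hn0 : (0 : ℝ) < n := by linarith
    have hκ : ((n : ℝ) ^ (-7 * δ / 6)) ^ J ≤ (n : ℝ) ^ (-(35 / 12) : ℝ) := by
      rw [← Real.rpow_natCast, ← Real.rpow_mul hn0.le]
      apply Real.rpow_le_rpow_of_exponent_le hn1
      have : -7 * δ / 6 * (J : ℝ) = -(7 * δ / 6 * J) := by ring
      rw [this]
      linarith
    set q : ℝ := (n : ℝ) ^ 2 * (6 * (n : ℝ) ^ (-7 * δ / 6)) ^ J with hq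
    have hq0 : 0 ≤ q := by positivity
    have hq1 : q ≤ 6 ^ J * (n : ℝ) ^ (-(11 / 12) : ℝ) := by
      rw [hq, mul_pow]
      calc (n : ℝ) ^ 2 * (6 ^ J * ((n : ℝ) ^ (-7 * δ / 6)) ^ J)
          ≤ (n : ℝ) ^ 2 * (6 ^ J * (n : ℝ) ^ (-(35 / 12) : ℝ)) := by gcongr
        _ = 6 ^ J * ((n : ℝ) ^ (2 : ℝ) * (n : ℝ) ^ (-(35 / 12) : ℝ)) := by
            have : (n : ℝ) ^ (2 : ℝ) = (n : ℝ) ^ 2 := by
              rw [← Real.rpow_natCast (n : ℝ) 2]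
              norm_num
            rw [this]
            ring
        _ = 6 ^ J * (n : ℝ) ^ (-(11 / 12) : ℝ) := by
            rw [← Real.rpow_add hn0]
            norm_num
    have hq2 : q ≤ 1 / 2 := by
      refine hq1.trans ?_
      rw [Real.rpow_neg hn0.le, ← div_eq_mul_inv, div_le_div_iff₀ (by positivity) (by norm_num)]
      linarith
    have hsum : ∑ b ∈ Icc 1 j, (n : ℝ) ^ (2 * b) *
        (2 * (6 * (n : ℝ) ^ (-7 * δ / 6)) ^ b) ^ J = 2 ^ J * ∑ b ∈ Icc 1 j, q ^ b := by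
      rw [mul_sum]
      refine sum_congr rfl fun b _ => ?_
      rw [hq]
      generalize 6 * (n : ℝ) ^ (-7 * δ / 6) = c
      rw [mul_pow, mul_pow, ← pow_mul, ← pow_mul, ← pow_mul, mul_comm b J]
      ring
    have hsum2 : ∑ b ∈ Icc 1 j, q ^ b ≤ 2 * q := by
      have := sum_pow_le_two_mul hq0 hq2 j
      have h9 : 0 ≤ 2 * q ^ (j + 1) := by positivity
      linarith
    have hK2 : 4 * (K : ℝ) + 1 ≤ 5 * (n : ℝ) ^ (19 / 40 : ℝ) := by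
      have h10 : (n : ℝ) ^ (19 * δ) ≤ (n : ℝ) ^ (19 / 40 : ℝ) :=
        Real.rpow_le_rpow_of_exponent_le hn1 (by linarith)
      have h11 : (1 : ℝ) ≤ (n : ℝ) ^ (19 / 40 : ℝ) := Real.one_le_rpow hn1 (by norm_num)
      linarith
    rw [hsum]
    have hsum0 : 0 ≤ ∑ b ∈ Icc 1 j, q ^ b := sum_nonneg fun b _ => by positivity
    calc (4 * (K : ℝ) + 1) * (2 ^ J * ∑ b ∈ Icc 1 j, q ^ b)
        ≤ (5 * (n : ℝ) ^ (19 / 40 : ℝ)) *
            (2 ^ J * (2 * (6 ^ J * (n : ℝ) ^ (-(11 / 12) : ℝ)))) := by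
          refine mul_le_mul hK2 (mul_le_mul_of_nonneg_left ?_ (by positivity)) (by positivity)
            (by positivity)
          linarith
      _ = (5 * 2 ^ J * 2 * 6 ^ J) *
            ((n : ℝ) ^ (19 / 40 : ℝ) * (n : ℝ) ^ (-(11 / 12) : ℝ)) := by ring
      _ = (5 * 2 ^ J * 2 * 6 ^ J) * (n : ℝ) ^ (-(53 / 120) : ℝ) := by
          rw [← Real.rpow_add hn0]
          norm_num

end Pool.Agent.RCG
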