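import Mathlib

/-!
# Parameters (pure real analysis, everything for `n → ∞`, `δ ∈ (0, 1/40]` fixed)

`κ = n^(-7δ/6)`, `φ = κ^12 = n^(-14δ)`, `L = N = ⌈n^δ⌉`, `M = ⌊n^(1-17δ)⌋`, `c = n^(1-35δ/2)`, `b0 = ⌊n^(1-15δ)⌋`,
`R0 = ⌊n^(1/2)⌋`, `T = ⌊n^(3/5)⌋`, `j` with `n^(1-18δ)/2 ≤ j ≤ n^(1-18δ)`, `J = ⌈5/(2δ)⌉`, `t = ⌈1/δ⌉`,
`K = ⌈6 (n/j) log n + 1⌉`.
Useful: `n^a = o(exp (n^b))`, `isLittleO_log_rpow_atTop`, `tendsto_rpow_neg_atTop`, `Nat.floor_le`, `Nat.lt_floor_add_one`,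
`Nat.ceil_lt_add_one`.
-/

open Finset Filter Topology

namespace Pool.Agent.RCG

/-- a negative power of `n` tends to zero along the natural numbers -/
theorem ParamH_neg {a : ℝ} (ha : a < 0) : Tendsto (fun n : ℕ => (n : ℝ) ^ a) atTop (𝓝 0) := by
  have h := (tendsto_rpow_neg_atTop (y := -a) (by linarith)).comp tendsto_natCast_atTop_atTop
  simpa [Function.comp_def] using h

theorem ParamH_neg_le {a c : ℝ} (ha : a < 0) (hc : 0 < c) : ∀ᶠ n : ℕ in atTop, (n : ℝ) ^ a ≤ c :=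
  (ParamH_neg ha).eventually (eventually_le_nhds hc)

theorem ParamH_cmp {a b c : ℝ} (hab : a < b) (hc : 0 < c) :
    ∀ᶠ n : ℕ in atTop, c * (n : ℝ) ^ a ≤ (n : ℝ) ^ b := by
  filter_upwards [ParamH_neg_le (a := a - b) (by linarith) (inv_pos.2 hc), eventually_ge_atTop 1]
    with n hn hn1
  have hn0 : (0 : ℝ) < n := by exact_mod_cast hn1
  have hb : 0 < (n : ℝ) ^ b := Real.rpow_pos_of_pos hn0 b
  have h1 : (n : ℝ) ^ a = (n : ℝ) ^ (a - b) * (n : ℝ) ^ b := by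
    rw [← Real.rpow_add hn0]; congr 1; ring
  rw [h1]
  calc c * ((n : ℝ) ^ (a - b) * (n : ℝ) ^ b) ≤ c * (c⁻¹ * (n : ℝ) ^ b) := by gcongr
    _ = (n : ℝ) ^ b := by field_simp

/-- STEP H parameters, `κ = n^(-7δ/6)`. `n^(T + n/R0) ≤ exp (2 n^(3/5) log n)` versus
`3^(b0/4) ≥ exp (n^(0.625)/8)` (`1 - 15 δ ≥ 0.625`); `(1/L + 6κ)^J ≤ (2 n^(-δ))^J ≤ 2^J n^(-5/2)`. -/
theorem paramH {δ : ℝ} (hδ : 0 < δ) (hδ' : δ ≤ 1 / 40) :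
    (∀ᶠ n : ℕ in atTop, 0 < (n : ℝ) ^ (-7 * δ / 6) ∧ 6 * (n : ℝ) ^ (-7 * δ / 6) ≤ 1 ∧
      1 ≤ ⌊(n : ℝ) ^ (1 / 2 : ℝ)⌋₊ ∧ ((n : ℝ) ^ (-7 * δ / 6)) ^ 12 = (n : ℝ) ^ (-14 * δ)) ∧
    (∀ᶠ n : ℕ in atTop, 4 * ⌊(n : ℝ) ^ (1 - 15 * δ)⌋₊ + 4 ≤ n ∧
      4 * ((⌊(n : ℝ) ^ (1 - 15 * δ)⌋₊ : ℕ) : ℝ) ≤ (n : ℝ) ^ (-14 * δ) * n) ∧
    (∀ᶠ n : ℕ in atTop,
      (n : ℝ) ^ (⌊(n : ℝ) ^ (3 / 5 : ℝ)⌋₊ + n / ⌊(n : ℝ) ^ (1 / 2 : ℝ)⌋₊) ≤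
        (6 * (n : ℝ) ^ (-7 * δ / 6)) ^ 2 * 3 ^ (⌊(n : ℝ) ^ (1 - 15 * δ)⌋₊ / 4)) ∧
    Tendsto (fun n : ℕ => (1 / ((⌈(n : ℝ) ^ δ⌉₊ : ℕ) : ℝ) + 6 * (n : ℝ) ^ (-7 * δ / 6)) ^
      ⌈5 / (2 * δ)⌉₊ * ((n : ℝ) ^ 2 / 2)) atTop (𝓝 0) := by
  refine ⟨?_, ?_, ?_, ?_⟩
  · filter_upwards [ParamH_neg_le (a := -7 * δ / 6) (by linarith) (c := 1 / 6) (by norm_num),
      eventually_ge_atTop 1] with n hn hn1
    have hn0 : (0 : ℝ) < n := by exact_mod_cast hn1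
    have hn1' : (1 : ℝ) ≤ n := by exact_mod_cast hn1
    refine ⟨Real.rpow_pos_of_pos hn0 _, by linarith, ?_, ?_⟩
    · rw [Nat.one_le_floor_iff]
      exact Real.one_le_rpow hn1' (by norm_num)
    · rw [← Real.rpow_natCast, ← Real.rpow_mul hn0.le]
      congr 1
      push_cast
      ring
  · filter_upwards [ParamH_cmp (a := 1 - 15 * δ) (b := 1) (c := 8) (by linarith) (by norm_num),
      ParamH_cmp (a := 1 - 15 * δ) (b := 1 - 14 * δ) (c := 4) (by linarith) (by norm_num),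
      eventually_ge_atTop 8] with n h1 h2 hn8
    have hn0 : (0 : ℝ) < n := by
      have : 0 < n := by omega
      exact_mod_cast this
    have hn8' : (8 : ℝ) ≤ n := by exact_mod_cast hn8
    have hfl : ((⌊(n : ℝ) ^ (1 - 15 * δ)⌋₊ : ℕ) : ℝ) ≤ (n : ℝ) ^ (1 - 15 * δ) :=
      Nat.floor_le (Real.rpow_nonneg hn0.le _)
    rw [Real.rpow_one] at h1
    constructor
    · have : (4 * (⌊(n : ℝ) ^ (1 - 15 * δ)⌋₊ : ℕ) : ℝ) + 4 ≤ n := by linarith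
      exact_mod_cast this
    · have h3 : (n : ℝ) ^ (-14 * δ) * n = (n : ℝ) ^ (1 - 14 * δ) := by
        nth_rewrite 2 [← Real.rpow_one (n : ℝ)]
        rw [← Real.rpow_add hn0]
        congr 1
        ring
      rw [h3]
      linarith
  · have hlog : ∀ᶠ n : ℕ in atTop, Real.log n ≤ (n : ℝ) ^ (1 / 100 : ℝ) := by
      have h := (isLittleO_log_rpow_atTop (r := 1 / 100) (by norm_num)).bound (c := 1) one_pos
      have h' := tendsto_natCast_atTop_atTop.eventually h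
      filter_upwards [h', eventually_ge_atTop 1] with n hn hn1
      have hn1' : (1 : ℝ) ≤ n := by exact_mod_cast hn1
      rw [Real.norm_of_nonneg (Real.log_nonneg hn1'), one_mul,
        Real.norm_of_nonneg (Real.rpow_nonneg (by linarith) _)] at hn
      exact hn
    filter_upwards [hlog, ParamH_cmp (a := 61 / 100) (b := 5 / 8) (c := 32) (by norm_num)
      (by norm_num), eventually_ge_atTop 4] with n hl h1 hn4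
    have hn0 : (0 : ℝ) < n := by
      have : 0 < n := by omega
      exact_mod_cast this
    have hn1 : (1 : ℝ) ≤ n := by
      have : 1 ≤ n := by omega
      exact_mod_cast this
    have hn4' : (4 : ℝ) ≤ n := by exact_mod_cast hn4
    have hlog0 : 0 ≤ Real.log n := Real.log_nonneg hn1
    have hn910 : 1 ≤ (n : ℝ) ^ (61 / 100 : ℝ) := Real.one_le_rpow hn1 (by norm_num)
    -- the exponent on the left
    have hE : ((⌊(n : ℝ) ^ (3 / 5 : ℝ)⌋₊ + n / ⌊(n : ℝ) ^ (1 / 2 : ℝ)⌋₊ : ℕ) : ℝ) ≤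
        3 * (n : ℝ) ^ (3 / 5 : ℝ) := by
      have ha : ((⌊(n : ℝ) ^ (3 / 5 : ℝ)⌋₊ : ℕ) : ℝ) ≤ (n : ℝ) ^ (3 / 5 : ℝ) :=
        Nat.floor_le (Real.rpow_nonneg hn0.le _)
      have hs1 : 1 ≤ (n : ℝ) ^ (1 / 2 : ℝ) := Real.one_le_rpow hn1 (by norm_num)
      have hsf : (n : ℝ) ^ (1 / 2 : ℝ) / 2 ≤ ((⌊(n : ℝ) ^ (1 / 2 : ℝ)⌋₊ : ℕ) : ℝ) := by
        have h3 := Nat.lt_floor_add_one ((n : ℝ) ^ (1 / 2 : ℝ))
        have h4 : (1 : ℝ) ≤ ((⌊(n : ℝ) ^ (1 / 2 : ℝ)⌋₊ : ℕ) : ℝ) := by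
          have : 1 ≤ ⌊(n : ℝ) ^ (1 / 2 : ℝ)⌋₊ := by
            rw [Nat.one_le_floor_iff]; exact hs1
          exact_mod_cast this
        linarith
      have hb : ((n / ⌊(n : ℝ) ^ (1 / 2 : ℝ)⌋₊ : ℕ) : ℝ) ≤ 2 * (n : ℝ) ^ (1 / 2 : ℝ) := by
        refine Nat.cast_div_le.trans ?_
        have hs0 : 0 < (n : ℝ) ^ (1 / 2 : ℝ) := by linarith
        rw [div_le_iff₀ (by linarith)]
        have hsq : (n : ℝ) ^ (1 / 2 : ℝ) * (n : ℝ) ^ (1 / 2 : ℝ) = n := by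
          rw [← Real.rpow_add hn0]; norm_num
        nlinarith
      have hc : (n : ℝ) ^ (1 / 2 : ℝ) ≤ (n : ℝ) ^ (3 / 5 : ℝ) :=
        Real.rpow_le_rpow_of_exponent_le hn1 (by norm_num)
      rw [Nat.cast_add]
      linarith
    -- the left side
    have hL : (n : ℝ) ^ (⌊(n : ℝ) ^ (3 / 5 : ℝ)⌋₊ + n / ⌊(n : ℝ) ^ (1 / 2 : ℝ)⌋₊) ≤
        Real.exp (3 * (n : ℝ) ^ (61 / 100 : ℝ)) := by
      rw [← Real.rpow_natCast, Real.rpow_def_of_pos hn0, Real.exp_le_exp]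
      have h3 : (n : ℝ) ^ (1 / 100 : ℝ) * (n : ℝ) ^ (3 / 5 : ℝ) = (n : ℝ) ^ (61 / 100 : ℝ) := by
        rw [← Real.rpow_add hn0]; norm_num
      calc Real.log n * ((⌊(n : ℝ) ^ (3 / 5 : ℝ)⌋₊ + n / ⌊(n : ℝ) ^ (1 / 2 : ℝ)⌋₊ : ℕ) : ℝ)
          ≤ (n : ℝ) ^ (1 / 100 : ℝ) * (3 * (n : ℝ) ^ (3 / 5 : ℝ)) := by
            gcongr
        _ = 3 * (n : ℝ) ^ (61 / 100 : ℝ) := by rw [← h3]; ring
    refine hL.trans ?_
    -- the right side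
    have hR1 : Real.exp (-(n : ℝ) ^ (61 / 100 : ℝ)) ≤ (6 * (n : ℝ) ^ (-7 * δ / 6)) ^ 2 := by
      have h3 : (6 * (n : ℝ) ^ (-7 * δ / 6)) ^ 2 = 36 * Real.exp (-(7 * δ / 3) * Real.log n) := by
        rw [mul_pow, ← Real.rpow_natCast, ← Real.rpow_natCast, ← Real.rpow_mul hn0.le,
          Real.rpow_def_of_pos hn0 (-7 * δ / 6 * _)]
        norm_num
        ring
      rw [h3]
      have h4 : -(n : ℝ) ^ (61 / 100 : ℝ) ≤ -(7 * δ / 3) * Real.log n := by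
        have h5 : (n : ℝ) ^ (1 / 100 : ℝ) ≤ (n : ℝ) ^ (61 / 100 : ℝ) :=
          Real.rpow_le_rpow_of_exponent_le hn1 (by norm_num)
        have h6 : 7 * δ / 3 * Real.log n ≤ 1 * Real.log n :=
          mul_le_mul_of_nonneg_right (by linarith) hlog0
        linarith
      have h6 := Real.exp_le_exp.2 h4
      have h7 := Real.exp_pos (-(7 * δ / 3) * Real.log n)
      linarith
    have hR2 : Real.exp ((n : ℝ) ^ (5 / 8 : ℝ) / 4 - 2) ≤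
        3 ^ (⌊(n : ℝ) ^ (1 - 15 * δ)⌋₊ / 4) := by
      have h3 : (n : ℝ) ^ (5 / 8 : ℝ) ≤ (n : ℝ) ^ (1 - 15 * δ) :=
        Real.rpow_le_rpow_of_exponent_le hn1 (by linarith)
      have h4 := Nat.lt_floor_add_one ((n : ℝ) ^ (1 - 15 * δ))
      have h5 : ((⌊(n : ℝ) ^ (1 - 15 * δ)⌋₊ : ℕ) : ℝ) ≤
          4 * ((⌊(n : ℝ) ^ (1 - 15 * δ)⌋₊ / 4 : ℕ) : ℝ) + 3 := by
        have : ⌊(n : ℝ) ^ (1 - 15 * δ)⌋₊ ≤ 4 * (⌊(n : ℝ) ^ (1 - 15 * δ)⌋₊ / 4) + 3 := by omega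
        exact_mod_cast this
      have h6 : (n : ℝ) ^ (5 / 8 : ℝ) / 4 - 2 ≤ ((⌊(n : ℝ) ^ (1 - 15 * δ)⌋₊ / 4 : ℕ) : ℝ) := by
        linarith
      calc Real.exp ((n : ℝ) ^ (5 / 8 : ℝ) / 4 - 2)
          ≤ Real.exp ((⌊(n : ℝ) ^ (1 - 15 * δ)⌋₊ / 4 : ℕ) : ℝ) := Real.exp_le_exp.2 h6
        _ = Real.exp 1 ^ (⌊(n : ℝ) ^ (1 - 15 * δ)⌋₊ / 4) := by
            rw [← Real.exp_nat_mul, mul_one]
        _ ≤ 3 ^ (⌊(n : ℝ) ^ (1 - 15 * δ)⌋₊ / 4) := by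
            apply pow_le_pow_left₀ (Real.exp_pos _).le
            have := Real.exp_one_lt_d9
            linarith
    calc Real.exp (3 * (n : ℝ) ^ (61 / 100 : ℝ))
        ≤ Real.exp (-(n : ℝ) ^ (61 / 100 : ℝ) + ((n : ℝ) ^ (5 / 8 : ℝ) / 4 - 2)) := by
          apply Real.exp_le_exp.2
          linarith
      _ = Real.exp (-(n : ℝ) ^ (61 / 100 : ℝ)) * Real.exp ((n : ℝ) ^ (5 / 8 : ℝ) / 4 - 2) :=
          Real.exp_add _ _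
      _ ≤ (6 * (n : ℝ) ^ (-7 * δ / 6)) ^ 2 * 3 ^ (⌊(n : ℝ) ^ (1 - 15 * δ)⌋₊ / 4) := by
          exact mul_le_mul hR1 hR2 (Real.exp_pos _).le (by positivity)
  · set J := ⌈5 / (2 * δ)⌉₊ with hJ
    have hJ1 : 5 / (2 * δ) ≤ (J : ℝ) := Nat.le_ceil _
    have hJ2 : (5 / 2 : ℝ) ≤ δ * J := by
      rw [div_le_iff₀ (by linarith)] at hJ1
      linarith
    have hlim : Tendsto (fun n : ℕ => (2 : ℝ) ^ J / 2 * (n : ℝ) ^ (-(1 / 2 : ℝ))) atTop (𝓝 0) := by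
      have := (ParamH_neg (a := -(1 / 2)) (by norm_num)).const_mul ((2 : ℝ) ^ J / 2)
      simpa using this
    refine squeeze_zero' ?_ ?_ hlim
    · filter_upwards [eventually_ge_atTop 1] with n hn1
      have hn0 : (0 : ℝ) < n := by exact_mod_cast hn1
      positivity
    · filter_upwards [eventually_ge_atTop 1, ParamH_cmp (a := -7 * δ / 6) (b := -δ) (c := 6)
        (by linarith) (by norm_num)] with n hn1 hcmp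
      have hn0 : (0 : ℝ) < n := by exact_mod_cast hn1
      have hn1' : (1 : ℝ) ≤ n := by exact_mod_cast hn1
      have hk0 : 0 < (n : ℝ) ^ (-δ) := Real.rpow_pos_of_pos hn0 _
      have h1 : 1 / ((⌈(n : ℝ) ^ δ⌉₊ : ℕ) : ℝ) ≤ (n : ℝ) ^ (-δ) := by
        have h2 : (n : ℝ) ^ δ ≤ ((⌈(n : ℝ) ^ δ⌉₊ : ℕ) : ℝ) := Nat.le_ceil _
        have h3 : 0 < (n : ℝ) ^ δ := Real.rpow_pos_of_pos hn0 _
        calc 1 / ((⌈(n : ℝ) ^ δ⌉₊ : ℕ) : ℝ) ≤ 1 / (n : ℝ) ^ δ := by gcongr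
          _ = (n : ℝ) ^ (-δ) := by rw [Real.rpow_neg hn0.le, one_div]
      have h2 : (1 / ((⌈(n : ℝ) ^ δ⌉₊ : ℕ) : ℝ) + 6 * (n : ℝ) ^ (-7 * δ / 6)) ^ J ≤
          2 ^ J * (n : ℝ) ^ (-(5 / 2 : ℝ)) := by
        calc (1 / ((⌈(n : ℝ) ^ δ⌉₊ : ℕ) : ℝ) + 6 * (n : ℝ) ^ (-7 * δ / 6)) ^ J
            ≤ (2 * (n : ℝ) ^ (-δ)) ^ J := by
              apply pow_le_pow_left₀ (by positivity)
              linarith
          _ = 2 ^ J * (n : ℝ) ^ (-δ * J) := by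
              rw [mul_pow, Real.rpow_mul hn0.le, Real.rpow_natCast]
          _ ≤ 2 ^ J * (n : ℝ) ^ (-(5 / 2 : ℝ)) := by
              apply mul_le_mul_of_nonneg_left _ (by positivity)
              apply Real.rpow_le_rpow_of_exponent_le hn1'
              linarith
      calc (1 / ((⌈(n : ℝ) ^ δ⌉₊ : ℕ) : ℝ) + 6 * (n : ℝ) ^ (-7 * δ / 6)) ^ J * ((n : ℝ) ^ 2 / 2)
          ≤ 2 ^ J * (n : ℝ) ^ (-(5 / 2 : ℝ)) * ((n : ℝ) ^ 2 / 2) := by gcongr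
        _ = 2 ^ J / 2 * ((n : ℝ) ^ (-(5 / 2 : ℝ)) * (n : ℝ) ^ (2 : ℝ)) := by
            rw [Real.rpow_two]; ring
        _ = 2 ^ J / 2 * (n : ℝ) ^ (-(1 / 2 : ℝ)) := by
            rw [← Real.rpow_add hn0]; norm_num

end Pool.Agent.RCG
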