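import Mathlib

/-!
# Parameters (pure real analysis, everything for `n → ∞`, `δ ∈ (0, 1/40]` fixed)

`κ = n^(-7δ/6)`, `φ = κ^12 = n^(-14δ)`, `L = N = ⌈n^δ⌉`, `M = ⌊n^(1-17δ)⌋`, `c = n^(1-35δ/2)`, `b0 = ⌊n^(1-15δ)⌋`,
`R0 = ⌊n^(1/2)⌋`, `T = ⌊n^(3/5)⌋`, `j` with `n^(1-18δ)/2 ≤ j ≤ n^(1-18δ)`, `J = ⌈5/(2δ)⌉`, `t = ⌈1/δ⌉`,
`K = ⌈6 (n/j) log n + 1⌉`.
Useful: `n^a = o(exp (n^b))`, `isLittleO_log_rpow_atTop`, `tendsto_rpow_neg_atTop`, `Nat.floor_le`, `Nat.lt_floor_add_one`,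
`Nat.ceil_lt_add_one`.
-/

open Finset Filter Topology

namespace Pool.Agent.RCG

/-- The choice of `j`: `m₁ = ⌊n^(1-18δ)⌋` or `m₁ - 1`; both cannot divide `2 (n/2) ≤ n` because they are coprime and
their product is larger than `n` (`1 - 18 δ ≥ 0.55`). -/
theorem paramj {δ : ℝ} (hδ : 0 < δ) (hδ' : δ ≤ 1 / 40) :
    ∀ᶠ n : ℕ in atTop, ∃ j : ℕ, 3 ≤ j ∧ 2 * j < 2 * (n / 2) ∧ ¬ j ∣ 2 * (n / 2) ∧
      4 * j + 4 ≤ n ∧ (j : ℝ) ≤ (n : ℝ) ^ (1 - 18 * δ) ∧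
      (n : ℝ) ^ (1 - 18 * δ) / 2 ≤ j := by
  have hcast : Tendsto (fun n : ℕ => (n : ℝ)) atTop atTop := tendsto_natCast_atTop_atTop
  have h1 : ∀ᶠ n : ℕ in atTop, (8 : ℝ) ≤ (n : ℝ) ^ (1 - 18 * δ) :=
    ((tendsto_rpow_atTop (by linarith : 0 < 1 - 18 * δ)).comp hcast).eventually_ge_atTop 8
  have h2 : ∀ᶠ n : ℕ in atTop, (n : ℝ) ^ (-(18 * δ)) ≤ 1 / 8 :=
    ((tendsto_rpow_neg_atTop (by linarith : 0 < 18 * δ)).comp hcast).eventually_le_const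
      (by norm_num : (0 : ℝ) < 1 / 8)
  have h3 : ∀ᶠ n : ℕ in atTop, (4 : ℝ) < (n : ℝ) ^ (1 - 36 * δ) :=
    ((tendsto_rpow_atTop (by linarith : 0 < 1 - 36 * δ)).comp hcast).eventually_gt_atTop 4
  filter_upwards [h1, h2, h3, eventually_ge_atTop 8] with n h1 h2 h3 h4
  have hn : (0 : ℝ) < n := by exact_mod_cast (by omega : 0 < n)
  have hn8 : (8 : ℝ) ≤ n := by exact_mod_cast h4
  set x : ℝ := (n : ℝ) ^ (1 - 18 * δ) with hx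
  have hx1 : x = n * (n : ℝ) ^ (-(18 * δ)) := by
    rw [hx, sub_eq_add_neg, Real.rpow_add hn, Real.rpow_one]
  have hx2 : 4 * x + 4 ≤ n := by
    have h5 : n * (n : ℝ) ^ (-(18 * δ)) ≤ n * (1 / 8) := mul_le_mul_of_nonneg_left h2 hn.le
    rw [hx1]
    linarith
  have hx3 : x * x = n * (n : ℝ) ^ (1 - 36 * δ) := by
    rw [hx, ← Real.rpow_add hn]
    conv_rhs => rw [← Real.rpow_one (n : ℝ), Real.rpow_one (n : ℝ)]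
    have h5 : (1 - 18 * δ) + (1 - 18 * δ) = 1 + (1 - 36 * δ) := by ring
    rw [h5, Real.rpow_add hn, Real.rpow_one]
  have hx4 : 4 * (n : ℝ) < x * x := by
    rw [hx3]
    nlinarith
  have hx0 : 0 ≤ x := by linarith
  have hj1 : (⌊x⌋₊ : ℝ) ≤ x := Nat.floor_le hx0
  have hj2 : x < ⌊x⌋₊ + 1 := Nat.lt_floor_add_one x
  have hj3 : 8 ≤ ⌊x⌋₊ := Nat.le_floor (by exact_mod_cast h1)
  have hkey : ∀ j : ℕ, (j : ℝ) ≤ x → x / 2 ≤ j → 3 ≤ j → ¬ j ∣ 2 * (n / 2) →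
      3 ≤ j ∧ 2 * j < 2 * (n / 2) ∧ ¬ j ∣ 2 * (n / 2) ∧ 4 * j + 4 ≤ n ∧ (j : ℝ) ≤ x ∧ x / 2 ≤ j := by
    intro j h5 h6 h7 h8
    have h9 : 4 * j + 4 ≤ n := by
      have : (4 : ℝ) * j + 4 ≤ n := by linarith
      exact_mod_cast this
    exact ⟨h7, by omega, h8, h9, h5, h6⟩
  by_cases hd : ⌊x⌋₊ ∣ 2 * (n / 2)
  · refine ⟨⌊x⌋₊ - 1, hkey _ ?_ ?_ (by omega) ?_⟩
    · have h5 : ((⌊x⌋₊ - 1 : ℕ) : ℝ) ≤ ⌊x⌋₊ := by exact_mod_cast Nat.sub_le _ _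
      linarith
    · rw [Nat.cast_sub (by omega)]
      push_cast
      linarith
    · intro hd'
      have hco : Nat.Coprime ⌊x⌋₊ (⌊x⌋₊ - 1) := by
        have h5 := Nat.coprime_self_add_right (m := ⌊x⌋₊ - 1) (n := 1)
        have h6 : ⌊x⌋₊ = (⌊x⌋₊ - 1) + 1 := by omega
        conv_lhs => rw [h6]
        exact (Nat.coprime_self_add_left (m := ⌊x⌋₊ - 1) (n := 1)).2 (Nat.coprime_one_left _)
      have h5 : ⌊x⌋₊ * (⌊x⌋₊ - 1) ∣ 2 * (n / 2) := hco.mul_dvd_of_dvd_of_dvd hd hd'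
      have h6 : ⌊x⌋₊ * (⌊x⌋₊ - 1) ≤ 2 * (n / 2) := Nat.le_of_dvd (by omega) h5
      have h7 : ⌊x⌋₊ * (⌊x⌋₊ - 1) ≤ n := h6.trans (Nat.mul_div_le n 2)
      have h8 : (⌊x⌋₊ : ℝ) * ((⌊x⌋₊ : ℝ) - 1) ≤ n := by
        have h9 : ((⌊x⌋₊ * (⌊x⌋₊ - 1) : ℕ) : ℝ) ≤ n := by exact_mod_cast h7
        rw [Nat.cast_mul, Nat.cast_sub (by omega)] at h9
        push_cast at h9
        exact h9
      have h9 : x / 2 ≤ (⌊x⌋₊ : ℝ) - 1 := by linarith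
      have h10 : x / 2 ≤ (⌊x⌋₊ : ℝ) := by linarith
      have h11 : x / 2 * (x / 2) ≤ (⌊x⌋₊ : ℝ) * ((⌊x⌋₊ : ℝ) - 1) :=
        mul_le_mul h10 h9 (by linarith) (by linarith)
      nlinarith
  · exact ⟨⌊x⌋₊, hkey _ hj1 (by linarith) (by omega) hd⟩

end Pool.Agent.RCG
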