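import Mathlib

/-!
# Parameters (pure real analysis, everything for `n → ∞`, `δ ∈ (0, 1/40]` fixed)

`κ = n^(-7δ/6)`, `φ = κ^12 = n^(-14δ)`, `L = N = ⌈n^δ⌉`, `M = ⌊n^(1-17δ)⌋`, `c = n^(1-35δ/2)`, `b0 = ⌊n^(1-15δ)⌋`,
`R0 = ⌊n^(1/2)⌋`, `T = ⌊n^(3/5)⌋`, `j` with `n^(1-18δ)/2 ≤ j ≤ n^(1-18δ)`, `J = ⌈5/(2δ)⌉`, `t = ⌈1/δ⌉`,
`K = ⌈6 (n/j) log n + 1⌉`.
Useful: `n^a = o(exp (n^b))`, `isLittleO_log_rpow_atTop`, `tendsto_rpow_neg_atTop`, `Nat.floor_le`, `Nat.lt_floor_add_one`,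
`Nat.ceil_lt_add_one`.
-/

open Finset Filter Topology

namespace Pool.Agent.RCG

/-- Word lengths. -/
theorem paramLen {δ : ℝ} (hδ : 0 < δ) (hδ' : δ ≤ 1 / 40) :
    ∀ᶠ n : ℕ in atTop, ∀ K : ℕ, (K : ℝ) ≤ (n : ℝ) ^ (19 * δ) →
      ((4 * K * (n * (1 + ⌈5 / (2 * δ)⌉₊ * (⌈(n : ℝ) ^ δ⌉₊ + 1)) +
        2 * (⌈5 / (2 * δ)⌉₊ * ((⌈(n : ℝ) ^ δ⌉₊ + 1) ^ (⌈1 / δ⌉₊ + 1) - 1 + 1))) : ℕ) : ℝ) ≤
        (n : ℝ) ^ (1 + 22 * δ) := by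
  obtain ⟨D, hD⟩ : ∃ D : ℕ, D = ⌈5 / (2 * δ)⌉₊ := ⟨_, rfl⟩
  obtain ⟨t, ht⟩ : ∃ t : ℕ, t = ⌈1 / δ⌉₊ := ⟨_, rfl⟩
  rw [← hD, ← ht]
  have htδ : δ * ((t : ℝ) + 1) ≤ 1 + 2 * δ := by
    have h1 : (t : ℝ) < 1 / δ + 1 := by
      rw [ht]
      exact Nat.ceil_lt_add_one (by positivity)
    have h2 : δ * (1 / δ) = 1 := by field_simp
    nlinarith
  have h1 : Tendsto (fun n : ℕ => (n : ℝ) ^ (1 * δ)) atTop atTop :=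
    (tendsto_rpow_atTop (by positivity)).comp tendsto_natCast_atTop_atTop
  filter_upwards [eventually_ge_atTop 1,
    h1.eventually_ge_atTop (4 * (1 + 3 * (D : ℝ) + 2 * D * 3 ^ (t + 1)))] with n hn hC K hK
  have hx : (1 : ℝ) ≤ n := by exact_mod_cast hn
  have hx0 : (0 : ℝ) < n := by linarith
  obtain ⟨L, hL⟩ : ∃ L : ℕ, L = ⌈(n : ℝ) ^ δ⌉₊ := ⟨_, rfl⟩
  rw [← hL]
  have hxδ : (1 : ℝ) ≤ (n : ℝ) ^ δ := Real.one_le_rpow hx hδ.le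
  have hL1 : (L : ℝ) + 1 ≤ 3 * (n : ℝ) ^ δ := by
    have h2 : (L : ℝ) < (n : ℝ) ^ δ + 1 := by
      rw [hL]
      exact Nat.ceil_lt_add_one (Real.rpow_nonneg hx0.le δ)
    linarith
  have e1 : (L + 1) ^ (t + 1) - 1 + 1 = (L + 1) ^ (t + 1) := by
    have : 1 ≤ (L + 1) ^ (t + 1) := Nat.one_le_pow _ _ (by omega)
    omega
  rw [e1]
  push_cast
  have hP : ((L : ℝ) + 1) ^ (t + 1) ≤ 3 ^ (t + 1) * (n : ℝ) ^ (1 + 2 * δ) := by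
    calc ((L : ℝ) + 1) ^ (t + 1) ≤ (3 * (n : ℝ) ^ δ) ^ (t + 1) :=
          pow_le_pow_left₀ (by positivity) hL1 _
      _ = 3 ^ (t + 1) * (n : ℝ) ^ (δ * ((t : ℝ) + 1)) := by
          rw [mul_pow, ← Real.rpow_natCast ((n : ℝ) ^ δ), ← Real.rpow_mul hx0.le]
          push_cast
          rfl
      _ ≤ 3 ^ (t + 1) * (n : ℝ) ^ (1 + 2 * δ) :=
          mul_le_mul_of_nonneg_left (Real.rpow_le_rpow_of_exponent_le hx htδ) (by positivity)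
  have hX1 : (n : ℝ) * (n : ℝ) ^ δ ≤ (n : ℝ) ^ (1 + 2 * δ) := by
    have : (n : ℝ) * (n : ℝ) ^ δ = (n : ℝ) ^ (1 + δ) := by
      rw [Real.rpow_add hx0, Real.rpow_one]
    rw [this]
    exact Real.rpow_le_rpow_of_exponent_le hx (by linarith)
  have hX2 : (n : ℝ) ≤ (n : ℝ) ^ (1 + 2 * δ) := by
    calc (n : ℝ) = (n : ℝ) ^ (1 : ℝ) := (Real.rpow_one _).symm
      _ ≤ _ := Real.rpow_le_rpow_of_exponent_le hx (by linarith)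
  have hD0 : (0 : ℝ) ≤ D := by positivity
  have hin : (n : ℝ) * (1 + (D : ℝ) * ((L : ℝ) + 1)) + 2 * ((D : ℝ) * ((L : ℝ) + 1) ^ (t + 1)) ≤
      (1 + 3 * (D : ℝ) + 2 * D * 3 ^ (t + 1)) * (n : ℝ) ^ (1 + 2 * δ) := by
    have a1 : (n : ℝ) * ((D : ℝ) * ((L : ℝ) + 1)) ≤ 3 * D * (n : ℝ) ^ (1 + 2 * δ) := by
      calc (n : ℝ) * ((D : ℝ) * ((L : ℝ) + 1)) ≤ (n : ℝ) * ((D : ℝ) * (3 * (n : ℝ) ^ δ)) := by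
            gcongr
        _ = 3 * D * ((n : ℝ) * (n : ℝ) ^ δ) := by ring
        _ ≤ _ := by gcongr
    have a2 : 2 * ((D : ℝ) * ((L : ℝ) + 1) ^ (t + 1)) ≤
        2 * D * 3 ^ (t + 1) * (n : ℝ) ^ (1 + 2 * δ) := by
      calc 2 * ((D : ℝ) * ((L : ℝ) + 1) ^ (t + 1)) ≤
            2 * ((D : ℝ) * (3 ^ (t + 1) * (n : ℝ) ^ (1 + 2 * δ))) := by gcongr
        _ = _ := by ring
    calc (n : ℝ) * (1 + (D : ℝ) * ((L : ℝ) + 1)) + 2 * ((D : ℝ) * ((L : ℝ) + 1) ^ (t + 1))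
        = (n : ℝ) + (n : ℝ) * ((D : ℝ) * ((L : ℝ) + 1)) +
          2 * ((D : ℝ) * ((L : ℝ) + 1) ^ (t + 1)) := by ring
      _ ≤ (n : ℝ) ^ (1 + 2 * δ) + 3 * D * (n : ℝ) ^ (1 + 2 * δ) +
          2 * D * 3 ^ (t + 1) * (n : ℝ) ^ (1 + 2 * δ) := by linarith
      _ = _ := by ring
  calc 4 * (K : ℝ) * ((n : ℝ) * (1 + (D : ℝ) * ((L : ℝ) + 1)) +
        2 * ((D : ℝ) * ((L : ℝ) + 1) ^ (t + 1)))
      ≤ 4 * (n : ℝ) ^ (19 * δ) * ((1 + 3 * (D : ℝ) + 2 * D * 3 ^ (t + 1)) *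
          (n : ℝ) ^ (1 + 2 * δ)) := by
        apply mul_le_mul _ hin (by positivity) (by positivity)
        linarith
    _ = (4 * (1 + 3 * (D : ℝ) + 2 * D * 3 ^ (t + 1))) *
          ((n : ℝ) ^ (19 * δ) * (n : ℝ) ^ (1 + 2 * δ)) := by ring
    _ ≤ (n : ℝ) ^ (1 * δ) * ((n : ℝ) ^ (19 * δ) * (n : ℝ) ^ (1 + 2 * δ)) := by
        gcongr
    _ = (n : ℝ) ^ (1 + 22 * δ) := by
        rw [← Real.rpow_add hx0, ← Real.rpow_add hx0]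
        congr 1
        ring

end Pool.Agent.RCG
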