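import Pool.Agent.W_MP_6acff7_h70.Basic

/-!
# The second moment identity for block words with one-time letters

For `ν(z)` = law of `w (i 0) z 0 w (i 1) z 1 ⋯ w (i (J-1)) z (J-1)` (`i` uniform):
`E_z ‖ρ(ν(z)) u‖² = ⟪u, abar ρ w ^ J u⟫`.

PROOF.  Claim: for every `K : Module.End ℝ E` commuting with all `ρ g`,
`E_z ⟪ρ(ν_J(z)) u, K ρ(ν_J(z)) u⟫ = ⟪u, K (abar ρ w)^J u⟫`.  Induction on `J` (peel off the first
block: `blk w z i = (w (i 0) * z 0) * blk w (Fin.tail z) (Fin.tail i)`, `List.ofFn_succ`;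
`ravg ρ (blk w z ·) = ravg ρ w * ρ (z 0) * ravg ρ (blk w (Fin.tail z) ·)` using
`Fin.consEquiv`/`Fin.insertNthEquiv` to split the sum over `i : Fin (J+1) → ι`; the same for the sum
over `z`).  With `v = ravg ρ (blk w (tail z) ·) u`:
`E_{z 0} ⟪ravg ρ w (ρ (z 0) v), K (ravg ρ w (ρ (z 0) v))⟫
  = E_{z 0} E_{i,i'} ⟪v, ρ (z 0)⁻¹ ρ (w i)⁻¹ K ρ (w i') ρ (z 0) v⟫
  = ⟪v, K E_{i,i'} E_z ρ(z⁻¹ (w i)⁻¹ (w i') z) v⟫ = ⟪v, K (abar ρ w) v⟫`;
the last step symmetrises in `(i, i')`: `∑_{i,i'} ∑_z ρ(z⁻¹ (w i)⁻¹ w i' z)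
 = (1/2) ∑_{i,i'} ∑_z (ρ(z⁻¹ (w i)⁻¹ w i' z) + ρ(z⁻¹ ((w i)⁻¹ w i')⁻¹ z))`.
Then the induction hypothesis is applied with `K (abar ρ w)` (commutes with `ρ` by `abar_comm`).
`J = 0`: `ravg ρ (fun _ => 1) = 1` (index type `Fin 0 → ι` has one element).
-/

open Finset

namespace Pool.Agent.RCG

open scoped BigOperators in
private theorem SecMom_blk_succ {G : Type*} [Group G] {ι : Type*} (w : ι → G) {J : ℕ}
    (z : Fin (J + 1) → G) (i : Fin (J + 1) → ι) :
    blk w z i = w (i 0) * z 0 * blk w (fun k => z k.succ) (fun k => i k.succ) := by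
  simp [blk, List.ofFn_succ]

private theorem SecMom_ravg_apply {G : Type*} [Group G] {E : Type*} [NormedAddCommGroup E]
    [InnerProductSpace ℝ E] (ρ : G →* Module.End ℝ E) {ι : Type*} [Fintype ι] (w : ι → G)
    (u : E) : ravg ρ w u = (Fintype.card ι : ℝ)⁻¹ • ∑ i, ρ (w i) u := by
  simp [ravg, LinearMap.sum_apply]

private theorem SecMom_sum_split {α : Type*} [Fintype α] {M : Type*} [AddCommMonoid M] (J : ℕ)
    (f : (Fin (J + 1) → α) → M) :
    ∑ z : Fin (J + 1) → α, f z = ∑ x : α, ∑ z : Fin J → α, f (Fin.cons x z) := by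
  rw [← Fintype.sum_prod_type']
  exact (Fintype.sum_equiv (Fin.consEquiv fun _ => α) (fun p => f (Fin.cons p.1 p.2)) f
    (fun p => rfl)).symm

private theorem SecMom_ravg_succ {G : Type*} [Group G] {E : Type*} [NormedAddCommGroup E]
    [InnerProductSpace ℝ E] (ρ : G →* Module.End ℝ E) {ι : Type*} [Fintype ι]
    (w : ι → G) (J : ℕ) (x : G) (z : Fin J → G) (u : E) :
    ravg ρ (fun i : Fin (J + 1) → ι => blk w (Fin.cons x z) i) u =
      ravg ρ w (ρ x (ravg ρ (fun i : Fin J → ι => blk w z i) u)) := by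
  rw [SecMom_ravg_apply, SecMom_ravg_apply, SecMom_ravg_apply, SecMom_sum_split]
  have h : ∀ (a : ι) (i : Fin J → ι), ρ (blk w (Fin.cons x z) (Fin.cons a i)) u =
      ρ (w a) (ρ x (ρ (blk w z i) u)) := by
    intro a i
    rw [SecMom_blk_succ]
    simp [map_mul]
  simp only [h, map_smul, map_sum, smul_smul, Finset.smul_sum]
  simp only [Fintype.card_fun, Fintype.card_fin]
  refine Finset.sum_congr rfl fun a _ => Finset.sum_congr rfl fun i _ => ?_
  congr 1
  rw [pow_succ, Nat.cast_mul, mul_inv, mul_comm]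

private theorem SecMom_step {G : Type*} [Group G] [Fintype G] {E : Type*} [NormedAddCommGroup E]
    [InnerProductSpace ℝ E] {ρ : G →* Module.End ℝ E} (hρ : Orth ρ) {ι : Type*} [Fintype ι]
    (w : ι → G) (K : Module.End ℝ E) (hK : ∀ g, K * ρ g = ρ g * K) (v : E) :
    ∑ x : G, inner ℝ (ravg ρ w (ρ x v)) (K (ravg ρ w (ρ x v))) =
      (Fintype.card G : ℝ) * inner ℝ v (K (abar ρ w v)) := by
  have hK' : ∀ (g : G) (y : E), K (ρ g y) = ρ g (K y) := fun g y => by
    have := congrArg (fun T : Module.End ℝ E => T y) (hK g)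
    simpa using this
  have hterm : ∀ (x : G) (i i' : ι), inner ℝ (ρ (w i) (ρ x v)) (K (ρ (w i') (ρ x v))) =
      inner ℝ v (K (ρ (x⁻¹ * ((w i)⁻¹ * w i') * x) v)) := by
    intro x i i'
    have h1 : K (ρ (w i') (ρ x v)) = ρ (w i * x) (K (ρ (x⁻¹ * ((w i)⁻¹ * w i') * x) v)) := by
      have e1 : ρ (w i') (ρ x v) = ρ (w i' * x) v := by rw [map_mul]; rfl
      have e2 : ρ (w i * x) (ρ (x⁻¹ * ((w i)⁻¹ * w i') * x) (K v)) =
          (ρ (w i * x) * ρ (x⁻¹ * ((w i)⁻¹ * w i') * x)) (K v) := rfl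
      rw [e1, hK', hK', e2, ← map_mul]
      congr 2
      group
    have h2 : ρ (w i) (ρ x v) = ρ (w i * x) v := by rw [map_mul]; rfl
    rw [h1, h2, hρ]
  have hL : ∀ x : G, inner ℝ (ravg ρ w (ρ x v)) (K (ravg ρ w (ρ x v))) =
      ((Fintype.card ι : ℝ) ^ 2)⁻¹ * ∑ i, ∑ i',
        inner ℝ v (K (ρ (x⁻¹ * ((w i)⁻¹ * w i') * x) v)) := by
    intro x
    rw [SecMom_ravg_apply, map_smul, real_inner_smul_left, real_inner_smul_right, ← mul_assoc,
      ← mul_inv, ← sq, map_sum, sum_inner]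
    congr 1
    refine Finset.sum_congr rfl fun i _ => ?_
    rw [inner_sum]
    exact Finset.sum_congr rfl fun i' _ => hterm x i i'
  have hc : ∀ (g : G), (Fintype.card G : ℝ) * inner ℝ v (K (cavg ρ g v)) =
      2⁻¹ * ((∑ x : G, inner ℝ v (K (ρ (x⁻¹ * g * x) v))) +
        ∑ x : G, inner ℝ v (K (ρ (x⁻¹ * g⁻¹ * x) v))) := by
    intro g
    have hG : (Fintype.card G : ℝ) ≠ 0 := by
      exact_mod_cast Fintype.card_ne_zero
    have h1 : cavg ρ g v = (2 * (Fintype.card G : ℝ))⁻¹ •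
        ∑ x : G, (ρ (x⁻¹ * g * x) v + ρ (x⁻¹ * g⁻¹ * x) v) := by
      simp [cavg, LinearMap.sum_apply]
    rw [h1, map_smul, real_inner_smul_right, map_sum, inner_sum, ← Finset.sum_add_distrib,
      ← mul_assoc]
    congr 1
    · rw [mul_inv, ← mul_assoc, mul_comm (Fintype.card G : ℝ), mul_assoc, mul_inv_cancel₀ hG,
        mul_one]
    · refine Finset.sum_congr rfl fun x _ => ?_
      rw [map_add, inner_add_right]
  have hR : (Fintype.card G : ℝ) * inner ℝ v (K (abar ρ w v)) =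
      ((Fintype.card ι : ℝ) ^ 2)⁻¹ * ∑ i, ∑ i', ∑ x : G,
        inner ℝ v (K (ρ (x⁻¹ * ((w i)⁻¹ * w i') * x) v)) := by
    have h1 : abar ρ w v = ((Fintype.card ι : ℝ) ^ 2)⁻¹ •
        ∑ i, ∑ i', cavg ρ ((w i)⁻¹ * w i') v := by
      simp [abar, LinearMap.sum_apply]
    rw [h1, map_smul, real_inner_smul_right, ← mul_assoc, mul_comm (Fintype.card G : ℝ),
      mul_assoc, map_sum, inner_sum, Finset.mul_sum]
    congr 1
    have h2 : ∀ i : ι, (Fintype.card G : ℝ) *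
        inner ℝ v (K (∑ i', cavg ρ ((w i)⁻¹ * w i') v)) = ∑ i' : ι,
          2⁻¹ * ((∑ x : G, inner ℝ v (K (ρ (x⁻¹ * ((w i)⁻¹ * w i') * x) v))) +
            ∑ x : G, inner ℝ v (K (ρ (x⁻¹ * ((w i')⁻¹ * w i) * x) v))) := by
      intro i
      rw [map_sum, inner_sum, Finset.mul_sum]
      refine Finset.sum_congr rfl fun i' _ => ?_
      rw [hc, mul_inv_rev, inv_inv]
    rw [Finset.sum_congr rfl fun i _ => h2 i]
    simp only [← Finset.mul_sum, Finset.sum_add_distrib]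
    rw [Finset.sum_comm (f := fun i i' => ∑ x : G,
      inner ℝ v (K (ρ (x⁻¹ * ((w i')⁻¹ * w i) * x) v)))]
    ring
  rw [hR, Finset.sum_congr rfl fun x _ => hL x, ← Finset.mul_sum]
  congr 1
  rw [Finset.sum_comm]
  exact Finset.sum_congr rfl fun i _ => Finset.sum_comm

private theorem SecMom_main {G : Type*} [Group G] [Fintype G] {E : Type*} [NormedAddCommGroup E]
    [InnerProductSpace ℝ E] {ρ : G →* Module.End ℝ E} (hρ : Orth ρ) {ι : Type*} [Fintype ι]
    [Nonempty ι] (w : ι → G) (J : ℕ) : ∀ (K : Module.End ℝ E), (∀ g, K * ρ g = ρ g * K) →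
    ∀ u : E, ∑ z : Fin J → G, inner ℝ (ravg ρ (fun i : Fin J → ι => blk w z i) u)
      (K (ravg ρ (fun i : Fin J → ι => blk w z i) u)) =
      (Fintype.card (Fin J → G) : ℝ) * inner ℝ u (K ((abar ρ w ^ J) u)) := by
  induction J with
  | zero =>
    intro K hK u
    have h1 : ∀ z : Fin 0 → G, ravg ρ (fun i : Fin 0 → ι => blk w z i) u = u := by
      intro z
      rw [SecMom_ravg_apply]
      simp [blk]
    simp [h1]
  | succ J ih =>
    intro K hK u
    have hKA : ∀ g, (K * abar ρ w) * ρ g = ρ g * (K * abar ρ w) := by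
      intro g
      rw [mul_assoc, abar_comm, ← mul_assoc, hK, mul_assoc]
    rw [SecMom_sum_split]
    simp only [SecMom_ravg_succ]
    rw [Finset.sum_comm]
    have h1 := ih (K * abar ρ w) hKA u
    have h2 : ∀ z : Fin J → G, ∑ x : G,
        inner ℝ (ravg ρ w (ρ x (ravg ρ (fun i : Fin J → ι => blk w z i) u)))
          (K (ravg ρ w (ρ x (ravg ρ (fun i : Fin J → ι => blk w z i) u)))) =
        (Fintype.card G : ℝ) * inner ℝ (ravg ρ (fun i : Fin J → ι => blk w z i) u)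
          ((K * abar ρ w) (ravg ρ (fun i : Fin J → ι => blk w z i) u)) := fun z =>
      SecMom_step hρ w K hK _
    rw [Finset.sum_congr rfl fun z _ => h2 z, ← Finset.mul_sum, h1]
    rw [pow_succ', Fintype.card_fun, Fintype.card_fun, Fintype.card_fin, Fintype.card_fin,
      pow_succ']
    push_cast
    simp only [Module.End.mul_apply]
    ring

theorem sec_mom {G : Type*} [Group G] [Fintype G] {E : Type*} [NormedAddCommGroup E]
    [InnerProductSpace ℝ E] {ρ : G →* Module.End ℝ E} (hρ : Orth ρ) {ι : Type*} [Fintype ι]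
    [Nonempty ι] (w : ι → G) (J : ℕ) (u : E) :
    ∑ z : Fin J → G, ‖ravg ρ (fun i : Fin J → ι => blk w z i) u‖ ^ 2 =
      (Fintype.card (Fin J → G) : ℝ) * inner ℝ u ((abar ρ w ^ J) u) := by
  have h := SecMom_main hρ w J 1 (fun g => by rw [one_mul, mul_one]) u
  simp only [Module.End.one_apply, real_inner_self_eq_norm_sq] at h
  exact h

end Pool.Agent.RCG
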