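import Pool.Agent.W_MP_6acff7_h70.Levels
import Pool.Agent.W_MP_6acff7_h70.Trans

/-!
# The filtration on functions of injective `j`-tuples

* `finrank_fixed_tup`: let `|B| = b`, `j + b + 2 ≤ n`.  The pattern of a tuple `s` is the function
  `B → Option (Fin j)`, `p ↦ some k` if `s k = p`, `none` if `p ∉ range s`.  If two tuples `s, s'` have the
  same pattern there is `g : A n` fixing `B` pointwise with `g ∘ s = s'`: indeed the map
  `B ∪ range s → Fin n`, identity on `B`, `s k ↦ s' k`, is well defined and injective, defined on at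
  most `b + j ≤ n - 2` points, so it is the restriction of an element of `A n` (`exists_act`).
  So an `A_B`-fixed function factors through the pattern map, and the space of `A_B`-fixed functions
  has dimension at most `(j + 1) ^ b`.
* `finrank_Fsub_tup`: `Fsub = ⨆_{|B| = b} (A_B-fixed functions)`, at most `n.choose b ≤ n^b` sets `B`,
  and `(j+1)^b ≤ n^b`.
* `Fsub_tup_top`: `EuclideanSpace.single s 1` is fixed by `A_{range s}`, `|range s| = j`.
* `mem_Fsub_zero_perp`: a function fixed by `A_∅ = A n` is constant by transitivity (`exists_act`).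
-/

open Finset

namespace Pool.Agent.RCG

open Classical in
/-- The pattern of a tuple on `B`. -/
noncomputable def TupDim_pat {n j : ℕ} (B : Finset (Fin n)) (s : Fin j ↪ Fin n) (p : B) :
    Option (Fin j) :=
  if h : ∃ k, s k = p.1 then some h.choose else none

theorem TupDim_pat_iff {n j : ℕ} {B : Finset (Fin n)} {s : Fin j ↪ Fin n} {p : B} {k : Fin j} :
    TupDim_pat B s p = some k ↔ s k = p.1 := by
  unfold TupDim_pat
  split_ifs with h
  · rw [Option.some_inj]
    constructor
    · rintro rfl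
      exact h.choose_spec
    · intro hk
      exact s.injective (h.choose_spec.trans hk.symm)
  · constructor
    · intro h1
      exact absurd h1 (by simp)
    · intro h1
      exact (h ⟨k, h1⟩).elim

theorem TupDim_tupRep_apply {n j : ℕ} (g : A n) (u : EuclideanSpace ℝ (Fin j ↪ Fin n))
    (s : Fin j ↪ Fin n) : tupRep n j g u (actT g s) = u s := by
  have h : (tupHom n j g)⁻¹ (actT g s) = s := by
    rw [Equiv.Perm.inv_eq_iff_eq, tupHom_apply]
  rw [tupRep, permRep_apply, h]

theorem TupDim_exists {n j b : ℕ} (hjb : j + b + 2 ≤ n) {B : Finset (Fin n)}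
    (hB : B.card = b) {s s' : Fin j ↪ Fin n} (h : TupDim_pat B s = TupDim_pat B s') :
    ∃ g : A n, (∀ p ∈ B, g.1 p = p) ∧ actT g s = s' := by
  classical
  have hp : ∀ p ∈ B, ∀ k, s k = p ↔ s' k = p := by
    intro p hp k
    have h1 := congrFun h ⟨p, hp⟩
    rw [← TupDim_pat_iff (B := B) (s := s) (p := ⟨p, hp⟩),
      ← TupDim_pat_iff (B := B) (s := s') (p := ⟨p, hp⟩), h1]
  set P : Finset (Fin n) := B ∪ univ.map s with hP
  have hPc : P.card ≤ b + j := by
    refine (Finset.card_union_le _ _).trans ?_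
    rw [hB, Finset.card_map, Finset.card_univ, Fintype.card_fin]
  have hR : ∀ p : P, ∃ q, (p.1 ∈ B ∧ q = p.1) ∨ ∃ k, s k = p.1 ∧ s' k = q := by
    rintro ⟨p, hp'⟩
    rcases Finset.mem_union.1 hp' with h1 | h1
    · exact ⟨p, Or.inl ⟨h1, rfl⟩⟩
    · obtain ⟨k, -, hk⟩ := Finset.mem_map.1 h1
      exact ⟨s' k, Or.inr ⟨k, hk, rfl⟩⟩
  choose f hf using hR
  have hfun : ∀ p : P, ∀ q q', ((p.1 ∈ B ∧ q = p.1) ∨ ∃ k, s k = p.1 ∧ s' k = q) →
      ((p.1 ∈ B ∧ q' = p.1) ∨ ∃ k, s k = p.1 ∧ s' k = q') → q = q' := by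
    rintro p q q' (⟨h1, rfl⟩ | ⟨k, h1, rfl⟩) (⟨h2, rfl⟩ | ⟨l, h2, rfl⟩)
    · rfl
    · exact ((hp _ h1 l).1 h2).symm
    · exact (hp _ h2 k).1 h1
    · have : k = l := s.injective (h1.trans h2.symm)
      rw [this]
  have hinj : Function.Injective f := by
    intro p p' hpp
    have h1 := hf p
    have h2 := hf p'
    rw [← hpp] at h2
    rcases h1 with ⟨h1, h3⟩ | ⟨k, h1, h3⟩ <;> rcases h2 with ⟨h2, h4⟩ | ⟨l, h2, h4⟩
    · exact Subtype.ext (h3.symm.trans h4)
    · refine Subtype.ext ?_
      rw [h3] at h4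
      rw [← h2]
      exact ((hp _ h1 l).2 h4).symm
    · refine Subtype.ext ?_
      rw [h4] at h3
      rw [← h1]
      exact (hp _ h2 k).2 h3
    · have : k = l := s'.injective (h3.trans h4.symm)
      rw [this] at h1
      exact Subtype.ext (h1.symm.trans h2)
  let e := P.equivFin
  let s0 : Fin P.card ↪ Fin n := ⟨fun i => (e.symm i).1, fun a b hab =>
    e.symm.injective (Subtype.ext hab)⟩
  let s1 : Fin P.card ↪ Fin n := ⟨fun i => f (e.symm i), fun a b hab =>
    e.symm.injective (hinj hab)⟩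
  obtain ⟨g, hg⟩ := exists_act (n := n) (b := P.card) (by omega) s0 s1
  have hgf : ∀ p : P, g.1 p.1 = f p := by
    intro p
    have h1 := DFunLike.congr_fun hg (e p)
    rw [actT_apply] at h1
    have h2 : s0 (e p) = p.1 := by
      show (e.symm (e p)).1 = p.1
      rw [Equiv.symm_apply_apply]
    have h3 : s1 (e p) = f p := by
      show f (e.symm (e p)) = f p
      rw [Equiv.symm_apply_apply]
    rw [h2, h3] at h1
    exact h1
  refine ⟨g, fun p hpB => ?_, ?_⟩
  · have hpP : p ∈ P := Finset.mem_union_left _ hpB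
    rw [hgf ⟨p, hpP⟩]
    exact hfun ⟨p, hpP⟩ _ _ (hf ⟨p, hpP⟩) (Or.inl ⟨hpB, rfl⟩)
  · ext k
    have hpP : s k ∈ P := Finset.mem_union_right _ (Finset.mem_map_of_mem s (Finset.mem_univ k))
    rw [actT_apply, hgf ⟨s k, hpP⟩]
    rw [hfun ⟨s k, hpP⟩ _ _ (hf ⟨s k, hpP⟩) (Or.inr ⟨k, rfl, rfl⟩)]

theorem finrank_fixed_tup {n j b : ℕ} (hjb : j + b + 2 ≤ n) (B : Finset (Fin n))
    (hB : B.card = b) (V : Submodule ℝ (EuclideanSpace ℝ (Fin j ↪ Fin n)))
    (hV : ∀ u ∈ V, FixedBy (tupRep n j) B u) :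
    Module.finrank ℝ V ≤ (j + 1) ^ b := by
  classical
  have hne : Nonempty (Fin j ↪ Fin n) := ⟨Fin.castLEEmb (by omega)⟩
  have hfac : ∀ u ∈ V, ∀ s s' : Fin j ↪ Fin n, TupDim_pat B s = TupDim_pat B s' → u s = u s' := by
    intro u hu s s' h
    obtain ⟨g, hg, hgs⟩ := TupDim_exists hjb hB h
    have h1 := TupDim_tupRep_apply g u s
    rw [hV u hu g hg, hgs] at h1
    exact h1.symm
  let Ψ : V →ₗ[ℝ] ((B → Option (Fin j)) → ℝ) :=
    { toFun := fun u π => u.1 (Function.invFun (TupDim_pat B) π)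
      map_add' := fun u v => rfl
      map_smul' := fun c u => rfl }
  have hinj : Function.Injective Ψ := by
    intro u v huv
    refine Subtype.ext ?_
    ext s
    have h1 : TupDim_pat B (Function.invFun (TupDim_pat B) (TupDim_pat B s)) = TupDim_pat B s :=
      Function.invFun_eq ⟨s, rfl⟩
    have h2 := congrFun huv (TupDim_pat B s)
    have h3 : u.1 (Function.invFun (TupDim_pat B) (TupDim_pat B s)) =
        v.1 (Function.invFun (TupDim_pat B) (TupDim_pat B s)) := h2
    rw [hfac u.1 u.2 _ _ h1, hfac v.1 v.2 _ _ h1] at h3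
    exact h3
  refine (LinearMap.finrank_le_finrank_of_injective hinj).trans ?_
  rw [Module.finrank_fintype_fun_eq_card, Fintype.card_fun, Fintype.card_option, Fintype.card_fin,
    Fintype.card_coe, hB]

/-- The subspace of the vectors fixed by `A_B`. -/
def TupDim_fix {n : ℕ} {E : Type*} [NormedAddCommGroup E] [InnerProductSpace ℝ E]
    (ρ : A n →* Module.End ℝ E) (B : Finset (Fin n)) : Submodule ℝ E where
  carrier := {u | FixedBy ρ B u}
  zero_mem' := fun g _ => map_zero _
  add_mem' := by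
    intro u v hu hv g hg
    rw [map_add, hu g hg, hv g hg]
  smul_mem' := by
    intro c u hu g hg
    rw [map_smul, hu g hg]

theorem TupDim_sup {n : ℕ} {E : Type*} [NormedAddCommGroup E] [InnerProductSpace ℝ E]
    [FiniteDimensional ℝ E] (V : Finset (Fin n) → Submodule ℝ E) (c : ℕ)
    (S : Finset (Finset (Fin n))) (hc : ∀ B ∈ S, Module.finrank ℝ (V B) ≤ c) :
    Module.finrank ℝ (S.sup V : Submodule ℝ E) ≤ S.card * c := by
  classical
  induction S using Finset.induction_on with
  | empty => simp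
  | insert B S hB ih =>
    rw [Finset.sup_insert, Finset.card_insert_of_notMem hB]
    have h1 := Submodule.finrank_add_le_finrank_add_finrank (V B) (S.sup V)
    have h2 := ih fun B' hB' => hc B' (Finset.mem_insert_of_mem hB')
    have h3 := hc B (Finset.mem_insert_self _ _)
    calc _ ≤ Module.finrank ℝ (V B) + Module.finrank ℝ (S.sup V : Submodule ℝ E) := h1
      _ ≤ c + S.card * c := Nat.add_le_add h3 h2
      _ = (S.card + 1) * c := by ring

theorem finrank_Fsub_tup {n j b : ℕ} (hjb : j + b + 2 ≤ n) :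
    Module.finrank ℝ (Fsub (tupRep n j) b) ≤ n ^ (2 * b) := by
  classical
  have h1 : Fsub (tupRep n j) b ≤
      (Finset.powersetCard b (univ : Finset (Fin n))).sup (TupDim_fix (tupRep n j)) := by
    refine Submodule.span_le.2 ?_
    rintro u ⟨B, hB, hu⟩
    have h2 : TupDim_fix (tupRep n j) B ≤
        (Finset.powersetCard b (univ : Finset (Fin n))).sup (TupDim_fix (tupRep n j)) :=
      Finset.le_sup (Finset.mem_powersetCard.2 ⟨Finset.subset_univ _, hB⟩)
    exact h2 hu
  have h3 := TupDim_sup (TupDim_fix (tupRep n j)) ((j + 1) ^ b)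
    (Finset.powersetCard b (univ : Finset (Fin n))) (fun B hB =>
      finrank_fixed_tup hjb B (Finset.mem_powersetCard.1 hB).2 _ fun u hu => hu)
  refine (Submodule.finrank_mono h1).trans (h3.trans ?_)
  rw [Finset.card_powersetCard, Finset.card_univ, Fintype.card_fin, two_mul, pow_add]
  exact Nat.mul_le_mul (Nat.choose_le_pow n b) (Nat.pow_le_pow_left (by omega) b)

theorem Fsub_tup_top {n j : ℕ} : Fsub (tupRep n j) j = ⊤ := by
  classical
  rw [eq_top_iff]
  have h1 : (⊤ : Submodule ℝ (EuclideanSpace ℝ (Fin j ↪ Fin n))) =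
      Submodule.span ℝ (Set.range fun s : Fin j ↪ Fin n => EuclideanSpace.single s (1 : ℝ)) := by
    have h2 := (EuclideanSpace.basisFun (Fin j ↪ Fin n) ℝ).toBasis.span_eq
    rw [← h2]
    congr 1
    ext v
    simp
  rw [h1]
  refine Submodule.span_mono ?_
  rintro _ ⟨s, rfl⟩
  refine ⟨univ.map s, by rw [Finset.card_map, Finset.card_univ, Fintype.card_fin], ?_⟩
  intro g hg
  have hgs : actT g s = s := by
    ext k
    rw [actT_apply]
    rw [hg (s k) (Finset.mem_map_of_mem s (Finset.mem_univ k))]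
  ext t
  rw [tupRep, permRep_apply]
  simp only [PiLp.single_apply]
  have h3 : (tupHom n j g)⁻¹ t = s ↔ t = s := by
    rw [Equiv.Perm.inv_eq_iff_eq, tupHom_apply, hgs]
  simp only [h3]

theorem mem_Fsub_zero_perp {n j : ℕ} (hj : j + 2 ≤ n)
    (u : EuclideanSpace ℝ (Fin j ↪ Fin n)) (hu : ∑ s, u s = 0) :
    u ∈ (Fsub (tupRep n j) 0)ᗮ := by
  classical
  have h1 : Fsub (tupRep n j) 0 ≤ (Submodule.span ℝ {u})ᗮ := by
    refine Submodule.span_le.2 ?_
    rintro v ⟨B, hB, hv⟩
    have hB0 : B = ∅ := Finset.card_eq_zero.1 hB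
    subst hB0
    have hconst : ∀ s t : Fin j ↪ Fin n, v s = v t := by
      intro s t
      obtain ⟨g, hg⟩ := exists_act hj s t
      have h2 := TupDim_tupRep_apply g v s
      rw [hv g (fun p hp => absurd hp (Finset.notMem_empty p)), hg] at h2
      exact h2.symm
    rw [SetLike.mem_coe, Submodule.mem_orthogonal_singleton_iff_inner_right]
    rw [PiLp.inner_apply]
    by_cases hne : Nonempty (Fin j ↪ Fin n)
    · obtain ⟨s0⟩ := hne
      have h3 : ∀ s, inner ℝ (u s) (v s) = v s0 * u s := by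
        intro s
        rw [hconst s s0]
        rfl
      simp only [h3]
      rw [← Finset.mul_sum, hu, mul_zero]
    · have : IsEmpty (Fin j ↪ Fin n) := not_nonempty_iff.1 hne
      simp
  rw [Submodule.mem_orthogonal]
  intro v hv
  have h2 := h1 hv
  rw [Submodule.mem_orthogonal_singleton_iff_inner_right] at h2
  rw [real_inner_comm]
  exact h2

end Pool.Agent.RCG
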