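import Pool.Agent.W_MP_6acff7_h70.NormLevel
import Pool.Agent.W_MP_6acff7_h70.TupDim
import Pool.Agent.W_MP_6acff7_h70.SecMom

/-!
# Tuple control

`X = Fin j ↪ Fin n`, `E = EuclideanSpace ℝ X`, `ρ = tupRep n j`, `δ_s = EuclideanSpace.single s 1`,
`ρ g δ_s = δ_{g ∘ s}`; `F_b = Fsub ρ b`, `F_0 ≤ F_1 ≤ ... ≤ F_j = ⊤`, `L_b = F_b ⊓ F_{b-1}ᗮ`.

PROOF of `tuple_control`.
(1) `‖abar ρ w u‖ ≤ (beta φ w + (6κ)^b) ‖u‖` for `u ∈ L_b` (`abar_level`): `abar` is the average of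
    `cavg ρ ((w i)⁻¹ w i')`; for a proportion `beta φ w` of the pairs use `cavg_norm_le`, for the others
    `fixN ≤ φ n ≤ κ^12 n` and `norm_level`.
    `abar` preserves `L_b`, so `‖abar^J u‖ ≤ θ_b^J ‖u‖` there.
(2) Let `u_s = δ_s - 1/|X|` (all-ones function divided by `|X|`); `∑_x u_s x = 0`, so
    `u_s ∈ F_0ᗮ` (`mem_Fsub_zero_perp`).
    `ravg ρ (blk w z ·) δ_s` is the function `c ↦ #{i | blk w z i ∘ s = c}/#(Fin J → ι)`, and `ravg ρ _`
    fixes constants.  For every unreachable `c` the value of `ravg ρ (blk w z ·) u_s` at `c` is `-1/|X|`.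
    So `#unreachable(z) ≤ |X|² ‖ravg ρ (blk w z ·) u_s‖²`, and by `sec_mom` the average over `z` is at most
    `|X|² ⟪u_s, abar^J u_s⟫`.
(3) `⟪u_s, abar^J u_s⟫` does not depend on `s`: `u_{g∘s} = ρ g u_s`, `abar^J` commutes with `ρ g`,
    `Orth`, and `exists_act`.  So it equals `(1/|X|) ∑_s ⟪u_s, abar^J u_s⟫`.
(4) `∑_s ⟪u_s, abar^J u_s⟫ ≤ ∑_{b=1}^j θ_b^J finrank L_b`: decompose `u_s = ∑_{b=1}^j Q_b δ_s` with `Q_b` the
    orthogonal projection onto `L_b` (`F_j = ⊤` is the orthogonal sum of `F_0, L_1, ..., L_j`); `abar^J`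
    preserves `L_b`, so `⟪u_s, abar^J u_s⟫ = ∑_b ⟪Q_b δ_s, abar^J Q_b δ_s⟫ ≤ ∑_b θ_b^J ‖Q_b δ_s‖²`, and
    `∑_s ‖Q_b δ_s‖² = finrank L_b` (orthonormal basis `δ_s`, `proj_sum`), `≤ finrank F_b ≤ n^(2b)`.
-/

open Finset

namespace Pool.Agent.RCG

/-- The trace of an orthogonal projection, computed in an orthonormal basis. -/
theorem proj_sum {E : Type*} [NormedAddCommGroup E] [InnerProductSpace ℝ E]
    [FiniteDimensional ℝ E] {X : Type*} [Fintype X] (e : OrthonormalBasis X ℝ E)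
    (L : Submodule ℝ E) : ∑ x, ‖L.starProjection (e x)‖ ^ 2 = Module.finrank ℝ L := by
  classical
  let f := stdOrthonormalBasis ℝ L
  have h1 : ∀ x, ‖L.starProjection (e x)‖ ^ 2 = ∑ i, ‖inner ℝ ((f i : L) : E) (e x)‖ ^ 2 := by
    intro x
    have h2 := f.sum_sq_norm_inner_right (L.orthogonalProjectionOnto (e x))
    have h3 : ‖L.starProjection (e x)‖ = ‖L.orthogonalProjectionOnto (e x)‖ := rfl
    rw [h3, ← h2]
    refine Finset.sum_congr rfl fun i _ => ?_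
    have h4 : inner ℝ (f i) (L.orthogonalProjectionOnto (e x)) =
        inner ℝ ((f i : L) : E) (e x) := by
      have h5 : inner ℝ (f i) (L.orthogonalProjectionOnto (e x)) =
        inner ℝ ((f i : L) : E) (L.starProjection (e x)) := rfl
      rw [h5]
      have h6 := L.starProjection_inner_eq_zero (e x) (f i : E) (f i).2
      rw [real_inner_comm, inner_sub_right] at h6
      linarith
    rw [h4]
  rw [Finset.sum_congr rfl fun x _ => h1 x, Finset.sum_comm]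
  have h7 : ∀ i, ∑ x, ‖inner ℝ ((f i : L) : E) (e x)‖ ^ 2 = 1 := by
    intro i
    rw [e.sum_sq_norm_inner_left]
    have h8 : ‖((f i : L) : E)‖ = ‖f i‖ := rfl
    rw [h8, f.norm_eq_one]
    norm_num
  rw [Finset.sum_congr rfl fun i _ => h7 i]
  simp

theorem abar_level {n : ℕ} {E : Type*} [NormedAddCommGroup E] [InnerProductSpace ℝ E]
    [FiniteDimensional ℝ E] {ρ : A n →* Module.End ℝ E} (hρ : Orth ρ) {b : ℕ} (hb : 1 ≤ b)
    (hn : 4 * b + 4 ≤ n) (κ φ : ℝ) (hκ0 : 0 < κ) (hκ1 : κ ≤ 1) (hφ : φ ≤ κ ^ 12)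
    (h4 : 4 * (b : ℝ) ≤ κ ^ 12 * n) {ι : Type*} [Fintype ι] [Nonempty ι] (w : ι → A n) (u : E)
    (hu : u ∈ Fsub ρ b) (hu' : u ∈ (Fsub ρ (b - 1))ᗮ) :
    ‖abar ρ w u‖ ≤ (beta φ w + (6 * κ) ^ b) * ‖u‖ := by
  classical
  have hc : (0 : ℝ) < Fintype.card ι := by exact_mod_cast Fintype.card_pos
  have h1 : abar ρ w u = ((Fintype.card ι : ℝ) ^ 2)⁻¹ •
      ∑ q : ι × ι, cavg ρ ((w q.1)⁻¹ * w q.2) u := by
    rw [Fintype.sum_prod_type]
    simp [abar, LinearMap.smul_apply, LinearMap.sum_apply]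
  have h2 : ∀ q : ι × ι, ‖cavg ρ ((w q.1)⁻¹ * w q.2) u‖ ≤
      ((if φ * n < (fixN ((w q.1)⁻¹ * w q.2).1 : ℝ) then 1 else 0) + (6 * κ) ^ b) * ‖u‖ := by
    intro q
    split_ifs with hq
    · refine (cavg_norm_le hρ _ u).trans ?_
      have : (0 : ℝ) ≤ (6 * κ) ^ b := by positivity
      nlinarith [norm_nonneg u]
    · rw [zero_add]
      refine norm_level hρ hb hn _ κ hκ0 hκ1 h4 ?_ u hu hu'
      push Not at hq
      refine hq.trans ?_
      exact mul_le_mul_of_nonneg_right hφ (Nat.cast_nonneg n)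
  have h3 : ‖∑ q : ι × ι, cavg ρ ((w q.1)⁻¹ * w q.2) u‖ ≤
      (((univ.filter fun q : ι × ι => φ * n < (fixN ((w q.1)⁻¹ * w q.2).1 : ℝ)).card : ℝ) +
        (Fintype.card ι : ℝ) ^ 2 * (6 * κ) ^ b) * ‖u‖ := by
    refine (norm_sum_le _ _).trans ((Finset.sum_le_sum fun q _ => h2 q).trans ?_)
    rw [← Finset.sum_mul, Finset.sum_add_distrib]
    refine mul_le_mul_of_nonneg_right (le_of_eq ?_) (norm_nonneg u)
    congr 1
    · rw [Finset.sum_boole]
    · simp [sq]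
  rw [h1, norm_smul, Real.norm_of_nonneg (by positivity)]
  refine (mul_le_mul_of_nonneg_left h3 (by positivity)).trans (le_of_eq ?_)
  rw [beta]
  field_simp

/-- Invariant subspaces are preserved by class averages. -/
theorem TupleCtl_cavg_mem {n : ℕ} {E : Type*} [NormedAddCommGroup E] [InnerProductSpace ℝ E]
    {ρ : A n →* Module.End ℝ E} (V : Submodule ℝ E) (hV : ∀ g : A n, ∀ u ∈ V, ρ g u ∈ V)
    (g : A n) (u : E) (hu : u ∈ V) : cavg ρ g u ∈ V := by
  have h1 : cavg ρ g u = (2 * (Fintype.card (A n) : ℝ))⁻¹ •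
      ∑ z : A n, (ρ (z⁻¹ * g * z) u + ρ (z⁻¹ * g⁻¹ * z) u) := by
    simp [cavg, LinearMap.smul_apply, LinearMap.sum_apply]
  rw [h1]
  exact V.smul_mem _ (V.sum_mem fun z _ => V.add_mem (hV _ _ hu) (hV _ _ hu))

/-- Invariant subspaces are preserved by `abar`. -/
theorem TupleCtl_abar_mem {n : ℕ} {E : Type*} [NormedAddCommGroup E] [InnerProductSpace ℝ E]
    {ρ : A n →* Module.End ℝ E} (V : Submodule ℝ E) (hV : ∀ g : A n, ∀ u ∈ V, ρ g u ∈ V)
    {ι : Type*} [Fintype ι] (w : ι → A n) (u : E) (hu : u ∈ V) : abar ρ w u ∈ V := by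
  have h1 : abar ρ w u = ((Fintype.card ι : ℝ) ^ 2)⁻¹ •
      ∑ i, ∑ i', cavg ρ ((w i)⁻¹ * w i') u := by
    simp [abar, LinearMap.smul_apply, LinearMap.sum_apply]
  rw [h1]
  exact V.smul_mem _ (V.sum_mem fun z _ => V.sum_mem fun z' _ => TupleCtl_cavg_mem V hV _ _ hu)

/-- Powers of `abar` preserve invariant subspaces. -/
theorem TupleCtl_pow_mem {E : Type*} [NormedAddCommGroup E] [InnerProductSpace ℝ E]
    (T : Module.End ℝ E) (V : Submodule ℝ E) (hV : ∀ u ∈ V, T u ∈ V) (J : ℕ) (u : E)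
    (hu : u ∈ V) : (T ^ J) u ∈ V := by
  induction J with
  | zero => simpa using hu
  | succ J ih => rw [pow_succ', Module.End.mul_apply]; exact hV _ ih

/-- Norm of powers on an invariant subspace. -/
theorem TupleCtl_pow_norm {E : Type*} [NormedAddCommGroup E] [InnerProductSpace ℝ E]
    (T : Module.End ℝ E) (V : Submodule ℝ E) (hV : ∀ u ∈ V, T u ∈ V) (θ : ℝ) (hθ : 0 ≤ θ)
    (hT : ∀ u ∈ V, ‖T u‖ ≤ θ * ‖u‖) (J : ℕ) (u : E)
    (hu : u ∈ V) : ‖(T ^ J) u‖ ≤ θ ^ J * ‖u‖ := by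
  induction J with
  | zero => simp
  | succ J ih =>
    rw [pow_succ', Module.End.mul_apply]
    refine (hT _ (TupleCtl_pow_mem T V hV J u hu)).trans ?_
    rw [pow_succ']
    calc θ * ‖(T ^ J) u‖ ≤ θ * (θ ^ J * ‖u‖) := mul_le_mul_of_nonneg_left ih hθ
      _ = θ * θ ^ J * ‖u‖ := by ring

/-- Difference of two nested projections. -/
theorem TupleCtl_proj_sub {E : Type*} [NormedAddCommGroup E] [InnerProductSpace ℝ E]
    [FiniteDimensional ℝ E] (K H : Submodule ℝ E) (hKH : K ≤ H) (u : E) :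
    (H ⊓ Kᗮ).starProjection u = H.starProjection u - K.starProjection u := by
  refine Submodule.eq_starProjection_of_mem_of_inner_eq_zero ?_ ?_
  · refine Submodule.mem_inf.mpr ⟨H.sub_mem (H.starProjection_apply_mem u)
      (hKH (K.starProjection_apply_mem u)), ?_⟩
    rw [Submodule.mem_orthogonal']
    intro k hk
    have h1 := K.starProjection_inner_eq_zero u k hk
    have h2 := H.starProjection_inner_eq_zero u k (hKH hk)
    rw [inner_sub_left] at h1 h2 ⊢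
    linarith
  · intro l hl
    obtain ⟨h1, h2⟩ := Submodule.mem_inf.mp hl
    have h3 := H.starProjection_inner_eq_zero u l h1
    rw [Submodule.mem_orthogonal] at h2
    have h4 := h2 _ (K.starProjection_apply_mem u)
    rw [inner_sub_left] at h3 ⊢
    rw [inner_sub_left]
    linarith

theorem TupleCtl_step {E : Type*} [NormedAddCommGroup E] [InnerProductSpace ℝ E]
    [FiniteDimensional ℝ E] (T : Module.End ℝ E) (K H : Submodule ℝ E)
    (hKH : K ≤ H) (hK : ∀ u ∈ K, T u ∈ K) (hK' : ∀ u ∈ Kᗮ, T u ∈ Kᗮ)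
    (c : ℝ) (hc : ∀ v ∈ H ⊓ Kᗮ, ‖T v‖ ≤ c * ‖v‖) (u : E) :
    inner ℝ (H.starProjection u) (T (H.starProjection u)) ≤
      inner ℝ (K.starProjection u) (T (K.starProjection u)) +
        c * ‖(H ⊓ Kᗮ).starProjection u‖ ^ 2 := by
  set v := (H ⊓ Kᗮ).starProjection u with hv
  set k := K.starProjection u with hk
  have hvm : v ∈ H ⊓ Kᗮ := Submodule.starProjection_apply_mem _ _
  have hkm : k ∈ K := Submodule.starProjection_apply_mem _ _
  have h1 : H.starProjection u = k + v := by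
    rw [hv, TupleCtl_proj_sub K H hKH u, hk]; abel
  have h2 : inner ℝ k (T v) = 0 :=
    (Submodule.mem_orthogonal _ _).mp (hK' v (Submodule.mem_inf.mp hvm).2) k hkm
  have h3 : inner ℝ v (T k) = 0 := by
    rw [real_inner_comm]
    exact (Submodule.mem_orthogonal _ _).mp (Submodule.mem_inf.mp hvm).2 _ (hK k hkm)
  have h4 : inner ℝ v (T v) ≤ c * ‖v‖ ^ 2 := by
    refine (real_inner_le_norm _ _).trans ?_
    have := hc v hvm
    nlinarith [norm_nonneg v]
  rw [h1, map_add, inner_add_left, inner_add_right, inner_add_right, h2, h3]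
  linarith

theorem TupleCtl_invmem {n j : ℕ} (b : ℕ) (g : A n) (u : EuclideanSpace ℝ (Fin j ↪ Fin n))
    (hu : u ∈ Fsub (tupRep n j) b) : tupRep n j g u ∈ Fsub (tupRep n j) b :=
  Fsub_inv _ b g u hu

theorem TupleCtl_orth (n j : ℕ) : Orth (tupRep n j) := permRep_orth _

/-- Delta function minus its mean. -/
noncomputable def TupleCtl_us {n j : ℕ} (s : Fin j ↪ Fin n) :
    EuclideanSpace ℝ (Fin j ↪ Fin n) :=
  EuclideanSpace.single s 1 -
    (Fintype.card (Fin j ↪ Fin n) : ℝ)⁻¹ • WithLp.toLp 2 (fun _ => (1 : ℝ))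

theorem TupleCtl_us_apply {n j : ℕ} (s c : Fin j ↪ Fin n) :
    TupleCtl_us s c = (if c = s then 1 else 0) - (Fintype.card (Fin j ↪ Fin n) : ℝ)⁻¹ := by
  simp [TupleCtl_us, PiLp.sub_apply, PiLp.smul_apply]

theorem TupleCtl_us_sum {n j : ℕ} (s : Fin j ↪ Fin n) : ∑ c, TupleCtl_us s c = 0 := by
  simp only [TupleCtl_us_apply]
  rw [Finset.sum_sub_distrib]
  have : (Fintype.card (Fin j ↪ Fin n) : ℝ) ≠ 0 := by
    have : Nonempty (Fin j ↪ Fin n) := ⟨s⟩
    exact_mod_cast Fintype.card_ne_zero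
  rw [Finset.sum_const, Finset.card_univ, nsmul_eq_mul, mul_inv_cancel₀ this]
  simp

theorem TupleCtl_us_map {n j : ℕ} (s : Fin j ↪ Fin n) (g : A n) :
    tupRep n j g (TupleCtl_us s) = TupleCtl_us (actT g s) := by
  ext c
  rw [tupRep, permRep_apply, TupleCtl_us_apply, TupleCtl_us_apply]
  congr 1
  have h : (tupHom n j g)⁻¹ c = s ↔ c = actT g s := by
    rw [Equiv.Perm.inv_eq_iff_eq, tupHom_apply]
  by_cases h1 : c = actT g s
  · rw [if_pos h1, if_pos (h.mpr h1)]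
  · rw [if_neg h1, if_neg (fun h2 => h1 (h.mp h2))]

/-- The constants lie in `Fsub _ 0`. -/
theorem TupleCtl_const_mem {n j : ℕ} :
    (WithLp.toLp 2 (fun _ => (1 : ℝ)) : EuclideanSpace ℝ (Fin j ↪ Fin n)) ∈
      Fsub (tupRep n j) 0 := by
  refine Submodule.subset_span ⟨∅, by simp, ?_⟩
  intro g _
  ext c
  rw [tupRep, permRep_apply]

theorem TupleCtl_proj_us {n j b : ℕ} (hb : 1 ≤ b) (hbn : b ≤ n) (s : Fin j ↪ Fin n) :
    (Fsub (tupRep n j) b ⊓ (Fsub (tupRep n j) (b - 1))ᗮ).starProjection (TupleCtl_us s) =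
    (Fsub (tupRep n j) b ⊓ (Fsub (tupRep n j) (b - 1))ᗮ).starProjection
      (EuclideanSpace.single s 1) := by
  rw [TupleCtl_us, map_sub, map_smul, TupleCtl_proj_sub _ _ (Fsub_mono _ (Nat.sub_le b 1) hbn)
    (WithLp.toLp 2 (fun _ => (1 : ℝ)))]
  have h0 : (WithLp.toLp 2 (fun _ => (1 : ℝ)) : EuclideanSpace ℝ (Fin j ↪ Fin n)) ∈
      Fsub (tupRep n j) (b - 1) := Fsub_mono _ (Nat.zero_le _) (by omega) TupleCtl_const_mem
  have h1 : (WithLp.toLp 2 (fun _ => (1 : ℝ)) : EuclideanSpace ℝ (Fin j ↪ Fin n)) ∈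
      Fsub (tupRep n j) b := Fsub_mono _ (Nat.zero_le _) hbn TupleCtl_const_mem
  rw [Submodule.starProjection_eq_self_iff.mpr h0, Submodule.starProjection_eq_self_iff.mpr h1]
  simp

/-- Bound for one vector. -/
theorem TupleCtl_vec {n j J : ℕ} {ι : Type*} [Fintype ι] [Nonempty ι] (w : ι → A n)
    (κ φ : ℝ) (hκ0 : 0 < κ) (hκ1 : κ ≤ 1) (hφ : φ ≤ κ ^ 12) (hj : 1 ≤ j)
    (hn : 4 * j + 4 ≤ n) (h4 : 4 * (j : ℝ) ≤ κ ^ 12 * n) (s : Fin j ↪ Fin n) :
    inner ℝ (TupleCtl_us s) ((abar (tupRep n j) w ^ J) (TupleCtl_us s)) ≤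
      ∑ b ∈ Icc 1 j, (beta φ w + (6 * κ) ^ b) ^ J *
        ‖(Fsub (tupRep n j) b ⊓ (Fsub (tupRep n j) (b - 1))ᗮ).starProjection
          (EuclideanSpace.single s (1 : ℝ))‖ ^ 2 := by
  have hbeta : 0 ≤ beta φ w := by rw [beta]; positivity
  set T := abar (tupRep n j) w ^ J with hT
  have key : ∀ b : ℕ, b ≤ j →
      inner ℝ ((Fsub (tupRep n j) b).starProjection (TupleCtl_us s))
        (T ((Fsub (tupRep n j) b).starProjection (TupleCtl_us s))) ≤
      ∑ b ∈ Icc 1 b, (beta φ w + (6 * κ) ^ b) ^ J *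
        ‖(Fsub (tupRep n j) b ⊓ (Fsub (tupRep n j) (b - 1))ᗮ).starProjection
          (EuclideanSpace.single s (1 : ℝ))‖ ^ 2 := by
    intro b
    induction b with
    | zero =>
      intro _
      have h1 : (Fsub (tupRep n j) 0).starProjection (TupleCtl_us s) = 0 :=
        Submodule.eq_starProjection_of_mem_orthogonal (Submodule.zero_mem _) (by
          rw [sub_zero]; exact mem_Fsub_zero_perp (by omega) _ (TupleCtl_us_sum s))
      rw [h1]
      simp
    | succ b ih =>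
      intro hb
      have h1 := ih (by omega)
      have hmono : Fsub (tupRep n j) b ≤ Fsub (tupRep n j) (b + 1) :=
        Fsub_mono _ (Nat.le_succ b) (by omega)
      have hperp : ∀ u ∈ (Fsub (tupRep n j) b)ᗮ, abar (tupRep n j) w u ∈
          (Fsub (tupRep n j) b)ᗮ := fun u hu =>
        TupleCtl_abar_mem _ (fun g u hu => perp_inv (TupleCtl_orth n j) _
          (TupleCtl_invmem b) g u hu) w u hu
      have hin : ∀ c : ℕ, ∀ u ∈ Fsub (tupRep n j) c, abar (tupRep n j) w u ∈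
          Fsub (tupRep n j) c := fun c u hu =>
        TupleCtl_abar_mem _ (fun g u hu => TupleCtl_invmem c g u hu) w u hu
      have h2 := TupleCtl_step T (Fsub (tupRep n j) b) (Fsub (tupRep n j) (b + 1)) hmono
        (TupleCtl_pow_mem _ _ (hin b) J) (TupleCtl_pow_mem _ _ hperp J)
        ((beta φ w + (6 * κ) ^ (b + 1)) ^ J) (by
          intro v hv
          refine TupleCtl_pow_norm (abar (tupRep n j) w)
            (Fsub (tupRep n j) (b + 1) ⊓ (Fsub (tupRep n j) b)ᗮ) ?_ _ (by positivity) ?_ J v hv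
          · intro u hu
            obtain ⟨hu1, hu2⟩ := Submodule.mem_inf.mp hu
            exact Submodule.mem_inf.mpr ⟨hin _ _ hu1, hperp _ hu2⟩
          · intro u hu
            obtain ⟨hu1, hu2⟩ := Submodule.mem_inf.mp hu
            refine abar_level (TupleCtl_orth n j) (by omega) (by omega) κ φ hκ0 hκ1 hφ ?_ w u
              hu1 (by simpa using hu2)
            refine le_trans ?_ h4
            have : ((b + 1 : ℕ) : ℝ) ≤ (j : ℝ) := by exact_mod_cast hb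
            linarith) (TupleCtl_us s)
      have h3 := TupleCtl_proj_us (n := n) (j := j) (b := b + 1) (by omega) (by omega) s
      rw [Nat.add_sub_cancel] at h3
      rw [h3] at h2
      rw [Finset.sum_Icc_succ_top (by omega), Nat.add_sub_cancel]
      linarith
  have h5 := key j le_rfl
  have h6 : (Fsub (tupRep n j) j).starProjection (TupleCtl_us s) = TupleCtl_us s :=
    Submodule.starProjection_eq_self_iff.mpr (by rw [Fsub_tup_top]; trivial)
  rwa [h6] at h5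

/-- Independence of the base tuple. -/
theorem TupleCtl_indep {n j J : ℕ} {ι : Type*} [Fintype ι] (w : ι → A n)
    (hj : j + 2 ≤ n) (s t : Fin j ↪ Fin n) :
    inner ℝ (TupleCtl_us t) ((abar (tupRep n j) w ^ J) (TupleCtl_us t)) =
      inner ℝ (TupleCtl_us s) ((abar (tupRep n j) w ^ J) (TupleCtl_us s)) := by
  obtain ⟨g, rfl⟩ := exists_act hj s t
  rw [← TupleCtl_us_map]
  have h1 : Commute (abar (tupRep n j) w ^ J) (tupRep n j g) :=
    Commute.pow_left (abar_comm (tupRep n j) w g) J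
  have h2 : (abar (tupRep n j) w ^ J) (tupRep n j g (TupleCtl_us s)) =
      tupRep n j g ((abar (tupRep n j) w ^ J) (TupleCtl_us s)) := by
    rw [← Module.End.mul_apply, h1.eq, Module.End.mul_apply]
  rw [h2, TupleCtl_orth n j]

/-- Unreachable tuples are bounded by the norm of the averaged vector. -/
theorem TupleCtl_unreach {n j : ℕ} {I : Type*} [Fintype I] [Nonempty I] (v : I → A n)
    (s : Fin j ↪ Fin n) :
    ((univ.filter fun c : Fin j ↪ Fin n => ∀ i : I, actT (v i) s ≠ c).card : ℝ) ≤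
      (Fintype.card (Fin j ↪ Fin n) : ℝ) ^ 2 *
        ‖ravg (tupRep n j) v (TupleCtl_us s)‖ ^ 2 := by
  classical
  have hN : (0 : ℝ) < Fintype.card (Fin j ↪ Fin n) := by
    have : Nonempty (Fin j ↪ Fin n) := ⟨s⟩
    exact_mod_cast Fintype.card_pos
  have hI : (0 : ℝ) < Fintype.card I := by exact_mod_cast Fintype.card_pos
  have h1 : ∀ c : Fin j ↪ Fin n, (∀ i : I, actT (v i) s ≠ c) →
      ravg (tupRep n j) v (TupleCtl_us s) c = -(Fintype.card (Fin j ↪ Fin n) : ℝ)⁻¹ := by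
    intro c hc
    have h2 : ravg (tupRep n j) v (TupleCtl_us s) =
        (Fintype.card I : ℝ)⁻¹ • ∑ i, TupleCtl_us (actT (v i) s) := by
      simp [ravg, LinearMap.smul_apply, LinearMap.sum_apply, TupleCtl_us_map]
    rw [h2, PiLp.smul_apply]
    have h3 : (∑ i, TupleCtl_us (actT (v i) s)) c = ∑ i, TupleCtl_us (actT (v i) s) c := by
      simp
    rw [h3]
    have h4 : ∀ i, TupleCtl_us (actT (v i) s) c = -(Fintype.card (Fin j ↪ Fin n) : ℝ)⁻¹ := by
      intro i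
      rw [TupleCtl_us_apply, if_neg (fun h => hc i h.symm), zero_sub]
    rw [Finset.sum_congr rfl fun i _ => h4 i]
    rw [Finset.sum_const, Finset.card_univ, nsmul_eq_mul, smul_eq_mul]
    field_simp
  rw [EuclideanSpace.norm_sq_eq]
  have h5 : ∑ c ∈ (univ.filter fun c : Fin j ↪ Fin n => ∀ i : I, actT (v i) s ≠ c),
      ((Fintype.card (Fin j ↪ Fin n) : ℝ)⁻¹) ^ 2 ≤
      ∑ c, ‖ravg (tupRep n j) v (TupleCtl_us s) c‖ ^ 2 := by
    refine (Finset.sum_le_sum (f := fun _ => ((Fintype.card (Fin j ↪ Fin n) : ℝ)⁻¹) ^ 2)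
      (g := fun c => ‖ravg (tupRep n j) v (TupleCtl_us s) c‖ ^ 2) fun c hc => ?_).trans
      (Finset.sum_le_sum_of_subset_of_nonneg (Finset.filter_subset _ _) fun _ _ _ => by
        positivity)
    have h6 := h1 c (Finset.mem_filter.mp hc).2
    show _ ≤ ‖ravg (tupRep n j) v (TupleCtl_us s) c‖ ^ 2
    rw [h6, norm_neg, Real.norm_of_nonneg (by positivity)]
  rw [Finset.sum_const, nsmul_eq_mul] at h5
  calc ((univ.filter fun c : Fin j ↪ Fin n => ∀ i : I, actT (v i) s ≠ c).card : ℝ)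
      = (Fintype.card (Fin j ↪ Fin n) : ℝ) ^ 2 *
        (((univ.filter fun c : Fin j ↪ Fin n => ∀ i : I, actT (v i) s ≠ c).card : ℝ) *
        ((Fintype.card (Fin j ↪ Fin n) : ℝ)⁻¹) ^ 2) := by field_simp
    _ ≤ _ := mul_le_mul_of_nonneg_left h5 (by positivity)

theorem tuple_control {n j J : ℕ} {ι : Type*} [Fintype ι] [Nonempty ι] (w : ι → A n)
    (κ φ : ℝ) (hκ0 : 0 < κ) (hκ1 : κ ≤ 1) (hφ : φ ≤ κ ^ 12) (hj : 1 ≤ j)
    (hn : 4 * j + 4 ≤ n) (h4 : 4 * (j : ℝ) ≤ κ ^ 12 * n) (s : Fin j ↪ Fin n) :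
    ∑ z : Fin J → A n,
        ((univ.filter fun c : Fin j ↪ Fin n =>
          ∀ i : Fin J → ι, actT (blk w z i) s ≠ c).card : ℝ) ≤
      (∑ b ∈ Icc 1 j, (n : ℝ) ^ (2 * b) * (beta φ w + (6 * κ) ^ b) ^ J) *
        ((Fintype.card (Fin J → A n) : ℝ) * (Fintype.card (Fin j ↪ Fin n) : ℝ)) := by
  classical
  have hbeta : 0 ≤ beta φ w := by rw [beta]; positivity
  have hN : (0 : ℝ) < Fintype.card (Fin j ↪ Fin n) := by
    have : Nonempty (Fin j ↪ Fin n) := ⟨s⟩
    exact_mod_cast Fintype.card_pos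
  set N : ℝ := ((Fintype.card (Fin j ↪ Fin n) : ℕ) : ℝ) with hNdef
  set M : ℝ := ((Fintype.card (Fin J → A n) : ℕ) : ℝ) with hMdef
  have h1 : ∑ z : Fin J → A n,
        ((univ.filter fun c : Fin j ↪ Fin n =>
          ∀ i : Fin J → ι, actT (blk w z i) s ≠ c).card : ℝ) ≤
      N ^ 2 * (M * inner ℝ (TupleCtl_us s) ((abar (tupRep n j) w ^ J) (TupleCtl_us s))) := by
    rw [hMdef, ← sec_mom (TupleCtl_orth n j) w J (TupleCtl_us s), Finset.mul_sum]
    exact Finset.sum_le_sum fun z _ => TupleCtl_unreach (fun i => blk w z i) s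
  have h2 : N * inner ℝ (TupleCtl_us s) ((abar (tupRep n j) w ^ J) (TupleCtl_us s)) =
      ∑ t : Fin j ↪ Fin n,
        inner ℝ (TupleCtl_us t) ((abar (tupRep n j) w ^ J) (TupleCtl_us t)) := by
    rw [Finset.sum_congr rfl fun t _ => TupleCtl_indep w (by omega) s t]
    simp [hNdef]
  have h3 : ∑ t : Fin j ↪ Fin n,
        inner ℝ (TupleCtl_us t) ((abar (tupRep n j) w ^ J) (TupleCtl_us t)) ≤
      ∑ b ∈ Icc 1 j, (n : ℝ) ^ (2 * b) * (beta φ w + (6 * κ) ^ b) ^ J := by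
    refine (Finset.sum_le_sum fun t _ =>
      TupleCtl_vec (J := J) w κ φ hκ0 hκ1 hφ hj hn h4 t).trans ?_
    rw [Finset.sum_comm]
    refine Finset.sum_le_sum fun b hb => ?_
    rw [← Finset.mul_sum]
    have hb' := Finset.mem_Icc.mp hb
    have h5 := proj_sum (EuclideanSpace.basisFun (Fin j ↪ Fin n) ℝ)
      (Fsub (tupRep n j) b ⊓ (Fsub (tupRep n j) (b - 1))ᗮ)
    have h6 : ∀ t : Fin j ↪ Fin n, (EuclideanSpace.basisFun (Fin j ↪ Fin n) ℝ) t =
        EuclideanSpace.single t (1 : ℝ) := fun t => EuclideanSpace.basisFun_apply _ _ t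
    simp only [h6] at h5
    rw [h5, mul_comm]
    refine mul_le_mul_of_nonneg_right ?_ (by positivity)
    have h7 : Module.finrank ℝ
        (Fsub (tupRep n j) b ⊓ (Fsub (tupRep n j) (b - 1))ᗮ : Submodule ℝ _) ≤ n ^ (2 * b) :=
      (Submodule.finrank_mono inf_le_left).trans (finrank_Fsub_tup (by omega))
    exact_mod_cast h7
  have hM : 0 ≤ M := by rw [hMdef]; positivity
  calc _ ≤ N ^ 2 * (M * inner ℝ (TupleCtl_us s)
        ((abar (tupRep n j) w ^ J) (TupleCtl_us s))) := h1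
    _ = (N * inner ℝ (TupleCtl_us s) ((abar (tupRep n j) w ^ J) (TupleCtl_us s))) *
        (M * N) := by ring
    _ ≤ _ := by
      rw [h2]
      exact mul_le_mul_of_nonneg_right h3 (by positivity)

end Pool.Agent.RCG
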