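import Pool.Agent.W_MP_6acff7_h70.Prob
import Pool.Agent.W_MP_6acff7_h70.TupleCtl
import Pool.Agent.W_MP_6acff7_h70.Cover

/-!
# Step C: from an element of small support and a good family to the whole group

PROOF.  `h : A n` with support of size `j`, word length `lh` over `S`; `s : Fin j ↪ Fin n` an enumeration of its support
(`Finset.orderEmbOfFin` or `equivFin`).  `w : Fin k → A n` the family, `beta φ w ≤ exp (-e) ≤ (6κ)^j ≤ (6κ)^b` for `b ≤ j`.
For letters `z : Fin J → A n` let `Bad z` be the set of `c : Fin j ↪ Fin n` with `actT (blk w z i) s ≠ c` for all `i`.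
`tuple_control` and `pr_markov` (`f z = |Bad z|`, threshold `t = |X|/(4K+1)`, `X = (Fin j ↪ Fin n)`): except with
probability `(4K+1) ∑_{b=1}^j n^(2b) (2 (6κ)^b)^J` we have `|Bad z| ≤ |X|/(4K+1)`, so `4 K |Bad z| < |X|` (`|X| > 0`), and then `cover`
(`decomp` gives `hdec`; `la = J * (l + 1)` by `WL.blk`; `WL` over `S ∪ range z`).
-/

open Finset

namespace Pool.Agent.RCG

variable {n : ℕ}

theorem stepC {j J K l lh : ℕ} (κ φ e : ℝ) (hκ0 : 0 < κ) (h6 : 6 * κ ≤ 1)
    (hφ : φ ≤ κ ^ 12) (hj : 3 ≤ j) (hn : 4 * j + 4 ≤ n)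
    (h4 : 4 * (j : ℝ) ≤ κ ^ 12 * n) (he : Real.exp (-e) ≤ (6 * κ) ^ j)
    (hK : 6 * ((n : ℝ) / j) * Real.log n + 1 ≤ K) :
    Step n J ((4 * K + 1) * ∑ b ∈ Icc 1 j, (n : ℝ) ^ (2 * b) * (2 * (6 * κ) ^ b) ^ J)
      (fun S => HasH n j lh S ∧ HasFam n φ l e S)
      (HasAll n (4 * K * (lh + 2 * (J * (l + 1))))) := by
  classical
  rintro S ⟨⟨h, hsupp, hh⟩, ⟨k, hk, w, hw, hbeta⟩⟩
  have : Nonempty (Fin k) := ⟨⟨0, hk⟩⟩
  have h0 : (0 : ℝ) < 6 * κ := by positivity
  have hκ1 : κ ≤ 1 := by linarith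
  obtain ⟨s, hs⟩ : ∃ s : Fin j ↪ Fin n, ∀ p, (∃ k, s k = p) ↔ h.1 p ≠ p := by
    refine ⟨(h.1.support.orderEmbOfFin hsupp).toEmbedding, fun p => ?_⟩
    have h1 := Finset.range_orderEmbOfFin h.1.support hsupp
    have h2 : p ∈ Set.range (h.1.support.orderEmbOfFin hsupp) ↔ p ∈ (h.1.support : Set (Fin n)) := by
      rw [h1]
    rw [Finset.mem_coe, Equiv.Perm.mem_support] at h2
    exact h2
  have hN : (0 : ℝ) < Fintype.card (Fin j ↪ Fin n) := by
    have : Nonempty (Fin j ↪ Fin n) := ⟨s⟩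
    exact_mod_cast Fintype.card_pos
  have hbeta0 : 0 ≤ beta φ w := by rw [beta]; positivity
  have hK0 : (0 : ℝ) < 4 * (K : ℝ) + 1 := by positivity
  have htc := tuple_control (J := J) w κ φ hκ0 hκ1 hφ (by omega) hn h4 s
  have hsum : (∑ b ∈ Icc 1 j, (n : ℝ) ^ (2 * b) * (beta φ w + (6 * κ) ^ b) ^ J) ≤
      ∑ b ∈ Icc 1 j, (n : ℝ) ^ (2 * b) * (2 * (6 * κ) ^ b) ^ J := by
    refine Finset.sum_le_sum fun b hb => ?_
    have hb' := Finset.mem_Icc.mp hb
    have h1 : (6 * κ) ^ j ≤ (6 * κ) ^ b := pow_le_pow_of_le_one h0.le h6 hb'.2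
    refine mul_le_mul_of_nonneg_left (pow_le_pow_left₀ (by positivity) ?_ J) (by positivity)
    linarith
  have hmark := pr_markov (α := Fin J → A n)
    (fun z => ((univ.filter fun c : Fin j ↪ Fin n =>
          ∀ i : Fin J → Fin k, actT (blk w z i) s ≠ c).card : ℝ)) (fun _ => by positivity)
    ((Fintype.card (Fin j ↪ Fin n) : ℝ) / (4 * K + 1))
    ((∑ b ∈ Icc 1 j, (n : ℝ) ^ (2 * b) * (2 * (6 * κ) ^ b) ^ J) *
      (Fintype.card (Fin j ↪ Fin n) : ℝ)) (by positivity) (by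
        refine htc.trans ?_
        rw [mul_assoc, mul_comm (Fintype.card (Fin j ↪ Fin n) : ℝ)]
        exact mul_le_mul_of_nonneg_right hsum (by positivity))
  refine (pr_mono (Q := fun z : Fin J → A n => (Fintype.card (Fin j ↪ Fin n) : ℝ) / (4 * K + 1) <
    ((univ.filter fun c : Fin j ↪ Fin n =>
          ∀ i : Fin J → Fin k, actT (blk w z i) s ≠ c).card : ℝ)) ?_).trans
    (hmark.trans (le_of_eq ?_))
  · intro z hz
    by_contra hcon
    push Not at hcon
    refine hz fun g => ?_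
    refine cover h s (by omega) (fun π => decomp h s hs hj (by omega) hK π)
      (S ∪ Set.range z) (hh.mono Set.subset_union_left le_rfl)
      (univ.filter fun c : Fin j ↪ Fin n => ∀ i : Fin J → Fin k, actT (blk w z i) s ≠ c)
      ?_ ?_ g
    · rw [le_div_iff₀ hK0] at hcon
      have h1 : (univ.filter fun c : Fin j ↪ Fin n =>
          ∀ i : Fin J → Fin k, actT (blk w z i) s ≠ c).card * (4 * K + 1) ≤
          Fintype.card (Fin j ↪ Fin n) := by exact_mod_cast hcon
      have h2 : 0 < Fintype.card (Fin j ↪ Fin n) := by exact_mod_cast hN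
      set B := (univ.filter fun c : Fin j ↪ Fin n =>
          ∀ i : Fin J → Fin k, actT (blk w z i) s ≠ c).card with hB
      rcases Nat.eq_zero_or_pos B with h3 | h3
      · rw [h3]; simpa using h2
      · calc 4 * K * B < B * (4 * K + 1) := by nlinarith
          _ ≤ _ := h1
    · intro c hc
      have h1 : ∃ i : Fin J → Fin k, actT (blk w z i) s = c := by
        by_contra hcon2
        push Not at hcon2
        exact hc (Finset.mem_filter.mpr ⟨Finset.mem_univ _, hcon2⟩)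
      obtain ⟨i, hi⟩ := h1
      exact ⟨blk w z i, WL.blk (fun i => (hw i).mono Set.subset_union_left le_rfl)
        (fun k => Set.mem_union_right _ (Set.mem_range_self k)) i, hi⟩
  · field_simp

end Pool.Agent.RCG
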