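import Pool.Agent.W_MP_6acff7_h70.Defs

/-!
# Norm bound from eigenvalue bound on an invariant subspace

PROOF.  Restrict `T` to `L` (`LinearMap.restrict`), it is symmetric
(`LinearMap.IsSymmetric.restrict_invariant`); take `IsSymmetric.eigenvectorBasis` and
`eigenvalues` on `L`; expand `u` in this orthonormal basis:
`‖T u‖² = ∑ λ_i² ⟪e_i, u⟫² ≤ θ² ‖u‖²`.
-/

open Finset

namespace Pool.Agent.RCG

theorem spec_bound {E : Type*} [NormedAddCommGroup E] [InnerProductSpace ℝ E]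
    [FiniteDimensional ℝ E] (T : Module.End ℝ E) (hT : T.IsSymmetric) (L : Submodule ℝ E)
    (hL : ∀ u ∈ L, T u ∈ L) (θ : ℝ) (hθ0 : 0 ≤ θ)
    (hθ : ∀ lam : ℝ, ∀ u ∈ L, u ≠ 0 → T u = lam • u → |lam| ≤ θ) :
    ∀ u ∈ L, ‖T u‖ ≤ θ * ‖u‖ := by
  intro u hu
  have hS : (T.restrict hL).IsSymmetric := hT.restrict_invariant hL
  have hn : Module.finrank ℝ L = Module.finrank ℝ L := rfl
  let b := hS.eigenvectorBasis hn
  let x : L := ⟨u, hu⟩
  have hlam : ∀ i, |hS.eigenvalues hn i| ≤ θ := by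
    intro i
    have h1 : (T.restrict hL) (b i) = hS.eigenvalues hn i • b i := hS.apply_eigenvectorBasis hn i
    have h2 : b i ≠ 0 := b.orthonormal.ne_zero i
    refine hθ _ (b i : E) (b i).2 (fun h => h2 (Subtype.ext h)) ?_
    exact congrArg Subtype.val h1
  have h3 : ‖T u‖ = ‖(T.restrict hL) x‖ := rfl
  have h4 : ‖u‖ = ‖x‖ := rfl
  rw [h3, h4]
  have h5 : ‖(T.restrict hL) x‖ ^ 2 ≤ (θ * ‖x‖) ^ 2 := by
    rw [← b.repr.norm_map ((T.restrict hL) x), ← b.repr.norm_map x, mul_pow,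
      EuclideanSpace.norm_sq_eq, EuclideanSpace.norm_sq_eq, Finset.mul_sum]
    refine Finset.sum_le_sum fun i _ => ?_
    have h6 : b.repr ((T.restrict hL) x) i = hS.eigenvalues hn i * b.repr x i :=
      hS.eigenvectorBasis_apply_self_apply hn x i
    rw [h6, norm_mul, mul_pow, Real.norm_eq_abs, Real.norm_eq_abs]
    exact mul_le_mul_of_nonneg_right (pow_le_pow_left₀ (abs_nonneg _) (hlam i) 2) (sq_nonneg _)
  exact le_of_sq_le_sq h5 (mul_nonneg hθ0 (norm_nonneg _))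

end Pool.Agent.RCG
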