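import Pool.Agent.W_MP_6acff7_h70.LowEig
import Pool.Agent.W_MP_6acff7_h70.Levels
import Pool.Agent.W_MP_6acff7_h70.Spec
import Pool.Agent.W_MP_6acff7_h70.HighDim
import Pool.Agent.W_MP_6acff7_h70.HighEig

/-!
# Spectral gap of the class average in the regular representation

PROOF.  `ρ = regR (A n)`, `L = {u | ∑ u = 0}` (a submodule, invariant under `regR`, `regL`, `cavg ρ g`).
`spec_bound`: let `cavg ρ g u = lam • u`, `0 ≠ u ∈ L`, and `V = L ⊓ ker (cavg ρ g - lam) ≠ ⊥`.  `V` is invariant under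
`regR` (`cavg_comm`) and under `regL` (`regL a` commutes with every `regR b`, `cavg_commute_of_commute`).
Case 1: some nonzero `f ∈ V` is fixed by `A_B` with `|B| ≤ b0`.  Take such `B, f` with `b = |B|` minimal.
`b ≥ 1`: for `B = ∅` `f` is `regR`-invariant, so constant, and the sum is zero, so `f = 0`.  `low_eig` with `W = V`
(`hlev` by minimality) gives `|lam| ≤ (6κ)^b ≤ 6κ ≤ θ` (note `4b ≤ 4 b0`).
Case 2: otherwise `high_dim` (`hno`) gives `3^(b0/4) ≤ finrank V` and `high_eig`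
`lam² 3^(b0/4) ≤ |C(g)| ≤ θ² 3^(b0/4)`, so `|lam| ≤ θ`.
-/

open Finset

namespace Pool.Agent.RCG

/-- An invariant subspace is invariant under class averages. -/
private theorem gap_cavg_mem {G : Type*} [Group G] [Fintype G] {E : Type*} [NormedAddCommGroup E]
    [InnerProductSpace ℝ E] (ρ : G →* Module.End ℝ E) (L : Submodule ℝ E)
    (hL : ∀ a, ∀ u ∈ L, ρ a u ∈ L) (g : G) (u : E) (hu : u ∈ L) : cavg ρ g u ∈ L := by
  unfold cavg
  rw [LinearMap.smul_apply, LinearMap.sum_apply]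
  refine L.smul_mem _ (L.sum_mem fun z _ => ?_)
  rw [LinearMap.add_apply]
  exact L.add_mem (hL _ u hu) (hL _ u hu)

/-- The functions with sum zero. -/
private def gap_L (n : ℕ) : Submodule ℝ (EuclideanSpace ℝ (A n)) where
  carrier := {u | ∑ c, u c = 0}
  add_mem' := by
    intro u v hu hv
    simp only [Set.mem_setOf_eq] at *
    simp only [PiLp.add_apply]
    rw [Finset.sum_add_distrib, hu, hv, add_zero]
  zero_mem' := by simp
  smul_mem' := by
    intro a u hu
    simp only [Set.mem_setOf_eq] at *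
    simp only [PiLp.smul_apply, smul_eq_mul]
    rw [← Finset.mul_sum, hu, mul_zero]

private theorem gap_mem_L {n : ℕ} (u : EuclideanSpace ℝ (A n)) : u ∈ gap_L n ↔ ∑ c, u c = 0 :=
  Iff.rfl

private theorem gap_L_R {n : ℕ} (a : A n) (u : EuclideanSpace ℝ (A n)) (hu : u ∈ gap_L n) :
    regR (A n) a u ∈ gap_L n := by
  rw [gap_mem_L] at *
  rw [← hu]
  simp only [regR_apply]
  exact Equiv.sum_comp (Equiv.mulRight a) (fun c => u c)

private theorem gap_L_L {n : ℕ} (a : A n) (u : EuclideanSpace ℝ (A n)) (hu : u ∈ gap_L n) :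
    regL (A n) a u ∈ gap_L n := by
  rw [gap_mem_L] at *
  rw [← hu]
  simp only [regL_apply]
  exact Equiv.sum_comp (Equiv.mulLeft a⁻¹) (fun c => u c)

theorem gap {n b0 : ℕ} (g : A n) (κ θ : ℝ) (hκ0 : 0 < κ) (h6 : 6 * κ ≤ 1) (hθ : 6 * κ ≤ θ)
    (hn : 4 * b0 + 4 ≤ n) (h4 : 4 * (b0 : ℝ) ≤ κ ^ 12 * n)
    (hfix : (fixN g.1 : ℝ) ≤ κ ^ 12 * n)
    (hC : (Nat.card (Subgroup.centralizer ({g} : Set (A n))) : ℝ) ≤ θ ^ 2 * 3 ^ (b0 / 4))
    (u : EuclideanSpace ℝ (A n)) (hu : ∑ c, u c = 0) :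
    ‖cavg (regR (A n)) g u‖ ≤ θ * ‖u‖ := by
  have hρ : Orth (regR (A n)) := permRep_orth _
  have hθ0 : 0 < θ := by linarith
  refine spec_bound (cavg (regR (A n)) g) (cavg_symm hρ g) (gap_L n)
    (fun v hv => gap_cavg_mem _ _ gap_L_R g v hv) θ hθ0.le ?_ u hu
  intro lam v hv hv0 hlam
  -- the eigenspace
  let V : Submodule ℝ (EuclideanSpace ℝ (A n)) :=
    gap_L n ⊓ LinearMap.ker (cavg (regR (A n)) g - lam • (1 : Module.End ℝ _))
  have hVm : ∀ w, w ∈ V ↔ w ∈ gap_L n ∧ cavg (regR (A n)) g w = lam • w := by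
    intro w
    change w ∈ gap_L n ∧ w ∈ LinearMap.ker _ ↔ _
    rw [LinearMap.mem_ker, LinearMap.sub_apply, sub_eq_zero, LinearMap.smul_apply,
      Module.End.one_apply]
  have hV0 : V ≠ ⊥ := by
    intro h
    apply hv0
    have : v ∈ V := (hVm v).2 ⟨hv, hlam⟩
    rw [h] at this
    exact (Submodule.mem_bot ℝ).1 this
  have hR : ∀ a : A n, ∀ w ∈ V, regR (A n) a w ∈ V := by
    intro a w hw
    obtain ⟨h1, h2⟩ := (hVm w).1 hw
    refine (hVm _).2 ⟨gap_L_R a w h1, ?_⟩
    rw [cavg_comm_apply, h2, map_smul]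
  have hLR : ∀ a b : A n, regL (A n) a * regR (A n) b = regR (A n) b * regL (A n) a := by
    intro a b
    refine LinearMap.ext fun f => ?_
    ext c
    rw [Module.End.mul_apply, Module.End.mul_apply, regL_apply, regR_apply, regR_apply,
      regL_apply, mul_assoc]
  have hL : ∀ a : A n, ∀ w ∈ V, regL (A n) a w ∈ V := by
    intro a w hw
    obtain ⟨h1, h2⟩ := (hVm w).1 hw
    refine (hVm _).2 ⟨gap_L_L a w h1, ?_⟩
    have e := cavg_commute_of_commute (regR (A n)) g (regL (A n) a) (hLR a)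
    have e' := congrArg (fun T : Module.End ℝ _ => T w) e
    simp only [Module.End.mul_apply] at e'
    rw [← e', h2, map_smul]
  have hVlam : ∀ w ∈ V, cavg (regR (A n)) g w = lam • w := fun w hw => ((hVm w).1 hw).2
  by_cases hex : ∃ b, ∃ B : Finset (Fin n), B.card = b ∧ b ≤ b0 ∧
      ∃ f ∈ V, FixedBy (regR (A n)) B f ∧ f ≠ 0
  · classical
    obtain ⟨B, hB, hb0, f, hfV, hfB, hf0⟩ := Nat.find_spec hex
    have hmin : ∀ B' : Finset (Fin n), B'.card < Nat.find hex → ∀ w ∈ V,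
        FixedBy (regR (A n)) B' w → w = 0 := by
      intro B' hB' w hw hwB
      by_contra hw0
      exact Nat.find_min hex hB' ⟨B', rfl, by omega, w, hw, hwB, hw0⟩
    have hb1 : 1 ≤ Nat.find hex := by
      by_contra hlt
      have h0 : Nat.find hex = 0 := by omega
      rw [h0] at hB
      have hBe : B = ∅ := Finset.card_eq_zero.1 hB
      subst hBe
      apply hf0
      have hc : ∀ c : A n, f c = f 1 := by
        intro c
        have h1 := hfB c (by simp)
        have h2 := regR_apply (A n) c f 1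
        rw [h1, one_mul] at h2
        exact h2.symm
      have hs := (gap_mem_L f).1 ((hVm f).1 hfV).1
      simp only [hc] at hs
      rw [Finset.sum_const, Finset.card_univ, nsmul_eq_mul] at hs
      have hpos : (0 : ℝ) < Fintype.card (A n) := by exact_mod_cast Fintype.card_pos
      have hf1 : f 1 = 0 := (mul_eq_zero.1 hs).resolve_left hpos.ne'
      ext c
      rw [hc c, hf1]
      rfl
    have h1 := low_eig hρ V hR hb1 (by omega)
      (fun B' hB' w hw hwB => hmin B' (by omega) w hw hwB) g κ hκ0 (by linarith)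
      (by
        have : ((Nat.find hex : ℕ) : ℝ) ≤ b0 := by exact_mod_cast hb0
        linarith) hfix B hB f hfV hf0 hfB lam (hVlam f hfV)
    have h2 : (6 * κ) ^ (Nat.find hex) ≤ 6 * κ :=
      pow_le_of_le_one (by positivity) h6 (by omega)
    linarith
  · have hno : ∀ B : Finset (Fin n), B.card ≤ b0 → ∀ w ∈ V, FixedBy (regR (A n)) B w → w = 0 := by
      intro B hB w hw hwB
      by_contra hw0
      exact hex ⟨B.card, B, rfl, hB, w, hw, hwB, hw0⟩
    have h1 := high_dim hρ V hR hV0 b0 (by omega) hno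
    have h2 := high_eig g lam V hV0 hR hL hVlam
    have h3 : ((3 : ℝ) ^ (b0 / 4)) ≤ Module.finrank ℝ V := by exact_mod_cast h1
    have h4 : lam ^ 2 * (3 : ℝ) ^ (b0 / 4) ≤ θ ^ 2 * 3 ^ (b0 / 4) :=
      calc lam ^ 2 * (3 : ℝ) ^ (b0 / 4) ≤ lam ^ 2 * Module.finrank ℝ V :=
            mul_le_mul_of_nonneg_left h3 (sq_nonneg _)
        _ ≤ _ := h2
        _ ≤ _ := hC
    have h5 : lam ^ 2 ≤ θ ^ 2 := le_of_mul_le_mul_right h4 (by positivity)
    exact abs_le_of_sq_le_sq h5 hθ0.le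

end Pool.Agent.RCG
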