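import Pool.Agent.W_MP_6acff7_h70.SecMom

/-!
# Hitting a set

`G` any finite group, `w i = x^i` for `i < L`, `a_i = blk w z i` (`i : Fin J → Fin L`).

PROOF.  `p = |K0|/|G| > 0`, `f = 1_{K0} - p` in `EuclideanSpace ℝ G`, `∑ f = 0`,
`‖f‖² = |G| p (1-p) ≤ |K0|`.  `(ravg (regR G) (blk w z ·) f) c` is the average over `i` of
`f (c * blk w z i)`; if `c * blk w z i ∉ K0` for all `i` it equals `-p`.  So
`#{c bad for z} p² ≤ ‖ravg (regR G) (blk w z ·) f‖²`; sum over `z` and use `sec_mom`: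
`#{(z,c) bad} p² ≤ |Fin J → G| ⟪f, abar^J f⟫ ≤ |Fin J → G| (1/L + θ)^J ‖f‖²`.
Here `‖abar (regR G) w u‖ ≤ (1/L + θ)‖u‖` for `∑ u = 0`: the `L` diagonal pairs contribute at most `1/L`
(`cavg_norm_le`), the others are `cavg ρ (x^k)` or `cavg ρ (x^k)⁻¹ = cavg ρ (x^k)` (`cavg_inv`) with
`1 ≤ k < L`; `abar` preserves sum-zero functions.  Finally `‖f‖²/p² ≤ |K0| |G|²/|K0|² = |G|²/|K0|`, and
`|Fin J → G| |G|²/|K0| = (|G|/|K0|) |(Fin J → G) × G|`.
-/

open Finset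

namespace Pool.Agent.RCG

section HitAux

variable {G : Type*} [Group G] [Fintype G]

theorem Hit_sum_regR (a : G) (u : EuclideanSpace ℝ G) : ∑ c, (regR G a u) c = ∑ c, u c := by
  have h1 : ∀ c, (regR G a u) c = u (c * a) := fun c => regR_apply G a u c
  rw [Finset.sum_congr rfl fun c _ => h1 c]
  exact Fintype.sum_equiv (Equiv.mulRight a) _ _ fun c => rfl

theorem Hit_sum_cavg (g : G) (u : EuclideanSpace ℝ G) (hu : ∑ c, u c = 0) :
    ∑ c, (cavg (regR G) g u) c = 0 := by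
  have h1 : ∀ c, (cavg (regR G) g u) c = (2 * (Fintype.card G : ℝ))⁻¹ *
      ∑ z : G, ((regR G (z⁻¹ * g * z) u) c + (regR G (z⁻¹ * g⁻¹ * z) u) c) := by
    intro c
    simp [cavg, LinearMap.sum_apply, WithLp.ofLp_sum, Finset.sum_apply]
  rw [Finset.sum_congr rfl fun c _ => h1 c, ← Finset.mul_sum, Finset.sum_comm]
  have h2 : ∀ z : G, ∑ c, ((regR G (z⁻¹ * g * z) u) c + (regR G (z⁻¹ * g⁻¹ * z) u) c) = 0 := by
    intro z
    rw [Finset.sum_add_distrib, Hit_sum_regR, Hit_sum_regR, hu, add_zero]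
  rw [Finset.sum_congr rfl fun z _ => h2 z]
  simp

theorem Hit_sum_abar {ι : Type*} [Fintype ι] (w : ι → G) (u : EuclideanSpace ℝ G)
    (hu : ∑ c, u c = 0) : ∑ c, (abar (regR G) w u) c = 0 := by
  have h1 : ∀ c, (abar (regR G) w u) c = ((Fintype.card ι : ℝ) ^ 2)⁻¹ *
      ∑ i, ∑ i', (cavg (regR G) ((w i)⁻¹ * w i') u) c := by
    intro c
    simp [abar, LinearMap.sum_apply, WithLp.ofLp_sum, Finset.sum_apply]
  rw [Finset.sum_congr rfl fun c _ => h1 c, ← Finset.mul_sum, Finset.sum_comm]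
  have h2 : ∀ i, ∑ c, ∑ i', (cavg (regR G) ((w i)⁻¹ * w i') u) c = 0 := by
    intro i
    rw [Finset.sum_comm]
    exact Finset.sum_eq_zero fun i' _ => Hit_sum_cavg _ u hu
  rw [Finset.sum_congr rfl fun i _ => h2 i]
  simp

theorem Hit_abar_norm (x : G) (L : ℕ) (hL : 1 ≤ L) (θ : ℝ) (hθ0 : 0 ≤ θ)
    (hgap : ∀ k, 1 ≤ k → k < L → ∀ u : EuclideanSpace ℝ G, ∑ c, u c = 0 →
      ‖cavg (regR G) (x ^ k) u‖ ≤ θ * ‖u‖) (u : EuclideanSpace ℝ G) (hu : ∑ c, u c = 0) :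
    ‖abar (regR G) (fun i : Fin L => x ^ (i : ℕ)) u‖ ≤ (1 / L + θ) * ‖u‖ := by
  have hO : Orth (regR G) := permRep_orth _
  have h1 : ∀ i i' : Fin L, ‖cavg (regR G) ((x ^ (i : ℕ))⁻¹ * x ^ (i' : ℕ)) u‖ ≤
      ((if i = i' then 1 else 0) + θ) * ‖u‖ := by
    intro i i'
    have hn : 0 ≤ ‖u‖ := norm_nonneg u
    rcases lt_trichotomy i i' with h | h | h
    · have h2 : (x ^ (i : ℕ))⁻¹ * x ^ (i' : ℕ) = x ^ ((i' : ℕ) - (i : ℕ)) := by
        have h3 : (i' : ℕ) = (i : ℕ) + ((i' : ℕ) - (i : ℕ)) := by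
          have : (i : ℕ) < i' := h
          omega
        conv_lhs => rw [h3, pow_add]
        rw [inv_mul_cancel_left]
      rw [h2, if_neg (ne_of_lt h), zero_add]
      have h4 : (i : ℕ) < i' := h
      have h5 := i'.2
      exact hgap _ (by omega) (by omega) u hu
    · rw [h, inv_mul_cancel, if_pos rfl]
      have h2 := cavg_norm_le hO (1 : G) u
      nlinarith
    · have h2 : (x ^ (i : ℕ))⁻¹ * x ^ (i' : ℕ) = (x ^ ((i : ℕ) - (i' : ℕ)))⁻¹ := by
        have h3 : (i : ℕ) = (i' : ℕ) + ((i : ℕ) - (i' : ℕ)) := by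
          have : (i' : ℕ) < i := h
          omega
        conv_lhs => rw [h3, pow_add]
        rw [mul_inv_rev, inv_mul_cancel_right]
      rw [h2, cavg_inv, if_neg (ne_of_gt h), zero_add]
      have h4 : (i' : ℕ) < i := h
      have h5 := i.2
      exact hgap _ (by omega) (by omega) u hu
  have h2 : abar (regR G) (fun i : Fin L => x ^ (i : ℕ)) u = ((L : ℝ) ^ 2)⁻¹ •
      ∑ i : Fin L, ∑ i' : Fin L, cavg (regR G) ((x ^ (i : ℕ))⁻¹ * x ^ (i' : ℕ)) u := by
    simp [abar, LinearMap.sum_apply]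
  have hL0 : (0 : ℝ) < L := by exact_mod_cast hL
  have h3 : ‖∑ i : Fin L, ∑ i' : Fin L, cavg (regR G) ((x ^ (i : ℕ))⁻¹ * x ^ (i' : ℕ)) u‖ ≤
      ∑ i : Fin L, ∑ i' : Fin L, ((if i = i' then 1 else 0) + θ) * ‖u‖ := by
    refine (norm_sum_le _ _).trans (Finset.sum_le_sum fun i _ => ?_)
    exact (norm_sum_le _ _).trans (Finset.sum_le_sum fun i' _ => h1 i i')
  have h4 : ∑ i : Fin L, ∑ i' : Fin L, ((if i = i' then (1 : ℝ) else 0) + θ) * ‖u‖ =
      ((L : ℝ) + (L : ℝ) ^ 2 * θ) * ‖u‖ := by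
    simp only [← Finset.sum_mul, Finset.sum_add_distrib, Finset.sum_ite_eq, Finset.mem_univ,
      if_true, Finset.sum_const, Finset.card_univ, Fintype.card_fin, nsmul_eq_mul]
    ring
  rw [h2, norm_smul, Real.norm_eq_abs, abs_of_nonneg (by positivity)]
  rw [h4] at h3
  calc ((L : ℝ) ^ 2)⁻¹ * ‖∑ i : Fin L, ∑ i' : Fin L,
        cavg (regR G) ((x ^ (i : ℕ))⁻¹ * x ^ (i' : ℕ)) u‖
      ≤ ((L : ℝ) ^ 2)⁻¹ * (((L : ℝ) + (L : ℝ) ^ 2 * θ) * ‖u‖) :=
        mul_le_mul_of_nonneg_left h3 (by positivity)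
    _ = (1 / L + θ) * ‖u‖ := by
        field_simp

theorem Hit_abar_pow (x : G) (L : ℕ) (hL : 1 ≤ L) (θ : ℝ) (hθ0 : 0 ≤ θ)
    (hgap : ∀ k, 1 ≤ k → k < L → ∀ u : EuclideanSpace ℝ G, ∑ c, u c = 0 →
      ‖cavg (regR G) (x ^ k) u‖ ≤ θ * ‖u‖) (u : EuclideanSpace ℝ G) (hu : ∑ c, u c = 0)
    (J : ℕ) : ∑ c, ((abar (regR G) (fun i : Fin L => x ^ (i : ℕ)) ^ J) u) c = 0 ∧
    ‖(abar (regR G) (fun i : Fin L => x ^ (i : ℕ)) ^ J) u‖ ≤ (1 / L + θ) ^ J * ‖u‖ := by
  induction J with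
  | zero => simp [hu]
  | succ J ih =>
    rw [pow_succ', Module.End.mul_apply]
    refine ⟨Hit_sum_abar _ _ ih.1, ?_⟩
    have h1 := Hit_abar_norm x L hL θ hθ0 hgap _ ih.1
    refine h1.trans ?_
    rw [pow_succ', mul_assoc]
    exact mul_le_mul_of_nonneg_left ih.2 (by positivity)

end HitAux

theorem hit {G : Type*} [Group G] [Fintype G] [DecidableEq G] (x : G) (L J : ℕ) (hL : 1 ≤ L)
    (θ : ℝ) (hθ0 : 0 ≤ θ)
    (hgap : ∀ k, 1 ≤ k → k < L → ∀ u : EuclideanSpace ℝ G, ∑ c, u c = 0 →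
      ‖cavg (regR G) (x ^ k) u‖ ≤ θ * ‖u‖)
    (K0 : Finset G) (hK0 : K0.Nonempty) :
    ((univ.filter fun q : (Fin J → G) × G =>
        ∀ i : Fin J → Fin L, q.2 * blk (fun i : Fin L => x ^ (i : ℕ)) q.1 i ∉ K0).card : ℝ) ≤
      (1 / L + θ) ^ J * ((Fintype.card G : ℝ) / K0.card) *
        (Fintype.card ((Fin J → G) × G) : ℝ) := by
  classical
  have : Nonempty (Fin L) := ⟨⟨0, hL⟩⟩
  have hO : Orth (regR G) := permRep_orth _
  set w : Fin L → G := fun i => x ^ (i : ℕ) with hw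
  set n : ℝ := (Fintype.card G : ℝ) with hn
  set k0 : ℝ := (K0.card : ℝ) with hk0
  have hnpos : 0 < n := Nat.cast_pos.2 Fintype.card_pos
  have hkpos : 0 < k0 := Nat.cast_pos.2 hK0.card_pos
  set p : ℝ := k0 / n with hp
  have hpn : p * n = k0 := div_mul_cancel₀ _ hnpos.ne'
  have hppos : 0 < p := div_pos hkpos hnpos
  let f : EuclideanSpace ℝ G := WithLp.toLp 2 fun c => (if c ∈ K0 then (1 : ℝ) else 0) - p
  have hf : ∀ c, f c = (if c ∈ K0 then (1 : ℝ) else 0) - p := fun c => rfl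
  have hone : ∑ c : G, (if c ∈ K0 then (1 : ℝ) else 0) = k0 := by
    rw [Finset.sum_ite_mem, Finset.univ_inter, Finset.sum_const, nsmul_eq_mul, mul_one]
  have hf0 : ∑ c, f c = 0 := by
    rw [Finset.sum_congr rfl fun c _ => hf c, Finset.sum_sub_distrib, hone, Finset.sum_const,
      Finset.card_univ, nsmul_eq_mul]
    linarith
  have hfn : ‖f‖ ^ 2 ≤ k0 := by
    rw [EuclideanSpace.norm_sq_eq]
    have h1 : ∀ c, ‖f c‖ ^ 2 = (1 - 2 * p) * (if c ∈ K0 then (1 : ℝ) else 0) + p ^ 2 := by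
      intro c
      rw [hf, Real.norm_eq_abs, sq_abs]
      by_cases hc : c ∈ K0
      · rw [if_pos hc]
        ring
      · rw [if_neg hc]
        ring
    rw [Finset.sum_congr rfl fun c _ => h1 c, Finset.sum_add_distrib, ← Finset.mul_sum, hone,
      Finset.sum_const, Finset.card_univ, nsmul_eq_mul]
    have h2 : n * p ^ 2 = k0 * p := by
      rw [← hpn]
      ring
    have h3 : 0 ≤ k0 * p := by positivity
    show (1 - 2 * p) * k0 + n * p ^ 2 ≤ k0
    rw [h2]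
    nlinarith
  have hbad : ∀ z : Fin J → G,
      ((univ.filter fun c : G => ∀ i : Fin J → Fin L, c * blk w z i ∉ K0).card : ℝ) * p ^ 2 ≤
        ‖ravg (regR G) (fun i : Fin J → Fin L => blk w z i) f‖ ^ 2 := by
    intro z
    rw [EuclideanSpace.norm_sq_eq]
    have h1 : ((univ.filter fun c : G => ∀ i : Fin J → Fin L, c * blk w z i ∉ K0).card : ℝ) *
        p ^ 2 = ∑ c ∈ univ.filter (fun c : G => ∀ i : Fin J → Fin L, c * blk w z i ∉ K0),
          p ^ 2 := by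
      rw [Finset.sum_const, nsmul_eq_mul]
    rw [h1]
    have h2 : ∀ c ∈ univ.filter (fun c : G => ∀ i : Fin J → Fin L, c * blk w z i ∉ K0),
        p ^ 2 ≤ ‖(ravg (regR G) (fun i : Fin J → Fin L => blk w z i) f) c‖ ^ 2 := by
      intro c hc
      rw [Finset.mem_filter] at hc
      have h3 : (ravg (regR G) (fun i : Fin J → Fin L => blk w z i) f) c = -p := by
        have h4 : (ravg (regR G) (fun i : Fin J → Fin L => blk w z i) f) c =
            (Fintype.card (Fin J → Fin L) : ℝ)⁻¹ * ∑ i : Fin J → Fin L, f (c * blk w z i) := by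
          simp [ravg, LinearMap.sum_apply, WithLp.ofLp_sum, Finset.sum_apply, regR_apply]
        rw [h4]
        have h5 : ∀ i : Fin J → Fin L, f (c * blk w z i) = -p := by
          intro i
          rw [hf, if_neg (hc.2 i)]
          ring
        rw [Finset.sum_congr rfl fun i _ => h5 i, Finset.sum_const, Finset.card_univ,
          nsmul_eq_mul, ← mul_assoc, inv_mul_cancel₀, one_mul]
        have : 0 < Fintype.card (Fin J → Fin L) := Fintype.card_pos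
        positivity
      rw [h3, norm_neg, Real.norm_eq_abs, sq_abs]
    refine (Finset.sum_le_sum h2).trans ?_
    exact Finset.sum_le_sum_of_subset_of_nonneg (Finset.filter_subset _ _)
      fun _ _ _ => sq_nonneg _
  have hcard : ((univ.filter fun q : (Fin J → G) × G =>
      ∀ i : Fin J → Fin L, q.2 * blk w q.1 i ∉ K0).card : ℝ) =
      ∑ z : Fin J → G,
        ((univ.filter fun c : G => ∀ i : Fin J → Fin L, c * blk w z i ∉ K0).card : ℝ) := by
    rw [Finset.card_filter, Nat.cast_sum, Fintype.sum_prod_type]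
    refine Finset.sum_congr rfl fun z _ => ?_
    rw [Finset.card_filter, Nat.cast_sum]
  have hsum : ((univ.filter fun q : (Fin J → G) × G =>
      ∀ i : Fin J → Fin L, q.2 * blk w q.1 i ∉ K0).card : ℝ) * p ^ 2 ≤
      (Fintype.card (Fin J → G) : ℝ) * ((1 / L + θ) ^ J * k0) := by
    rw [hcard, Finset.sum_mul]
    refine (Finset.sum_le_sum fun z _ => hbad z).trans ?_
    rw [sec_mom hO w J f]
    refine mul_le_mul_of_nonneg_left ?_ (by positivity)
    have h1 := (Hit_abar_pow x L hL θ hθ0 hgap f hf0 J).2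
    have h2 := real_inner_le_norm f ((abar (regR G) w ^ J) f)
    refine h2.trans ?_
    calc ‖f‖ * ‖(abar (regR G) w ^ J) f‖ ≤ ‖f‖ * ((1 / L + θ) ^ J * ‖f‖) :=
          mul_le_mul_of_nonneg_left h1 (norm_nonneg _)
      _ = (1 / L + θ) ^ J * ‖f‖ ^ 2 := by ring
      _ ≤ (1 / L + θ) ^ J * k0 := mul_le_mul_of_nonneg_left hfn (by positivity)
  have hfin : (1 / L + θ) ^ J * (n / k0) * (Fintype.card ((Fin J → G) × G) : ℝ) * p ^ 2 =
      (Fintype.card (Fin J → G) : ℝ) * ((1 / L + θ) ^ J * k0) := by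
    rw [Fintype.card_prod, Nat.cast_mul, ← hn, hp]
    field_simp
  have hp2 : 0 < p ^ 2 := by positivity
  refine le_of_mul_le_mul_right ?_ hp2
  rw [hfin]
  exact hsum

end Pool.Agent.RCG
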