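import Pool.Agent.W_MP_6acff7_h70.Prob
import Pool.Agent.W_MP_6acff7_h70.Gap
import Pool.Agent.W_MP_6acff7_h70.Hit
import Pool.Agent.W_MP_6acff7_h70.Cent
import Pool.Agent.W_MP_6acff7_h70.ClassK

/-!
# Step H: an element moving exactly `j` points

PROOF.  `x ∈ S` with `|shortPts x (L * R0)| ≤ T`.  For `1 ≤ k < L`: `fixN (x^k) ≤ T ≤ κ^12 n` (`k ≤ L ≤ L R0`), and
`shortPts (x^k) R0 ⊆ shortPts x (L R0)`, so `|C(x^k)| ≤ n^(T + n/R0)` (`card_centralizer_le`, `n ≥ 1`), so by `gap` with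
`θ = 6κ` the hypothesis of `hit` holds.  Apply `hit` with `K0` of `classK`,
`|A n|/|K0| ≤ n²/2`.  For `z : Fin (J+1) → A n` use `Fin.init z : Fin J → A n` as the letters and `c = z (Fin.last J)`
(`Fin.snocEquiv`/`Fin.init_snoc`, reindexing of `pr`).  If `c * blk w z i ∈ K0` put `h = (c * blk w z i)^(2*(n/2) - j)`:
support of size `j`, and `WL (S ∪ range z) (n * (1 + J * (L + 1))) h`: `WL.blk` with `l = L`
(`x^i` has length `i ≤ L`), `WL.pow` and `2*(n/2) - j ≤ n`.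
-/

open Finset

namespace Pool.Agent.RCG

variable {n : ℕ}

private def StepH_equiv (α : Type*) (J : ℕ) : (Fin (J + 1) → α) ≃ (Fin J → α) × α where
  toFun z := (Fin.init z, z (Fin.last J))
  invFun p := Fin.snoc p.1 p.2
  left_inv z := by simp
  right_inv p := by
    rcases p with ⟨a, b⟩
    simp

private theorem StepH_short {x : A n} {k R0 L : ℕ} (hk1 : 1 ≤ k) (hkL : k ≤ L) :
    (shortPts (x ^ k).1 R0).card ≤ (shortPts x.1 (L * R0)).card := by
  classical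
  apply Finset.card_le_card
  intro p hp
  simp only [shortPts, Finset.mem_filter, Finset.mem_univ, true_and] at hp ⊢
  obtain ⟨r, hr1, hr2, hr3⟩ := hp
  refine ⟨k * r, Nat.mul_pos hk1 hr1, Nat.mul_le_mul hkL hr2, ?_⟩
  have h1 : (x ^ k).1 = x.1 ^ k := rfl
  rw [h1, ← pow_mul] at hr3
  exact hr3

private theorem StepH_fix {x : A n} {k R0 L : ℕ} (hk1 : 1 ≤ k) (hkL : k ≤ L) (hR0 : 1 ≤ R0) :
    fixN (x ^ k).1 ≤ (shortPts x.1 (L * R0)).card := by
  classical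
  apply Finset.card_le_card
  intro p hp
  simp only [shortPts, Finset.mem_filter, Finset.mem_univ, true_and] at hp ⊢
  refine ⟨k, hk1, ?_, hp⟩
  calc k ≤ L := hkL
    _ = L * 1 := (mul_one L).symm
    _ ≤ L * R0 := Nat.mul_le_mul_left L hR0

theorem stepH {j L R0 T b0 J : ℕ} (κ : ℝ) (hκ0 : 0 < κ) (h6 : 6 * κ ≤ 1) (hL : 1 ≤ L)
    (hR0 : 1 ≤ R0) (hn : 4 * b0 + 4 ≤ n) (h4 : 4 * (b0 : ℝ) ≤ κ ^ 12 * n)
    (hT : (T : ℝ) ≤ κ ^ 12 * n)
    (hC : (n : ℝ) ^ (T + n / R0) ≤ (6 * κ) ^ 2 * 3 ^ (b0 / 4))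
    (hj : 2 ≤ j) (hj2 : 2 * j < 2 * (n / 2)) (hnd : ¬ j ∣ 2 * (n / 2)) :
    Step n (J + 1) ((1 / L + 6 * κ) ^ J * ((n : ℝ) ^ 2 / 2)) (HasX n (L * R0) T)
      (HasH n j (n * (1 + J * (L + 1)))) := by
  classical
  rintro S ⟨x, hxS, hxT⟩
  have hn1 : 1 ≤ n := by omega
  have hgap : ∀ k, 1 ≤ k → k < L → ∀ u : EuclideanSpace ℝ (A n), ∑ c, u c = 0 →
      ‖cavg (regR (A n)) (x ^ k) u‖ ≤ 6 * κ * ‖u‖ := by
    intro k hk1 hkL u hu
    refine gap (x ^ k) κ (6 * κ) hκ0 h6 le_rfl hn h4 ?_ ?_ u hu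
    · refine le_trans ?_ hT
      exact_mod_cast (StepH_fix hk1 hkL.le hR0).trans hxT
    · refine le_trans ?_ hC
      have h1 := card_centralizer_le (x ^ k) R0 hR0
      have h2 : n ^ ((shortPts (x ^ k).1 R0).card + n / R0) ≤ n ^ (T + n / R0) :=
        Nat.pow_le_pow_right hn1 (Nat.add_le_add_right ((StepH_short hk1 hkL.le).trans hxT) _)
      exact_mod_cast h1.trans h2
  obtain ⟨K0, hK1, hK2⟩ := classK (n := n) hj hj2 hnd
  have hcard : (0 : ℝ) < Fintype.card (A n) := by exact_mod_cast Fintype.card_pos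
  have hK0 : K0.Nonempty := by
    rw [← Finset.card_pos]
    by_contra h
    have h0 : K0.card = 0 := by omega
    rw [h0] at hK1
    simp only [Nat.cast_zero, mul_zero] at hK1
    linarith
  have hK0' : (0 : ℝ) < K0.card := by exact_mod_cast hK0.card_pos
  have hhit := hit x L J hL (6 * κ) (by positivity) hgap K0 hK0
  have hratio : (Fintype.card (A n) : ℝ) / K0.card ≤ (n : ℝ) ^ 2 / 2 := by
    rw [div_le_div_iff₀ hK0' (by norm_num)]
    linarith
  let Bad : (Fin J → A n) × A n → Prop := fun q =>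
    ∀ i : Fin J → Fin L, q.2 * blk (fun i : Fin L => x ^ (i : ℕ)) q.1 i ∉ K0
  have hbad : pr Bad ≤ (1 / L + 6 * κ) ^ J * ((n : ℝ) ^ 2 / 2) := by
    have hc : (0 : ℝ) < Fintype.card ((Fin J → A n) × A n) := by exact_mod_cast Fintype.card_pos
    unfold pr
    rw [div_le_iff₀ hc]
    refine le_trans (le_of_eq ?_) (hhit.trans ?_)
    · congr!
    · apply mul_le_mul_of_nonneg_right _ hc.le
      apply mul_le_mul_of_nonneg_left hratio
      positivity
  refine le_trans ?_ hbad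
  rw [← pr_congr (StepH_equiv (A n) J) Bad]
  apply pr_mono
  intro z hz i hi
  apply hz
  have hi' := hK2 _ hi
  refine ⟨_, hi', ?_⟩
  have hxS' : x ∈ S ∪ Set.range z := Or.inl hxS
  have hc : WL (S ∪ Set.range z) 1 (StepH_equiv (A n) J z).2 :=
    WL.of_mem (Or.inr ⟨Fin.last J, rfl⟩)
  have hb : WL (S ∪ Set.range z) (J * (L + 1))
      (blk (fun i : Fin L => x ^ (i : ℕ)) (StepH_equiv (A n) J z).1 i) := by
    apply WL.blk
    · intro i
      have h1 := WL.pow (WL.of_mem hxS') (i : ℕ)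
      exact WL.mono subset_rfl (by have := i.2; omega) h1
    · intro k
      exact Or.inr ⟨k.castSucc, rfl⟩
  have h3 := WL.pow (WL.mul hc hb) (2 * (n / 2) - j)
  refine WL.mono subset_rfl (Nat.mul_le_mul_right _ ?_) h3
  omega

end Pool.Agent.RCG
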