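import Pool.Agent.W_MP_6acff7_h70.StepAB
import Pool.Agent.W_MP_6acff7_h70.StepH
import Pool.Agent.W_MP_6acff7_h70.StepC
import Pool.Agent.W_MP_6acff7_h70.ParamAX
import Pool.Agent.W_MP_6acff7_h70.ParamB
import Pool.Agent.W_MP_6acff7_h70.ParamJ
import Pool.Agent.W_MP_6acff7_h70.ParamH
import Pool.Agent.W_MP_6acff7_h70.ParamC
import Pool.Agent.W_MP_6acff7_h70.ParamLen

/-!
# The main theorem in the language of steps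

PROOF.  `stepA` (1 letter) gives `HasX n (L R0) T`; `hasFam_of_hasX` adds `HasFam n φ N 20` (`L = N`);
`stepB_iter` with `Step.and_right` (`t` letters) gives `HasX` and `HasFam n φ ((N+1)^(t+1) - 1) c`, `c = n^(1-35δ/2)`
(`paramB'`); `stepH` with `Step.and_right` (`J + 1` letters) gives `HasH n j (n (1 + J (L+1)))` and `HasFam`; `stepC` (`J` letters)
gives `HasAll n (4K(lh + 2 J (l+1)))`, at most `n^(1+22δ)` by `paramLen`.  Total number of letters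
`1 + t + (J+1) + J`; `Step.comp`; `ε n` = sum of the four failure probabilities.
-/

open Finset Filter Topology

namespace Pool.Agent.RCG

/-- The main theorem in the language of steps. -/
theorem main_step {δ : ℝ} (hδ : 0 < δ) (hδ' : δ ≤ 1 / 40) :
    ∃ ε : ℕ → ℝ, Tendsto ε atTop (𝓝 0) ∧
      ∀ᶠ n : ℕ in atTop, Step n (1 + ⌈1 / δ⌉₊ + (⌈5 / (2 * δ)⌉₊ + 1) + ⌈5 / (2 * δ)⌉₊) (ε n)
        (fun _ => True) (HasAll n ⌊(n : ℝ) ^ (1 + 22 * δ)⌋₊) := by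
  obtain ⟨hA1, hA2, hA3⟩ := paramA hδ hδ'
  obtain ⟨hX1, hX2, hX3, hX4⟩ := paramX hδ hδ'
  obtain ⟨hB1, hB2, hB3, hB4, hB5⟩ := paramB hδ hδ'
  have hB6 := paramB' hδ hδ'
  have hpj := paramj hδ hδ'
  obtain ⟨hH1, hH2, hH3, hH4⟩ := paramH hδ hδ'
  obtain ⟨hC1, hC2, ε4, hε4, hC3⟩ := paramC hδ hδ'
  have hLen := paramLen hδ hδ'
  have hexp : Tendsto (fun n : ℕ => (⌈1 / δ⌉₊ : ℝ) * Real.exp (-(n : ℝ) ^ (δ / 2))) atTop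
      (𝓝 0) := by
    have h1 : Tendsto (fun n : ℕ => (n : ℝ) ^ (δ / 2)) atTop atTop :=
      (tendsto_rpow_atTop (by positivity)).comp tendsto_natCast_atTop_atTop
    have h2 := (Real.tendsto_exp_neg_atTop_nhds_zero.comp h1).const_mul (⌈1 / δ⌉₊ : ℝ)
    rw [mul_zero] at h2
    exact h2
  refine ⟨fun n : ℕ => (((⌈(n : ℝ) ^ δ⌉₊ * ⌊(n : ℝ) ^ (1 / 2 : ℝ)⌋₊ : ℕ) : ℝ) /
      (⌊(n : ℝ) ^ (3 / 5 : ℝ)⌋₊ : ℕ)) + (⌈1 / δ⌉₊ : ℝ) * Real.exp (-(n : ℝ) ^ (δ / 2)) +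
      (1 / ((⌈(n : ℝ) ^ δ⌉₊ : ℕ) : ℝ) + 6 * (n : ℝ) ^ (-7 * δ / 6)) ^ ⌈5 / (2 * δ)⌉₊ *
      ((n : ℝ) ^ 2 / 2) + ε4 n, ?_, ?_⟩
  · have h := ((hA1.add hexp).add hH4).add hε4
    rw [add_zero, add_zero, add_zero] at h
    exact h
  · filter_upwards [hA2, hA3, hX1, hX2, hX3, hX4, hB1, hB2, hB3, hB4, hB5, hB6, hpj, hH1, hH2,
      hH3, hC1, hC2, hC3, hLen] with n hA2 hA3 hX1 hX2 hX3 hX4 hB1 hB2 hB3 hB4 hB5 hB6 hpj hH1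
      hH2 hH3 hC1 hC2 hC3 hLen
    obtain ⟨j, hj3, hj2, hjd, hjn, hju, hjl⟩ := hpj
    obtain ⟨hκ0, h6, hR0, hκφ⟩ := hH1
    obtain ⟨hC1a, hC1b⟩ := hC1 j hju
    have hKle := hC2 j hjl
    have hC3' := hC3 j ⌈6 * ((n : ℝ) / j) * Real.log n + 1⌉₊ hKle
    have hLen' := hLen ⌈6 * ((n : ℝ) / j) * Real.log n + 1⌉₊ hKle
    have hN4 : 4 ≤ ⌈(n : ℝ) ^ δ⌉₊ := by omega
    -- step A
    have sA := Step.weaken (P := fun _ => True)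
      (P' := fun S => HasFam n ((n : ℝ) ^ (-14 * δ)) ⌈(n : ℝ) ^ δ⌉₊ 20 S ∧
        HasX n (⌈(n : ℝ) ^ δ⌉₊ * ⌊(n : ℝ) ^ (1 / 2 : ℝ)⌋₊) ⌊(n : ℝ) ^ (3 / 5 : ℝ)⌋₊ S)
      (stepA hA2 hA3) (fun _ h => h)
      (fun S hS => ⟨hasFam_of_hasX hX1 hX2 hX3 hX4 S hS, hS⟩) le_rfl
    -- step B
    have sB0 := stepB_iter (n := n) (N := ⌈(n : ℝ) ^ δ⌉₊) (t := ⌈1 / δ⌉₊)
      (φ := (n : ℝ) ^ (-14 * δ)) (c := (n : ℝ) ^ (1 - 35 * δ / 2))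
      (ε := Real.exp (-(n : ℝ) ^ (δ / 2))) hB2 (Real.exp_pos _).le
      (fun l e e' he he' => Step.weaken (stepB hB1.1 hB1.2 hN4 hB3) (fun _ h => h)
        (fun _ h => h) (hB5 e e' he he')) hB4
    rw [min_eq_right hB6] at sB0
    have sB := Step.and_right (mono_hasX (⌈(n : ℝ) ^ δ⌉₊ * ⌊(n : ℝ) ^ (1 / 2 : ℝ)⌋₊)
      ⌊(n : ℝ) ^ (3 / 5 : ℝ)⌋₊) sB0
    -- step H
    have sH0 := stepH (n := n) (j := j) (L := ⌈(n : ℝ) ^ δ⌉₊) (R0 := ⌊(n : ℝ) ^ (1 / 2 : ℝ)⌋₊)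
      (T := ⌊(n : ℝ) ^ (3 / 5 : ℝ)⌋₊) (b0 := ⌊(n : ℝ) ^ (1 - 15 * δ)⌋₊) (J := ⌈5 / (2 * δ)⌉₊)
      ((n : ℝ) ^ (-7 * δ / 6)) hκ0 h6 hX1 hR0 hH2.1 (by rw [hκφ]; exact hH2.2)
      (by rw [hκφ]; exact hX3) hH3 (by omega) hj2 hjd
    have sH := Step.and_right (mono_hasFam ((n : ℝ) ^ (-14 * δ))
      ((⌈(n : ℝ) ^ δ⌉₊ + 1) ^ (⌈1 / δ⌉₊ + 1) - 1) ((n : ℝ) ^ (1 - 35 * δ / 2))) sH0
    -- step C
    have sC := stepC (n := n) (j := j) (J := ⌈5 / (2 * δ)⌉₊)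
      (K := ⌈6 * ((n : ℝ) / j) * Real.log n + 1⌉₊)
      (l := (⌈(n : ℝ) ^ δ⌉₊ + 1) ^ (⌈1 / δ⌉₊ + 1) - 1)
      (lh := n * (1 + ⌈5 / (2 * δ)⌉₊ * (⌈(n : ℝ) ^ δ⌉₊ + 1)))
      ((n : ℝ) ^ (-7 * δ / 6)) ((n : ℝ) ^ (-14 * δ)) ((n : ℝ) ^ (1 - 35 * δ / 2)) hκ0 h6
      hκφ.ge hj3 hjn (by rw [hκφ]; exact hC1a) hC1b (Nat.le_ceil _)
    have hAB := Step.comp sA sB (by positivity)
    have hABH := Step.comp (Step.weaken (P := fun _ => True)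
      (P' := fun S => HasX n (⌈(n : ℝ) ^ δ⌉₊ * ⌊(n : ℝ) ^ (1 / 2 : ℝ)⌋₊)
          ⌊(n : ℝ) ^ (3 / 5 : ℝ)⌋₊ S ∧
        HasFam n ((n : ℝ) ^ (-14 * δ)) ((⌈(n : ℝ) ^ δ⌉₊ + 1) ^ (⌈1 / δ⌉₊ + 1) - 1)
          ((n : ℝ) ^ (1 - 35 * δ / 2)) S) hAB (fun _ h => h) (fun _ h => ⟨h.2, h.1⟩) le_rfl) sH
      (by positivity)
    have hABHC := Step.comp hABH sC (by positivity)
    refine Step.weaken hABHC (fun _ h => h) ?_ ?_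
    · intro S hS g
      exact (hS g).mono (Set.Subset.refl _) (Nat.le_floor hLen')
    · have h0 := hC3'
      gcongr

end Pool.Agent.RCG
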