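import Pool.Agent.W_MP_6acff7_h70.Final
import Pool.Agent.W_MP_6acff7_h70.Cayley

/-!
# The theorem (statement to be handed in)

For every fixed `m ≥ 250`, if `x_1, ..., x_m` are independent uniformly random elements of `A_n = Alt(n)`, then with
probability tending to 1 as `n → ∞` the `2m`-regular Cayley graph `Cay(A_n; x_1^{±1}, ..., x_m^{±1})` is connected and
has diameter at most `(log |A_n|)^(1 + 140/m)`.

PROOF.  `δ = 25/(4m) ≤ 1/40`.  `1 + ⌈1/δ⌉ + (⌈5/(2δ)⌉ + 1) + ⌈5/(2δ)⌉ ≤ 6/δ + 5 = 24 m/25 + 5 ≤ m` (`m ≥ 125`).  By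
`main_step`, `Step.extra` (`mono_hasAll`) and `S = ∅`: with probability `≥ 1 - ε n` every element of `A n` is a word of
length at most `⌊n^(1 + 22δ)⌋` in `x`; `22 δ = 137.5/m ≤ 140/m`; `n ≤ log |A_n|` for large `n` (`|A_n| = n!/2`,
`n! ≥ (n/e)^n`), so `n^(1+22δ) ≤ (log |A_n|)^(1 + 140/m)`; `cayley_diam`.
-/

open Filter Topology

namespace Pool.Agent.RCG

private theorem main_pr_eq {α : Type*} [Fintype α] (P : α → Prop) :
    pr P = (Nat.card {x : α // P x} : ℝ) / Nat.card α := by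
  classical
  unfold pr
  rw [Nat.card_eq_fintype_card, Nat.card_eq_fintype_card, Fintype.card_subtype]

/-- `log |A_n| ≥ n` eventually. -/
theorem log_card_ge : ∀ᶠ n : ℕ in atTop,
    (n : ℝ) ≤ Real.log (Nat.card (alternatingGroup (Fin n))) := by
  have h1 : Tendsto (fun n : ℕ => (Real.exp 1) ^ n / (n.factorial : ℝ)) atTop (𝓝 0) :=
    FloorSemiring.tendsto_pow_div_factorial_atTop (Real.exp 1)
  have h2 : ∀ᶠ n : ℕ in atTop, (Real.exp 1) ^ n / (n.factorial : ℝ) < 1 / 2 :=
    h1.eventually (gt_mem_nhds (by norm_num))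
  filter_upwards [h2, eventually_ge_atTop 2] with n hn hn2
  have hf : (0 : ℝ) < (n.factorial : ℝ) := by exact_mod_cast n.factorial_pos
  rw [div_lt_iff₀ hf] at hn
  have : Nontrivial (Fin n) := Fin.nontrivial_iff_two_le.2 hn2
  have hc : 2 * Nat.card (alternatingGroup (Fin n)) = n.factorial := by
    rw [two_mul_nat_card_alternatingGroup, Nat.card_perm, Nat.card_eq_fintype_card,
      Fintype.card_fin]
  have hc' : 2 * (Nat.card (alternatingGroup (Fin n)) : ℝ) = (n.factorial : ℝ) := by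
    exact_mod_cast hc
  have he : Real.exp n ≤ (Nat.card (alternatingGroup (Fin n)) : ℝ) := by
    have : Real.exp n = (Real.exp 1) ^ n := by rw [← Real.exp_nat_mul, mul_one]
    rw [this]
    linarith
  have hp : (0 : ℝ) < (Nat.card (alternatingGroup (Fin n)) : ℝ) := lt_of_lt_of_le (Real.exp_pos _) he
  rwa [Real.le_log_iff_exp_le hp]

theorem main_result (m : ℕ) (hm : 250 ≤ m) :
    Tendsto (fun n : ℕ =>
      (Nat.card {x : Fin m → alternatingGroup (Fin n) //
          (cayleyGraph x).Connected ∧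
          ((cayleyGraph x).diam : ℝ) ≤
            Real.log (Nat.card (alternatingGroup (Fin n))) ^ (1 + 140 / (m : ℝ))} : ℝ) /
        Nat.card (Fin m → alternatingGroup (Fin n))) atTop (𝓝 1) := by
  have hm0 : (0 : ℝ) < m := by exact_mod_cast (by omega : 0 < m)
  have hmR : (250 : ℝ) ≤ m := by exact_mod_cast hm
  set δ : ℝ := 25 / (4 * m) with hδdef
  have hδ : 0 < δ := by positivity
  have hδ' : δ ≤ 1 / 40 := by
    rw [hδdef, div_le_iff₀ (by positivity)]; linarith
  have hinv : 1 / δ = 4 * m / 25 := by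
    rw [hδdef]; field_simp
  have hinv4 : 5 / (2 * δ) = 2 * m / 5 := by
    rw [hδdef]; field_simp; norm_num
  have hk : 1 + ⌈1 / δ⌉₊ + (⌈5 / (2 * δ)⌉₊ + 1) + ⌈5 / (2 * δ)⌉₊ ≤ m := by
    have a1 : (⌈1 / δ⌉₊ : ℝ) < 1 / δ + 1 := Nat.ceil_lt_add_one (by positivity)
    have a2 : (⌈5 / (2 * δ)⌉₊ : ℝ) < 5 / (2 * δ) + 1 := Nat.ceil_lt_add_one (by positivity)
    have a3 : ((1 + ⌈1 / δ⌉₊ + (⌈5 / (2 * δ)⌉₊ + 1) + ⌈5 / (2 * δ)⌉₊ : ℕ) : ℝ) ≤ (m : ℕ) := by
      push_cast
      rw [hinv] at a1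
      rw [hinv4] at a2
      rw [hinv, hinv4]
      linarith
    exact_mod_cast a3
  obtain ⟨ε, hε, hstep⟩ := main_step hδ hδ'
  obtain ⟨r, hr⟩ := Nat.exists_eq_add_of_le hk
  have hexp : 1 + 22 * δ ≤ 1 + 140 / (m : ℝ) := by
    have h0 : 22 * δ = (137.5 : ℝ) / m := by
      rw [hδdef]; field_simp; norm_num
    rw [h0]
    have h1 : (137.5 : ℝ) / m ≤ 140 / m := div_le_div_of_nonneg_right (by norm_num) hm0.le
    linarith
  -- lower bound
  have hlow : ∀ᶠ n : ℕ in atTop, 1 - ε n ≤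
      (Nat.card {x : Fin m → alternatingGroup (Fin n) //
          (cayleyGraph x).Connected ∧
          ((cayleyGraph x).diam : ℝ) ≤
            Real.log (Nat.card (alternatingGroup (Fin n))) ^ (1 + 140 / (m : ℝ))} : ℝ) /
        Nat.card (Fin m → alternatingGroup (Fin n)) := by
    filter_upwards [hstep, log_card_ge, eventually_ge_atTop 1] with n hn hlog hn1
    have h1 := Step.extra (mono_hasAll _) hn r
    rw [← hr] at h1
    have h2 := h1 ∅ trivial
    rw [pr_not] at h2
    have h3 : pr (fun z : Fin m → A n => HasAll n ⌊(n : ℝ) ^ (1 + 22 * δ)⌋₊ (∅ ∪ Set.range z)) ≤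
        pr (fun x : Fin m → A n => (cayleyGraph x).Connected ∧
          ((cayleyGraph x).diam : ℝ) ≤
            Real.log (Nat.card (alternatingGroup (Fin n))) ^ (1 + 140 / (m : ℝ))) := by
      refine pr_mono fun x hx => ?_
      rw [Set.empty_union] at hx
      have h4 := cayley_diam x hx
      refine ⟨h4.1, ?_⟩
      have h5 : ((cayleyGraph x).diam : ℝ) ≤ (⌊(n : ℝ) ^ (1 + 22 * δ)⌋₊ : ℝ) := by
        exact_mod_cast h4.2
      have h6 : (⌊(n : ℝ) ^ (1 + 22 * δ)⌋₊ : ℝ) ≤ (n : ℝ) ^ (1 + 22 * δ) :=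
        Nat.floor_le (by positivity)
      have h7 : (n : ℝ) ^ (1 + 22 * δ) ≤
          Real.log (Nat.card (alternatingGroup (Fin n))) ^ (1 + 22 * δ) :=
        Real.rpow_le_rpow (Nat.cast_nonneg _) hlog (by positivity)
      have h9 : (1 : ℝ) ≤ Real.log (Nat.card (alternatingGroup (Fin n))) :=
        le_trans (by exact_mod_cast hn1) hlog
      exact h5.trans (h6.trans (h7.trans (Real.rpow_le_rpow_of_exponent_le h9 hexp)))
    have h8 : pr (fun x : Fin m → A n => (cayleyGraph x).Connected ∧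
          ((cayleyGraph x).diam : ℝ) ≤
            Real.log (Nat.card (alternatingGroup (Fin n))) ^ (1 + 140 / (m : ℝ))) =
        (Nat.card {x : Fin m → alternatingGroup (Fin n) //
          (cayleyGraph x).Connected ∧
          ((cayleyGraph x).diam : ℝ) ≤
            Real.log (Nat.card (alternatingGroup (Fin n))) ^ (1 + 140 / (m : ℝ))} : ℝ) /
        Nat.card (Fin m → alternatingGroup (Fin n)) := by
      exact main_pr_eq _
    rw [← h8]
    linarith
  have hup : ∀ n : ℕ,
      (Nat.card {x : Fin m → alternatingGroup (Fin n) //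
          (cayleyGraph x).Connected ∧
          ((cayleyGraph x).diam : ℝ) ≤
            Real.log (Nat.card (alternatingGroup (Fin n))) ^ (1 + 140 / (m : ℝ))} : ℝ) /
        Nat.card (Fin m → alternatingGroup (Fin n)) ≤ 1 := by
    intro n
    refine div_le_one_of_le₀ ?_ (Nat.cast_nonneg _)
    exact_mod_cast Finite.card_subtype_le _
  have hlim : Tendsto (fun n => 1 - ε n) atTop (𝓝 1) := by
    simpa using hε.const_sub 1
  exact tendsto_of_tendsto_of_tendsto_of_le_of_le' hlim tendsto_const_nhds hlow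
    (Eventually.of_forall hup)

end Pool.Agent.RCG
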