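import Pool.Agent.W_MP_6acff7_h70.LowEig
import Pool.Agent.W_MP_6acff7_h70.Levels
import Pool.Agent.W_MP_6acff7_h70.Spec

/-!
# Norm of a class average on level `b`

PROOF.  `spec_bound` with `L = Fsub ρ b ⊓ (Fsub ρ (b-1))ᗮ`; `cavg ρ g` preserves `L`: it preserves
`Fsub ρ b` (a combination of `ρ a`, `Fsub_inv`) and `(Fsub ρ (b-1))ᗮ` (`perp_inv`).
Let `cavg ρ g u = lam • u`, `0 ≠ u ∈ L`.  `V = L ⊓ ker (cavg ρ g - lam)` is invariant (`cavg_comm`),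
`≠ ⊥`, `≤ Fsub ρ b`; `exists_fixed` gives `0 ≠ f ∈ V` fixed by `A_B`, `|B| = b`.  `low_eig` with
`W = V`: `hlev` holds because `V ≤ (Fsub ρ (b-1))ᗮ` (`perp_no_fixed`).
-/

open Finset

namespace Pool.Agent.RCG

/-- A class average preserves every invariant subspace. -/
theorem NormLevel_cavg_mem {n : ℕ} {E : Type*} [NormedAddCommGroup E] [InnerProductSpace ℝ E]
    (ρ : A n →* Module.End ℝ E) (L : Submodule ℝ E) (hL : ∀ a : A n, ∀ u ∈ L, ρ a u ∈ L)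
    (g : A n) (u : E) (hu : u ∈ L) : cavg ρ g u ∈ L := by
  unfold cavg
  rw [LinearMap.smul_apply, LinearMap.sum_apply]
  refine L.smul_mem _ (L.sum_mem fun z _ => ?_)
  rw [LinearMap.add_apply]
  exact L.add_mem (hL _ _ hu) (hL _ _ hu)

theorem norm_level {n : ℕ} {E : Type*} [NormedAddCommGroup E] [InnerProductSpace ℝ E]
    [FiniteDimensional ℝ E] {ρ : A n →* Module.End ℝ E} (hρ : Orth ρ) {b : ℕ} (hb : 1 ≤ b)
    (hn : 4 * b + 4 ≤ n) (g : A n) (κ : ℝ) (hκ0 : 0 < κ) (hκ1 : κ ≤ 1)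
    (h4 : 4 * (b : ℝ) ≤ κ ^ 12 * n) (hfix : (fixN g.1 : ℝ) ≤ κ ^ 12 * n) (u : E)
    (hu : u ∈ Fsub ρ b) (hu' : u ∈ (Fsub ρ (b - 1))ᗮ) :
    ‖cavg ρ g u‖ ≤ (6 * κ) ^ b * ‖u‖ := by
  have hLinv : ∀ a : A n, ∀ v ∈ Fsub ρ b ⊓ (Fsub ρ (b - 1))ᗮ,
      ρ a v ∈ Fsub ρ b ⊓ (Fsub ρ (b - 1))ᗮ := by
    intro a v hv
    rw [Submodule.mem_inf] at hv ⊢
    exact ⟨Fsub_inv ρ b a v hv.1,
      perp_inv hρ (Fsub ρ (b - 1)) (fun g u hu => Fsub_inv ρ (b - 1) g u hu) a v hv.2⟩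
  refine spec_bound (cavg ρ g) (cavg_symm hρ g) (Fsub ρ b ⊓ (Fsub ρ (b - 1))ᗮ)
    (fun v hv => NormLevel_cavg_mem ρ _ hLinv g v hv) ((6 * κ) ^ b) (by positivity) ?_ u
    (Submodule.mem_inf.2 ⟨hu, hu'⟩)
  intro lam v hv hv0 hlam
  obtain ⟨V, hV⟩ : ∃ V : Submodule ℝ E, V = (Fsub ρ b ⊓ (Fsub ρ (b - 1))ᗮ) ⊓
      LinearMap.ker (cavg ρ g - lam • (1 : Module.End ℝ E)) := ⟨_, rfl⟩
  have hVmem : ∀ x : E, x ∈ V ↔ x ∈ Fsub ρ b ⊓ (Fsub ρ (b - 1))ᗮ ∧ cavg ρ g x = lam • x := by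
    intro x
    rw [hV, Submodule.mem_inf, LinearMap.mem_ker, LinearMap.sub_apply, sub_eq_zero,
      LinearMap.smul_apply, Module.End.one_apply]
  have hVinv : ∀ a : A n, ∀ x ∈ V, ρ a x ∈ V := by
    intro a x hx
    rw [hVmem] at hx ⊢
    refine ⟨hLinv a x hx.1, ?_⟩
    rw [cavg_comm_apply, hx.2, map_smul]
  have hV0 : V ≠ ⊥ := by
    intro h
    have h1 : v ∈ V := (hVmem v).2 ⟨hv, hlam⟩
    rw [h, Submodule.mem_bot] at h1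
    exact hv0 h1
  have hVb : V ≤ Fsub ρ b := fun x hx => (Submodule.mem_inf.1 ((hVmem x).1 hx).1).1
  obtain ⟨B, hB, f, hfV, hf0, hfB⟩ := exists_fixed hρ V hVinv hV0 b hVb
  refine low_eig hρ V hVinv hb hn ?_ g κ hκ0 hκ1 h4 hfix B hB f hfV hf0 hfB lam
    ((hVmem f).1 hfV).2
  intro B' hB' x hx hxB
  refine perp_no_fixed (b := b - 1) (by omega) B' (by omega) x
    (Submodule.mem_inf.1 ((hVmem x).1 hx).1).2 hxB

end Pool.Agent.RCG
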