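import Pool.Agent.W_MP_6acff7_h70.Trans
import Pool.Agent.W_6acff7_h22.RevC

/-!
# The revealing lemma: words with a repeated letter

Let `y` be uniform in `A n`, `w = wd a y = a_0 y a_1 y ⋯ y a_N`, `w' = wd a' y`,
`κ(y) = fixN (w⁻¹ w')/n = #{t | w t = w' t}/n`.

NOTATION.  A partial injection is a finite set of arcs `P ⊆ Fin n × Fin n` (or a pair of injective
tuples of the same length `e = |P|`); `Y(P) = {y : A n | ∀ (u, x) ∈ P, y u = x}`; for `|P| + 2 ≤ n`
`|Y(P)| = |A n|/(n)_e` depends only on `e` (`card_act_eq`), write `c_e`.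
ONE STEP: if `|P| + 3 ≤ n` and `v ∉ dom P`, then `Y(P)` is the disjoint union over the `n - |P|` points
`x ∉ ran P` of `Y(P ∪ {(v,x)})`, and `c_{e+1} = c_e/(n - e)`.

CLAIM.  For all `j ≤ M` and all `P` with `|P| + 2 N j ≤ 2 N M`:
`∑_{y ∈ Y(P)} κ(y)^j ≤ θ^j c_{|P|}`, `θ = (2φ)^γ + (N+1) η`, `η = (8NM+10)/n`.
(`P = ∅`, `j = M` is the theorem.)  Induction on `j`; `j = 0` trivial.  Step: let `F(y) = κ(y)^(j-1)`, so
`∑_{y ∈ Y(P')} F(y) ≤ Φ c_{|P'|}` with `Φ = θ^(j-1)` for every `P'` with `|P'| + 2N(j-1) ≤ 2NM`, in particular for all `P'`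
with `|P'| ≤ |P| + 2N`.  And `κ(y)^j = (1/n) ∑_t F(y) 1[w t = w' t]`.
For `k ≤ N` let `R_k(y) = a_0 y a_1 y ⋯ a_{k-1} y` (`R_0 = 1`), `R'_k` the same with `a'`; so `w = R_N a_N`, and
`R_{k}(y) v = R_{k-1}(y) (a_{k-1} (y v))`.
(D) for `v ≠ v'`, both not in `dom P`, `|P| + 2k + 2N(j-1) ≤ 2NM`:
   `∑_{y ∈ Y(P)} F(y) 1[R_k v = R'_k v'] ≤ Φ k η c_{|P|}`.
   Induction on `k`, for all `P, v, v'`.  `k = 0`: the indicator is `0` as `v ≠ v'`.  `k ≥ 1`: split over
   `x = y v`, `x' = y v'` (two applications of ONE STEP; `x' ≠ x`), `P' = P ∪ {(v,x),(v',x')}`,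
   `u = a_{k-1} x`, `u' = a'_{k-1} x'`.  If `u ≠ u'` and `u, u' ∉ dom P'` use induction (`≤ Φ (k-1) η c_{|P|+2}`).  Otherwise
   (bad) bound the indicator by 1 and use `Φ c_{|P|+2}`.  Among the `(n-|P|)(n-|P|-1)` pairs `(x,x')` the number
   of bad ones is at most `(2(|P|+2) + 1)(n-|P|)`, a proportion of at most `(2(|P|+2)+1)/(n-|P|-1)`, and
   `n - |P| - 1 ≥ n/2`, `2(|P|+2)+1 ≤ 4NM + 5`, so the proportion is at most `η`.
(M) for `v ∉ dom P`, `g_k` = number of good indices (`fixN ((a i)⁻¹ a' i) ≤ φ n`) among `0..k-1`: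
   `∑_{y ∈ Y(P)} F(y) 1[R_k v = R'_k v] ≤ Φ ((2φ)^{g_k} + k η) c_{|P|}`.
   Induction on `k`.  `k = 0`: bound `Φ c_{|P|}`.  `k ≥ 1`: split over `x = y v`; `P' = P ∪ {(v,x)}`,
   `u = a_{k-1} x`, `u' = a'_{k-1} x`.  If `u ∈ dom P'` or `u' ∈ dom P'` (at most `2(|P|+1)` of `n - |P|` values
   `x`, proportion `≤ η`): bound by `Φ c`.  Else if `u ≠ u'`: (D), `≤ Φ (k-1) η c`.
   Else `u = u'`: induction, `≤ Φ ((2φ)^{g_{k-1}} + (k-1) η) c`; and if `k-1` is good the proportion of such `x`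
   (`(a_{k-1})⁻¹ a'_{k-1} x = x`) is at most `φ n/(n - |P|) ≤ 2φ`.
   Total `≤ Φ (η + (k-1) η + (2φ)^{g_k}) c`.  (Uses `2φ ≤ 1` only in the end.)
START: `t` uniform in `Fin n`: `v = a_N t`, `v' = a'_N t`; `v` or `v'` in `dom P` for at most `2|P| ≤ η n` values of `t`;
   then as in (M) with `k = N` remaining steps: total `≤ Φ (η + N η + (2φ)^{g_{N+1}}) ≤ Φ θ` since
   `g_{N+1} ≥ γ`, `2φ ≤ 1`.
-/

open Finset

namespace Pool.Agent.RCG

/-- A product `b_0 y b_1 y ⋯` as a walk. -/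
theorem reveal_run {Ω : Type*} (y : Equiv.Perm Ω) (L : List (Equiv.Perm Ω)) :
    ∀ v : Ω, (L.map fun b => b * y).prod v = _root_.RCG.run y v L.reverse := by
  induction L using List.reverseRecOn with
  | nil => intro v; rfl
  | append_singleton L b ih =>
    intro v
    rw [List.map_append, List.prod_append, List.reverse_append, Equiv.Perm.mul_apply]
    have h1 : (([b].map fun b => b * y).prod) v = b (y v) := by simp
    rw [h1, ih]
    rfl

theorem reveal_good {Ω : Type*} [Fintype Ω] [DecidableEq Ω] (φ : ℝ) : ∀ (m : ℕ)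
    (f f' : Fin m → Equiv.Perm Ω), _root_.RCG.good φ (List.ofFn f) (List.ofFn f') =
      (univ.filter fun k => (_root_.RCG.fixc ((f k)⁻¹ * f' k) : ℝ) ≤ φ * Fintype.card Ω).card := by
  classical
  intro m
  induction m with
  | zero =>
    intro f f'
    simp [_root_.RCG.good]
  | succ m ih =>
    intro f f'
    rw [List.ofFn_succ, List.ofFn_succ, Fin.card_filter_univ_succ]
    show (if (_root_.RCG.fixc ((f 0)⁻¹ * f' 0) : ℝ) ≤ φ * Fintype.card Ω then 1 else 0) +
      _root_.RCG.good φ (List.ofFn fun i => f i.succ) (List.ofFn fun i => f' i.succ) = _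
    rw [ih]
    split_ifs with h1 <;> simp [add_comm]

theorem reveal_wd {n N : ℕ} (a : Fin (N + 1) → A n) (y : A n) (t : Fin n) :
    (wd a y).1 t = _root_.RCG.run y.1 ((a (Fin.last N)).1 t)
      (List.ofFn fun k : Fin N => (a k.castSucc).1).reverse := by
  have h1 : ((List.ofFn fun k : Fin N => a k.castSucc * y).prod).1 =
      ((List.ofFn fun k : Fin N => (a k.castSucc).1).map fun b => b * y.1).prod := by
    rw [List.map_ofFn]
    have h2 := map_list_prod (alternatingGroup (Fin n)).subtype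
      (List.ofFn fun k : Fin N => a k.castSucc * y)
    rw [List.map_ofFn] at h2
    exact h2
  unfold wd
  show (((List.ofFn fun k : Fin N => a k.castSucc * y).prod).1 * (a (Fin.last N)).1) t = _
  rw [Equiv.Perm.mul_apply, h1, reveal_run]

theorem reveal_list {n N : ℕ} (a : Fin (N + 1) → A n) :
    (a (Fin.last N)).1 :: (List.ofFn fun k : Fin N => (a k.castSucc).1).reverse =
      List.ofFn fun k : Fin (N + 1) => (a k.rev).1 := by
  have h1 : (List.ofFn fun k : Fin (N + 1) => (a k).1).reverse =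
      List.ofFn fun k : Fin (N + 1) => (a k.rev).1 := by
    refine List.ext_getElem (by simp) fun i h2 h3 => ?_
    rw [List.getElem_reverse, List.getElem_ofFn, List.getElem_ofFn]
    congr 2
    apply Fin.ext
    simp [Fin.rev]
  rw [← h1, List.ofFn_succ', List.concat_eq_append, List.reverse_append]
  rfl

theorem reveal_kap {n N : ℕ} (a a' : Fin (N + 1) → A n) (y : A n) :
    (fixN ((wd a y)⁻¹ * wd a' y).1 : ℝ) / n =
      _root_.RCG.kap y.1 (a (Fin.last N)).1 (a' (Fin.last N)).1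
        (List.ofFn fun k : Fin N => (a k.castSucc).1).reverse
        (List.ofFn fun k : Fin N => (a' k.castSucc).1).reverse := by
  unfold _root_.RCG.kap
  rw [Fintype.card_fin]
  congr 1
  rw [fixN, ← _root_.RCG.sum_ind]
  refine sum_congr rfl fun t _ => ?_
  congr 1
  rw [← reveal_wd, ← reveal_wd, mem_filter]
  have h1 : ((wd a y)⁻¹ * wd a' y).1 t = (wd a y).1⁻¹ ((wd a' y).1 t) := rfl
  rw [h1, Equiv.Perm.inv_eq_iff_eq]
  simp only [mem_univ, true_and, eq_iff_iff]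
  exact eq_comm

theorem reveal_av {n : ℕ} (F : Equiv.Perm (Fin n) → ℝ) :
    ∑ y : A n, F y.1 = _root_.RCG.av ∅ F * Fintype.card (A n) := by
  have h1 : ∀ G : Equiv.Perm (Fin n) → ℝ, ∑ y : A n, G y.1 =
      ∑ h ∈ _root_.RCG.stab (∅ : Finset (Fin n)), G h := by
    intro G
    refine sum_bij (fun y _ => y.1) ?_ ?_ ?_ ?_
    · intro y _
      rw [_root_.RCG.mem_stab]
      exact ⟨Equiv.Perm.mem_alternatingGroup.1 y.2, fun x hx => absurd hx (notMem_empty x)⟩
    · intro y _ z _ h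
      exact Subtype.ext h
    · intro h hh
      exact ⟨⟨h, Equiv.Perm.mem_alternatingGroup.2 (_root_.RCG.mem_stab.1 hh).1⟩, mem_univ _, rfl⟩
    · intro y _
      rfl
  have h2 : (Fintype.card (A n) : ℝ) = ((_root_.RCG.stab (∅ : Finset (Fin n))).card : ℝ) := by
    have h3 := h1 fun _ => 1
    simpa using h3
  rw [h1, h2]
  unfold _root_.RCG.av
  rw [div_mul_cancel₀ _ (_root_.RCG.card_stab_pos _).ne']

theorem reveal {n N M γ : ℕ} (a a' : Fin (N + 1) → A n) (φ : ℝ) (hφ : 0 ≤ φ)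
    (hφ1 : 2 * φ ≤ 1)
    (hγ : γ ≤ (univ.filter fun k => (fixN ((a k)⁻¹ * a' k).1 : ℝ) ≤ φ * n).card)
    (hNM : 4 * N * M + 4 ≤ n) :
    ∑ y : A n, ((fixN ((wd a y)⁻¹ * wd a' y).1 : ℝ) / n) ^ M ≤
      ((2 * φ) ^ γ + (N + 1) * ((8 * N * M + 10) / n)) ^ M * Fintype.card (A n) := by
  have hn : (0 : ℝ) < n := by
    have h1 : 0 < n := by omega
    exact_mod_cast h1
  have h1 : ∑ y : A n, ((fixN ((wd a y)⁻¹ * wd a' y).1 : ℝ) / n) ^ M =
      _root_.RCG.av ∅ (fun y => _root_.RCG.kap y (a (Fin.last N)).1 (a' (Fin.last N)).1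
        (List.ofFn fun k : Fin N => (a k.castSucc).1).reverse
        (List.ofFn fun k : Fin N => (a' k.castSucc).1).reverse ^ M) * Fintype.card (A n) := by
    rw [← reveal_av]
    exact sum_congr rfl fun y _ => by rw [reveal_kap]
  rw [h1]
  refine mul_le_mul_of_nonneg_right ?_ (Nat.cast_nonneg _)
  have h2 := _root_.RCG.moment_bound (Ω := Fin n) (m := 2 * N * M) (N := N)
    (η := (8 * N * M + 10) / n) (φ := φ) (by rw [Fintype.card_fin]; linarith)
    (by
      rw [Fintype.card_fin, div_mul_cancel₀ _ hn.ne']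
      push_cast
      linarith) hφ
    (l := (List.ofFn fun k : Fin N => (a k.castSucc).1).reverse)
    (l' := (List.ofFn fun k : Fin N => (a' k.castSucc).1).reverse) (by simp) (by simp)
    (a (Fin.last N)).1 (a' (Fin.last N)).1 M ∅ 1 (by simp)
  simp only [one_mul] at h2
  refine h2.trans ?_
  rw [reveal_list, reveal_list, reveal_good]
  have h3 : γ ≤ (univ.filter fun k : Fin (N + 1) =>
      (_root_.RCG.fixc ((a k.rev).1⁻¹ * (a' k.rev).1) : ℝ) ≤ φ * Fintype.card (Fin n)).card := by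
    refine hγ.trans (le_of_eq ?_)
    refine card_bij (fun k _ => k.rev) ?_ ?_ ?_
    · intro k hk
      rw [mem_filter] at hk ⊢
      refine ⟨mem_univ _, ?_⟩
      rw [Fin.rev_rev, Fintype.card_fin]
      exact hk.2
    · intro k _ k' _ h
      exact Fin.rev_injective h
    · intro k hk
      rw [mem_filter] at hk
      refine ⟨k.rev, ?_, Fin.rev_rev k⟩
      rw [mem_filter]
      refine ⟨mem_univ _, ?_⟩
      rw [Fintype.card_fin] at hk
      exact hk.2
  have h4 : (2 * φ) ^ (univ.filter fun k : Fin (N + 1) =>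
      (_root_.RCG.fixc ((a k.rev).1⁻¹ * (a' k.rev).1) : ℝ) ≤ φ * Fintype.card (Fin n)).card ≤
      (2 * φ) ^ γ := pow_le_pow_of_le_one (by positivity) hφ1 h3
  exact pow_le_pow_left₀ (by positivity) (by linarith) M

end Pool.Agent.RCG
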