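import Pool.Agent.W_MP_6acff7_h70.Trans

/-!
# Products of disjoint 3-cycles as products of two conjugates

`IsTri t τ`: `τ` is the product of the `i` disjoint 3-cycles
`t (k,0) → t (k,1) → t (k,2) → t (k,0)`.

`tri_conj` PROOF.  `s` enumerates the support of `h`.  Choose `I ⊆ supp h`, `|I| = i`, `I ∩ h(I) = ∅` (take `I` maximal with
this property: `supp h ⊆ I ∪ h(I) ∪ h⁻¹(I)`, so `|I| ≥ j/3`; shrink it), and an injection `r` from `I` to the complement of
`supp h` (`n - j ≥ i`).  `k` = the involution exchanging `p` and `r p` for `p ∈ I`.  Then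
`h k h⁻¹ k⁻¹` maps `p → h p → r p → p` for `p ∈ I` and fixes all other points.  (`h k h⁻¹` exchanges `h p` and
`r p`.)  Let `α` be a permutation of `Fin n` with `α p_m = t (m,0)`, `α (h p_m) = t (m,1)`,
`α (r p_m) = t (m,2)` (`p_m` enumerates `I`; extend an injection to a permutation, `Equiv.Perm.extendSubtype` or
`Function.Embedding` extension).  Then `τ = (α h α⁻¹) (α k h⁻¹ k⁻¹ α⁻¹)`.
Put `c = α ∘ s`, `c' = α ∘ k ∘ s`.  If `σ ∘ s = c` then `α⁻¹ σ` fixes `supp h` pointwise, so commutes with `h`, and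
`σ h σ⁻¹ = α h α⁻¹`; likewise `σ' h⁻¹ σ'⁻¹ = (α k) h⁻¹ (α k)⁻¹`.
-/

open Finset

namespace Pool.Agent.RCG

/-- `τ` is the product of the disjoint 3-cycles given by `t`. -/
def IsTri {n i : ℕ} (t : Fin i × ZMod 3 ↪ Fin n) (τ : Equiv.Perm (Fin n)) : Prop :=
  (∀ k r, τ (t (k, r)) = t (k, r + 1)) ∧ ∀ p, (∀ x, t x ≠ p) → τ p = p

theorem tri_inv_apply {n : ℕ} (σ : Equiv.Perm (Fin n)) (x : Fin n) : σ⁻¹ (σ x) = x :=
  σ.symm_apply_apply x

theorem tri_apply_inv {n : ℕ} (σ : Equiv.Perm (Fin n)) (x : Fin n) : σ (σ⁻¹ x) = x :=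
  σ.apply_symm_apply x

theorem isTri_sign {n i : ℕ} {t : Fin i × ZMod 3 ↪ Fin n} {τ : Equiv.Perm (Fin n)}
    (h : IsTri t τ) : τ ∈ alternatingGroup (Fin n) := by
  have h3 : τ ^ 3 = 1 := by
    ext p
    by_cases hp : ∃ x, t x = p
    · obtain ⟨⟨k, r⟩, rfl⟩ := hp
      have e : r + 1 + 1 + 1 = r := by
        have : (1 + 1 + 1 : ZMod 3) = 0 := by decide
        rw [add_assoc, add_assoc, ← add_assoc 1 1 1, this, add_zero]
      simp [pow_succ, Equiv.Perm.mul_apply, h.1, e]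
    · push Not at hp
      simp [pow_succ, Equiv.Perm.mul_apply, h.2 p hp]
  rw [Equiv.Perm.mem_alternatingGroup]
  have hs : (Equiv.Perm.sign τ) ^ 3 = 1 := by rw [← map_pow, h3, map_one]
  rcases Int.units_eq_one_or (Equiv.Perm.sign τ) with h1 | h1
  · exact h1
  · rw [h1] at hs
    exact absurd hs (by decide)

theorem isTri_inv {n i : ℕ} {t : Fin i × ZMod 3 ↪ Fin n} {τ : Equiv.Perm (Fin n)}
    (h : IsTri t τ) : ∃ t' : Fin i × ZMod 3 ↪ Fin n, IsTri t' τ⁻¹ := by
  refine ⟨⟨fun x => t (x.1, -x.2), ?_⟩, ?_, ?_⟩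
  · rintro ⟨a, b⟩ ⟨c, d⟩ hx
    have := t.injective hx
    simp only [Prod.mk.injEq, neg_inj] at this
    exact Prod.ext this.1 this.2
  · intro k r
    change τ⁻¹ (t (k, -r)) = t (k, -(r + 1))
    rw [Equiv.Perm.inv_eq_iff_eq, h.1]
    congr 2
    ring
  · intro p hp
    rw [Equiv.Perm.inv_eq_iff_eq]
    refine (h.2 p ?_).symm
    rintro ⟨k, r⟩ hx
    apply hp (k, -r)
    change t (k, - -r) = p
    rw [neg_neg, hx]

theorem exists_isTri {n i : ℕ} (t : Fin i × ZMod 3 ↪ Fin n) :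
    ∃ τ : Equiv.Perm (Fin n), IsTri t τ := by
  classical
  refine ⟨Equiv.Perm.viaEmbedding ((Equiv.refl (Fin i)).prodCongr (Equiv.addRight (1 : ZMod 3))) t,
    ?_, ?_⟩
  · intro k r
    rw [Equiv.Perm.viaEmbedding_apply]
    rfl
  · intro p hp
    apply Equiv.Perm.viaEmbedding_apply_of_notMem
    rintro ⟨x, hx⟩
    exact hp x hx

theorem isTri_unique {n i : ℕ} {t : Fin i × ZMod 3 ↪ Fin n} {τ τ' : Equiv.Perm (Fin n)}
    (h : IsTri t τ) (h' : IsTri t τ') : τ = τ' := by
  ext p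
  by_cases hp : ∃ x, t x = p
  · obtain ⟨⟨k, r⟩, rfl⟩ := hp
    rw [h.1, h'.1]
  · push Not at hp
    rw [h.2 p hp, h'.2 p hp]

theorem isTri_conj {n i : ℕ} {t : Fin i × ZMod 3 ↪ Fin n} {τ : Equiv.Perm (Fin n)}
    (h : IsTri t τ) (α : Equiv.Perm (Fin n)) :
    IsTri (t.trans α.toEmbedding) (α * τ * α⁻¹) := by
  constructor
  · intro k r
    change α (τ (α⁻¹ (α (t (k, r))))) = α (t (k, r + 1))
    rw [tri_inv_apply, h.1]
  · intro p hp
    change α (τ (α⁻¹ p)) = p
    rw [h.2 (α⁻¹ p) ?_, tri_apply_inv]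
    intro x hx
    apply hp x
    change α (t x) = p
    rw [hx, tri_apply_inv]

/-- In the support of a permutation there are `i` points moved off each other. -/
theorem tri_pick {n : ℕ} (σ : Equiv.Perm (Fin n)) (i : ℕ) (hi : 3 * i ≤ σ.support.card) :
    ∃ I : Finset (Fin n), I ⊆ σ.support ∧ I.card = i ∧ ∀ p ∈ I, σ p ∉ I := by
  classical
  induction i with
  | zero => exact ⟨∅, by simp, by simp, by simp⟩
  | succ i ih =>
    obtain ⟨I, hI, hIc, hId⟩ := ih (by omega)
    have hcard : (I ∪ (I.image σ ∪ I.image ⇑σ⁻¹)).card < σ.support.card := by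
      have h1 := Finset.card_union_le I (I.image σ ∪ I.image ⇑σ⁻¹)
      have h2 := Finset.card_union_le (I.image σ) (I.image ⇑σ⁻¹)
      have h3 : (I.image σ).card ≤ I.card := Finset.card_image_le
      have h4 : (I.image ⇑σ⁻¹).card ≤ I.card := Finset.card_image_le
      omega
    obtain ⟨p, hp, hpn⟩ := Finset.exists_mem_notMem_of_card_lt_card hcard
    simp only [Finset.mem_union, Finset.mem_image, not_or, not_exists, not_and] at hpn
    refine ⟨insert p I, ?_, ?_, ?_⟩
    · intro x hx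
      rcases Finset.mem_insert.1 hx with rfl | hx
      · exact hp
      · exact hI hx
    · rw [Finset.card_insert_of_notMem hpn.1, hIc]
    · intro x hx hσx
      rcases Finset.mem_insert.1 hx with rfl | hx
      · rcases Finset.mem_insert.1 hσx with h1 | h1
        · exact (Equiv.Perm.mem_support.1 hp) h1
        · apply hpn.2.2 (σ x) h1
          rw [tri_inv_apply]
      · rcases Finset.mem_insert.1 hσx with h1 | h1
        · exact hpn.2.1 x hx h1
        · exact hId x hx h1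

/-- Conjugates of `h` by two permutations which agree on the support of `h`. -/
theorem conj_eq_of_agree {n : ℕ} (h σ α : Equiv.Perm (Fin n))
    (hag : ∀ p, h p ≠ p → σ p = α p) : σ * h * σ⁻¹ = α * h * α⁻¹ := by
  have hd : Equiv.Perm.Disjoint (α⁻¹ * σ) h := by
    intro x
    by_cases hx : h x = x
    · exact Or.inr hx
    · left
      rw [Equiv.Perm.mul_apply, hag x hx, tri_inv_apply]
  have hc := hd.commute
  have hc' : α⁻¹ * σ * h = h * (α⁻¹ * σ) := hc
  calc σ * h * σ⁻¹ = α * (α⁻¹ * σ * h) * σ⁻¹ := by group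
    _ = α * (h * (α⁻¹ * σ)) * σ⁻¹ := by rw [hc']
    _ = α * h * α⁻¹ := by group

theorem tri_conj {n j i : ℕ} (h : A n) (s : Fin j ↪ Fin n)
    (hs : ∀ p, (∃ k, s k = p) ↔ h.1 p ≠ p) (hij : 3 * i ≤ j) (hjn : 2 * j ≤ n)
    (t : Fin i × ZMod 3 ↪ Fin n) (τ : Equiv.Perm (Fin n)) (hτ : IsTri t τ) :
    ∃ c c' : Fin j ↪ Fin n, ∀ σ σ' : A n, actT σ s = c → actT σ' s = c' →
      (σ * h * σ⁻¹ * (σ' * h⁻¹ * σ'⁻¹)).1 = τ := by
  classical
  -- the support of `h`
  have hsupp : h.1.support = univ.map s := by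
    ext p
    rw [Equiv.Perm.mem_support, ← hs p]
    simp
  have hcard : h.1.support.card = j := by rw [hsupp]; simp
  obtain ⟨I, hIs, hIc, hId⟩ := tri_pick h.1 i (by omega)
  -- the injection `r`
  have hcompl : i ≤ (h.1.support)ᶜ.card := by
    rw [Finset.card_compl, hcard, Fintype.card_fin]
    omega
  obtain ⟨R, hRs, hRc⟩ := Finset.exists_subset_card_eq hcompl
  let p : Fin i → Fin n := fun m => I.orderEmbOfFin hIc m
  let r : Fin i → Fin n := fun m => R.orderEmbOfFin hRc m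
  have hp_mem : ∀ m, p m ∈ I := fun m => I.orderEmbOfFin_mem hIc m
  have hr_mem : ∀ m, r m ∈ R := fun m => R.orderEmbOfFin_mem hRc m
  have hp_inj : Function.Injective p := (I.orderEmbOfFin hIc).injective
  have hr_inj : Function.Injective r := (R.orderEmbOfFin hRc).injective
  have hp_surj : ∀ x ∈ I, ∃ m, p m = x := by
    intro x hx
    have : x ∈ Set.range (I.orderEmbOfFin hIc) := by
      rw [Finset.range_orderEmbOfFin]; exact hx
    exact this
  have hr_supp : ∀ m, h.1 (r m) = r m := by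
    intro m
    have := hRs (hr_mem m)
    rw [Finset.mem_compl, Equiv.Perm.notMem_support] at this
    exact this
  have hp_supp : ∀ m, h.1 (p m) ≠ p m := fun m => Equiv.Perm.mem_support.1 (hIs (hp_mem m))
  have hhp_supp : ∀ m, h.1 (h.1 (p m)) ≠ h.1 (p m) := fun m hm => hp_supp m (h.1.injective hm)
  have hpr : ∀ m m', p m ≠ r m' := by
    intro m m' e
    apply hp_supp m
    rw [e]; exact hr_supp m'
  have hhpr : ∀ m m', h.1 (p m) ≠ r m' := by
    intro m m' e
    apply hhp_supp m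
    rw [e]; exact hr_supp m'
  have hphp : ∀ m m', h.1 (p m) ≠ p m' := by
    intro m m' e
    apply hId (p m) (hp_mem m)
    rw [e]; exact hp_mem m'
  -- the embedding `t'`
  let f : Fin i × ZMod 3 → Fin n := fun x =>
    if x.2 = 0 then p x.1 else if x.2 = 1 then h.1 (p x.1) else r x.1
  have hf0 : ∀ m, f (m, 0) = p m := fun m => by simp [f]
  have hf1 : ∀ m, f (m, 1) = h.1 (p m) := fun m => by
    have : (1 : ZMod 3) ≠ 0 := by decide
    simp [f]
  have hf2 : ∀ m, f (m, 2) = r m := fun m => by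
    have h1 : (2 : ZMod 3) ≠ 0 := by decide
    have h2 : (2 : ZMod 3) ≠ 1 := by decide
    simp [f, h1, h2]
  have hz : ∀ z : ZMod 3, z = 0 ∨ z = 1 ∨ z = 2 := by decide
  have hf_inj : Function.Injective f := by
    rintro ⟨a, b⟩ ⟨c, d⟩ hx
    rcases hz b with rfl | rfl | rfl <;> rcases hz d with rfl | rfl | rfl <;>
      simp only [hf0, hf1, hf2] at hx
    · rw [hp_inj hx]
    · exact absurd hx.symm (hphp _ _)
    · exact absurd hx (hpr _ _)
    · exact absurd hx (hphp _ _)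
    · rw [hp_inj (h.1.injective hx)]
    · exact absurd hx (hhpr _ _)
    · exact absurd hx.symm (hpr _ _)
    · exact absurd hx.symm (hhpr _ _)
    · rw [hr_inj hx]
  let t' : Fin i × ZMod 3 ↪ Fin n := ⟨f, hf_inj⟩
  -- the involution `k`
  let u : Fin i × Bool ↪ Fin n := ⟨fun x => if x.2 then r x.1 else p x.1, by
    rintro ⟨a, b⟩ ⟨c, d⟩ hx
    rcases b with _ | _ <;> rcases d with _ | _ <;> simp at hx
    · rw [hp_inj hx]
    · exact absurd hx (hpr _ _)
    · exact absurd hx.symm (hpr _ _)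
    · rw [hr_inj hx]⟩
  let k : Equiv.Perm (Fin n) := Equiv.Perm.viaEmbedding ((Equiv.refl (Fin i)).prodCongr Equiv.boolNot) u
  have hkp : ∀ m, k (p m) = r m := by
    intro m
    have := Equiv.Perm.viaEmbedding_apply ((Equiv.refl (Fin i)).prodCongr Equiv.boolNot) u
      (m, false)
    simpa [u] using this
  have hkr : ∀ m, k (r m) = p m := by
    intro m
    have := Equiv.Perm.viaEmbedding_apply ((Equiv.refl (Fin i)).prodCongr Equiv.boolNot) u
      (m, true)
    simpa [u] using this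
  have hkx : ∀ x, (∀ m, x ≠ p m) → (∀ m, x ≠ r m) → k x = x := by
    intro x h1 h2
    apply Equiv.Perm.viaEmbedding_apply_of_notMem
    rintro ⟨⟨m, b⟩, hx⟩
    rcases b with _ | _
    · exact h1 m (by simpa [u] using hx.symm)
    · exact h2 m (by simpa [u] using hx.symm)
  have hkip : ∀ m, k⁻¹ (p m) = r m := fun m => by
    rw [Equiv.Perm.inv_eq_iff_eq]; exact (hkr m).symm
  have hkir : ∀ m, k⁻¹ (r m) = p m := fun m => by
    rw [Equiv.Perm.inv_eq_iff_eq]; exact (hkp m).symm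
  have hkix : ∀ x, (∀ m, x ≠ p m) → (∀ m, x ≠ r m) → k⁻¹ x = x := fun x h1 h2 => by
    rw [Equiv.Perm.inv_eq_iff_eq]; exact (hkx x h1 h2).symm
  have hhir : ∀ m, (h.1)⁻¹ (r m) = r m := fun m => by
    rw [Equiv.Perm.inv_eq_iff_eq]; exact (hr_supp m).symm
  have htri : IsTri t' (h.1 * k * (h.1)⁻¹ * k⁻¹) := by
    constructor
    · intro m z
      change h.1 (k ((h.1)⁻¹ (k⁻¹ (f (m, z))))) = f (m, z + 1)
      rcases hz z with rfl | rfl | rfl
      · rw [hf0, zero_add, hf1, hkip, hhir, hkr]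
      · have e : (1 + 1 : ZMod 3) = 2 := by decide
        rw [hf1, e, hf2, hkix _ (fun m' => hphp m m') (fun m' => hhpr m m'),
          tri_inv_apply, hkp, hr_supp]
      · have e : (2 + 1 : ZMod 3) = 0 := by decide
        rw [hf2, e, hf0, hkir, hkx, tri_apply_inv]
        · intro m' e'
          rw [Equiv.Perm.inv_eq_iff_eq] at e'
          exact hphp m' m e'.symm
        · intro m' e'
          rw [Equiv.Perm.inv_eq_iff_eq, hr_supp] at e'
          exact hpr m m' e'
    · intro x hx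
      change h.1 (k ((h.1)⁻¹ (k⁻¹ x))) = x
      have h0 : ∀ m, x ≠ p m := fun m e => hx (m, 0) (by rw [e]; exact hf0 m)
      have h1 : ∀ m, x ≠ h.1 (p m) := fun m e => hx (m, 1) (by rw [e]; exact hf1 m)
      have h2 : ∀ m, x ≠ r m := fun m e => hx (m, 2) (by rw [e]; exact hf2 m)
      rw [hkix x h0 h2, hkx, tri_apply_inv]
      · intro m' e'
        rw [Equiv.Perm.inv_eq_iff_eq] at e'
        exact h1 m' e'
      · intro m' e'
        rw [Equiv.Perm.inv_eq_iff_eq, hr_supp] at e'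
        exact h2 m' e'
  -- the permutation `α`
  have hα : ∃ α : Equiv.Perm (Fin n), ∀ x, α (t' x) = t x := by
    let e : {y // y ∈ Set.range t'} ≃ {y // y ∈ Set.range t} :=
      (Equiv.ofInjective t' t'.injective).symm.trans (Equiv.ofInjective t t.injective)
    refine ⟨e.extendSubtype, fun x => ?_⟩
    rw [Equiv.extendSubtype_apply_of_mem e (t' x) ⟨x, rfl⟩]
    have : (⟨t' x, ⟨x, rfl⟩⟩ : {y // y ∈ Set.range t'}) =
        Equiv.ofInjective t' t'.injective x := rfl
    simp only [e, Equiv.trans_apply]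
    rw [this, Equiv.symm_apply_apply]
    rfl
  obtain ⟨α, hα⟩ := hα
  have hαt : t'.trans α.toEmbedding = t := by
    ext x
    exact congrArg Fin.val (hα x)
  have hfin : α * (h.1 * k * (h.1)⁻¹ * k⁻¹) * α⁻¹ = τ := by
    have := isTri_conj htri α
    rw [hαt] at this
    exact isTri_unique this hτ
  refine ⟨s.trans α.toEmbedding, s.trans (α * k).toEmbedding, fun σ σ' hσ hσ' => ?_⟩
  have e1 : σ.1 * h.1 * (σ.1)⁻¹ = α * h.1 * α⁻¹ := by
    apply conj_eq_of_agree
    intro q hq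
    obtain ⟨m, rfl⟩ := (hs q).2 hq
    exact DFunLike.congr_fun hσ m
  have e2 : σ'.1 * (h.1)⁻¹ * (σ'.1)⁻¹ = (α * k) * (h.1)⁻¹ * (α * k)⁻¹ := by
    apply conj_eq_of_agree
    intro q hq
    have hq' : h.1 q ≠ q := by
      intro e
      apply hq
      rw [Equiv.Perm.inv_eq_iff_eq]
      exact e.symm
    obtain ⟨m, rfl⟩ := (hs q).2 hq'
    exact DFunLike.congr_fun hσ' m
  change σ.1 * h.1 * (σ.1)⁻¹ * (σ'.1 * (h.1)⁻¹ * (σ'.1)⁻¹) = τ
  rw [e1, e2, ← hfin]
  group

end Pool.Agent.RCG
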