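import Pool.Agent.W_MP_6acff7_h70.Tri

/-!
# Increasing the number of fixed points by disjoint 3-cycles

PROOF of `tri_step`.  `S = supp σ`, `s = |S|`.  Choose `i` points `a_k ∈ S` such that `a_k`, `σ a_k` are `2i` distinct points
(`I ⊆ S`, `I ∩ σ(I) = ∅`, `|I| = i ≤ s/3`, by the maximality argument of `tri_conj`), and `i` more distinct points `c_k ∈ S`
outside these (`s - 2i ≥ i`).  For `i ≥ 2` we have `i ≤ s/9`, so `s ≥ 9i`; for `i = 1` we need only `s ≥ 3`: `s ≥ 2` as `σ ≠ 1`
and `s = 2` would make `σ` a transposition, which is odd.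
`t (k,0) = σ a_k`, `t (k,1) = a_k`, `t (k,2) = c_k`, `τ` the permutation with `IsTri t τ` (`exists_isTri`).
`τ σ a_k = a_k`, and `τ σ p = p` for `p ∉ S` (`σ p = p` and `τ p = p` as all points of the triples are in `S`).  So
`supp (τ σ) ⊆ S \ {a_k}`.

PROOF of `decomp`.  Put `s_0 = |supp π|`, `π_0 = π`; while `π_m ≠ 1` apply `tri_step` with
`i = min (j/3) (max 1 (s_m/9)) ≥ 1`: `π_{m+1} = τ_m π_m`, even (`isTri_sign`), `s_{m+1} ≤ s_m - i`.  As `j/3 ≥ j/5`
(integer division, `j ≥ 3`) `≥ s_m j/(5n)`, `max 1 (s_m/9) ≥ s_m/17 ≥ s_m j/(6n)` (`4j ≤ n`), we get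
`s_{m+1} ≤ s_m (1 - j/(6n))`, so `s_m ≤ n exp(-m j/(6n))`; hence after `K` steps the support is empty, i.e.
`π = τ_0⁻¹ τ_1⁻¹ ⋯ τ_{K'-1}⁻¹` with `K' ≤ K`.  Each `τ_m⁻¹` is of the form `IsTri` (`isTri_inv`), so by `tri_conj` it is
`σ h σ⁻¹ (σ' h⁻¹ σ'⁻¹)` for all `σ, σ'` with `σ ∘ s = c_m`, `σ' ∘ s = c'_m`.  The remaining `K - K'` factors: take
`c = c' = s` (then `σ h σ⁻¹ = h = σ' h σ'⁻¹` and the factor is `1`), or `tri_conj` with `i = 0`.
It is convenient to prove by induction on `K`: if `|supp π| < exp (K j/(6n))` then `π` has such a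
decomposition with `K` factors.
-/

open Finset

namespace Pool.Agent.RCG

theorem tri_step {n i : ℕ} (σ : Equiv.Perm (Fin n)) (hσ : σ ∈ alternatingGroup (Fin n))
    (hσ1 : σ ≠ 1) (hi : 1 ≤ i) (hi9 : i ≤ max 1 (σ.support.card / 9)) :
    ∃ (t : Fin i × ZMod 3 ↪ Fin n) (τ : Equiv.Perm (Fin n)), IsTri t τ ∧
      (τ * σ).support.card + i ≤ σ.support.card := by
  classical
  have hs3 : 3 ≤ σ.support.card := by
    have h2 : 2 ≤ σ.support.card := Equiv.Perm.two_le_card_support_of_ne_one hσ1
    rcases Nat.lt_or_ge 2 σ.support.card with h | h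
    · exact h
    · exfalso
      have h22 : σ.support.card = 2 := le_antisymm h h2
      rw [Equiv.Perm.card_support_eq_two] at h22
      have := h22.sign_eq
      rw [Equiv.Perm.mem_alternatingGroup.1 hσ] at this
      exact absurd this (by decide)
  have h3i : 3 * i ≤ σ.support.card := by omega
  obtain ⟨I, hIs, hIc, hId⟩ := tri_pick σ i h3i
  -- the points `c`
  have hσI : I.image σ ⊆ σ.support := by
    intro x hx
    obtain ⟨y, hy, rfl⟩ := Finset.mem_image.1 hx
    rw [Equiv.Perm.mem_support]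
    intro e
    exact Equiv.Perm.mem_support.1 (hIs hy) (σ.injective e)
  have hcard : i ≤ (σ.support \ (I ∪ I.image σ)).card := by
    have h1 := Finset.card_union_le I (I.image σ)
    have h2 : (I.image σ).card ≤ I.card := Finset.card_image_le
    have h3 := Finset.card_sdiff_add_card_eq_card (Finset.union_subset hIs hσI)
    omega
  obtain ⟨C, hCs, hCc⟩ := Finset.exists_subset_card_eq hcard
  let a : Fin i → Fin n := fun m => I.orderEmbOfFin hIc m
  let c : Fin i → Fin n := fun m => C.orderEmbOfFin hCc m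
  have ha_mem : ∀ m, a m ∈ I := fun m => I.orderEmbOfFin_mem hIc m
  have hc_mem : ∀ m, c m ∈ C := fun m => C.orderEmbOfFin_mem hCc m
  have ha_inj : Function.Injective a := (I.orderEmbOfFin hIc).injective
  have hc_inj : Function.Injective c := (C.orderEmbOfFin hCc).injective
  have ha_surj : ∀ x ∈ I, ∃ m, a m = x := by
    intro x hx
    have : x ∈ Set.range (I.orderEmbOfFin hIc) := by
      rw [Finset.range_orderEmbOfFin]; exact hx
    exact this
  have hsa : ∀ m m', σ (a m) ≠ a m' := by
    intro m m' e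
    apply hId (a m) (ha_mem m)
    rw [e]; exact ha_mem m'
  have hac : ∀ m m', a m ≠ c m' := by
    intro m m' e
    have := hCs (hc_mem m')
    rw [Finset.mem_sdiff] at this
    exact this.2 (Finset.mem_union_left _ (by rw [← e]; exact ha_mem m))
  have hsac : ∀ m m', σ (a m) ≠ c m' := by
    intro m m' e
    have := hCs (hc_mem m')
    rw [Finset.mem_sdiff] at this
    exact this.2 (Finset.mem_union_right _ (by
      rw [← e]; exact Finset.mem_image_of_mem _ (ha_mem m)))
  let f : Fin i × ZMod 3 → Fin n := fun x =>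
    if x.2 = 0 then σ (a x.1) else if x.2 = 1 then a x.1 else c x.1
  have hf0 : ∀ m, f (m, 0) = σ (a m) := fun m => by simp [f]
  have hf1 : ∀ m, f (m, 1) = a m := fun m => by
    have : (1 : ZMod 3) ≠ 0 := by decide
    simp [f]
  have hf2 : ∀ m, f (m, 2) = c m := fun m => by
    have h1 : (2 : ZMod 3) ≠ 0 := by decide
    have h2 : (2 : ZMod 3) ≠ 1 := by decide
    simp [f, h1, h2]
  have hz : ∀ z : ZMod 3, z = 0 ∨ z = 1 ∨ z = 2 := by decide
  have hf_inj : Function.Injective f := by
    rintro ⟨x, b⟩ ⟨y, d⟩ hx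
    rcases hz b with rfl | rfl | rfl <;> rcases hz d with rfl | rfl | rfl <;>
      simp only [hf0, hf1, hf2] at hx
    · rw [ha_inj (σ.injective hx)]
    · exact absurd hx (hsa _ _)
    · exact absurd hx (hsac _ _)
    · exact absurd hx.symm (hsa _ _)
    · rw [ha_inj hx]
    · exact absurd hx (hac _ _)
    · exact absurd hx.symm (hsac _ _)
    · exact absurd hx.symm (hac _ _)
    · rw [hc_inj hx]
  let t : Fin i × ZMod 3 ↪ Fin n := ⟨f, hf_inj⟩
  have ht_supp : ∀ x, t x ∈ σ.support := by
    rintro ⟨m, z⟩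
    change f (m, z) ∈ σ.support
    rcases hz z with rfl | rfl | rfl
    · rw [hf0]; exact hσI (Finset.mem_image_of_mem _ (ha_mem m))
    · rw [hf1]; exact hIs (ha_mem m)
    · rw [hf2]; exact (Finset.mem_sdiff.1 (hCs (hc_mem m))).1
  obtain ⟨τ, hτ⟩ := exists_isTri t
  refine ⟨t, τ, hτ, ?_⟩
  have hsub : (τ * σ).support ⊆ σ.support \ I := by
    intro p hp
    rw [Equiv.Perm.mem_support, Equiv.Perm.mul_apply] at hp
    rw [Finset.mem_sdiff]
    constructor
    · by_contra hps
      apply hp
      rw [Equiv.Perm.notMem_support.1 hps]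
      apply hτ.2
      intro x hx
      exact hps (hx ▸ ht_supp x)
    · intro hpI
      obtain ⟨m, rfl⟩ := ha_surj p hpI
      apply hp
      have h1 := hτ.1 m 0
      change τ (f (m, 0)) = f (m, 0 + 1) at h1
      rw [hf0, zero_add, hf1] at h1
      exact h1
  have h4 := Finset.card_le_card hsub
  have h5 := Finset.card_sdiff_add_card_eq_card hIs
  omega

/-- `π` is the product of the pairs `h[c m] h⁻¹[c' m]`, where `h[c] = σ h σ⁻¹` for any `σ` with
`σ ∘ s = c`. -/
def ConjProd {n j K : ℕ} (h : A n) (s : Fin j ↪ Fin n) (c c' : Fin K → (Fin j ↪ Fin n))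
    (π : A n) : Prop :=
  ∀ σ σ' : Fin K → A n, (∀ m, actT (σ m) s = c m) → (∀ m, actT (σ' m) s = c' m) →
    (List.ofFn fun m => σ m * h * (σ m)⁻¹ * (σ' m * h⁻¹ * (σ' m)⁻¹)).prod = π

/-- One more factor. -/
theorem conjProd_cons {n j K i : ℕ} (h : A n) (s : Fin j ↪ Fin n)
    (hs : ∀ p, (∃ k, s k = p) ↔ h.1 p ≠ p) (hij : 3 * i ≤ j) (hjn : 2 * j ≤ n)
    (t : Fin i × ZMod 3 ↪ Fin n) (τ : A n) (hτ : IsTri t τ.1)
    {c c' : Fin K → (Fin j ↪ Fin n)} {π : A n} (hc : ConjProd h s c c' π) :
    ∃ d d' : Fin (K + 1) → (Fin j ↪ Fin n), ConjProd h s d d' (τ * π) := by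
  obtain ⟨c0, c0', h0⟩ := tri_conj h s hs hij hjn t τ.1 hτ
  refine ⟨Fin.cons c0 c, Fin.cons c0' c', fun σ σ' hσ hσ' => ?_⟩
  rw [List.ofFn_succ, List.prod_cons]
  congr 1
  · apply Subtype.ext
    exact h0 (σ 0) (σ' 0) (by simpa using hσ 0) (by simpa using hσ' 0)
  · exact hc (fun m => σ m.succ) (fun m => σ' m.succ) (fun m => by simpa using hσ m.succ)
      (fun m => by simpa using hσ' m.succ)

theorem decomp_aux {n j : ℕ} (h : A n) (s : Fin j ↪ Fin n)
    (hs : ∀ p, (∃ k, s k = p) ↔ h.1 p ≠ p) (hj : 3 ≤ j) (hjn : 4 * j ≤ n) (K : ℕ) :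
    ∀ π : A n, (π.1.support.card : ℝ) < Real.exp (K * (j / (6 * n))) →
      ∃ c c' : Fin K → (Fin j ↪ Fin n), ConjProd h s c c' π := by
  have hjpos : (0 : ℝ) < j := by
    have : 0 < j := by omega
    exact_mod_cast this
  have hnpos : (0 : ℝ) < n := by
    have : 0 < n := by omega
    exact_mod_cast this
  induction K with
  | zero =>
    intro π hπ
    have h0 : π.1.support.card = 0 := by
      have h1 : (π.1.support.card : ℝ) < 1 := by simpa using hπ
      have h2 : π.1.support.card < 1 := by exact_mod_cast h1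
      omega
    have h1 : π = 1 := by
      apply Subtype.ext
      rw [Finset.card_eq_zero, Equiv.Perm.support_eq_empty_iff] at h0
      exact h0
    refine ⟨fun m => s, fun m => s, fun σ σ' _ _ => ?_⟩
    rw [h1]
    simp
  | succ K ih =>
    intro π hπ
    by_cases hπ1 : π = 1
    · obtain ⟨c, c', hc⟩ := ih 1 (by
        simp only [OneMemClass.coe_one, Equiv.Perm.support_one, Finset.card_empty,
          Nat.cast_zero]
        exact Real.exp_pos _)
      have ht : IsTri (i := 0) (⟨fun x => x.1.elim0, fun x => x.1.elim0⟩ :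
          Fin 0 × ZMod 3 ↪ Fin n) (1 : A n).1 :=
        ⟨fun k => k.elim0, fun p _ => rfl⟩
      have := conjProd_cons h s hs (by omega) (by omega) _ (1 : A n) ht hc
      rw [one_mul] at this
      rw [hπ1]
      exact this
    · have hπ1' : π.1 ≠ 1 := fun e => hπ1 (Subtype.ext e)
      set S := π.1.support.card with hS
      have hSn : S ≤ n := by
        have := Finset.card_le_univ π.1.support
        rwa [Fintype.card_fin] at this
      have hi1 : 1 ≤ min (j / 3) (max 1 (S / 9)) := by omega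
      have hi2 : min (j / 3) (max 1 (S / 9)) ≤ max 1 (π.1.support.card / 9) := by omega
      obtain ⟨t, τ, hτ, hcard⟩ := tri_step π.1 π.2 hπ1' hi1 hi2
      set i := min (j / 3) (max 1 (S / 9)) with hi
      obtain ⟨t', ht'⟩ := isTri_inv hτ
      have hτA : τ ∈ alternatingGroup (Fin n) := isTri_sign hτ
      let T : A n := ⟨τ, hτA⟩
      have hTi : (S : ℝ) * (j / (6 * n)) ≤ i := by
        have h1 : (S : ℝ) * j ≤ 6 * n * i := by
          have : S * j ≤ 6 * n * i := by
            have h5 : j ≤ 5 * (j / 3) := by omega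
            have h17 : S ≤ 17 * max 1 (S / 9) := by omega
            rcases min_choice (j / 3) (max 1 (S / 9)) with e | e
            · rw [hi, e]
              calc S * j ≤ n * (5 * (j / 3)) := Nat.mul_le_mul hSn h5
                _ ≤ 6 * n * (j / 3) := by nlinarith [Nat.zero_le (n * (j / 3))]
            · rw [hi, e]
              calc S * j ≤ (17 * max 1 (S / 9)) * j := Nat.mul_le_mul_right _ h17
                _ ≤ 6 * n * max 1 (S / 9) := by
                  have : 17 * j ≤ 6 * n := by omega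
                  nlinarith [Nat.zero_le (max 1 (S / 9))]
          exact_mod_cast this
        rw [mul_div_assoc', div_le_iff₀ (by positivity)]
        linarith
      have hlt : ((T * π).1.support.card : ℝ) < Real.exp (K * (j / (6 * n))) := by
        have h1 : ((T * π).1.support.card : ℝ) + i ≤ S := by exact_mod_cast hcard
        have h2 : ((T * π).1.support.card : ℝ) ≤ S * (1 - j / (6 * n)) := by
          have : (S : ℝ) * (1 - j / (6 * n)) = S - S * (j / (6 * n)) := by ring
          rw [this]; linarith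
        have h3 : (1 : ℝ) - j / (6 * n) ≤ Real.exp (-(j / (6 * n))) := by
          have := Real.add_one_le_exp (-((j : ℝ) / (6 * n)))
          linarith
        calc ((T * π).1.support.card : ℝ) ≤ S * (1 - j / (6 * n)) := h2
          _ ≤ S * Real.exp (-(j / (6 * n))) :=
            mul_le_mul_of_nonneg_left h3 (Nat.cast_nonneg _)
          _ < Real.exp ((K + 1 : ℕ) * (j / (6 * n))) * Real.exp (-(j / (6 * n))) :=
            mul_lt_mul_of_pos_right hπ (Real.exp_pos _)
          _ = Real.exp (K * (j / (6 * n))) := by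
            rw [← Real.exp_add]
            congr 1
            push_cast
            ring
      obtain ⟨c, c', hc⟩ := ih (T * π) hlt
      have := conjProd_cons h s hs (i := i) (by omega) (by omega) t' T⁻¹ ht' hc
      rw [inv_mul_cancel_left] at this
      exact this

theorem decomp {n j K : ℕ} (h : A n) (s : Fin j ↪ Fin n)
    (hs : ∀ p, (∃ k, s k = p) ↔ h.1 p ≠ p) (hj : 3 ≤ j) (hjn : 4 * j ≤ n)
    (hK : 6 * ((n : ℝ) / j) * Real.log n + 1 ≤ K) (π : A n) :
    ∃ c c' : Fin K → (Fin j ↪ Fin n), ConjProd h s c c' π := by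
  have hjpos : (0 : ℝ) < j := by
    have : 0 < j := by omega
    exact_mod_cast this
  have hnpos : (0 : ℝ) < n := by
    have : 0 < n := by omega
    exact_mod_cast this
  apply decomp_aux h s hs hj hjn K π
  have h1 : (π.1.support.card : ℝ) ≤ n := by
    have := Finset.card_le_univ π.1.support
    rw [Fintype.card_fin] at this
    exact_mod_cast this
  have h2 : Real.log n < K * (j / (6 * n)) := by
    have h3 : (6 * ((n : ℝ) / j) * Real.log n + 1) * (j / (6 * n)) ≤ K * (j / (6 * n)) :=
      mul_le_mul_of_nonneg_right hK (by positivity)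
    have h4 : (6 * ((n : ℝ) / j) * Real.log n + 1) * (j / (6 * n)) =
        Real.log n + j / (6 * n) := by
      field_simp
    have h5 : (0 : ℝ) < j / (6 * n) := by positivity
    linarith
  calc (π.1.support.card : ℝ) ≤ n := h1
    _ = Real.exp (Real.log n) := (Real.exp_log hnpos).symm
    _ < Real.exp (K * (j / (6 * n))) := Real.exp_lt_exp.2 h2

end Pool.Agent.RCG
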